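import Pool.Agent.Work.MP_8c604c_gt.T.Sph
import Pool.Agent.Work.MP_8c604c_gt.T.Gys
import Pool.Agent.Work.MP_8c604c_gt.T.Orient
import Pool.Agent.Work.MP_8c604c_gt.T.VB
import Pool.Agent.Work.MP_8c604c_gt.T.SL
import Pool.Agent.Work.MP_8c604c_gt.T.Deg
import Pool.Agent.Work.MP_8c604c_gt.T.ZTh

-- merged part: Pool.Agent.Work.MP_8c604c_gt.T.CPn
section
-- merged part: Pool.Agent.Work.MP_8c604c_gt.T.CPa
section
/-!
Complex projective space.
Hints. isCompact_CP: image of the unit sphere under lin. xC_pow: eu_pow_eq_zero with the sections p *v Pi.single i 1. xC_basis: CB.basis_pow with r = 1,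
k = Prod.snd, inverse v -> (lin v, v), pull_bij_of_inv.
-/

noncomputable section

set_option linter.unusedSectionVars false
set_option linter.unusedVariables false

namespace Pool.Agent.Work.MP_8c604c_gt.T

open Set Topology Matrix Pool.Agent.Work.MP_849ab0_ag.G

variable {X Y : Type} [TopologicalSpace X] [TopologicalSpace Y]
variable {J J' ι ι' : Type} [Fintype J] [Fintype J'] [Fintype ι] [Fintype ι']
variable {U Z : Set X} {C : Set Y} {r : ℕ} {P R : X → Matrix J J ℂ} {Q : X → Matrix J' J' ℂ}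

open ComplexOrder in
theorem CPa_ne {v : J → ℂ} (hv : v ≠ 0) : star v ⬝ᵥ v ≠ 0 :=
  fun h => hv (dotProduct_star_self_eq_zero.1 h)

theorem CPa_mv (v w : J → ℂ) : lin v *ᵥ w = ((star v ⬝ᵥ v)⁻¹ * (star v ⬝ᵥ w)) • v := by
  rw [lin, smul_mulVec, vecMulVec_mulVec, op_smul_eq_smul, smul_smul]

theorem CPa_col [DecidableEq J] {p : Matrix J J ℂ} (hp : p ∈ CP J) :
    ∃ i, p *ᵥ Pi.single i 1 ≠ 0 := by
  by_contra! h
  have e := hp.2.2
  rw [ext_of_mulVec_single (N := 0) fun i => (h i).trans (zero_mulVec _).symm, rank_zero] at e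
  exact zero_ne_one e

theorem lin_mulVec {v : J → ℂ} (hv : v ≠ 0) : lin v *ᵥ v = v := by
  rw [CPa_mv, inv_mul_cancel₀ (CPa_ne hv), one_smul]

theorem lin_mulVec' (v w : J → ℂ) : lin v *ᵥ w = ((star v ⬝ᵥ v)⁻¹ * (star v ⬝ᵥ w)) • v := by
  exact CPa_mv v w

theorem lin_mem {v : J → ℂ} (hv : v ≠ 0) : lin v ∈ CP J := by
  classical
  refine ⟨ext_of_mulVec_single fun i => ?_, ?_, ?_⟩
  · rw [← mulVec_mulVec, CPa_mv v (Pi.single i 1), mulVec_smul, lin_mulVec hv]
  · rw [lin, conjTranspose_smul, conjTranspose_vecMulVec, star_star, star_inv₀, ← star_dotProduct]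
  · refine (congrArg (fun S : Submodule ℂ (J → ℂ) => Module.finrank ℂ S) (le_antisymm ?_ ?_)).trans
      (finrank_span_singleton hv)
    · rintro _ ⟨w, rfl⟩
      exact Submodule.mem_span_singleton.2 ⟨_, (CPa_mv v w).symm⟩
    · exact (Submodule.span_singleton_le_iff_mem _ _).2 ⟨v, lin_mulVec hv⟩

theorem lin_smul {c : ℂ} (hc : c ≠ 0) (v : J → ℂ) : lin (c • v) = lin v := by
  have h : star c ≠ 0 := star_ne_zero.2 hc
  rw [lin, lin, star_smul, smul_dotProduct, dotProduct_smul, smul_vecMulVec, vecMulVec_smul,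
    smul_smul, smul_smul, smul_eq_mul, smul_eq_mul]
  congr 1
  field_simp

theorem continuousOn_lin : ContinuousOn (lin : (J → ℂ) → Matrix J J ℂ) {0}ᶜ := by
  exact ((continuous_star.dotProduct continuous_id).continuousOn.inv₀ fun v hv => CPa_ne hv).smul
    (continuous_id.matrix_vecMulVec continuous_star).continuousOn

theorem CP.eq_lin {p : Matrix J J ℂ} (hp : p ∈ CP J) {v : J → ℂ} (hv : v ≠ 0) (e : p *ᵥ v = v) :
    p = lin v := by
  classical
  refine ext_of_mulVec_single fun i => ?_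
  obtain ⟨c, hc⟩ := (finrank_eq_one_iff_of_nonzero' (V := LinearMap.range p.mulVecLin) ⟨v, v, e⟩
    fun h => hv (congrArg Subtype.val h)).1 hp.2.2 ⟨_, Pi.single i 1, rfl⟩
  have h1 : c • v = p *ᵥ Pi.single i 1 := congrArg Subtype.val hc
  have h2 := congrArg (star v ⬝ᵥ ·) h1
  rw [dotProduct_smul, dotProduct_mulVec, ← hp.2.1, ← star_mulVec, e, smul_eq_mul] at h2
  rw [CPa_mv, ← h2, ← h1, mul_comm c, inv_mul_cancel_left₀ (CPa_ne hv)]

theorem CP.exists_lin {p : Matrix J J ℂ} (hp : p ∈ CP J) : ∃ v, v ≠ 0 ∧ p = lin v := by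
  classical
  obtain ⟨i, hi⟩ := CPa_col hp
  exact ⟨_, hi, CP.eq_lin hp hi (by rw [mulVec_mulVec, hp.1])⟩

theorem isCompact_CP : IsCompact (CP J) := by
  have h0 : Metric.sphere (0 : J → ℂ) 1 ⊆ {0}ᶜ := fun z hz => ne_zero_of_mem_unit_sphere ⟨z, hz⟩
  convert (isCompact_sphere (0 : J → ℂ) 1).image_of_continuousOn (continuousOn_lin.mono h0)
  refine Subset.antisymm (fun p hp => ?_) (image_subset_iff.2 fun v hv => lin_mem (h0 hv))
  obtain ⟨v, hv, rfl⟩ := CP.exists_lin hp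
  have := norm_ne_zero_iff.2 hv
  exact ⟨(‖v‖ : ℂ)⁻¹ • v, by simp [norm_smul, this],
    lin_smul (inv_ne_zero (Complex.ofReal_ne_zero.2 this)) v⟩

theorem lc_CP : IsLocallyClosed (CP J) := isCompact_CP.isClosed.isLocallyClosed

theorem cb_CP : CB (fun p => p) 1 (CP J) :=
  ⟨lc_CP, continuousOn_id, fun _ h => h.1, fun _ h => h.2.2⟩

/-- the Euler class of the tautological line bundle -/
def xC (J : Type) [Fintype J] : H (CP J) univ := eu (fun p => p) 1 (CP J)

theorem isDeg_xC : IsDeg 2 (xC J) := cb_CP.isDeg_eu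

theorem xC_pow : xC J ^ Fintype.card J = 0 := by
  classical
  exact eu_pow_eq_zero cb_CP (σ := fun i p => p *ᵥ Pi.single i 1)
    (fun i => ⟨(continuous_id.matrix_mulVec continuous_const).continuousOn,
      fun p hp => by rw [mulVec_mulVec, hp.1], fun _ _ _ => trivial⟩) fun p hp => CPa_col hp

theorem xC_basis :
    Function.Bijective fun a : Fin (Fintype.card J) → ℂ => ∑ i, a i • xC J ^ (i : ℕ) := by
  have ok : Ok Prod.snd (sp (fun p => p) (CP J)) univ {0}ᶜ univ :=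
    ok_top cb_CP.lc_sp continuousOn_snd fun z hz => (mem_sp.1 hz).2.2
  refine cb_CP.basis_pow one_pos (one_mul _).symm ok (pull_bij_of_inv (s := fun v => (lin v, v)) ok
    (ok_top isOpen_compl_singleton.isLocallyClosed (continuousOn_lin.prodMk continuousOn_id)
      fun v hv => mem_sp.2 ⟨lin_mem hv, lin_mulVec hv, hv⟩) (fun z hz => ?_) fun _ _ => rfl) xC_pow
  obtain ⟨h1, h2, h3⟩ := mem_sp.1 hz
  exact Prod.ext (CP.eq_lin h1 h3 h2).symm rfl

/-- the structure map squares to `-1` and is antilinear -/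
theorem jq_jq (v : J × Fin 2 → ℂ) : jq (jq v) = -v := by
  funext ⟨i, k⟩
  fin_cases k <;> simp [jq]

theorem jq_add (v w : J × Fin 2 → ℂ) : jq (v + w) = jq v + jq w := by
  funext ⟨i, k⟩
  fin_cases k <;> simp [jq, add_comm]

theorem jq_smul (c : ℂ) (v : J × Fin 2 → ℂ) : jq (c • v) = star c • jq v := by
  funext ⟨i, k⟩
  fin_cases k <;> simp [jq]

end Pool.Agent.Work.MP_8c604c_gt.T
end
end

-- merged part: Pool.Agent.Work.MP_8c604c_gt.T.Kun
section
/-!
Products with compact spaces.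
Hints. lh_prod: lh_stalk for Prod.fst with c i := pull snd (U x C) univ (c i); the closedness condition is the tube lemma
(generalized_tube_lemma); the fibre {y} x C is homeomorphic to C (pull_bij_of_inv).
-/

noncomputable section

set_option linter.unusedSectionVars false
set_option linter.unusedVariables false

namespace Pool.Agent.Work.MP_8c604c_gt.T

open Set Topology Matrix Pool.Agent.Work.MP_849ab0_ag.G

variable {X Y : Type} [TopologicalSpace X] [TopologicalSpace Y]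
variable {J J' ι ι' : Type} [Fintype J] [Fintype J'] [Fintype ι] [Fintype ι']
variable {U Z : Set X} {C : Set Y} {r : ℕ} {P R : X → Matrix J J ℂ} {Q : X → Matrix J' J' ℂ}

theorem ok_fst (U Z : Set X) (C : Set Y) : Ok Prod.fst (U ×ˢ C) (Z ×ˢ univ) U Z :=
  .of_mem (.of_continuous continuous_fst _) (fun _ h => h.1) fun _ _ h => ⟨h, trivial⟩

theorem ok_fst' (U : Set X) (C : Set Y) : Ok Prod.fst (U ×ˢ C) univ U univ :=
  .of_mem (.of_continuous continuous_fst _) (fun _ h => h.1) fun _ _ _ => trivial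

theorem ok_snd' (U : Set X) (C : Set Y) : Ok Prod.snd (U ×ˢ C) univ C univ :=
  .of_mem (.of_continuous continuous_snd _) (fun _ h => h.2) fun _ _ _ => trivial

variable [RegularSpace X] [SecondCountableTopology X] [RegularSpace Y] [SecondCountableTopology Y]

theorem Kun_aux (hC : IsCompact C) {c : ι → H C univ} {k : ι → ℤ} (hk : ∀ i, IsDeg (k i) (c i))
    (hc : Function.Bijective fun a : ι → ℂ => ∑ i, a i • c i) (U Z : Set X) (Z₁ : Set (X × Y))
    (hZ : ∀ x ∈ U ×ˢ C, x ∈ Z₁ ↔ x.1 ∈ Z) :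
    Function.Bijective fun a : ι → H U Z => ∑ i, cup (U ×ˢ C) Z₁
      (pull Prod.fst (U ×ˢ C) Z₁ (a i)) (pull Prod.snd (U ×ˢ C) univ (c i)) := by
  refine lh_stalk (.of_continuous continuous_fst _) (fun _ h => h.1) hZ hZ
    (fun y hy O hO h => ?_) (fun i => (hk i).pull _ _ _) fun y hy => ?_
  · obtain ⟨u, v, hu, -, h1, h2, h3⟩ := generalized_tube_lemma (isCompact_singleton (x := y)) hC hO
      fun z hz => h ⟨⟨(mem_singleton_iff.1 hz.1).symm ▸ hy, hz.2⟩, hz.1⟩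
    exact ⟨u, hu.mem_nhds (h1 rfl), fun z hz => h3 ⟨hz.2, h2 hz.1.2⟩⟩
  · have o1 : Ok Prod.snd (U ×ˢ C ∩ Prod.fst ⁻¹' {y}) univ C univ :=
      .of_mem (.of_continuous continuous_snd _) (fun _ h => h.1.2) fun _ _ _ => trivial
    have o2 : Ok (fun w => (y, w)) C univ (U ×ˢ C ∩ Prod.fst ⁻¹' {y}) univ :=
      .of_mem (.of_continuous (Continuous.prodMk_right y) _) (fun _ h => ⟨⟨hy, h⟩, rfl⟩)
        fun _ _ _ => trivial
    have b := pull_bij_of_inv o1 o2 (fun z hz => Prod.ext (mem_singleton_iff.1 hz.2).symm rfl)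
      fun _ _ => rfl
    convert b.comp hc using 1
    funext a
    simp only [Function.comp_apply, map_sum, map_smul]
    refine Finset.sum_congr rfl fun i _ => ?_
    rw [pull_pull' (F := Prod.snd) (.id inter_subset_left fun _ _ k => k) (ok_snd' U C)
      fun _ _ => rfl]

/-- Kuenneth for a compact factor with a finite homogeneous basis -/
theorem lh_prod (hC : IsCompact C) {c : ι → H C univ} {k : ι → ℤ} (hk : ∀ i, IsDeg (k i) (c i))
    (hc : Function.Bijective fun a : ι → ℂ => ∑ i, a i • c i) (U Z : Set X) :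
    Function.Bijective fun a : ι → H U Z => ∑ i, cup (U ×ˢ C) (Z ×ˢ univ)
      (pull Prod.fst (U ×ˢ C) (Z ×ˢ univ) (a i)) (pull Prod.snd (U ×ˢ C) univ (c i)) := by
  exact Kun_aux hC hk hc U Z _ fun _ _ => ⟨fun h => h.1, fun h => ⟨h, trivial⟩⟩

theorem lh_prod' (hC : IsCompact C) {c : ι → H C univ} {k : ι → ℤ} (hk : ∀ i, IsDeg (k i) (c i))
    (hc : Function.Bijective fun a : ι → ℂ => ∑ i, a i • c i) (U : Set X) :
    Function.Bijective fun a : ι → H U univ => ∑ i,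
      pull Prod.fst (U ×ˢ C) univ (a i) * pull Prod.snd (U ×ˢ C) univ (c i) := by
  exact Kun_aux hC hk hc U univ univ fun _ _ => Iff.rfl

/-- products of bases -/
theorem basis_prod (hC : IsCompact C) {c : ι → H C univ} {k : ι → ℤ} (hk : ∀ i, IsDeg (k i) (c i))
    (hc : Function.Bijective fun a : ι → ℂ => ∑ i, a i • c i) {b : ι' → H U univ}
    (hb : Function.Bijective fun a : ι' → ℂ => ∑ i, a i • b i) :
    Function.Bijective fun a : ι' × ι → ℂ => ∑ i, a i •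
      (pull Prod.fst (U ×ˢ C) univ (b i.1) * pull Prod.snd (U ×ˢ C) univ (c i.2)) := by
  have b1 : Function.Bijective fun (a : ι' × ι → ℂ) (i : ι) (j : ι') => a (j, i) :=
    ⟨fun a a' h => funext fun p => congrFun (congrFun h p.2) p.1,
      fun a => ⟨fun p => a p.2 p.1, rfl⟩⟩
  have b2 := Function.Bijective.piMap fun _ : ι => hb
  convert (lh_prod' hC hk hc U).comp (b2.comp b1) using 1
  funext a
  simp only [Function.comp_apply, Pi.map_apply, map_sum, map_smul, Finset.sum_mul, smul_mul_assoc]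
  rw [Fintype.sum_prod_type, Finset.sum_comm]

end Pool.Agent.Work.MP_8c604c_gt.T
end
end

-- merged part: Pool.Agent.Work.MP_8c604c_gt.T.CPn
section
/-!
Projective bundles, line bundles, quaternionic line bundles.
Hints. lh_pb: lh_stalk; the fibre over y is CP (Fin r) through q -> T q T^* for an isometric frame T of the range of P y (T^* T = 1), eu_map, xC_basis;
closedness: pb is closed in U x CP J, CP J compact. exists_class: CB.exists_herm, eu_pull, eu_of_le. eu_kron_line: pull back from CP J x CP J'; there a class of degree 2 is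
a x + b x' (basis_prod and degrees); restrict to the slices CP J x {p'} and {p} x CP J' (Kronecker product with a constant line is isomorphic to the bundle, eu_iso;
a constant line has a nowhere zero section, eu_eq_zero); if x = 0 (card J <= 1) the coefficient is irrelevant. QL.eu_eq: eu_split with the second line J0 (L.map star) J0^-1,
jq v = J0 *v star v, eu_iso, eu_conj. exists_QL: L x (i,a) (j,b) = P x i j for a = b = 0, star (P x i j) for a = b = 1, 0 otherwise; it is P + conj P (eu_iso, eu_sum, eu_conj).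
-/

noncomputable section

set_option linter.unusedSectionVars false
set_option linter.unusedVariables false

namespace Pool.Agent.Work.MP_8c604c_gt.T

open Set Topology Matrix Pool.Agent.Work.MP_849ab0_ag.G

variable {X Y : Type} [TopologicalSpace X] [TopologicalSpace Y]
variable {J J' ι ι' : Type} [Fintype J] [Fintype J'] [Fintype ι] [Fintype ι']
variable {U Z : Set X} {C : Set Y} {r : ℕ} {P R : X → Matrix J J ℂ} {Q : X → Matrix J' J' ℂ}

/-- the projective bundle -/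
def pb (P : X → Matrix J J ℂ) (U : Set X) : Set (X × Matrix J J ℂ) :=
  {z | z.1 ∈ U ∧ z.2 ∈ CP J ∧ P z.1 * z.2 = z.2}

theorem ok_pb (P : X → Matrix J J ℂ) (U : Set X) : Ok Prod.fst (pb P U) univ U univ :=
  .of_mem (.of_continuous continuous_fst _) (fun _ h => h.1) fun _ _ _ => trivial

theorem cpn_closed (h : CB P r U) : ∃ u, IsClosed u ∧ pb P U = u ∩ U ×ˢ CP J := by
  have c : ContinuousOn (fun z : X × Matrix J J ℂ => P z.1 * z.2 - z.2) (U ×ˢ CP J) :=
    ((h.cont.comp continuousOn_fst fun _ k => k.1).mul continuousOn_snd).sub continuousOn_snd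
  obtain ⟨u, hu, e⟩ := continuousOn_iff_isClosed.1 c {0} isClosed_singleton
  refine ⟨u, hu, e ▸ Set.ext fun z => ?_⟩
  exact ⟨fun k => ⟨sub_eq_zero.2 k.2.2, k.1, k.2.1⟩, fun k => ⟨k.2.1, k.2.2, sub_eq_zero.1 k.1⟩⟩

theorem CB.lc_pb (h : CB P r U) : IsLocallyClosed (pb P U) := by
  obtain ⟨u, hu, e⟩ := cpn_closed h
  rw [e]
  exact hu.isLocallyClosed.inter ((h.lc.preimage continuous_fst).inter
    (lc_CP.preimage continuous_snd))

theorem CB.cb_pb (h : CB P r U) : CB Prod.snd 1 (pb P U) :=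
  ⟨h.lc_pb, continuousOn_snd, fun _ k => k.2.1.1, fun _ k => k.2.1.2.2⟩

variable [RegularSpace X] [SecondCountableTopology X] [RegularSpace Y] [SecondCountableTopology Y]

/-- an isometric frame of the range of an idempotent -/
theorem cpn_frame {p : Matrix J J ℂ} (hp : p * p = p) (hr : p.rank = r) :
    ∃ T : Matrix J (Fin r) ℂ, Tᴴ * T = 1 ∧ p * T = T ∧ T * Tᴴ * p = p := by
  let K : Submodule ℂ (EuclideanSpace ℂ J) :=
    (LinearMap.range p.mulVecLin).map (WithLp.linearEquiv 2 ℂ (J → ℂ)).symm.toLinearMap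
  have hK : Module.finrank ℂ K = r := (LinearEquiv.finrank_map_eq _ _).trans hr
  let b := (stdOrthonormalBasis ℂ K).reindex (finCongr hK)
  refine ⟨of fun i j => (b j : EuclideanSpace ℂ J) i, ?_, ?_, ?_⟩
  · ext j k
    have := orthonormal_iff_ite.1 b.orthonormal j k
    rw [Submodule.coe_inner, PiLp.inner_apply] at this
    rw [one_apply, ← this, mul_apply]
    simp [mul_comm]
  · ext i j
    obtain ⟨_, ⟨w, rfl⟩, e⟩ := (b j).2
    have e' : (fun i => (b j : EuclideanSpace ℂ J) i) = p *ᵥ w := by rw [← e]; rfl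
    have : p *ᵥ (fun i => (b j : EuclideanSpace ℂ J) i) = fun i => (b j : EuclideanSpace ℂ J) i := by
      rw [e', mulVec_mulVec, hp]
    exact congrFun this i
  · classical
    ext i k
    let v : K := ⟨WithLp.toLp 2 fun i => p i k, _, ⟨Pi.single k 1, rfl⟩, by
      ext i; simp⟩
    have := congrArg (fun w : K => (w : EuclideanSpace ℂ J) i) (b.sum_repr' v)
    simp only [Submodule.coe_sum, Submodule.coe_smul, Submodule.coe_inner, PiLp.inner_apply,
      WithLp.ofLp_sum, Finset.sum_apply, PiLp.smul_apply, smul_eq_mul, v] at this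
    rw [Matrix.mul_assoc, mul_apply, ← this]
    refine Finset.sum_congr rfl fun j _ => ?_
    rw [mul_comm, mul_apply]
    simp [mul_comm]

theorem cpn_conj {T : Matrix J J' ℂ} {q : Matrix J' J' ℂ} (hq : q ∈ CP J')
    (e : Tᴴ * T * q = q) : T * q * Tᴴ ∈ CP J ∧ Tᴴ * (T * q * Tᴴ) * T = q := by
  have e' : q * (Tᴴ * T) = q := by
    have := congrArg conjTranspose e
    rwa [conjTranspose_mul, conjTranspose_mul, conjTranspose_conjTranspose, hq.2.1] at this
  have k : Tᴴ * (T * q * Tᴴ) * T = q := by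
    calc _ = Tᴴ * T * q * (Tᴴ * T) := by simp only [Matrix.mul_assoc]
      _ = q := by rw [e, e']
  refine ⟨⟨?_, ?_, le_antisymm ?_ ?_⟩, k⟩
  · calc _ = T * (q * (Tᴴ * T * q)) * Tᴴ := by simp only [Matrix.mul_assoc]
      _ = _ := by rw [e, hq.1]
  · rw [conjTranspose_mul, conjTranspose_mul, conjTranspose_conjTranspose, hq.2.1, Matrix.mul_assoc]
  · rw [← hq.2.2]
    exact (rank_mul_le_left _ _).trans (rank_mul_le_right _ _)
  · rw [← hq.2.2]
    conv_lhs => rw [← k]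
    exact (rank_mul_le_left _ _).trans (rank_mul_le_right _ _)

theorem cpn_basis (hJ : Fintype.card J = r) :
    Function.Bijective fun a : Fin r → ℂ => ∑ i, a i • xC J ^ (i : ℕ) := by
  subst hJ; exact xC_basis

theorem cpn_fib (h : CB P r U) {y : X} (hy : y ∈ U) : Function.Bijective fun a : Fin r → ℂ =>
    ∑ i, a i • pull id (pb P U ∩ Prod.fst ⁻¹' {y}) univ (eu Prod.snd 1 (pb P U) ^ (i : ℕ)) := by
  obtain ⟨T, h1, h2, h3⟩ := cpn_frame (h.idem y hy) (h.rank y hy)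
  have a1 : ∀ q ∈ CP (Fin r), Tᴴ * T * q = q := fun q _ => by rw [h1, Matrix.one_mul]
  have a2 : ∀ z ∈ pb P U ∩ Prod.fst ⁻¹' {y}, Tᴴᴴ * Tᴴ * z.2 = z.2 := fun z k => by
    have e : P y * z.2 = z.2 := (show z.1 = y from k.2) ▸ k.1.2.2
    rw [conjTranspose_conjTranspose, ← e, ← Matrix.mul_assoc, h3]
  have m1 : MapsTo (fun q => (y, T * q * Tᴴ)) (CP (Fin r)) (pb P U) := fun q hq =>
    ⟨hy, (cpn_conj hq (a1 q hq)).1, by
      show P y * (T * q * Tᴴ) = T * q * Tᴴ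
      rw [← Matrix.mul_assoc, ← Matrix.mul_assoc, h2]⟩
  have c1 : Continuous fun q : Matrix (Fin r) (Fin r) ℂ => (y, T * q * Tᴴ) := by fun_prop
  have o1 : Ok (fun q => (y, T * q * Tᴴ)) (CP (Fin r)) univ (pb P U ∩ Prod.fst ⁻¹' {y}) univ :=
    .of_mem (.of_continuous c1 _) (fun q hq => ⟨m1 hq, rfl⟩) fun _ _ _ => trivial
  have o2 : Ok (fun z : X × Matrix J J ℂ => Tᴴ * z.2 * Tᴴᴴ) (pb P U ∩ Prod.fst ⁻¹' {y}) univ
      (CP (Fin r)) univ :=
    .of_mem (.of_continuous (by fun_prop) _) (fun z k => (cpn_conj k.1.2.1 (a2 z k)).1)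
      fun _ _ _ => trivial
  have o3 : Ok id (pb P U ∩ Prod.fst ⁻¹' {y}) univ (pb P U) univ :=
    .id inter_subset_left fun _ _ _ => trivial
  have bij := pull_bij_of_inv o1 o2 (fun q hq => by
    simpa only [conjTranspose_conjTranspose] using (cpn_conj hq (a1 q hq)).2) fun z k =>
    Prod.ext (Eq.symm k.2) (by
      simpa only [conjTranspose_conjTranspose] using (cpn_conj k.1.2.1 (a2 z k)).2)
  have key : pull (fun q => (y, T * q * Tᴴ)) (CP (Fin r)) univ (eu Prod.snd 1 (pb P U)) =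
      xC (Fin r) := eu_map cb_CP h.cb_pb (A := fun _ => T) ⟨c1.continuousOn, m1, continuousOn_const,
    fun q _ v e => by
      show (T * q * Tᴴ) *ᵥ (T *ᵥ v) = T *ᵥ v
      rw [mulVec_mulVec, Matrix.mul_assoc, h1, Matrix.mul_one, ← mulVec_mulVec, e],
    fun q _ v _ e => by rw [← one_mulVec v, ← h1, ← mulVec_mulVec, e, mulVec_zero]⟩
  refine (Function.Bijective.of_comp_iff' bij _).1 ?_
  convert cpn_basis (Fintype.card_fin r) using 1
  funext a
  rw [Function.comp_apply, map_sum]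
  refine Finset.sum_congr rfl fun i _ => ?_
  rw [map_smul, pull_pull' o1 o3 (F := fun q => (y, T * q * Tᴴ)) (fun _ _ => rfl),
    pull_pow (ok_top lc_CP c1.continuousOn m1), key]

/-- Leray-Hirsch for the projective bundle -/
theorem CB.lh_pb (h : CB P r U) : Function.Bijective fun a : Fin r → H U univ => ∑ i,
    pull Prod.fst (pb P U) univ (a i) * eu Prod.snd 1 (pb P U) ^ (i : ℕ) := by
  refine lh_stalk (f := Prod.fst) (U := pb P U) (Z := univ) (Z₁ := univ) (Z₂ := univ)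
    (k := fun i : Fin r => ((i : ℕ) : ℤ) * (2 * (1 : ℕ))) (.of_continuous continuous_fst _)
    (fun _ k => k.1) (fun _ _ => Iff.rfl) (fun _ _ => Iff.rfl) ?_
    (fun i => IsDeg.powH h.cb_pb.isDeg_eu i) fun y hy => cpn_fib h hy
  intro y hy O hO hs
  obtain ⟨u, hu, e⟩ := cpn_closed h
  obtain ⟨W, V, h1, -, h2, h3, h4⟩ := generalized_tube_lemma (isCompact_singleton (x := y))
    (isCompact_CP (J := J)) (hO.union hu.isOpen_compl) fun z k => by
      by_cases hz : z ∈ u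
      · exact Or.inl (hs ⟨e ▸ ⟨hz, (show z.1 = y from k.1) ▸ hy, k.2⟩, k.1⟩)
      · exact Or.inr hz
  exact ⟨W, h1.mem_nhds (h2 rfl), fun z k => (h4 ⟨k.2, h3 k.1.2.1⟩).resolve_right
    fun n => n (e.subset k.1).1⟩

theorem CB.pb_inj (h : CB P r U) (hr : 0 < r) :
    Function.Injective (pull Prod.fst (pb P U) univ : H U univ → _) := by
  intro a b e
  have key : ∀ a : H U univ, ∑ i : Fin r, pull Prod.fst (pb P U) univ
      ((Pi.single (⟨0, hr⟩ : Fin r) a : Fin r → H U univ) i) * eu Prod.snd 1 (pb P U) ^ (i : ℕ) =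
      pull Prod.fst (pb P U) univ a := fun a => by
    rw [Finset.sum_eq_single ⟨0, hr⟩ (fun i _ hi => by rw [Pi.single_eq_of_ne hi, map_zero, zero_mul])
      (by simp), Pi.single_eq_same, pow_zero, mul_one]
  have := h.lh_pb.1 (a₁ := Pi.single ⟨0, hr⟩ a) (a₂ := Pi.single ⟨0, hr⟩ b)
    ((key a).trans (e.trans (key b).symm))
  simpa using congrFun this ⟨0, hr⟩

/-- line bundles are pulled back from projective space -/
theorem CB.exists_class (h : CB P 1 U) : ∃ f : X → Matrix J J ℂ, ContinuousOn f U ∧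
    MapsTo f U (CP J) ∧ (∀ x ∈ U, f x * P x = P x ∧ P x * f x = f x) ∧
      pull f U univ (xC J) = eu P 1 U := by
  obtain ⟨R, hR, e⟩ := h.exists_herm
  have m : MapsTo R U (CP J) := fun x hx => ⟨hR.idem x hx, (e x hx).1, hR.rank x hx⟩
  exact ⟨R, hR.cont, m, fun x hx => (e x hx).2,
    (eu_pull cb_CP h.lc hR.cont m).trans (eu_of_le h hR fun x hx => (e x hx).2.1)⟩

theorem cpn_kron (p : Matrix J J ℂ) (q : Matrix J' J' ℂ) (v : J → ℂ) (w : J' → ℂ) :
    kroneckerMap (· * ·) p q *ᵥ (fun i => v i.1 * w i.2) = fun i => (p *ᵥ v) i.1 * (q *ᵥ w) i.2 := by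
  funext i
  simp only [mulVec, dotProduct, kroneckerMap_apply, Fintype.sum_prod_type, Finset.sum_mul_sum,
    mul_mul_mul_comm]

theorem cpn_vec {q : Matrix J J ℂ} (hq : q ∈ CP J) : ∃ w j, w j ≠ 0 ∧ q *ᵥ w = w := by
  obtain ⟨w, hw, rfl⟩ := CP.exists_lin hq
  obtain ⟨j, hj⟩ := Function.ne_iff.1 hw
  exact ⟨w, j, hj, lin_mulVec hw⟩

theorem cpn_const (hU : IsLocallyClosed U) {q : Matrix J J ℂ} (hq : q ∈ CP J) :
    CB (fun _ => q) 1 U := ⟨hU, continuousOn_const, fun _ _ => hq.1, fun _ _ => hq.2.2⟩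

theorem cpn_zero (hU : IsLocallyClosed U) {q : Matrix J J ℂ} (hq : q ∈ CP J) :
    eu (fun _ => q) 1 U = 0 := by
  obtain ⟨w, j, hj, e⟩ := cpn_vec hq
  exact eu_eq_zero (cpn_const hU hq) (s := fun _ => w)
    ⟨continuousOn_const, fun _ _ => e, fun _ _ k => hj (congrFun k j)⟩

theorem cpn_right (h : CB P 1 U) {q : Matrix J' J' ℂ} (hq : q ∈ CP J') :
    eu (fun x => kroneckerMap (· * ·) (P x) q) 1 U = eu P 1 U := by
  obtain ⟨w, j, hj, e⟩ := cpn_vec hq
  obtain ⟨A, b, -⟩ := exists_BM (P' := fun x => kroneckerMap (· * ·) (P x) q) h continuousOn_id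
    (mapsTo_id U) (Φ := fun _ v i => v i.1 * w i.2) (by fun_prop)
    (fun _ _ _ _ _ _ => funext fun i => add_mul _ _ _) (fun _ _ _ _ _ => funext fun i => mul_assoc _ _ _)
    (fun x _ v k => by rw [cpn_kron, e]; exact congrArg (fun u : J → ℂ => fun i : J × J' => u i.1 * w i.2) k)
    fun _ _ v _ k => funext fun i => (mul_eq_zero.1 (congrFun k (i, j))).resolve_right hj
  exact eu_iso h (h.kron (cpn_const h.lc hq)) b

theorem cpn_left (h : CB P 1 U) {q : Matrix J' J' ℂ} (hq : q ∈ CP J') :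
    eu (fun x => kroneckerMap (· * ·) q (P x)) 1 U = eu P 1 U := by
  obtain ⟨w, j, hj, e⟩ := cpn_vec hq
  obtain ⟨A, b, -⟩ := exists_BM (P' := fun x => kroneckerMap (· * ·) q (P x)) h continuousOn_id
    (mapsTo_id U) (Φ := fun _ v i => w i.1 * v i.2) (by fun_prop)
    (fun _ _ _ _ _ _ => funext fun i => mul_add _ _ _)
    (fun _ _ _ _ _ => funext fun i => mul_left_comm _ _ _)
    (fun x _ v k => by rw [cpn_kron, e]; exact congrArg (fun u : J → ℂ => fun i : J' × J => w i.1 * u i.2) k)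
    fun _ _ v _ k => funext fun i => (mul_eq_zero.1 (congrFun k (j, i))).resolve_left hj
  exact eu_iso h ((cpn_const h.lc hq).kron h) b

theorem cpn_cb : CB (fun z : Matrix J J ℂ × Matrix J' J' ℂ => kroneckerMap (· * ·) z.1 z.2) 1
    (CP J ×ˢ CP J') :=
  have lc : IsLocallyClosed (CP J ×ˢ CP J') :=
    (isCompact_CP.isClosed.prod isCompact_CP.isClosed).isLocallyClosed
  (cb_CP.comp lc continuousOn_fst fun _ k => k.1).kron (cb_CP.comp lc continuousOn_snd fun _ k => k.2)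

/-- classes of degree two on a product of projective spaces -/
theorem cpn_two {e : H (CP J ×ˢ CP J') univ} (he : IsDeg 2 e) : ∃ a b : ℂ,
    a • pull Prod.fst (CP J ×ˢ CP J') univ (xC J) + b • pull Prod.snd (CP J ×ˢ CP J') univ (xC J') =
      e := by
  obtain ⟨a, ha⟩ := (basis_prod (isCompact_CP (J := J')) (fun i => IsDeg.powH isDeg_xC _) xC_basis
    (xC_basis (J := J))).2 e
  rw [← Submodule.mem_span_pair, ← isDeg_iff.1 he, ← ha, map_sum]
  refine sum_mem fun i _ => ?_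
  rw [map_smul]
  refine Submodule.smul_mem _ _ ?_
  have d := IsDeg.mulH ((IsDeg.powH (isDeg_xC (J := J)) i.1).pull Prod.fst (CP J ×ˢ CP J') univ)
    ((IsDeg.powH (isDeg_xC (J := J')) i.2).pull Prod.snd (CP J ×ˢ CP J') univ)
  by_cases k : ((i.1 : ℕ) : ℤ) * 2 + ((i.2 : ℕ) : ℤ) * 2 = 2
  · rw [d.prj_eq (s := {2}) k]
    obtain ⟨k1, k2⟩ | ⟨k1, k2⟩ : ((i.1 : ℕ) = 1 ∧ (i.2 : ℕ) = 0) ∨ ((i.1 : ℕ) = 0 ∧ (i.2 : ℕ) = 1) := by
      omega
    · rw [k1, k2, pow_one, pow_zero, pull_oneH (ok_snd' _ _), mul_one]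
      exact Submodule.subset_span (Or.inl rfl)
    · rw [k1, k2, pow_one, pow_zero, pull_oneH (ok_fst' _ _), one_mul]
      exact Submodule.subset_span (Or.inr rfl)
  · rw [d.prj_eq_zero (s := {2}) k]
    exact zero_mem _

theorem cpn_univ : eu (fun z : Matrix J J ℂ × Matrix J' J' ℂ => kroneckerMap (· * ·) z.1 z.2) 1
    (CP J ×ˢ CP J') =
      pull Prod.fst (CP J ×ˢ CP J') univ (xC J) + pull Prod.snd (CP J ×ˢ CP J') univ (xC J') := by
  rcases (CP J ×ˢ CP J').eq_empty_or_nonempty with e | ⟨⟨p, q⟩, hp, hq⟩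
  · have := subsingleton_H (U := CP J ×ˢ CP J') (Z := univ) (by rw [e]; exact empty_disjoint _)
    exact Subsingleton.elim _ _
  obtain ⟨a, b, e⟩ := cpn_two (cpn_cb (J := J) (J' := J')).isDeg_eu
  have c1 : ContinuousOn (fun x : Matrix J J ℂ => (x, q)) (CP J) := by fun_prop
  have c2 : ContinuousOn (fun x : Matrix J' J' ℂ => (p, x)) (CP J') := by fun_prop
  have m1 : MapsTo (fun x => (x, q)) (CP J) (CP J ×ˢ CP J') := fun _ k => ⟨k, hq⟩
  have m2 : MapsTo (fun x => (p, x)) (CP J') (CP J ×ˢ CP J') := fun _ k => ⟨hp, k⟩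
  have o1 := ok_top lc_CP c1 m1
  have o2 := ok_top lc_CP c2 m2
  have e1 := congrArg (pull (fun x => (x, q)) (CP J) univ) e
  have e2 := congrArg (pull (fun x => (p, x)) (CP J') univ) e
  rw [map_add, map_smul, map_smul, pull_pull' o1 (ok_fst' _ _) (F := id) fun _ _ => rfl, pull_id,
    pull_pull' o1 (ok_snd' _ _) (F := fun _ => q) fun _ _ => rfl, eu_pull cpn_cb lc_CP c1 m1,
    cpn_right cb_CP hq, xC, xC, eu_pull cb_CP lc_CP continuousOn_const fun _ _ => hq,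
    cpn_zero lc_CP hq, smul_zero, add_zero] at e1
  rw [map_add, map_smul, map_smul, pull_pull' o2 (ok_snd' _ _) (F := id) fun _ _ => rfl, pull_id,
    pull_pull' o2 (ok_fst' _ _) (F := fun _ => p) fun _ _ => rfl, eu_pull cpn_cb lc_CP c2 m2,
    cpn_left cb_CP hp, xC, xC, eu_pull cb_CP lc_CP continuousOn_const fun _ _ => hp,
    cpn_zero lc_CP hp, smul_zero, zero_add] at e2
  rw [← e, ← map_smul, ← map_smul, xC, xC, e1, e2]

/-- additivity for line bundles -/
theorem eu_kron_line (hP : CB P 1 U) (hQ : CB Q 1 U) :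
    eu (fun x => kroneckerMap (· * ·) (P x) (Q x)) 1 U = eu P 1 U + eu Q 1 U := by
  obtain ⟨f, cf, mf, ef, kf⟩ := hP.exists_class
  obtain ⟨g, cg, mg, eg, kg⟩ := hQ.exists_class
  have m : MapsTo (fun x => (f x, g x)) U (CP J ×ˢ CP J') := fun x hx => ⟨mf hx, mg hx⟩
  have o := ok_top hP.lc (cf.prodMk cg) m
  have e := congrArg (pull (fun x => (f x, g x)) U univ) (cpn_univ (J := J) (J' := J'))
  rw [map_add, pull_pull' o (ok_fst' _ _) (F := f) fun _ _ => rfl,
    pull_pull' o (ok_snd' _ _) (F := g) fun _ _ => rfl, kf, kg,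
    eu_pull cpn_cb hP.lc (cf.prodMk cg) m] at e
  rw [← e]
  exact (eu_of_le (hP.kron hQ) (cpn_cb.comp hP.lc (cf.prodMk cg) m) fun x hx => by
    rw [← mul_kronecker_mul, (ef x hx).1, (eg x hx).1]).symm

theorem cpn_star (M : Matrix J J' ℂ) (v : J' → ℂ) : M.map star *ᵥ star v = star (M *ᵥ v) := by
  funext i
  simp [mulVec, dotProduct]

theorem cpn_jq : Continuous (jq : (J × Fin 2 → ℂ) → _) := by
  refine continuous_pi fun i => ?_
  unfold jq
  split_ifs <;> fun_prop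

theorem cpn_mv {A : X → Matrix J J' ℂ} {v : X → J' → ℂ} (hA : ContinuousOn A U)
    (hv : ContinuousOn v U) : ContinuousOn (fun x => A x *ᵥ v x) U :=
  (continuous_fst.matrix_mulVec continuous_snd).comp_continuousOn (hA.prodMk hv)

theorem cpn_line {p : Matrix J J ℂ} (hp : Module.finrank ℂ (LinearMap.range p.mulVecLin) = 1)
    {u w : J → ℂ} (hu : p *ᵥ u = u) (h0 : u ≠ 0) (hw : p *ᵥ w = w) : ∃ c : ℂ, c • u = w := by
  obtain ⟨c, hc⟩ := (finrank_eq_one_iff_of_nonzero' (⟨u, u, hu⟩ : LinearMap.range p.mulVecLin)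
    fun k => h0 (congrArg Subtype.val k)).1 hp ⟨w, w, hw⟩
  exact ⟨c, congrArg Subtype.val hc⟩

/-- a quaternionic line that contains a complex line -/
theorem QL.eu_eq {P L : X → Matrix (J × Fin 2) (J × Fin 2) ℂ} (h : QL P U) (hL : CB L 1 U)
    (e : ∀ x ∈ U, P x * L x = L x) : eu P 2 U = -eu L 1 U ^ 2 := by
  have h2 : CB P (1 + 1) U := h.toCB
  have hL2 : ∀ x ∈ U, ∀ w, L x *ᵥ (L x *ᵥ w) = L x *ᵥ w := fun x hx w => by
    rw [mulVec_mulVec, hL.idem x hx]
  have hPL : ∀ x ∈ U, ∀ w, P x *ᵥ (L x *ᵥ w) = L x *ᵥ w := fun x hx w => by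
    rw [mulVec_mulVec, e x hx]
  have hs : ∀ x ∈ U, ∀ v, (L x).map star *ᵥ v = v → L x *ᵥ star v = star v := fun x _ v k => by
    have := cpn_star (L x) (star v)
    rw [star_star, k] at this
    exact star_eq_iff_star_eq.1 this.symm |>.symm
  obtain ⟨A, b, -⟩ := exists_BM (P' := fun x => P x - L x * P x) hL.conj continuousOn_id
    (mapsTo_id U) (Φ := fun x v => T.jq (star v) - L x *ᵥ T.jq (star v))
    ((cpn_jq.comp (continuous_star.comp continuous_snd)).continuousOn.sub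
      (cpn_mv (hL.cont.comp continuousOn_fst fun _ k => k.1)
        (cpn_jq.comp (continuous_star.comp continuous_snd)).continuousOn))
    (fun x _ v w _ _ => by rw [star_add, jq_add, mulVec_add]; abel)
    (fun x _ c v _ => by rw [star_smul, jq_smul, star_star, mulVec_smul, smul_sub])
    (fun x hx v k => by
      have k1 : P x *ᵥ star v = star v := by rw [← hs x hx v k, hPL x hx]
      have k2 := h.jq x hx _ k1
      show (P x - L x * P x) *ᵥ _ = _
      rw [sub_mulVec, ← mulVec_mulVec, mulVec_sub (P x), k2, hPL x hx, mulVec_sub, hL2 x hx, sub_self,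
        sub_zero])
    fun x hx v k k' => by
      by_contra hv
      have hu : star v ≠ 0 := star_ne_zero.2 hv
      obtain ⟨c, hc⟩ := cpn_line (hL.finrank hx) (hs x hx v k) hu (sub_eq_zero.1 k').symm
      have k3 : (star c * c + 1) • star v = 0 := by
        rw [add_smul, one_smul, mul_smul, hc, ← jq_smul, hc, jq_jq, neg_add_cancel]
      have k4 := congrArg Complex.re ((smul_eq_zero.1 k3).resolve_right hu)
      simp at k4
      nlinarith [mul_self_nonneg c.re, mul_self_nonneg c.im]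
  rw [eu_sub h2 hL e, eu_iso hL.conj (h2.sub hL e) b, eu_conj hL, pow_one, neg_one_smul, mul_neg, sq]

/-- the quaternionic line of a complex line -/
theorem CB.exists_QL (h : CB P 1 U) : ∃ L : X → Matrix (J × Fin 2) (J × Fin 2) ℂ, QL L U ∧
    (∀ x ∈ U, ∀ y ∈ U, P x = P y → L x = L y) ∧ eu L 2 U = -eu P 1 U ^ 2 := by
  let σ : J × Fin 2 ≃ J ⊕ J :=
    ⟨fun i => if i.2 = 0 then .inl i.1 else .inr i.1, Sum.elim (·, 0) (·, 1),
      fun ⟨i, a⟩ => by fin_cases a <;> rfl, fun i => by cases i <;> rfl⟩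
  have hS := h.sum h.conj
  have hL : CB (fun x => (fromBlocks (P x) 0 0 ((P x).map star)).submatrix σ σ) 2 U :=
    ⟨h.lc, (continuous_id.matrix_submatrix σ σ).comp_continuousOn hS.cont,
      fun x hx => by rw [submatrix_mul_equiv, hS.idem x hx],
      fun x hx => by rw [rank_submatrix, hS.rank x hx]⟩
  have key : ∀ (M : Matrix (J ⊕ J) (J ⊕ J) ℂ) v, M.submatrix σ σ *ᵥ v = v ↔
      M *ᵥ (v ∘ σ.symm) = v ∘ σ.symm := fun M v => by
    rw [submatrix_mulVec_equiv, Equiv.eq_comp_symm]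
  refine ⟨_, ⟨hL, fun x hx v k => ?_⟩, fun x _ y _ e => by rw [e], ?_⟩
  · rw [key, fromBlocks_mulVec, zero_mulVec, zero_mulVec, add_zero, zero_add] at k ⊢
    have k0 : P x *ᵥ (v ∘ σ.symm ∘ Sum.inl) = v ∘ σ.symm ∘ Sum.inl := congrArg (· ∘ Sum.inl) k
    have k1 : (P x).map star *ᵥ (v ∘ σ.symm ∘ Sum.inr) = v ∘ σ.symm ∘ Sum.inr :=
      congrArg (· ∘ Sum.inr) k
    have j0 : (jq v ∘ σ.symm) ∘ Sum.inl = -star (v ∘ σ.symm ∘ Sum.inr) := rfl
    have j1 : (jq v ∘ σ.symm) ∘ Sum.inr = star (v ∘ σ.symm ∘ Sum.inl) := rfl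
    have k2 := cpn_star (P x) (star (v ∘ σ.symm ∘ Sum.inr))
    rw [star_star, k1, eq_comm, star_eq_iff_star_eq, eq_comm] at k2
    rw [← Sum.elim_comp_inl_inr (jq v ∘ σ.symm), j0, j1, Sum.elim_comp_inl, Sum.elim_comp_inr,
      mulVec_neg, k2, cpn_star, k0]
  · obtain ⟨A, b, -⟩ := exists_BM (P' := fun x => fromBlocks (P x) 0 0 ((P x).map star)) hL
      continuousOn_id (mapsTo_id U) (Φ := fun _ v => v ∘ σ.symm)
      ((cont_comp_right _).comp continuous_snd).continuousOn (fun _ _ _ _ _ _ => rfl)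
      (fun _ _ _ _ _ => rfl) (fun x _ v k => (key _ v).1 k)
      fun _ _ v _ k => funext fun i => by simpa using congrFun k (σ i)
    rw [← eu_iso hL hS b, eu_sum h h.conj, eu_conj h, pow_one, neg_one_smul, mul_neg, sq]

end Pool.Agent.Work.MP_8c604c_gt.T
end
end
end

-- merged part: Pool.Agent.Work.MP_8c604c_gt.T.ThMp
section
-- merged part: Pool.Agent.Work.MP_8c604c_gt.T.HPa
section
/-!
Quaternionic projective space: complex coordinates, the tautological bundle, the affine chart.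
Hints. Use T/Pr (rm_pr, rm_pr_self, pr_eq_iff, rm_mm). Matrices are determined by mulVec on cv u (cv is onto). Rank: the range of cm (pr z) is spanned by cv z and jq (cv z).
exists_chart_inv: O = {p | p (0,0) != 0}, chi p j = (p (0,0))^-1 * p (0, succ j).
-/

noncomputable section

set_option linter.unusedSectionVars false
set_option linter.unusedVariables false

namespace Pool.Agent.Work.MP_8c604c_gt.T

open Set Topology Matrix Pool.Agent.Work.MP_849ab0_ag.G
open scoped Quaternion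

variable {n : ℕ} {ι : Type} [Fintype ι]

/-- `q = qa q + qb q * j` -/
def qa (q : ℍ) : ℂ := ⟨q.re, q.imI⟩

/-- `q = qa q + qb q * j` -/
def qb (q : ℍ) : ℂ := ⟨q.imJ, q.imK⟩

/-- the quaternion `j` -/
def qJ : ℍ := ⟨0, 0, 1, 0⟩

/-- complex coordinates of a quaternionic vector; `i` acts from the left -/
def cv (z : EuclideanSpace ℍ ι) : ι × Fin 2 → ℂ := fun i =>
  if i.2 = 0 then qa (z i.1) else qb (z i.1)

/-- the inverse of `cv` -/
def vc (v : ι × Fin 2 → ℂ) : EuclideanSpace ℍ ι :=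
  WithLp.toLp 2 fun i => ⟨(v (i, 0)).re, (v (i, 0)).im, (v (i, 1)).re, (v (i, 1)).im⟩

/-- the complex matrix of `u ↦ rm u p` -/
def cm (p : AM n) : Matrix (Fin (n + 1) × Fin 2) (Fin (n + 1) × Fin 2) ℂ := fun j i =>
  if j.2 = 0 then (if i.2 = 0 then qa (p (i.1, j.1)) else -star (qb (p (i.1, j.1))))
  else (if i.2 = 0 then qb (p (i.1, j.1)) else star (qa (p (i.1, j.1))))

/-- coordinatewise conjugation -/
def cj (a : EuclideanSpace ℍ ι) : EuclideanSpace ℍ ι := WithLp.toLp 2 fun i => star (a i)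

theorem HPa_qa_mul (x y : ℍ) : qa (x * y) = qa x * qa y - qb x * star (qb y) := by
  apply Complex.ext <;> simp [qa, qb] <;> ring

theorem HPa_qb_mul (x y : ℍ) : qb (x * y) = qa x * qb y + qb x * star (qa y) := by
  apply Complex.ext <;> simp [qa, qb] <;> ring

theorem HPa_qa_star (x : ℍ) : qa (star x) = star (qa x) := by
  apply Complex.ext <;> simp [qa]

theorem HPa_qb_star (x : ℍ) : qb (star x) = -qb x := by
  apply Complex.ext <;> simp [qb]

/-- `qa` as a real linear map -/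
def HPa_qaL : ℍ →ₗ[ℝ] ℂ where
  toFun := qa
  map_add' x y := by apply Complex.ext <;> simp [qa]
  map_smul' r x := by apply Complex.ext <;> simp [qa]

/-- `qb` as a real linear map -/
def HPa_qbL : ℍ →ₗ[ℝ] ℂ where
  toFun := qb
  map_add' x y := by apply Complex.ext <;> simp [qb]
  map_smul' r x := by apply Complex.ext <;> simp [qb]

theorem HPa_ext {x y : ℍ} (a : qa x = qa y) (b : qb x = qb y) : x = y :=
  Quaternion.ext _ _ (congrArg Complex.re a) (congrArg Complex.im a) (congrArg Complex.re b)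
    (congrArg Complex.im b)

theorem HPa_cont_qa : Continuous qa := HPa_qaL.continuous_of_finiteDimensional

theorem HPa_cont_qb : Continuous qb := HPa_qbL.continuous_of_finiteDimensional

theorem HPa_cv0 (z : EuclideanSpace ℍ ι) (i : ι) : cv z (i, 0) = qa (z i) := if_pos rfl

theorem HPa_cv1 (z : EuclideanSpace ℍ ι) (i : ι) : cv z (i, 1) = qb (z i) :=
  if_neg (by decide : (1 : Fin 2) ≠ 0)

theorem HPa_jq0 (v : ι × Fin 2 → ℂ) (i : ι) : jq v (i, 0) = -star (v (i, 1)) := if_pos rfl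

theorem HPa_jq1 (v : ι × Fin 2 → ℂ) (i : ι) : jq v (i, 1) = star (v (i, 0)) :=
  if_neg (by decide : (1 : Fin 2) ≠ 0)

theorem HPa_fext {v w : ι × Fin 2 → ℂ} (a : ∀ i, v (i, 0) = w (i, 0))
    (b : ∀ i, v (i, 1) = w (i, 1)) : v = w :=
  funext fun i => Fin.forall_fin_two (p := fun k => v (i.1, k) = w (i.1, k)).2 ⟨a _, b _⟩ i.2

theorem vc_cv (z : EuclideanSpace ℍ ι) : vc (cv z) = z := by
  ext1 i
  exact HPa_ext (HPa_cv0 z i) (HPa_cv1 z i)

theorem cv_vc (v : ι × Fin 2 → ℂ) : cv (vc v) = v := by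
  exact HPa_fext (fun i => HPa_cv0 _ i) fun i => HPa_cv1 _ i

/-- `cv` as a real linear equivalence -/
def HPa_cvL (ι : Type) [Fintype ι] : EuclideanSpace ℍ ι ≃ₗ[ℝ] (ι × Fin 2 → ℂ) where
  toFun := cv
  invFun := vc
  left_inv := vc_cv
  right_inv := cv_vc
  map_add' z w := HPa_fext
    (fun i => HPa_qaL.map_add (z i) (w i)) fun i => HPa_qbL.map_add (z i) (w i)
  map_smul' r z := HPa_fext
    (fun i => HPa_qaL.map_smul r (z i)) fun i => HPa_qbL.map_smul r (z i)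

/-- `cv` as a real linear homeomorphism -/
theorem exists_cvL (ι : Type) [Fintype ι] :
    ∃ e : EuclideanSpace ℍ ι ≃L[ℝ] (ι × Fin 2 → ℂ), (∀ z, e z = cv z) ∧ ∀ v, e.symm v = vc v := by
  exact ⟨(HPa_cvL ι).toContinuousLinearEquiv, fun _ => rfl, fun _ => rfl⟩

theorem continuous_cv : Continuous (cv : EuclideanSpace ℍ ι → _) := by
  exact (HPa_cvL ι).toContinuousLinearEquiv.continuous

theorem continuous_vc : Continuous (vc : (ι × Fin 2 → ℂ) → _) := by
  exact (HPa_cvL ι).toContinuousLinearEquiv.symm.continuous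

theorem cv_add (z w : EuclideanSpace ℍ ι) : cv (z + w) = cv z + cv w := by
  exact (HPa_cvL ι).map_add z w

theorem cv_eq_zero {z : EuclideanSpace ℍ ι} : cv z = 0 ↔ z = 0 := by
  exact (HPa_cvL ι).map_eq_zero_iff

theorem HPa_cv_smul (c : ℍ) (z : EuclideanSpace ℍ ι) :
    cv (c • z) = qa c • cv z + qb c • jq (cv z) := by
  refine HPa_fext (fun i => ?_) fun i => ?_
  · simp only [Pi.add_apply, Pi.smul_apply, HPa_cv0, HPa_cv1, HPa_jq0, smul_eq_mul,
      PiLp.smul_apply, HPa_qa_mul]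
    ring
  · simp only [Pi.add_apply, Pi.smul_apply, HPa_cv0, HPa_cv1, HPa_jq1, smul_eq_mul,
      PiLp.smul_apply, HPa_qb_mul]

theorem cv_coe_smul (c : ℂ) (z : EuclideanSpace ℍ ι) : cv ((c : ℍ) • z) = c • cv z := by
  rw [HPa_cv_smul, show qb (c : ℍ) = 0 from rfl, zero_smul, add_zero]
  rfl

theorem cv_j_smul (z : EuclideanSpace ℍ ι) : cv (qJ • z) = jq (cv z) := by
  rw [HPa_cv_smul, show qa qJ = 0 from rfl, show qb qJ = 1 from rfl, zero_smul, zero_add, one_smul]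

theorem cv_smul (c : ℍ) (z : EuclideanSpace ℍ ι) :
    cv (c • z) = qa c • cv z + qb c • jq (cv z) := by
  exact HPa_cv_smul c z

theorem cm_mulVec (p : AM n) (u : EH n) : cm p *ᵥ cv u = cv (rm u p) := by
  refine HPa_fext (fun j => ?_) fun j => ?_
  · rw [HPa_cv0, rm_apply]
    refine .trans ?_ (map_sum HPa_qaL _ _).symm
    simp only [mulVec, dotProduct, Fintype.sum_prod_type, Fin.sum_univ_two, HPa_cv0, HPa_cv1]
    refine Finset.sum_congr rfl fun i _ => .trans ?_ (HPa_qa_mul _ _).symm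
    simp [cm]
    ring
  · rw [HPa_cv1, rm_apply]
    refine .trans ?_ (map_sum HPa_qbL _ _).symm
    simp only [mulVec, dotProduct, Fintype.sum_prod_type, Fin.sum_univ_two, HPa_cv0, HPa_cv1]
    refine Finset.sum_congr rfl fun i _ => .trans ?_ (HPa_qb_mul _ _).symm
    simp [cm]
    ring

theorem continuous_cm : Continuous (cm : AM n → _) := by
  refine continuous_pi fun j => continuous_pi fun i => ?_
  have a := HPa_cont_qa
  have b := HPa_cont_qb
  unfold cm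
  split_ifs <;> fun_prop

theorem cm_injective : Function.Injective (cm : AM n → _) := by
  intro p q e
  ext1 ⟨i, j⟩
  refine HPa_ext ?_ ?_
  · simpa [cm] using congrFun (congrFun e (j, 0)) (i, 0)
  · simpa [cm] using congrFun (congrFun e (j, 1)) (i, 0)

theorem rm_pr_eq {z : EH n} (hz : z ≠ 0) (u : EH n) : rm u (pr z) = u ↔ ∃ c : ℍ, u = c • z := by
  refine ⟨fun e => ⟨_, e.symm.trans (rm_pr u z)⟩, ?_⟩
  rintro ⟨c, rfl⟩
  rw [rm_csmul, rm_pr_self hz]

theorem aff_ne (a : EA n) : aff a ≠ 0 := by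
  intro e
  exact one_ne_zero (α := ℍ) (congrArg (fun z : EH n => z 0) e)

theorem continuous_aff : Continuous (aff : EA n → EH n) := by
  refine (PiLp.continuous_toLp 2 _).comp (continuous_pi fun i => ?_)
  refine Fin.cases ?_ (fun j => ?_) i
  · exact continuous_const
  · simp only [Fin.cons_succ]
    fun_prop

theorem lc_MH : IsLocallyClosed (MH n) := isCompact_MH.isClosed.isLocallyClosed

theorem HPa_rank {z : EH n} (hz : z ≠ 0) : (cm (pr z)).rank = 2 := by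
  let f := (LinearMap.toSpanSingleton ℂ _ (cv z)).coprod
    (LinearMap.toSpanSingleton ℂ _ (jq (cv z)))
  have k : ∀ c : ℍ, f (qa c, qb c) = cv (c • z) := fun c => (cv_smul c z).symm
  let q : ℂ × ℂ → ℍ := fun x => ⟨x.1.re, x.1.im, x.2.re, x.2.im⟩
  have k' : ∀ x, f x = cv (q x • z) := fun x => k (q x)
  have e : LinearMap.range (cm (pr z)).mulVecLin = LinearMap.range f := by
    ext v
    refine ⟨fun ⟨w, e⟩ => ⟨_, (k (H.nu z (vc w))).trans ?_⟩, fun ⟨x, e⟩ => ⟨v, ?_⟩⟩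
    · rw [← e, ← rm_pr, ← cm_mulVec, cv_vc, mulVecLin_apply]
    · rw [← e, k', mulVecLin_apply, cm_mulVec, rm_csmul, rm_pr_self hz]
  have i : Function.Injective f := by
    refine (injective_iff_map_eq_zero f).2 fun x hx => ?_
    rw [k', cv_eq_zero, smul_eq_zero_iff_left hz] at hx
    exact Prod.ext (congrArg qa hx) (congrArg qb hx)
  rw [Matrix.rank, e, LinearMap.finrank_range_of_inj i]
  simp

theorem ql_MH : QL cm (MH n) := by
  refine ⟨⟨lc_MH, continuous_cm.continuousOn, ?_, ?_⟩, ?_⟩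
  · intro p hp
    refine ext_iff_mulVec.2 fun v => ?_
    rw [← mulVec_mulVec, ← cv_vc v, cm_mulVec, cm_mulVec]
    exact congrArg cv (rb_lineP.idem p hp _)
  · rintro _ ⟨z, hz, rfl⟩
    exact HPa_rank hz
  · intro p hp v e
    rw [← cv_vc v] at e ⊢
    rw [← cv_j_smul, cm_mulVec, rm_csmul, cv_j_smul, cv_j_smul, ← cm_mulVec, e]

theorem cm_herm {p : AM n} (hp : p ∈ MH n) : (cm p)ᴴ = cm p := by
  obtain ⟨z, hz, rfl⟩ := hp
  have k : ∀ i j, pr z (i, j) = star (pr z (j, i)) := fun i j => by simp [pr]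
  ext ⟨j, a⟩ ⟨i, b⟩
  rw [conjTranspose_apply]
  unfold cm
  dsimp only
  rw [k i j, HPa_qa_star, HPa_qb_star]
  split_ifs <;> simp

/-- the affine chart is an open embedding into `MH n` -/
theorem exists_chart_inv : ∃ (O : Set (AM n)) (χ : AM n → EA n), IsOpen O ∧ ContinuousOn χ O ∧
    (∀ a, pr (aff a) ∈ O) ∧ (∀ a, χ (pr (aff a)) = a) ∧ (∀ p ∈ MH n ∩ O, pr (aff (χ p)) = p) ∧
    ∀ z : EH n, z ≠ 0 → (pr z ∈ O ↔ z 0 ≠ 0) := by
  let χ : AM n → EA n := fun p => WithLp.toLp 2 fun j => (p (0, 0))⁻¹ * p (0, j.succ)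
  have n0 : ∀ z : EH n, z ≠ 0 → (‖z‖ ^ 2)⁻¹ ≠ 0 := fun z hz =>
    inv_ne_zero (pow_ne_zero _ (norm_ne_zero_iff.2 hz))
  have k : ∀ z : EH n, z ≠ 0 → (pr z (0, 0) ≠ 0 ↔ z 0 ≠ 0) := fun z hz => by
    show (‖z‖ ^ 2)⁻¹ • (star (z 0) * z 0) ≠ 0 ↔ _
    rw [smul_ne_zero_iff, mul_ne_zero_iff, star_ne_zero, and_self, and_iff_right (n0 z hz)]
  have k2 : ∀ z : EH n, z ≠ 0 → z 0 ≠ 0 → ∀ j, χ (pr z) j = (z 0)⁻¹ * z j.succ := by
    intro z hz h0 j
    show ((‖z‖ ^ 2)⁻¹ • (star (z 0) * z 0))⁻¹ * ((‖z‖ ^ 2)⁻¹ • (star (z 0) * z j.succ)) = _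
    rw [smul_inv₀, smul_mul_smul_comm, inv_mul_cancel₀ (n0 z hz), one_smul, _root_.mul_inv_rev,
      mul_assoc, inv_mul_cancel_left₀ (star_ne_zero.2 h0)]
  have a0 : ∀ a : EA n, aff a 0 = 1 := fun a => rfl
  have a1 : ∀ a : EA n, aff a 0 ≠ 0 := fun a => one_ne_zero
  refine ⟨{p | p (0, 0) ≠ 0}, χ, isOpen_ne_fun (by fun_prop) continuous_const, ?_,
    fun a => (k _ (aff_ne a)).2 (a1 a), fun a => ?_, ?_, k⟩
  · refine (PiLp.continuous_toLp 2 _).comp_continuousOn (continuousOn_pi.2 fun j => ?_)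
    exact (ContinuousOn.inv₀ (by fun_prop) fun p hp => hp).mul (by fun_prop)
  · ext1 j
    rw [k2 _ (aff_ne a) (a1 a), a0, inv_one, one_mul]
    rfl
  · rintro _ ⟨⟨z, hz, rfl⟩, h⟩
    have h0 := (k z hz).1 h
    rw [← pr_smul (inv_ne_zero h0) z]
    congr 1
    ext1 i
    refine Fin.cases ?_ (fun j => ?_) i
    · exact (inv_mul_cancel₀ h0).symm
    · rw [pr_smul (inv_ne_zero h0) z]
      exact k2 z hz h0 j

end Pool.Agent.Work.MP_8c604c_gt.T
end
end

-- merged part: Pool.Agent.Work.MP_8c604c_gt.T.HPn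
section
/-!
Quaternionic projective space: the class `uH`, the point class.
Hints. uH_pow: eu_pow_eq_zero with the sections cm p *v cv (single i 1). uH_basis: CB.basis_pow with r = 2, K = Fin (n+1) x Fin 2, k = Prod.snd, inverse v -> (pr (vc v), v).
exists_pt: c = ec of the bundle 1 kron cm p (n copies, eu_rep, fgt_ec) with the section (i, .) -> cm p *v cv (single (succ i) 1); pull back to the chart (ec_pull), frame
lambda -> cv (vc lambda i • aff a) (ec_frame with K = Fin n x Fin 2), the coordinates are cv (cj a) / |aff a|^2; remove the positive factor by pull_htpy'.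
QL.exists_class: near x0 take z x = vc (P x *v v0) != 0; the range of P x is the line of z x, so pr (z x) does not depend on v0.
-/

noncomputable section

set_option linter.unusedSectionVars false
set_option linter.unusedVariables false

namespace Pool.Agent.Work.MP_8c604c_gt.T

open Set Topology Matrix Pool.Agent.Work.MP_849ab0_ag.G
open scoped Quaternion

variable {n : ℕ} {ι : Type} [Fintype ι]

/-- the Euler class of the tautological bundle -/
def uH (n : ℕ) : H (MH n) univ := eu cm 2 (MH n)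

theorem isDeg_uH : IsDeg 4 (uH n) := ql_MH.toCB.isDeg_eu

/-- the standard basis vector -/
def hpn_e (k : Fin (n + 1)) : EH n := WithLp.toLp 2 (Pi.single k 1)

theorem hpn_nu (z : EH n) (k : Fin (n + 1)) :
    H.nu z (hpn_e k) = (‖z‖ ^ 2)⁻¹ • star (z k) := by
  rw [H.nu_def]
  congr 1
  simp [H.hm, hpn_e]

theorem hpn_sec (z : EH n) (k : Fin (n + 1)) :
    cm (pr z) *ᵥ cv (hpn_e k) = cv (((‖z‖ ^ 2)⁻¹ • star (z k)) • z) := by
  rw [cm_mulVec, rm_pr, hpn_nu]

theorem hpn_sec_zero {z : EH n} (hz : z ≠ 0) {k : Fin (n + 1)}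
    (h : cm (pr z) *ᵥ cv (hpn_e k) = 0) : z k = 0 := by
  rw [hpn_sec, cv_eq_zero, smul_eq_zero, smul_eq_zero] at h
  rcases h with (h | h) | h
  · exact absurd h (inv_ne_zero (pow_ne_zero _ (norm_ne_zero_iff.2 hz)))
  · exact star_eq_zero.1 h
  · exact absurd h hz

theorem hpn_vc_ne {v : ι × Fin 2 → ℂ} (hv : v ≠ 0) : vc v ≠ 0 := fun e =>
  hv (by rw [← cv_vc v, e]; exact cv_eq_zero.2 rfl)

theorem hpn_cv_inj {z w : EuclideanSpace ℍ ι} (h : cv z = cv w) : z = w := by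
  rw [← vc_cv z, h, vc_cv]

theorem hpn_pr_vc {p : AM n} (hp : p ∈ MH n) {v : Fin (n + 1) × Fin 2 → ℂ} (hv : v ≠ 0)
    (e : cm p *ᵥ v = v) : pr (vc v) = p := by
  have h : rm (vc v) p = vc v := hpn_cv_inj (by rw [← cm_mulVec, cv_vc, e])
  rw [← h]
  exact pr_rm hp (by rw [h]; exact hpn_vc_ne hv)

theorem hpn_fix {z : EH n} (hz : z ≠ 0) (c : ℍ) : cm (pr z) *ᵥ cv (c • z) = cv (c • z) := by
  rw [cm_mulVec, rm_csmul, rm_pr_self hz]

theorem uH_pow : uH n ^ (n + 1) = 0 := by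
  have h := eu_pow_eq_zero (K := Fin (n + 1)) (ql_MH (n := n)).toCB
    (σ := fun k p => cm p *ᵥ cv (hpn_e k))
    (fun k => ⟨(continuous_cm.matrix_mulVec continuous_const).continuousOn,
      fun p hp => by rw [mulVec_mulVec, ql_MH.idem p hp], fun _ _ _ => trivial⟩) (by
      rintro _ ⟨z, hz, rfl⟩
      by_contra k
      push Not at k
      exact hz (by ext1 i; exact hpn_sec_zero hz (k i)))
  rwa [Fintype.card_fin] at h

theorem uH_basis : Function.Bijective fun a : Fin (n + 1) → ℂ => ∑ i, a i • uH n ^ (i : ℕ) := by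
  have ok : Ok Prod.snd (sp cm (MH n)) univ ({0}ᶜ : Set (Fin (n + 1) × Fin 2 → ℂ)) univ :=
    .of_mem (.of_continuous continuous_snd _) (fun z hz => (mem_sp.1 hz).2.2) fun _ _ _ => trivial
  have ok' : Ok (fun v => (pr (vc v), v)) ({0}ᶜ : Set (Fin (n + 1) × Fin 2 → ℂ)) univ
      (sp cm (MH n)) univ :=
    ok_top isOpen_compl_singleton.isLocallyClosed
      ((continuousOn_pr.comp continuous_vc.continuousOn fun v hv => hpn_vc_ne hv).prodMk
        continuousOn_id) fun v hv => mem_sp.2 ⟨pr_mem (hpn_vc_ne hv), by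
          have := hpn_fix (hpn_vc_ne hv) 1
          rwa [one_smul, cv_vc] at this, hv⟩
  exact (ql_MH (n := n)).toCB.basis_pow two_pos (K := Fin (n + 1) × Fin 2) (m := n + 1)
    (by simp [mul_comm]) ok (pull_bij_of_inv ok ok' (fun z hz => by
      obtain ⟨h1, h2, h3⟩ := mem_sp.1 hz
      rw [hpn_pr_vc h1 h3 h2]) fun _ _ => rfl) uH_pow

theorem uH_pow_ne {k : ℕ} (hk : k ≤ n) : uH n ^ k ≠ 0 := by
  intro e
  have h := (uH_basis (n := n)).1 (a₁ := Pi.single ⟨k, Nat.lt_succ_of_le hk⟩ 1) (a₂ := 0) (by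
    simp [Pi.single_apply, e])
  simpa using congrFun h ⟨k, Nat.lt_succ_of_le hk⟩

/-- homogeneous classes -/
theorem MH_deg {k : ℕ} {a : H (MH n) univ} (ha : IsDeg (4 * k) a) : ∃ c : ℂ, a = c • uH n ^ k := by
  obtain ⟨c, rfl⟩ := uH_basis.2 a
  have h : prj {4 * (k : ℤ)} (∑ i : Fin (n + 1), c i • uH n ^ (i : ℕ)) ∈
      Submodule.span ℂ {uH n ^ k} := by
    rw [map_sum]
    refine Submodule.sum_mem _ fun i _ => ?_
    rw [map_smul]
    refine Submodule.smul_mem _ _ ?_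
    by_cases e : (i : ℕ) = k
    · rw [e, (IsDeg.powH isDeg_uH k).prj_eq (s := {4 * (k : ℤ)}) (mul_comm (k : ℤ) 4)]
      exact Submodule.mem_span_singleton_self _
    · rw [(IsDeg.powH isDeg_uH i).prj_eq_zero fun h => e (by
        rw [mem_singleton_iff] at h
        omega)]
      exact zero_mem _
  rw [isDeg_iff.1 ha] at h
  obtain ⟨d, e⟩ := Submodule.mem_span_singleton.1 h
  exact ⟨d, e.symm⟩

theorem MH_deg_zero {p : ℤ} {a : H (MH n) univ} (ha : IsDeg p a) (hp : ¬ 4 ∣ p ∨ 4 * n < p) :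
    a = 0 := by
  obtain ⟨c, rfl⟩ := uH_basis.2 a
  rw [← isDeg_iff.1 ha]
  simp only [map_sum, map_smul]
  refine Finset.sum_eq_zero fun i _ => ?_
  rw [(IsDeg.powH isDeg_uH i).prj_eq_zero fun h => ?_, smul_zero]
  rw [mem_singleton_iff] at h
  have := i.2
  omega

theorem hpn_kron {K J J' : Type} [Fintype K] [DecidableEq K] [Fintype J'] (A : Matrix J J' ℂ)
    (v : K × J' → ℂ) : kroneckerMap (· * ·) (1 : Matrix K K ℂ) A *ᵥ v =
      fun i => (A *ᵥ fun j => v (i.1, j)) i.2 := by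
  ext ⟨i, j⟩
  simp [mulVec, dotProduct, Fintype.sum_prod_type, one_apply]

/-- the frame of the line of `z` -/
def hpn_T (z : EH n) : Matrix (Fin (n + 1) × Fin 2) (Fin 2) ℂ :=
  Matrix.of fun j b => cv ((if b = 0 then 1 else qJ) • z) j

theorem hpn_T_mulVec (z : EH n) (v : ι × Fin 2 → ℂ) (i : ι) :
    (hpn_T z *ᵥ fun b => v (i, b)) = cv (vc v i • z) := by
  have h1 : qa (vc v i) = v (i, 0) := rfl
  have h2 : qb (vc v i) = v (i, 1) := rfl
  rw [cv_smul, ← cv_j_smul, h1, h2]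
  ext j
  simp [hpn_T, mulVec, dotProduct, Fin.sum_univ_two, mul_comm]

theorem hpn_kron_T [DecidableEq ι] (z : EH n) (v : ι × Fin 2 → ℂ) :
    kroneckerMap (· * ·) (1 : Matrix ι ι ℂ) (hpn_T z) *ᵥ v = fun i => cv (vc v i.1 • z) i.2 := by
  rw [hpn_kron]
  ext i
  rw [hpn_T_mulVec]

theorem hpn_cont_T [DecidableEq ι] :
    Continuous fun z : EH n => kroneckerMap (· * ·) (1 : Matrix ι ι ℂ) (hpn_T z) := by
  refine continuous_matrix fun i j => ?_
  show Continuous fun z : EH n => (1 : Matrix ι ι ℂ) i.1 j.1 * cv ((if j.2 = 0 then 1 else qJ) • z) i.2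
  exact continuous_const.mul ((continuous_apply i.2).comp
    (continuous_cv.comp (continuous_const_smul _)))

theorem hpn_T_mem [DecidableEq ι] {z : EH n} (hz : z ≠ 0) :
    kroneckerMap (· * ·) (1 : Matrix ι ι ℂ) (cm (pr z)) *
      kroneckerMap (· * ·) (1 : Matrix ι ι ℂ) (hpn_T z) =
      kroneckerMap (· * ·) (1 : Matrix ι ι ℂ) (hpn_T z) := by
  refine ext_iff_mulVec.2 fun v => ?_
  rw [← mulVec_mulVec, hpn_kron_T, hpn_kron]
  ext i
  show (cm (pr z) *ᵥ cv (vc v i.1 • z)) i.2 = _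
  rw [hpn_fix hz]

theorem hpn_T_inj [DecidableEq ι] {z : EH n} (hz : z ≠ 0) {v : ι × Fin 2 → ℂ}
    (e : kroneckerMap (· * ·) (1 : Matrix ι ι ℂ) (hpn_T z) *ᵥ v = 0) : v = 0 := by
  rw [hpn_kron_T] at e
  rw [← cv_vc v, cv_eq_zero]
  ext1 i
  have h : cv (vc v i • z) = 0 := funext fun j => congrFun e (i, j)
  exact (smul_eq_zero.1 (cv_eq_zero.1 h)).resolve_right hz

theorem hpn_cont_cj : Continuous (cj : EuclideanSpace ℍ ι → _) := by
  unfold cj
  fun_prop

theorem hpn_cj_zero {a : EuclideanSpace ℍ ι} (h : cj a = 0) : a = 0 := by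
  ext1 i
  exact star_eq_zero.1 (congrArg (fun b : EuclideanSpace ℍ ι => b i) h)

theorem hpn_eq_aff {z : EH n} (hz : z ≠ 0) (h : ∀ i : Fin n, z i.succ = 0) :
    pr z = pr (aff 0) := by
  have e : z = z 0 • aff 0 := by
    ext1 i
    refine Fin.cases ?_ (fun i => ?_) i
    · simp [aff]
    · simp [aff, h]
  have h0 : z 0 ≠ 0 := fun k => hz (by rw [e, k, zero_smul])
  rw [e, pr_smul h0]

/-- the top power of `uH` is the class of a point -/
theorem exists_pt : ∃ c : H (MH n) {pr (aff 0)}, IsDeg (4 * n) c ∧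
    pull id (MH n) univ c = uH n ^ n ∧
    pull (fun a : EA n => pr (aff a)) univ {0} c =
      pull (fun a : EA n => cv (cj a)) univ {0} (orient (Fin n × Fin 2)) := by
  have hB := (cb_one (J := Fin n) (lc_MH (n := n))).kron (ql_MH (n := n)).toCB
  have hs : Sec (fun p : AM n => kroneckerMap (· * ·) (1 : Matrix (Fin n) (Fin n) ℂ) (cm p))
      (fun p i => (cm p *ᵥ cv (hpn_e i.1.succ)) i.2) (MH n) {pr (aff 0)} := by
    refine ⟨(continuous_pi fun i => (continuous_apply _).comp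
      (continuous_cm.matrix_mulVec continuous_const)).continuousOn, fun p hp => ?_, ?_⟩
    · rw [hpn_kron]
      ext i
      show (cm p *ᵥ (cm p *ᵥ cv (hpn_e i.1.succ))) i.2 = _
      rw [mulVec_mulVec, ql_MH.idem p hp]
    · rintro _ ⟨z, hz, rfl⟩ e
      exact hpn_eq_aff hz fun i => hpn_sec_zero hz (funext fun j => congrFun e (i, j))
  obtain ⟨O, χ, -, -, -, hχ, -, -⟩ := exists_chart_inv (n := n)
  have cf : Continuous fun a : EA n => pr (aff a) :=
    continuousOn_pr.comp_continuous continuous_aff aff_ne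
  have mf : MapsTo (fun a : EA n => pr (aff a)) univ (MH n) := fun a _ => pr_mem (aff_ne a)
  have lu : IsLocallyClosed (univ : Set (EA n)) := isOpen_univ.isLocallyClosed
  have pos : ∀ a : EA n, 0 < (‖aff a‖ ^ 2)⁻¹ := fun a =>
    inv_pos.2 (pow_pos (norm_pos_iff.2 (aff_ne a)) _)
  have cn : Continuous fun a : EA n => (‖aff a‖ ^ 2)⁻¹ :=
    (continuous_aff.norm.pow 2).inv₀ fun a => pow_ne_zero _ (norm_ne_zero_iff.2 (aff_ne a))
  have zz : ∀ (a : EA n) (r : ℝ), 0 < r → cv (r • cj a) = 0 → a = 0 := fun a r hr e =>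
    hpn_cj_zero ((smul_eq_zero.1 (cv_eq_zero.1 e)).resolve_left hr.ne')
  refine ⟨ec (fun p : AM n => kroneckerMap (· * ·) (1 : Matrix (Fin n) (Fin n) ℂ) (cm p))
    (Fintype.card (Fin n) * 2) (fun p i => (cm p *ᵥ cv (hpn_e i.1.succ)) i.2) (MH n) {pr (aff 0)},
    ?_, ?_, ?_⟩
  rotate_left
  · rw [fgt_ec hB hs, eu_rep ql_MH.toCB, Fintype.card_fin]
    rfl
  · rw [ec_pull hB lu cf.continuousOn mf hs fun a _ e => by
      rw [mem_singleton_iff, ← hχ a, show pr (aff a) = pr (aff 0) from e, hχ]]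
    have h := ec_frame (hB.comp lu cf.continuousOn mf) (K := Fin n × Fin 2) (Z := {0})
      (by simp) (T := fun a => kroneckerMap (· * ·) (1 : Matrix (Fin n) (Fin n) ℂ) (hpn_T (aff a)))
      (hpn_cont_T.comp continuous_aff).continuousOn
      (fun a _ => hpn_T_mem (aff_ne a)) (fun a _ v e => hpn_T_inj (aff_ne a) e)
      (σ := fun a => cv ((‖aff a‖ ^ 2)⁻¹ • cj a))
      (continuous_cv.comp (cn.smul hpn_cont_cj)).continuousOn
      fun a _ e => zz a _ (pos a) e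
    have e : (fun a : EA n => kroneckerMap (· * ·) (1 : Matrix (Fin n) (Fin n) ℂ)
        (hpn_T (aff a)) *ᵥ cv ((‖aff a‖ ^ 2)⁻¹ • cj a)) =
        fun a i => (cm (pr (aff a)) *ᵥ cv (hpn_e i.1.succ)) i.2 := by
      ext a i
      rw [hpn_kron_T, hpn_sec, vc_cv]
      rfl
    rw [e] at h
    rw [h]
    refine LinearMap.congr_fun (pull_htpy' (U' := univ) (Z' := {0})
      (F := fun y : EA n × ℝ => cv (((1 - y.2) * (‖aff y.1‖ ^ 2)⁻¹ + y.2) • cj y.1))
      (.of_continuous (continuous_cv.comp (((((continuous_const.sub continuous_snd).mul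
        (cn.comp continuous_fst)).add continuous_snd)).smul (hpn_cont_cj.comp continuous_fst))) _)
      (fun _ _ _ _ => trivial) (fun a _ t ht e => zz a _ ?_ e) (fun a _ => ?_) fun a _ => ?_) _
    · have := pos a
      rcases ht.1.eq_or_lt with h0 | h0
      · subst h0
        simpa using this
      · exact add_pos_of_nonneg_of_pos (mul_nonneg (sub_nonneg.2 ht.2) this.le) h0
    · simp
    · simp
  · have := hB.isDeg_ec (fun p i => (cm p *ᵥ cv (hpn_e i.1.succ)) i.2) {pr (aff 0)}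
    convert this using 1
    simp
    ring

theorem hpn_rank {J : Type} [Fintype J] {A B : Matrix J J ℂ} (hA : A * A = A) (e : B * A = A)
    (hr : A.rank = B.rank) : A * B = B := by
  have h : LinearMap.range A.mulVecLin = LinearMap.range B.mulVecLin :=
    Submodule.eq_of_le_of_finrank_eq (by
      rintro _ ⟨u, rfl⟩
      exact ⟨A *ᵥ u, by simp [e]⟩) hr
  refine ext_iff_mulVec.2 fun v => ?_
  obtain ⟨u, k⟩ : B *ᵥ v ∈ LinearMap.range A.mulVecLin := h ▸ ⟨v, rfl⟩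
  rw [← mulVec_mulVec, ← k, mulVecLin_apply, mulVec_mulVec, hA]

theorem hpn_ne {J : Type} [Fintype J] {A : Matrix J J ℂ} (hr : A.rank = 2) : ∃ v, A *ᵥ v ≠ 0 := by
  by_contra k
  push Not at k
  rw [show A = 0 from ext_iff_mulVec.2 fun v => by rw [k, zero_mulVec], rank_zero] at hr
  omega

/-- a quaternionic line bundle with orthogonal projectors is pulled back from `MH` -/
theorem QL.exists_class {X : Type} [TopologicalSpace X] [RegularSpace X]
    [SecondCountableTopology X] {U : Set X}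
    {P : X → Matrix (Fin (n + 1) × Fin 2) (Fin (n + 1) × Fin 2) ℂ} (h : QL P U) :
    ∃ f : X → AM n, ContinuousOn f U ∧ MapsTo f U (MH n) ∧
      (∀ x ∈ U, cm (f x) * P x = P x ∧ P x * cm (f x) = cm (f x)) ∧
      pull f U univ (uH n) = eu P 2 U := by
  have ex : ∀ x, ∃ p : AM n, x ∈ U → p ∈ MH n ∧ cm p * P x = P x ∧ P x * cm p = cm p := fun x => by
    by_cases hx : x ∈ U
    · obtain ⟨v, hv⟩ := hpn_ne (h.rank x hx)
      have fx : P x *ᵥ (P x *ᵥ v) = P x *ᵥ v := by rw [mulVec_mulVec, h.idem x hx]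
      have hz := hpn_vc_ne hv
      have e : P x * cm (pr (vc (P x *ᵥ v))) = cm (pr (vc (P x *ᵥ v))) :=
        ext_iff_mulVec.2 fun w => by
          rw [← mulVec_mulVec, ← cv_vc w, cm_mulVec, rm_pr, cv_smul, cv_vc, mulVec_add,
            mulVec_smul, mulVec_smul, fx, h.jq x hx _ fx]
      exact ⟨_, fun _ => ⟨pr_mem hz, hpn_rank (ql_MH.idem _ (pr_mem hz)) e
        ((ql_MH.rank _ (pr_mem hz)).trans (h.rank x hx).symm), e⟩⟩
    · exact ⟨0, fun k => absurd k hx⟩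
  choose f hf using ex
  have cf : ContinuousOn f U := fun x hx => by
    obtain ⟨v, hv⟩ := hpn_ne (h.rank x hx)
    have c1 : ContinuousWithinAt (fun y => P y *ᵥ v) U x :=
      (continuous_id.matrix_mulVec continuous_const).continuousAt.comp_continuousWithinAt
        (h.cont x hx)
    have c2 : ContinuousWithinAt (fun y => pr (vc (P y *ᵥ v))) U x :=
      ContinuousAt.comp_continuousWithinAt (f := fun y => vc (P y *ᵥ v))
        (continuousOn_pr.continuousAt (isOpen_compl_singleton.mem_nhds (hpn_vc_ne hv)))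
        (continuous_vc.continuousAt.comp_continuousWithinAt c1)
    have key : ∀ y ∈ U, P y *ᵥ v ≠ 0 → f y = pr (vc (P y *ᵥ v)) := fun y hy k =>
      (hpn_pr_vc (hf y hy).1 k (by rw [mulVec_mulVec, (hf y hy).2.1])).symm
    refine c2.congr_of_eventuallyEq ?_ (key x hx hv)
    filter_upwards [c1.eventually_ne hv, self_mem_nhdsWithin] with y k hy using key y hy k
  have mf : MapsTo f U (MH n) := fun x hx => (hf x hx).1
  refine ⟨f, cf, mf, fun x hx => (hf x hx).2, ?_⟩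
  rw [uH, eu_pull ql_MH.toCB h.lc cf mf]
  exact eu_of_le h.toCB (ql_MH.toCB.comp h.lc cf mf) fun x hx => (hf x hx).2.1

end Pool.Agent.Work.MP_8c604c_gt.T
end
end

-- merged part: Pool.Agent.Work.MP_8c604c_gt.T.ThMp
section
/-!
Charts of `HP^n` and classes with support in a point.
Hints. exists_chart: p = pr z, z i != 0; permute the coordinates by Equiv.swap 0 i (a homeomorphism of AM n that maps pr z to pr (z o swap)), use exists_chart_inv, cv, vc and translate.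
pt_gen: res_excision_open, pull_bij_of_inv for the chart, Fib.gen with fib_orient. pt_fgt_inj: by pt_gen it suffices to find one class c with nonzero image: all classes of
H (MH n) {p} are multiples of one class of degree 4n; u^n restricts to 0 on MH n minus p (for p = pr (aff 0) exists_pt; in general n sections cm q *v cv (a i) of the tautological bundle, a i an H-basis of the
orthogonal complement of z, have the only common zero p: the product of the ec has support {p} and image uH^n, which is not zero). The rest: exact_supp_res, exact_res_dlt, exact_dlt_supp.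
-/

noncomputable section

set_option linter.unusedSectionVars false
set_option linter.unusedVariables false

namespace Pool.Agent.Work.MP_8c604c_gt.T

open Set Topology Matrix Pool.Agent.Work.MP_849ab0_ag.G
open scoped Quaternion

variable {n : ℕ}

/-- permutation of the coordinates of a vector -/
def ThMp_pv (σ : Equiv.Perm (Fin (n + 1))) (z : EH n) : EH n := WithLp.toLp 2 fun i => z (σ i)

/-- permutation of the coordinates of a matrix -/
def ThMp_pm (σ : Equiv.Perm (Fin (n + 1))) (q : AM n) : AM n :=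
  WithLp.toLp 2 fun i => q (σ i.1, σ i.2)

theorem ThMp_cont (σ : Equiv.Perm (Fin (n + 1))) : Continuous (ThMp_pm σ : AM n → AM n) := by
  refine (PiLp.continuous_toLp 2 _).comp (continuous_pi fun i => ?_)
  fun_prop

theorem ThMp_norm (σ : Equiv.Perm (Fin (n + 1))) (z : EH n) : ‖ThMp_pv σ z‖ = ‖z‖ := by
  rw [PiLp.norm_eq_of_L2, PiLp.norm_eq_of_L2]
  exact congrArg Real.sqrt (Equiv.sum_comp σ fun i => ‖z i‖ ^ 2)

theorem ThMp_pr (σ : Equiv.Perm (Fin (n + 1))) (z : EH n) :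
    ThMp_pm σ (pr z) = pr (ThMp_pv σ z) := by
  ext1 i
  show (‖z‖ ^ 2)⁻¹ • (star (z (σ i.1)) * z (σ i.2)) =
    (‖ThMp_pv σ z‖ ^ 2)⁻¹ • (star (z (σ i.1)) * z (σ i.2))
  rw [ThMp_norm]

theorem ThMp_ne (σ : Equiv.Perm (Fin (n + 1))) {z : EH n} (hz : z ≠ 0) : ThMp_pv σ z ≠ 0 := by
  rw [← norm_ne_zero_iff, ThMp_norm]
  exact norm_ne_zero_iff.2 hz

theorem ThMp_mem (σ : Equiv.Perm (Fin (n + 1))) {q : AM n} (hq : q ∈ MH n) :
    ThMp_pm σ q ∈ MH n := by
  obtain ⟨z, hz, rfl⟩ := hq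
  rw [ThMp_pr]
  exact pr_mem (ThMp_ne σ hz)

theorem ThMp_inv (i : Fin (n + 1)) (q : AM n) :
    ThMp_pm (Equiv.swap 0 i) (ThMp_pm (Equiv.swap 0 i) q) = q := by
  ext1 j
  show q (Equiv.swap 0 i (Equiv.swap 0 i j.1), Equiv.swap 0 i (Equiv.swap 0 i j.2)) = q j
  rw [Equiv.swap_apply_self, Equiv.swap_apply_self]

theorem ThMp_coord {z : EH n} (hz : z ≠ 0) : ∃ i, z i ≠ 0 := by
  by_contra h
  push Not at h
  exact hz (PiLp.ext h)

/-- charts of `MH n` at every point -/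
theorem exists_chart {p : AM n} (hp : p ∈ MH n) :
    ∃ (O : Set (AM n)) (φ : (Fin n × Fin 2 → ℂ) → AM n) (χ : AM n → Fin n × Fin 2 → ℂ),
      IsOpen O ∧ Continuous φ ∧ ContinuousOn χ O ∧ p ∈ O ∧ (∀ a, φ a ∈ MH n ∩ O) ∧
      (∀ a, χ (φ a) = a) ∧ (∀ q ∈ MH n ∩ O, φ (χ q) = q) ∧ φ 0 = p := by
  obtain ⟨z, hz, rfl⟩ := hp
  obtain ⟨i, hi⟩ := ThMp_coord hz
  obtain ⟨O, χ, hO, hχ, h1, h2, h3, h4⟩ := exists_chart_inv (n := n)
  let σ : AM n → AM n := ThMp_pm (Equiv.swap 0 i)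
  have sc : Continuous σ := ThMp_cont _
  have si : ∀ q, σ (σ q) = q := ThMp_inv i
  have sm : ∀ q ∈ MH n, σ q ∈ MH n := fun q hq => ThMp_mem _ hq
  have pO : σ (pr z) ∈ O := by
    show ThMp_pm _ (pr z) ∈ O
    rw [ThMp_pr, h4 _ (ThMp_ne _ hz)]
    show z (Equiv.swap 0 i 0) ≠ 0
    rwa [Equiv.swap_apply_left]
  let a0 := cv (χ (σ (pr z)))
  have ca : Continuous fun a : EA n => pr (aff a) :=
    continuousOn_pr.comp_continuous continuous_aff fun a => aff_ne a
  have e : ∀ q ∈ MH n ∩ σ ⁻¹' O, σ (pr (aff (vc (cv (χ (σ q)) - a0 + a0)))) = q := by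
    intro q hq
    rw [sub_add_cancel, vc_cv, h3 _ ⟨sm q hq.1, hq.2⟩, si]
  refine ⟨σ ⁻¹' O, fun a => σ (pr (aff (vc (a + a0)))), fun q => cv (χ (σ q)) - a0,
    hO.preimage sc, sc.comp (ca.comp (continuous_vc.comp (continuous_id.add continuous_const))),
    (continuous_cv.comp_continuousOn (hχ.comp sc.continuousOn fun q hq => hq)).sub
      continuousOn_const, pO, fun a => ⟨sm _ (pr_mem (aff_ne _)), ?_⟩, fun a => ?_, e, ?_⟩
  · rw [mem_preimage, si]
    exact h1 _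
  · simp only [si, h2, cv_vc, add_sub_cancel_right]
  · have := e _ ⟨pr_mem hz, pO⟩
    rwa [show cv (χ (σ (pr z))) - a0 = 0 from sub_self _] at this

/-- classes with support in a point -/
theorem pt_gen {p : AM n} (hp : p ∈ MH n) {c : H (MH n) {p}} (hc : c ≠ 0) (a : H (MH n) {p}) :
    ∃ t : ℂ, a = t • c := by
  obtain ⟨O, φ, χ, hO, hφ, hχ, pO, h1, h2, h3, h4⟩ := exists_chart hp
  have b1 := res_excision_open (U := MH n) (Z := {p}) hO (.of_isClosed isClosed_singleton _)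
    fun x _ hx => (mem_singleton_iff.1 hx).symm ▸ pO
  have c0 : χ p = 0 := h4 ▸ h2 0
  have b2 : Function.Bijective (pull φ univ {0} : H (MH n ∩ O) {p} → _) := by
    refine pull_bij_of_inv (s := χ) (.of_mem (.of_continuous hφ _) (fun a _ => h1 a)
      fun a _ ha => ?_) (ok_of (lc_MH.inter hO.isLocallyClosed) (hχ.mono inter_subset_right)
      (mapsTo_univ _ _) fun q hq h0 => ?_) (fun a _ => h2 a) h3
    · rw [mem_singleton_iff] at ha ⊢
      rw [← h2 a, ha, c0]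
    · rw [mem_singleton_iff] at h0 ⊢
      rw [← h3 q hq, h0, h4]
  let Φ : H (MH n) {p} →ₗ[ℂ] H (univ : Set (Fin n × Fin 2 → ℂ)) {0} :=
    (pull φ univ {0}).comp (pull id (MH n ∩ O) {p})
  have b : Function.Injective Φ := b2.1.comp b1.1
  obtain ⟨s, hs⟩ := (fib_orient (Fin n × Fin 2)).gen (Φ c)
  obtain ⟨t, ht⟩ := (fib_orient (Fin n × Fin 2)).gen (Φ a)
  have s0 : s ≠ 0 := by
    rintro rfl
    exact hc (b (by rw [hs, zero_smul, map_zero]))
  exact ⟨t / s, b (by rw [map_smul, hs, ht, smul_smul, div_mul_cancel₀ _ s0])⟩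

theorem ThMp_res {p : AM n} (hp : p ∈ MH n) :
    pull id (MH n \ {p}) univ (uH n ^ n) = 0 := by
  obtain ⟨z, hz, rfl⟩ := hp
  obtain ⟨i, hi⟩ := ThMp_coord hz
  have lc : IsLocallyClosed (MH n \ {pr z}) :=
    lc_MH.inter isClosed_singleton.isOpen_compl.isLocallyClosed
  have cb := (ql_MH (n := n)).toCB
  let a : Fin n → EH n := fun j => WithLp.toLp 2 (Pi.single (i.succAbove j) 1 -
    Pi.single i (star ((z i)⁻¹ * z (i.succAbove j))))
  have ha : ∀ j w, H.hm w (a j) =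
      star (w (i.succAbove j) - w i * ((z i)⁻¹ * z (i.succAbove j))) := fun j w => by
    simp only [H.hm, a, Pi.sub_apply, sub_mul, Finset.sum_sub_distrib, Pi.single_apply, ite_mul,
      zero_mul, one_mul, Finset.sum_ite_eq', Finset.mem_univ, if_true, star_sub, star_mul]
  have := eu_pow_eq_zero (cb.mono lc sdiff_subset) (K := Fin n)
    (σ := fun j q => cm q *ᵥ cv (a j)) (fun j => ⟨?_, fun q hq => ?_, fun _ _ _ => trivial⟩) ?_
  · rw [pull_pow (.id sdiff_subset fun _ _ _ => trivial), uH, eu_res cb lc sdiff_subset]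
    rwa [Fintype.card_fin] at this
  · exact (continuous_cm.matrix_mulVec continuous_const).continuousOn
  · rw [mulVec_mulVec, cb.idem q hq.1]
  · rintro _ ⟨⟨w, hw, rfl⟩, hq⟩
    by_contra h
    push Not at h
    have k : ∀ j, w (i.succAbove j) = w i * ((z i)⁻¹ * z (i.succAbove j)) := fun j => by
      have e := h j
      rw [cm_mulVec, cv_eq_zero, rm_pr, smul_eq_zero_iff_left hw] at e
      replace e : (‖w‖ ^ 2)⁻¹ • H.hm w (a j) = 0 := e
      rwa [smul_eq_zero_iff_right (inv_ne_zero (pow_ne_zero _ (norm_ne_zero_iff.2 hw))), ha,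
        star_eq_zero, sub_eq_zero] at e
    have e : w = (w i * (z i)⁻¹) • z := by
      ext1 l
      rw [PiLp.smul_apply, smul_eq_mul, mul_assoc]
      obtain rfl | ⟨j, rfl⟩ := Fin.eq_self_or_eq_succAbove i l
      · rw [inv_mul_cancel₀ hi, mul_one]
      · exact k j
    refine hq ?_
    have c0 : w i * (z i)⁻¹ ≠ 0 := fun c0 => hw (by rw [e, c0, zero_smul])
    rw [mem_singleton_iff, e, pr_smul c0]

theorem ThMp_cls {p : AM n} (hp : p ∈ MH n) :
    ∃ c : H (MH n) {p}, c ≠ 0 ∧ pull id (MH n) univ c = uH n ^ n := by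
  obtain ⟨c, hc⟩ := (exact_supp_res (U := MH n) (Z := univ) (Z₁ := {p}) (U₂ := MH n \ {p})
    (Z₂ := univ) rfl (by simp) _).1 (ThMp_res hp)
  refine ⟨c, ?_, hc⟩
  rintro rfl
  exact uH_pow_ne le_rfl (hc.symm.trans (map_zero _))

theorem pt_fgt_inj {p : AM n} (hp : p ∈ MH n) :
    Function.Injective (pull id (MH n) univ : H (MH n) {p} → _) := by
  obtain ⟨c, c0, hc⟩ := ThMp_cls hp
  refine (injective_iff_map_eq_zero (pull id (MH n) univ : H (MH n) {p} →ₗ[ℂ] _)).2 fun a ha => ?_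
  obtain ⟨t, rfl⟩ := pt_gen hp c0 a
  rw [map_smul, hc, smul_eq_zero_iff_left (uH_pow_ne le_rfl)] at ha
  rw [ha, zero_smul]

theorem res_pt_surj {p : AM n} (hp : p ∈ MH n) :
    Function.Surjective (pull id (MH n \ {p}) univ : H (MH n) univ → _) := by
  intro b
  refine (exact_res_dlt (U := MH n) (Z := univ) (Z₁ := {p}) (U₂ := MH n \ {p})
    (Z₂ := univ) rfl (by simp) b).1 (pt_fgt_inj hp ?_)
  rw [map_zero]
  exact (exact_dlt_supp (U := MH n) (Z := univ) (Z₁ := {p}) (U₂ := MH n \ {p})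
    (Z₂ := univ) rfl (by simp) _).2 ⟨b, rfl⟩

theorem res_pt_eq_zero {p : AM n} (hp : p ∈ MH n) {a : H (MH n) univ} :
    pull id (MH n \ {p}) univ a = 0 ↔ ∃ t : ℂ, a = t • uH n ^ n := by
  obtain ⟨c, c0, hc⟩ := ThMp_cls hp
  refine ⟨fun h => ?_, ?_⟩
  · obtain ⟨b, rfl⟩ := (exact_supp_res (U := MH n) (Z := univ) (Z₁ := {p}) (U₂ := MH n \ {p})
      (Z₂ := univ) rfl (by simp) _).1 h
    obtain ⟨t, rfl⟩ := pt_gen hp c0 b
    exact ⟨t, by rw [map_smul, hc]⟩
  · rintro ⟨t, rfl⟩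
    rw [map_smul, ThMp_res hp, smul_zero]

end Pool.Agent.Work.MP_8c604c_gt.T
end
end
end

-- merged part: Pool.Agent.Work.MP_8c604c_gt.OT.Cut
section
-- merged part: Pool.Agent.Work.MP_8c604c_gt.OT.Sl
section
/-!
Integration over a compact factor (owner helper12).
-/

noncomputable section

set_option linter.unusedSectionVars false

namespace Pool.Agent.Work.MP_8c604c_gt.OT

open Set Topology Pool.Agent.Work.MP_849ab0_ag.G T

variable {X X' Y Y' : Type} [TopologicalSpace X] [TopologicalSpace X'] [TopologicalSpace Y]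
  [TopologicalSpace Y'] {U Z Z₁ Z₂ : Set X} {U' Z' : Set X'} {C : Set Y} {C' : Set Y'}
  {W W' : Set (X × Y)} {n n' p : ℤ} {ω : H C univ} {ω' : H C' univ}

/-- the exterior product -/
def xp (a : H U Z) (c : H C univ) : H (U ×ˢ C) (Z ×ˢ univ) :=
  cup (U ×ˢ C) (Z ×ˢ univ) (pull Prod.fst (U ×ˢ C) (Z ×ˢ univ) a) (pull Prod.snd (U ×ˢ C) univ c)

/-- `C` is compact with finite dimensional cohomology, `ω` spans the top degree `n`. -/
structure Top (C : Set Y) (n : ℤ) (ω : H C univ) : Prop where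
  cpt : IsCompact C
  bas : ∃ (ι : Type) (_ : Fintype ι) (c : ι → H C univ) (k : ι → ℤ) (i₀ : ι),
    (∀ i, IsDeg (k i) (c i)) ∧ (Function.Bijective fun a : ι → ℂ => ∑ i, a i • c i) ∧
    c i₀ = ω ∧ k i₀ = n ∧ ∀ i, i ≠ i₀ → k i < n

/-- the defining property of the integral -/
def IsSl (n : ℤ) (ω : H C univ) (L : H (U ×ˢ C) (Z ×ˢ univ) →ₗ[ℂ] H U Z) : Prop :=
  ∀ a, L (xp a ω) = a ∧ ∀ p < n, ∀ c, IsDeg p c → L (xp a c) = 0

/-- integration over `C` -/
def sl (n : ℤ) (ω : H C univ) (U Z : Set X) {W : Set (X × Y)} : H (U ×ˢ C) W →ₗ[ℂ] H U Z :=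
  Classical.epsilon (IsSl n ω) ∘ₗ pull id (U ×ˢ C) (Z ×ˢ univ)

theorem xp_add (a a' : H U Z) (c : H C univ) : xp (a + a') c = xp a c + xp a' c := by
  simp only [xp, map_add, LinearMap.add_apply]

theorem xp_smul (t : ℂ) (a : H U Z) (c : H C univ) : xp (t • a) c = t • xp a c := by
  simp only [xp, map_smul, LinearMap.smul_apply]

theorem xp_smul' (t : ℂ) (a : H U Z) (c : H C univ) : xp a (t • c) = t • xp a c := by
  simp only [xp, map_smul]

theorem xp_sum' {ι : Type} (s : Finset ι) (a : H U Z) (c : ι → H C univ) :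
    xp a (∑ i ∈ s, c i) = ∑ i ∈ s, xp a (c i) := by simp only [xp, map_sum]

theorem isDeg_xp {q : ℤ} {a : H U Z} {c : H C univ} (ha : IsDeg p a) (hc : IsDeg q c) :
    IsDeg (p + q) (xp a c) := (ha.pull _ _ _).cup (hc.pull _ _ _) _ _

theorem ok_map {f : X' → X} {g : Y' → Y} (hf : Ok f U' Z' U Z) (hg : Ok g C' univ C univ) :
    Ok (Prod.map f g) (U' ×ˢ C') (Z' ×ˢ univ) (U ×ˢ C) (Z ×ˢ univ) :=
  .of_mem (hf.ext.prodMap hg.ext) (fun _ h => ⟨hf.maps h.1, hg.maps h.2⟩)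
    fun _ h k => ⟨hf.mem h.1 k.1, trivial⟩

theorem pull_xp {f : X' → X} {g : Y' → Y} (hf : Ok f U' Z' U Z) (hg : Ok g C' univ C univ)
    (a : H U Z) (c : H C univ) : pull (Prod.map f g) (U' ×ˢ C') (Z' ×ˢ univ) (xp a c) =
      xp (pull f U' Z' a) (pull g C' univ c) := by
  have o := ok_map hf hg
  rw [xp, pull_cup' o o (Ok.top o) (fun _ _ k _ => k) (cupU' _ _),
    pull_pull' (F := f ∘ Prod.fst) o (ok_fst _ _ _) fun _ _ => rfl,
    pull_pull' (F := g ∘ Prod.snd) (Ok.top o) (ok_snd' _ _) fun _ _ => rfl, xp,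
    pull_pull (ok_fst _ _ _) hf, pull_pull (ok_snd' _ _) hg]

/-- the absolute form of the exterior product -/
theorem fgt_xp (a : H U Z) (c : H C univ) : pull id (U ×ˢ C) univ (xp a c) =
    pull Prod.fst (U ×ˢ C) univ a * pull Prod.snd (U ×ˢ C) univ c := by
  rw [xp, res_cup (ok_fgt subset_rfl) (ok_fgt subset_rfl) .refl (cupU _ _) (cupU' _ _), pull_id,
    pull_pull' (ok_fgt subset_rfl) (ok_fst _ _ _) fun _ _ => rfl, mulH]
  rfl

theorem okZ (h : ∀ x ∈ U ×ˢ C, x ∈ W → x.1 ∈ Z) : Ok id (U ×ˢ C) (Z ×ˢ univ) (U ×ˢ C) W :=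
  .id subset_rfl fun x k e => ⟨h x k e, trivial⟩

theorem sl_res (h : ∀ x ∈ U ×ˢ C, x ∈ W → x ∈ W') (h' : ∀ x ∈ U ×ˢ C, x ∈ W' → x.1 ∈ Z)
    (b : H (U ×ˢ C) W) : sl n ω U Z (pull id (U ×ˢ C) W' b) = sl n ω U Z b := by
  simp only [sl, LinearMap.comp_apply]
  rw [pull_pull' (F := id) (okZ h') (.id subset_rfl h) fun _ _ => rfl]

theorem sl_resZ (b : H (U ×ˢ C) W) :
    sl n ω U Z (pull id (U ×ˢ C) (Z ×ˢ univ) b) = sl n ω U Z b := by
  simp only [sl, LinearMap.comp_apply, pull_id]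

theorem sl_fgt (b : H (U ×ˢ C) W) :
    sl n ω U univ (pull id (U ×ˢ C) univ b) = sl n ω U univ b :=
  sl_res (fun _ _ _ => mem_univ _) (fun _ _ _ => mem_univ _) b

theorem ok_assoc (U Z : Set X) (C : Set Y) (C' : Set Y') :
    Ok (fun x : X × Y × Y' => ((x.1, x.2.1), x.2.2)) (U ×ˢ C ×ˢ C') (Z ×ˢ univ) ((U ×ˢ C) ×ˢ C')
      ((Z ×ˢ univ) ×ˢ univ) :=
  .of_mem (.of_continuous (by fun_prop) _) (fun _ k => ⟨⟨k.1, k.2.1⟩, k.2.2⟩)
    fun _ _ k => ⟨k.1.1, trivial⟩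

theorem pull_xp_xp (a : H U Z) (c : H C univ) (c' : H C' univ) :
    pull (fun x : X × Y × Y' => ((x.1, x.2.1), x.2.2)) (U ×ˢ C ×ˢ C') (Z ×ˢ univ) (xp (xp a c) c') =
      xp a (pull Prod.fst (C ×ˢ C') univ c * pull Prod.snd (C ×ˢ C') univ c') := by
  have o := ok_assoc U Z C C'
  have o1 := (ok_fst _ _ _).comp o
  rw [xp, pull_cup' o o (Ok.top o) (fun _ _ k _ => k) (cupU' _ _), pull_pull o (ok_fst _ _ _),
    pull_pull (Ok.top o) (ok_snd' _ _), xp,
    pull_cup' o1 o1 (Ok.top o1) (fun _ _ k _ => k) (cupU' _ _), pull_pull o1 (ok_fst _ _ _),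
    pull_pull (Ok.top o1) (ok_snd' _ _), xp, pull_mul (ok_snd' _ _),
    pull_pull (ok_snd' _ _) (ok_fst' _ _), pull_pull (ok_snd' _ _) (ok_snd' _ _), mulH,
    cup_assoc (cupU' _ _) (cupU' _ _) (cupU _ _) (cupU' _ _)]
  rfl

variable [RegularSpace X] [SecondCountableTopology X] [RegularSpace X'] [SecondCountableTopology X']
  [RegularSpace Y] [SecondCountableTopology Y] [RegularSpace Y'] [SecondCountableTopology Y']

namespace Top

variable (h : Top C n ω)
include h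

theorem deg : IsDeg n ω := by
  obtain ⟨ι, _, c, k, i₀, h1, -, rfl, rfl, -⟩ := h.bas
  exact h1 i₀

theorem exists_isSl (U Z : Set X) : ∃ L : H (U ×ˢ C) (Z ×ˢ univ) →ₗ[ℂ] H U Z, IsSl n ω L := by
  classical
  obtain ⟨ι, _, c, k, i₀, h1, h2, rfl, rfl, h3⟩ := h.bas
  let Ψ : (ι → H U Z) →ₗ[ℂ] H (U ×ˢ C) (Z ×ˢ univ) := ∑ i, (cup (U ×ˢ C) (Z ×ˢ univ)).flip
    (pull Prod.snd (U ×ˢ C) univ (c i)) ∘ₗ pull Prod.fst (U ×ˢ C) (Z ×ˢ univ) ∘ₗ LinearMap.proj i
  have e : ∀ a, Ψ a = ∑ i, xp (a i) (c i) := fun a => by simp [Ψ, xp]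
  have b : Function.Bijective Ψ := by
    rw [show ⇑Ψ = _ from funext e]
    exact lh_prod h.cpt h1 h2 U Z
  have s : ∀ a i, (LinearEquiv.ofBijective Ψ b).symm (xp a (c i)) = Pi.single i a := fun a i => by
    rw [LinearEquiv.symm_apply_eq, LinearEquiv.ofBijective_apply, e, Finset.sum_eq_single i]
    · simp
    · intro j _ hj
      simp [Pi.single_eq_of_ne hj, xp]
    · simp
  refine ⟨LinearMap.proj i₀ ∘ₗ (LinearEquiv.ofBijective Ψ b).symm.toLinearMap, fun a =>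
    ⟨by simp [s], fun p hp c' hc => ?_⟩⟩
  obtain ⟨t, rfl⟩ := h2.2 c'
  have e2 : ∑ i, t i • c i = ∑ i, if k i = p then t i • c i else 0 := by
    refine (isDeg_iff.1 hc).symm.trans ?_
    simp only
    rw [map_sum]
    refine Finset.sum_congr rfl fun i _ => ?_
    split_ifs with q
    · exact ((h1 i).smul _).prj_eq q
    · exact ((h1 i).smul _).prj_eq_zero q
  simp only
  rw [e2, xp_sum', map_sum]
  refine Finset.sum_eq_zero fun i _ => ?_
  split_ifs with q
  · have : i₀ ≠ i := by rintro rfl; omega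
    simp [xp_smul', s, Pi.single_eq_of_ne this]
  · simp [xp]

theorem sl_top (a : H U Z) : sl n ω U Z (xp a ω) = a := by
  simp only [sl, LinearMap.comp_apply, pull_id]
  exact (Classical.epsilon_spec (h.exists_isSl U Z) a).1

theorem sl_low (a : H U Z) (hp : p < n) {c : H C univ} (hc : IsDeg p c) :
    sl n ω U Z (xp a c) = 0 := by
  simp only [sl, LinearMap.comp_apply, pull_id]
  exact (Classical.epsilon_spec (h.exists_isSl U Z) a).2 p hp c hc

/-- every class is a sum of exterior products -/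
theorem ind {P : H (U ×ˢ C) (Z ×ˢ univ) → Prop} (h0 : P 0) (ha : ∀ b b', P b → P b' → P (b + b'))
    (h1 : ∀ a, P (xp a ω)) (h2 : ∀ a, ∀ p < n, ∀ c, IsDeg p c → P (xp a c))
    (b : H (U ×ˢ C) (Z ×ˢ univ)) : P b := by
  obtain ⟨ι, _, c, k, i₀, k1, k2, rfl, rfl, k3⟩ := h.bas
  obtain ⟨a, rfl⟩ := (lh_prod h.cpt k1 k2 U Z).2 b
  refine Finset.sum_induction _ P ha h0 fun i _ => ?_
  by_cases e : i = i₀
  · exact e ▸ h1 _
  · exact h2 _ _ (k3 i e) _ (k1 i)

theorem ext {A : Type} [AddCommGroup A] [Module ℂ A] {F G : H (U ×ˢ C) (Z ×ˢ univ) →ₗ[ℂ] A}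
    (h1 : ∀ a, F (xp a ω) = G (xp a ω)) (h2 : ∀ a, ∀ p < n, ∀ c, IsDeg p c → F (xp a c) = G (xp a c))
    (b : H (U ×ˢ C) (Z ×ˢ univ)) : F b = G b :=
  h.ind (P := fun b => F b = G b) (by simp) (fun _ _ k k' => by rw [map_add, map_add, k, k']) h1 h2 b

theorem sl_prj {s t : Set ℤ} (e : ∀ p, p + n ∈ t ↔ p ∈ s) (b : H (U ×ˢ C) W) :
    sl n ω U Z (prj t b) = prj s (sl n ω U Z b) := by
  have := h.ext (U := U) (Z := Z) (F := sl n ω U Z ∘ₗ prj t) (G := prj s ∘ₗ sl n ω U Z)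
    (fun a => ?_) (fun a p hp c hc => ?_) (pull id _ _ b)
  · simpa only [sl, LinearMap.comp_apply, pull_id, pull_prj] using this
  · rw [LinearMap.comp_apply, LinearMap.comp_apply, h.sl_top, xp,
      ← cup_prj_left e _ (h.deg.pull _ _ _), ← pull_prj]
    exact h.sl_top _
  · rw [LinearMap.comp_apply, LinearMap.comp_apply, h.sl_low _ hp hc, map_zero, xp,
      ← cup_prj_left (s := {q | q + p ∈ t}) (t := t) (fun _ => Iff.rfl) _ (hc.pull _ _ _), ← pull_prj]
    exact h.sl_low _ hp hc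

theorem sl_deg {b : H (U ×ˢ C) W} (hb : IsDeg (p + n) b) : IsDeg p (sl n ω U Z b) :=
  isDeg_iff.2 (by rw [← h.sl_prj (t := {p + n}) (by simp), isDeg_iff.1 hb])

/-- change of both factors -/
theorem sl_map (h' : Top C' n ω') {f : X' → X} {g : Y' → Y} (hf : Ok f U' Z' U Z)
    (hg : Ok g C' univ C univ) {k : ℂ} (e : pull g C' univ ω = k • ω') {W₁ : Set (X' × Y')}
    (hW : ∀ x ∈ U ×ˢ C, x ∈ W → x.1 ∈ Z) (hW₁ : ∀ x ∈ U' ×ˢ C', x ∈ W₁ → x.1 ∈ Z')
    (hm : ∀ x ∈ U' ×ˢ C', Prod.map f g x ∈ W → x ∈ W₁) (b : H (U ×ˢ C) W) :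
    sl n ω' U' Z' (pull (Prod.map f g) (U' ×ˢ C') W₁ b) = k • pull f U' Z' (sl n ω U Z b) := by
  have o := ok_map hf hg
  have := h.ext (U := U) (Z := Z) (F := sl n ω' U' Z' ∘ₗ pull (Prod.map f g) (U' ×ˢ C') (Z' ×ˢ univ))
    (G := k • pull f U' Z' ∘ₗ sl n ω U Z) (fun a => ?_) (fun a p hp c hc => ?_) (pull id _ _ b)
  · simp only [LinearMap.comp_apply, LinearMap.smul_apply] at this
    rw [sl_resZ, pull_pull' (F := Prod.map f g) o (okZ hW) fun _ _ => rfl] at this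
    rw [← this, ← sl_resZ,
      pull_pull' (F := Prod.map f g) (okZ hW₁) (.of_mem o.ext o.maps hm) fun _ _ => rfl]
  · simp only [LinearMap.comp_apply, LinearMap.smul_apply]
    rw [pull_xp hf hg, e, xp_smul', map_smul, h'.sl_top, h.sl_top]
  · simp only [LinearMap.comp_apply, LinearMap.smul_apply]
    rw [pull_xp hf hg, h'.sl_low _ hp (hc.pull _ _ _), h.sl_low _ hp hc, map_zero, smul_zero]

/-- naturality in the first factor -/
theorem sl_nat {f : X' → X} (hf : Ok f U' Z' U Z) {W₁ : Set (X' × Y)}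
    (hW : ∀ x ∈ U ×ˢ C, x ∈ W → x.1 ∈ Z) (hW₁ : ∀ x ∈ U' ×ˢ C, x ∈ W₁ → x.1 ∈ Z')
    (hm : ∀ x ∈ U' ×ˢ C, (f x.1, x.2) ∈ W → x ∈ W₁) (b : H (U ×ˢ C) W) :
    sl n ω U' Z' (pull (Prod.map f id) (U' ×ˢ C) W₁ b) = pull f U' Z' (sl n ω U Z b) := by
  rw [h.sl_map h hf .refl (k := 1) (by rw [pull_id, one_smul]) hW hW₁ hm, one_smul]

/-- enlarging the support of the integral -/
theorem res_sl (hW : ∀ x ∈ U ×ˢ C, x ∈ W → x.1 ∈ Z) (hZ : ∀ x ∈ U, x ∈ Z → x ∈ Z₁)
    (b : H (U ×ˢ C) W) : pull id U Z₁ (sl n ω U Z b) = sl n ω U Z₁ b := by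
  rw [← h.sl_nat (.id subset_rfl hZ) hW (fun x k e => hZ _ k.1 (hW x k e)) (fun _ _ k => k),
    Prod.map_id, pull_id]

/-- the projection formula -/
theorem sl_cup {W₁ W₂ : Set (X × Y)} (hW : ∀ x ∈ U ×ˢ C, x ∈ W → x.1 ∈ Z)
    (h1 : ∀ x ∈ U ×ˢ C, x.1 ∈ Z₁ → x ∈ W₁) (h2 : ∀ x ∈ U ×ˢ C, x ∈ W₂ → x.1 ∈ Z₂)
    (h3 : ∀ x ∈ U ×ˢ C, x ∈ W₁ → x ∈ W₂ → x ∈ W) (hZ : ∀ x ∈ U, x ∈ Z₁ → x ∈ Z₂ → x ∈ Z)
    (a : H U Z₁) (b : H (U ×ˢ C) W₂) :
    sl n ω U Z (cup (U ×ˢ C) W (pull Prod.fst (U ×ˢ C) W₁ a) b) = cup U Z a (sl n ω U Z₂ b) := by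
  have c1 : CupOK (U ×ˢ C) (Z₁ ×ˢ univ) (U ×ˢ C) (Z₂ ×ˢ univ) (U ×ˢ C) (Z ×ˢ (univ : Set Y)) :=
    cupOK fun x k e e' => ⟨hZ _ k.1 e.1 e'.1, trivial⟩
  have key : ∀ (a' : H U Z₂) (c : H C univ), cup (U ×ˢ C) (Z ×ˢ univ)
      (pull Prod.fst (U ×ˢ C) (Z₁ ×ˢ univ) a) (xp a' c) = xp (cup U Z a a') c := fun a' c => by
    rw [xp, ← cup_assoc c1 (cupU' _ _) (cupU' _ _) c1, xp,
      pull_cup' (ok_fst _ _ _) (ok_fst _ _ _) (ok_fst _ _ _) (fun x k e e' => ⟨hZ _ k.1 e.1 e'.1, trivial⟩)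
        (cupOK hZ)]
  have := h.ext (U := U) (Z := Z₂) (F := sl n ω U Z ∘ₗ cup (U ×ˢ C) (Z ×ˢ univ)
    (pull Prod.fst (U ×ˢ C) (Z₁ ×ˢ univ) a)) (G := cup U Z a ∘ₗ sl n ω U Z₂)
    (fun a => ?_) (fun a p hp c hc => ?_) (pull id _ _ b)
  · simp only [LinearMap.comp_apply] at this
    have o : Ok id (U ×ˢ C) W₁ (U ×ˢ C) (Z₁ ×ˢ univ) := .id subset_rfl fun x k e => h1 x k e.1
    have c2 : CupOK (U ×ˢ C) W₁ (U ×ˢ C) W₂ (U ×ˢ C) (Z ×ˢ (univ : Set Y)) :=
      cupOK fun x k e e' => ⟨hW x k (h3 x k e e'), trivial⟩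
    rw [sl_resZ, cup_res_right (okZ h2) c1] at this
    rw [← this, ← sl_resZ, res_cup_out (okZ hW) (cupOK h3),
      ← pull_pull' (F := Prod.fst) o (ok_fst U Z₁ C) fun _ _ => rfl, cup_res_left o c2]
  · simp only [LinearMap.comp_apply]
    rw [key, h.sl_top, h.sl_top]
  · simp only [LinearMap.comp_apply]
    rw [key, h.sl_low _ hp hc, h.sl_low _ hp hc, map_zero]

theorem sl_mul (a : H U univ) (b : H (U ×ˢ C) univ) :
    sl n ω U univ (pull Prod.fst (U ×ˢ C) univ a * b) = a * sl n ω U univ b :=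
  h.sl_cup (fun _ _ _ => mem_univ _) (fun _ _ _ => mem_univ _) (fun _ _ _ => mem_univ _)
    (fun _ _ _ _ => mem_univ _) (fun _ _ _ _ => mem_univ _) a b

theorem sl_snd : sl n ω U univ (pull Prod.snd (U ×ˢ C) univ ω) = 1 := by
  rw [← h.sl_top (1 : H U univ), ← sl_fgt (xp _ _), fgt_xp, pull_oneH (ok_fst' _ _), one_mul]

theorem sl_snd_low (hp : p < n) {c : H C univ} (hc : IsDeg p c) :
    sl n ω U univ (pull Prod.snd (U ×ˢ C) univ c) = 0 := by
  rw [← h.sl_low (1 : H U univ) hp hc, ← sl_fgt (xp _ _), fgt_xp, pull_oneH (ok_fst' _ _), one_mul]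

/-- products -/
theorem prod (h' : Top C' n' ω') {D : Set (Y × Y')} (e : D = C ×ˢ C') :
    Top D (n + n') (pull Prod.fst D univ ω * pull Prod.snd D univ ω') := by
  subst e
  obtain ⟨ι, _, c, k, i₀, k1, k2, rfl, rfl, k3⟩ := h.bas
  obtain ⟨ι', _, c', k', i₁, l1, l2, rfl, rfl, l3⟩ := h'.bas
  refine ⟨h.cpt.prod h'.cpt, ι × ι', inferInstance, _, fun i => k i.1 + k' i.2, (i₀, i₁),
    fun i => IsDeg.mulH ((k1 _).pull _ _ _) ((l1 _).pull _ _ _), basis_prod h'.cpt l1 l2 k2, rfl, rfl,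
    fun i hi => ?_⟩
  have a := k3 i.1
  have b := l3 i.2
  by_cases e : i.1 = i₀ <;> by_cases e' : i.2 = i₁
  · exact (hi (Prod.ext e e')).elim
  · have := b e'
    simp only [e]
    omega
  · have := a e
    simp only [e']
    omega
  · have := a e
    have := b e'
    simp only
    omega

theorem van (hp : n < p) {c : H C univ} (hc : IsDeg p c) : c = 0 := by
  obtain ⟨ι, _, c', k, i₀, k1, k2, rfl, rfl, k3⟩ := h.bas
  obtain ⟨t, rfl⟩ := k2.2 c
  rw [← isDeg_iff.1 hc, map_sum]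
  refine Finset.sum_eq_zero fun i _ => ((k1 i).smul _).prj_eq_zero fun q => ?_
  have q : k i = p := q
  by_cases e : i = i₀
  · subst e; omega
  · have := k3 i e
    omega

/-- iterated integrals -/
theorem sl_fub (h' : Top C' n' ω') {D : Set (Y × Y')} (e : D = C ×ˢ C') {W₁ : Set ((X × Y) × Y')}
    {W₂ : Set (X × Y × Y')} (h1 : ∀ x ∈ (U ×ˢ C) ×ˢ C', x ∈ W₁ → x.1 ∈ W)
    (hW : ∀ x ∈ U ×ˢ C, x ∈ W → x.1 ∈ Z) (h2 : ∀ x ∈ U ×ˢ D, x ∈ W₂ → x.1 ∈ Z)
    (hm : ∀ x ∈ U ×ˢ D, ((x.1, x.2.1), x.2.2) ∈ W₁ → x ∈ W₂) (b : H ((U ×ˢ C) ×ˢ C') W₁) :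
    sl (n + n') (pull Prod.fst D univ ω * pull Prod.snd D univ ω') U Z
      (pull (fun x => ((x.1, x.2.1), x.2.2)) (U ×ˢ D) W₂ b) =
      sl n ω U Z (sl n' ω' (U ×ˢ C) W b) := by
  have t := h.prod h' e
  subst e
  have o := ok_assoc U Z C C'
  have k1 : ∀ x ∈ (U ×ˢ C) ×ˢ C', x ∈ W₁ → x.1 ∈ Z ×ˢ (univ : Set Y) := fun x k e =>
    ⟨hW _ k.1 (h1 x k e), trivial⟩
  have := h'.ext (U := U ×ˢ C) (Z := Z ×ˢ univ) (F := sl (n + n') (pull Prod.fst (C ×ˢ C') univ ω *
    pull Prod.snd (C ×ˢ C') univ ω') U Z ∘ₗ pull (fun x : X × Y × Y' => ((x.1, x.2.1), x.2.2)) _ (Z ×ˢ univ))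
    (G := sl n ω U Z ∘ₗ sl n' ω' _ (Z ×ˢ univ)) (fun a => ?_) (fun a p hp c hc => ?_) (pull id _ _ b)
  · simp only [LinearMap.comp_apply] at this
    rw [sl_resZ, pull_pull' o (okZ k1) fun _ _ => rfl] at this
    rw [← sl_resZ, pull_pull' (okZ h2) (.of_mem o.ext o.maps hm) fun _ _ => rfl, ← sl_resZ (sl _ _ _ _ _),
      h'.res_sl (Z₁ := Z ×ˢ univ) h1 fun x k e => ⟨hW x k e, trivial⟩]
    exact this
  · simp only [LinearMap.comp_apply]
    rw [h'.sl_top]
    refine h.ind (P := fun a => sl _ _ U Z (pull _ _ (Z ×ˢ univ) (xp a ω')) = sl n ω U Z a)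
      (by simp [xp]) (fun _ _ k k' => by simp only [xp_add, map_add, k, k']) (fun a => ?_)
      (fun a p hp c hc => ?_) a
    · rw [pull_xp_xp, t.sl_top, h.sl_top]
    · rw [pull_xp_xp, h.sl_low _ hp hc, t.sl_low _ (p := p + n') (by omega)
        (IsDeg.mulH (hc.pull _ _ _) (h'.deg.pull _ _ _))]
  · simp only [LinearMap.comp_apply]
    rw [h'.sl_low _ hp hc, map_zero]
    refine h.ind (P := fun a => sl _ _ U Z (pull _ _ (Z ×ˢ univ) (xp a c)) = 0)
      (by simp [xp]) (fun _ _ k k' => by simp only [xp_add, map_add, k, k', add_zero]) (fun a => ?_)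
      (fun a q hq c' hc' => ?_) a
    · rw [pull_xp_xp, t.sl_low _ (p := n + p) (by omega)
        (IsDeg.mulH (h.deg.pull _ _ _) (hc.pull _ _ _))]
    · rw [pull_xp_xp, t.sl_low _ (p := q + p) (by omega)
        (IsDeg.mulH (hc'.pull _ _ _) (hc.pull _ _ _))]

end Top

end Pool.Agent.Work.MP_8c604c_gt.OT
end
end

-- merged part: Pool.Agent.Work.MP_8c604c_gt.OT.Cut
section
/-!
The part of a class that is supported in a region, and integrals over regions (owner helper12).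
-/

noncomputable section

set_option linter.unusedSectionVars false

namespace Pool.Agent.Work.MP_8c604c_gt.OT

open Set Topology Filter Pool.Agent.Work.MP_849ab0_ag.G T

variable {X X' : Type} [TopologicalSpace X] [TopologicalSpace X']
  {O O₁ O₂ U Z W W' Z₁ U₁ W₁ U₂ Z₂ : Set X} {O' U' Z' V' : Set X'} {φ : List X → ℂ} {x : X} {p : ℤ}

/-- the support does not meet the frontier of `O`, and its part in `O` lies in `W` -/
structure CutOK (O U Z W : Set X) : Prop where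
  nf : ∀ x ∈ U, x ∈ Z → x ∉ frontier O
  sub : ∀ x ∈ U, x ∈ Z → x ∈ O → x ∈ W

theorem ev_in (h : x ∉ frontier O) (k : x ∈ O) : ∀ᶠ y in 𝓝 x, y ∈ O :=
  mem_interior_iff_mem_nhds.1 (by_contra fun e => h ⟨subset_closure k, e⟩)

theorem ev_out (h : x ∉ frontier O) (k : x ∉ O) : ∀ᶠ y in 𝓝 x, y ∉ O :=
  ev_in (O := Oᶜ) (by rwa [frontier_compl]) k

theorem nf_of_ev {P : Prop} (h : ∀ᶠ y in 𝓝 x, y ∈ O ↔ P) : x ∉ frontier O := fun k => by
  by_cases e : P
  · exact k.2 (mem_interior_iff_mem_nhds.2 (h.mono fun _ a => a.2 e))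
  · exact (mem_closure_iff_frequently.1 k.1) (h.mono fun _ a b => e (a.1 b))

theorem lz_pt {A : Set X} (h : ∀ x ∈ A, φ ∈ lz {x}) : φ ∈ lz A := fun x k => h x k x rfl

theorem lz_at {A : Set X} (h : φ ∈ lz A) (k : x ∈ A) : φ ∈ lz {x} :=
  lz_anti (singleton_subset_iff.2 k) h

theorem cut_in (h : ∀ᶠ y in 𝓝 x, y ∈ O) (h0 : φ [] = 0) : φ - cut O φ ∈ lz {x} := by
  rintro _ rfl
  refine ⟨_, h, fun l hl => ?_⟩
  cases l with
  | nil => simp [h0, cut_nil]
  | cons a l => exact sub_eq_zero.2 (cut_of_mem φ l (hl a List.mem_cons_self)).symm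

theorem cut_out (h : ∀ᶠ y in 𝓝 x, y ∉ O) (φ : List X → ℂ) : cut O φ ∈ lz {x} := by
  rintro _ rfl
  refine ⟨_, h, fun l hl => ?_⟩
  cases l with
  | nil => exact cut_nil _ _
  | cons a l => exact cut_of_not_mem φ l (hl a List.mem_cons_self)

theorem CutOK.nul (h : CutOK O U Z W) (k : φ ∈ lz (U \ Z)) : cut O φ ∈ lz (U \ W) :=
  lz_pt fun x hx => by
    by_cases e : x ∈ Z
    · exact cut_out (ev_out (h.nf x hx.1 e) fun a => hx.2 (h.sub x hx.1 e a)) _
    · exact cut_lz _ (lz_at k ⟨hx.1, e⟩)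

theorem CutOK.com (h : CutOK O U Z W) (h0 : φ [] = 0) (k : φ ∈ lz (U \ Z)) :
    cut O (dl φ) - dl (cut O φ) ∈ lz U := lz_pt fun x hx => by
  by_cases e : x ∈ Z
  · by_cases a : x ∈ O
    · have := ev_in (h.nf x hx e) a
      convert sub_mem (dl_lz (cut_in this h0)) (cut_in (φ := dl φ) this rfl) using 1
      rw [map_sub]
      abel
    · have := ev_out (h.nf x hx e) a
      exact sub_mem (cut_out this _) (dl_lz (cut_out this _))
  · have := lz_at k ⟨hx, e⟩
    exact sub_mem (cut_lz _ (dl_lz this)) (dl_lz (cut_lz _ this))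

theorem CutOK.zc (h : CutOK O U Z W) (k : φ ∈ Zc U Z) : cut O φ ∈ Zc U W := by
  obtain ⟨k1, k2, k3⟩ := mem_Zc.1 k
  refine mem_Zc.2 ⟨cut_bd _ k1, ?_, h.nul k3⟩
  simpa using sub_mem (cut_lz O k2) (h.com k1.1 k3)

open Classical in
/-- the part of a class in the region `O` -/
def cutH (O U W : Set X) {Z : Set X} : H U Z →ₗ[ℂ] H U W :=
  if h : CutOK O U Z W then mapH (cut O) (fun _ => h.zc) fun φ _ k => by
    obtain ⟨ψ, k1, k2, k3⟩ := mem_Bc.1 k
    refine mem_Bc.2 ⟨cut O ψ, cut_bd _ k1, h.nul k2, ?_⟩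
    convert add_mem (cut_lz O k3) (h.com k1.1 k2) using 1
    rw [map_sub]
    abel
  else 0

namespace CutOK

theorem cut_cls (h : CutOK O U Z W) (k : φ ∈ Zc U Z) : cutH O U W (cls U Z φ) = cls U W (cut O φ) := by
  rw [cutH, dif_pos h, mapH_cls _ _ k]

theorem mono (h : CutOK O U Z W) (k : ∀ x ∈ U, x ∈ Z₁ → x ∈ Z) (k' : ∀ x ∈ U, x ∈ W → x ∈ W') :
    CutOK O U Z₁ W' :=
  ⟨fun x a b => h.nf x a (k x a b), fun x a b c => k' x a (h.sub x a (k x a b) c)⟩

theorem add (h : CutOK O U Z W) (h1 : CutOK O₁ U Z W) (h2 : CutOK O₂ U Z W)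
    (e : ∀ x ∈ U, x ∈ Z → (x ∈ O ↔ x ∈ O₁ ∨ x ∈ O₂)) (d : ∀ x ∈ U, x ∈ Z → x ∈ O₁ → x ∉ O₂)
    (a : H U Z) : cutH O U W a = cutH O₁ U W a + cutH O₂ U W a := by
  obtain ⟨φ, k, rfl⟩ := exists_cls a
  rw [h.cut_cls k, h1.cut_cls k, h2.cut_cls k, ← cls_add (h1.zc k) (h2.zc k)]
  refine cls_eq_of_lz (h.zc k) (add_mem (h1.zc k) (h2.zc k)).1.1 (lz_pt fun x hx => ?_)
  by_cases z : x ∈ Z
  · have n := h.nf x hx z
    have n1 := h1.nf x hx z
    have n2 := h2.nf x hx z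
    by_cases a1 : x ∈ O₁
    · convert sub_mem (sub_mem (cut_in (ev_in n1 a1) k.1.1.1)
        (cut_in (ev_in n ((e x hx z).2 (.inl a1))) k.1.1.1)) (cut_out (ev_out n2 (d x hx z a1)) φ) using 1
      abel
    · by_cases a2 : x ∈ O₂
      · convert sub_mem (sub_mem (cut_in (ev_in n2 a2) k.1.1.1)
          (cut_in (ev_in n ((e x hx z).2 (.inr a2))) k.1.1.1)) (cut_out (ev_out n1 a1) φ) using 1
        abel
      · exact sub_mem (cut_out (ev_out n fun a => ((e x hx z).1 a).elim a1 a2) _)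
          (add_mem (cut_out (ev_out n1 a1) _) (cut_out (ev_out n2 a2) _))
  · have := lz_at k.2 ⟨hx, z⟩
    exact sub_mem (cut_lz _ this) (add_mem (cut_lz _ this) (cut_lz _ this))

theorem none (h : CutOK O U Z W) (e : ∀ x ∈ U, x ∈ Z → x ∉ O) (a : H U Z) : cutH O U W a = 0 := by
  have := h.add h h (by simp) (fun x a b c => (e x a b c).elim) a
  simpa using this

theorem congr (h : CutOK O U Z W) (h1 : CutOK O₁ U Z W) (e : ∀ x ∈ U, x ∈ Z → (x ∈ O ↔ x ∈ O₁))
    (a : H U Z) : cutH O U W a = cutH O₁ U W a := by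
  have h0 : CutOK ∅ U Z W := ⟨by simp, by simp⟩
  rw [h.add h1 h0 (by simpa using e) (by simp), h0.none (by simp), add_zero]

theorem all (h : CutOK O U Z W) (e : ∀ x ∈ U, x ∈ Z → x ∈ O) (a : H U Z) :
    cutH O U W a = pull id U W a := by
  obtain ⟨φ, k, rfl⟩ := exists_cls a
  have o : Ok id U W U Z := .id subset_rfl fun x a b => h.sub x a b (e x a b)
  rw [h.cut_cls k, res_cls o k]
  refine (cls_eq_of_lz (o.zc_id k) (h.zc k).1.1 (lz_pt fun x hx => ?_)).symm
  by_cases z : x ∈ Z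
  · exact cut_in (ev_in (h.nf x hx z) (e x hx z)) k.1.1.1
  · have := lz_at k.2 ⟨hx, z⟩
    exact sub_mem this (cut_lz _ this)

theorem res_in (h : CutOK O U Z W) (k : ∀ x ∈ U, x ∈ Z₁ → x ∈ Z) (a : H U Z₁) :
    cutH O U W (pull id U Z a) = cutH O U W a := by
  obtain ⟨φ, e, rfl⟩ := exists_cls a
  have o : Ok id U Z U Z₁ := .id subset_rfl k
  rw [res_cls o e, h.cut_cls (o.zc_id e), (h.mono k fun _ _ a => a).cut_cls e]

theorem res_out (h : CutOK O U Z W) (k : ∀ x ∈ U, x ∈ W → x ∈ W') (a : H U Z) :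
    pull id U W' (cutH O U W a) = cutH O U W' a := by
  obtain ⟨φ, e, rfl⟩ := exists_cls a
  rw [h.cut_cls e, res_cls (.id subset_rfl k) (h.zc e), (h.mono (fun _ _ a => a) k).cut_cls e]

theorem cut_cup (h : CutOK O U Z W) (h1 : CutOK O U₁ Z₁ W₁) (c : CupOK U₁ Z₁ U₂ Z₂ U Z)
    (c' : CupOK U₁ W₁ U₂ Z₂ U W) (a : H U₁ Z₁) (b : H U₂ Z₂) :
    cutH O U W (cup U Z a b) = cup U W (cutH O U₁ W₁ a) b := by
  obtain ⟨φ, e, rfl⟩ := exists_cls a
  obtain ⟨ψ, e', rfl⟩ := exists_cls b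
  rw [cup_cls c e e', h.cut_cls (c.zc e e'), h1.cut_cls e, cup_cls c' (h1.zc e) e']
  congr 1
  funext l
  cases l with
  | nil => exact cut_nil _ _
  | cons y l =>
    by_cases a : y ∈ O
    · rw [cut_of_mem _ _ a, cupc_apply, cupc_apply]
      exact Finset.sum_congr rfl fun i _ => by rw [List.take_succ_cons, cut_of_mem _ _ a]
    · rw [cut_of_not_mem _ _ a, cupc_apply]
      exact (Finset.sum_eq_zero fun i _ => by
        rw [List.take_succ_cons, cut_of_not_mem _ _ a, zero_mul]).symm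

theorem cut_cup' (h : CutOK O U Z W) (h1 : CutOK O U₁ Z₁ W₁) (c : CupOK U₂ Z₂ U₁ Z₁ U Z)
    (c' : CupOK U₂ Z₂ U₁ W₁ U W) (a : H U₁ Z₁) {b : H U₂ Z₂} (hb : Evn b) :
    cutH O U W (cup U Z b a) = cup U W b (cutH O U₁ W₁ a) := by
  rw [← hb.comm c, ← hb.comm c', h.cut_cup h1 c.symm c'.symm]

theorem pul {f : X' → X} (h : CutOK O U Z W) (h' : CutOK O' U' Z' V') (o : Ok f U' Z' U Z)
    (o' : Ok f U' V' U W) (e : ∀ x ∈ U', f x ∈ Z → (x ∈ O' ↔ f x ∈ O)) (a : H U Z) :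
    pull f U' V' (cutH O U W a) = cutH O' U' V' (pull f U' Z' a) := by
  obtain ⟨φ, k, rfl⟩ := exists_cls a
  obtain ⟨g, g1, g2⟩ := o.ext
  have A := o.adm g1 g2
  have A' := o'.adm g1 g2
  rw [h.cut_cls k, pull_cls g1 A' (h.zc k), pull_cls g1 A k, h'.cut_cls (A.zc k)]
  have q : pullc g (cut O φ) = cut (g ⁻¹' O) (pullc g φ) := funext fun l => by
    cases l with
    | nil => exact (cut_nil O φ).trans (cut_nil _ _).symm
    | cons y l =>
      by_cases a : g y ∈ O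
      · exact (cut_of_mem φ (l.map g) a).trans (cut_of_mem (O := g ⁻¹' O) (pullc g φ) l a).symm
      · exact (cut_of_not_mem φ (l.map g) a).trans (cut_of_not_mem (O := g ⁻¹' O) _ l a).symm
  refine cls_eq_of_lz (A'.zc (h.zc k)) (h'.zc (A.zc k)).1.1 (lz_pt fun x hx => ?_)
  rw [q]
  by_cases z : f x ∈ Z
  · have n := h.nf _ (o.maps hx) z
    have n' := h'.nf x hx (o.mem hx z)
    have e' := e x hx z
    rw [g1 hx] at n e'
    by_cases a : g x ∈ O
    · convert sub_mem (cut_in (ev_in n' (e'.2 a)) (A.zc k).1.1.1)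
        (cut_in (O := g ⁻¹' O) ((g2 x hx).eventually (ev_in n a)) (A.zc k).1.1.1) using 1
      abel
    · exact sub_mem (cut_out (O := g ⁻¹' O) ((g2 x hx).eventually (ev_out n a)) _)
        (cut_out (ev_out n' fun b => a (e'.1 b)) _)
  · have : pullc g φ ∈ lz {x} := lz_pullc (fun _ b => b ▸ g2 x hx)
      (fun _ b => by rw [b, ← g1 hx]; exact ⟨o.maps hx, z⟩) k.2
    exact sub_mem (cut_lz _ this) (cut_lz _ this)

end CutOK

theorem isDeg_cut {a : H U Z} (ha : IsDeg p a) (O W : Set X) : IsDeg p (cutH O U W a) := by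
  by_cases h : CutOK O U Z W
  · obtain ⟨φ, k, rfl, d⟩ := ha
    rw [h.cut_cls k]
    exact isDeg_cls (h.zc k) fun l hl => cut_zero _ (d l hl)
  · rw [cutH, dif_neg h]
    exact .zero _

theorem isZ_cut {a : H U Z} (ha : IsZ a) (O W : Set X) : IsZ (cutH O U W a) := by
  by_cases h : CutOK O U Z W
  · obtain ⟨φ, k, rfl, d⟩ := ha
    refine ⟨_, h.zc k, h.cut_cls k, fun l => ?_⟩
    cases l with
    | nil => exact ⟨0, by simp [cut_nil]⟩
    | cons y l =>
      by_cases a : y ∈ O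
      · rw [cut_of_mem _ _ a]; exact d _
      · exact ⟨0, by simp [cut_of_not_mem _ _ a]⟩
  · rw [cutH, dif_neg h]
    exact isZ_zero

variable {Y Y' : Type} [TopologicalSpace Y] [TopologicalSpace Y'] {C R R₁ R₂ : Set Y} {C' R' : Set Y'}
  {B B₁ : Set (X × Y)} {n : ℤ} {ω : H C univ} {ω' : H C' univ}

/-- integration over the region `R` -/
def JJ (n : ℤ) (ω : H C univ) (U W : Set X) (R : Set Y) {B : Set (X × Y)} :
    H (U ×ˢ C) B →ₗ[ℂ] H U W := sl n ω U W ∘ₗ cutH (univ ×ˢ R) (U ×ˢ C) (W ×ˢ univ)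

/-- the condition under which `JJ` is defined -/
structure JOK (U : Set X) (C : Set Y) (B : Set (X × Y)) (R : Set Y) (W : Set X) : Prop where
  nf : ∀ x ∈ U ×ˢ C, x ∈ B → x.2 ∉ frontier R
  sub : ∀ x ∈ U ×ˢ C, x ∈ B → x.2 ∈ R → x.1 ∈ W

theorem JJ_apply (b : H (U ×ˢ C) B) :
    JJ n ω U W R b = sl n ω U W (cutH (univ ×ˢ R) (U ×ˢ C) (W ×ˢ univ) b) := rfl

namespace JOK

theorem ok (h : JOK U C B R W) : CutOK (univ ×ˢ R) (U ×ˢ C) B (W ×ˢ univ) :=
  ⟨fun x a b c => h.nf x a b (by rw [frontier_univ_prod_eq] at c; exact c.2),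
    fun x a b c => ⟨h.sub x a b c.2, trivial⟩⟩

theorem mono (h : JOK U C B R W) (k : ∀ x ∈ U ×ˢ C, x ∈ B₁ → x ∈ B) (k' : ∀ x ∈ U, x ∈ W → x ∈ W') :
    JOK U C B₁ R W' :=
  ⟨fun x a b => h.nf x a (k x a b), fun x a b c => k' _ a.1 (h.sub x a (k x a b) c)⟩

theorem add (h : JOK U C B R W) (h1 : JOK U C B R₁ W) (h2 : JOK U C B R₂ W)
    (e : ∀ x ∈ U ×ˢ C, x ∈ B → (x.2 ∈ R ↔ x.2 ∈ R₁ ∨ x.2 ∈ R₂))
    (d : ∀ x ∈ U ×ˢ C, x ∈ B → x.2 ∈ R₁ → x.2 ∉ R₂) (b : H (U ×ˢ C) B) :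
    JJ n ω U W R b = JJ n ω U W R₁ b + JJ n ω U W R₂ b := by
  simp only [JJ_apply]
  rw [h.ok.add h1.ok h2.ok (by simpa using e) (by simpa using d), map_add]

theorem congr (h : JOK U C B R W) (h1 : JOK U C B R₁ W)
    (e : ∀ x ∈ U ×ˢ C, x ∈ B → (x.2 ∈ R ↔ x.2 ∈ R₁)) (b : H (U ×ˢ C) B) :
    JJ n ω U W R b = JJ n ω U W R₁ b := by
  simp only [JJ_apply]
  rw [h.ok.congr h1.ok (by simpa using e)]

theorem all (h : JOK U C B R W) (e : ∀ x ∈ U ×ˢ C, x ∈ B → x.2 ∈ R) (b : H (U ×ˢ C) B) :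
    JJ n ω U W R b = sl n ω U W b := by
  rw [JJ_apply, h.ok.all (by simpa using e), sl_resZ]

theorem res_in (h : JOK U C B R W) (k : ∀ x ∈ U ×ˢ C, x ∈ B₁ → x ∈ B) (b : H (U ×ˢ C) B₁) :
    JJ n ω U W R (pull id (U ×ˢ C) B b) = JJ n ω U W R b := by
  rw [JJ_apply, h.ok.res_in k, JJ_apply]

variable [RegularSpace X] [SecondCountableTopology X] [RegularSpace X'] [SecondCountableTopology X']
  [RegularSpace Y] [SecondCountableTopology Y] [RegularSpace Y'] [SecondCountableTopology Y']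

theorem res_out (h : JOK U C B R W) (t : Top C n ω) (k : ∀ x ∈ U, x ∈ W → x ∈ W')
    (b : H (U ×ˢ C) B) : pull id U W' (JJ n ω U W R b) = JJ n ω U W' R b := by
  rw [JJ_apply, t.res_sl (fun _ _ a => a.1) k, JJ_apply,
    ← h.ok.res_out (W' := W' ×ˢ univ) fun x a c => ⟨k _ a.1 c.1, trivial⟩, sl_resZ]

/-- change of both factors -/
theorem map {B' : Set (X' × Y')} (h : JOK U C B R W) (h' : JOK U' C' B' R' V') (t : Top C n ω)
    (t' : Top C' n ω') {f : X' → X} {g : Y' → Y} (hf : Ok f U' V' U W) (hg : Ok g C' univ C univ)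
    {k : ℂ} (e : pull g C' univ ω = k • ω') (hm : ∀ x ∈ U' ×ˢ C', Prod.map f g x ∈ B → x ∈ B')
    (hR : ∀ x ∈ U' ×ˢ C', Prod.map f g x ∈ B → (x.2 ∈ R' ↔ g x.2 ∈ R)) (b : H (U ×ˢ C) B) :
    JJ n ω' U' V' R' (pull (Prod.map f g) (U' ×ˢ C') B' b) = k • pull f U' V' (JJ n ω U W R b) := by
  have o := ok_map hf hg
  rw [JJ_apply, ← h.ok.pul h'.ok (.of_mem o.ext o.maps hm) o (by simpa using hR),
    t.sl_map t' hf hg e (fun _ _ a => a.1) (fun _ _ a => a.1) fun x a c => o.mem a c, JJ_apply]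

/-- the projection formula -/
theorem mul (h : JOK U C B R W) (t : Top C n ω) {a : H U univ} (ha : Evn a) (b : H (U ×ˢ C) B) :
    JJ n ω U W R (cup (U ×ˢ C) B (pull Prod.fst (U ×ˢ C) univ a) b) =
      cup U W a (JJ n ω U W R b) := by
  rw [JJ_apply, h.ok.cut_cup' h.ok (cupU _ _) (cupU _ _) _ (ha.pul _ _ _), JJ_apply]
  exact t.sl_cup (fun _ _ a => a.1) (fun _ _ _ => mem_univ _) (fun _ _ a => a.1) (fun _ _ _ a => a)
    (fun _ _ _ a => a) _ _

end JOK

theorem Top.isDeg_JJ [RegularSpace X] [SecondCountableTopology X] [RegularSpace Y]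
    [SecondCountableTopology Y] (t : Top C n ω) {b : H (U ×ˢ C) B} (hb : IsDeg (p + n) b) :
    IsDeg p (JJ n ω U W R b) := t.sl_deg (isDeg_cut hb _ _)

end Pool.Agent.Work.MP_8c604c_gt.OT
end
end
end
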