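import Pool.Agent.Work.MP_8c604c_gt.OT.Tor
import Pool.Agent.Work.MP_8c604c_gt.OG.ZG

/-!
Local generators: products, and integration over a torus of a class with support over one point
(owner helper12).
-/

noncomputable section

set_option linter.unusedSectionVars false

namespace Pool.Agent.Work.MP_8c604c_gt.OT

open Set Real Topology Filter Pool.Agent.Work.MP_849ab0_ag.G T

variable {X Y Y' : Type} [TopologicalSpace X] [TopologicalSpace Y] [TopologicalSpace Y']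
  [RegularSpace X] [SecondCountableTopology X] [RegularSpace Y] [SecondCountableTopology Y]
  [RegularSpace Y'] [SecondCountableTopology Y'] {U Z : Set X} {p d d' : ℤ}
  {A A' : Type} [NormedAddCommGroup A] [NormedSpace ℝ A] [FiniteDimensional ℝ A]
  [NormedAddCommGroup A'] [NormedSpace ℝ A'] [FiniteDimensional ℝ A']

theorem ok_fstP (U Z : Set X) (C : Set Y) : Ok Prod.fst (U ×ˢ C) (Z ×ˢ univ) U Z :=
  .of_mem (.of_continuous continuous_fst _) (fun _ k => k.1) fun _ _ k => ⟨k, trivial⟩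

theorem ok_sndP (U : Set X) (C W : Set Y) : Ok Prod.snd (U ×ˢ C) (univ ×ˢ W) C W :=
  .of_mem (.of_continuous continuous_snd _) (fun _ k => k.2) fun _ _ k => ⟨trivial, k⟩

theorem Gen.sign {ω ω' : H U Z} (h : Gen d ω) (e : ω' = ω ∨ ω' = -ω) : Gen d ω' := by
  rcases e with rfl | rfl
  exacts [h, h.neg]

/-- a linear bijection that matches integral classes and shifts the degree -/
theorem gen_iff {U' Z' : Set Y} (L : H U Z →ₗ[ℂ] H U' Z') (b : Function.Bijective L)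
    (z : ∀ a, IsZ (L a) ↔ IsZ a) (g : ∀ a, IsDeg d' (L a) ↔ IsDeg d a) {a : H U Z} :
    Gen d' (L a) ↔ Gen d a := by
  refine ⟨fun h => ⟨(z a).1 h.isZ, (g a).1 h.deg, fun k => h.ne (by simp [k]), fun c h1 h2 => ?_,
    fun c h2 => ?_⟩, fun h => ⟨(z a).2 h.isZ, (g a).2 h.deg, fun k => h.ne (b.1 (by simp [k])),
    fun c h1 h2 => ?_, fun c h2 => ?_⟩⟩
  · exact (h.int _ ((z c).2 h1) ((g c).2 h2)).imp fun m k => b.1 (by rw [k, map_smul])
  · exact (h.span _ ((g c).2 h2)).imp fun m k => b.1 (by rw [k, map_smul])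
  · obtain ⟨c, rfl⟩ := b.2 c
    exact (h.int _ ((z c).1 h1) ((g c).1 h2)).imp fun m k => by rw [k, map_smul]
  · obtain ⟨c, rfl⟩ := b.2 c
    exact (h.span _ ((g c).1 h2)).imp fun m k => by rw [k, map_smul]

/-- the product with a local class -/
def xl (U Z : Set X) (ω : H (univ : Set A) {0}) : H U Z →ₗ[ℂ] H (U ×ˢ (univ : Set A)) (Z ×ˢ {0}) :=
  (cup (U ×ˢ univ) (Z ×ˢ {0})).flip (pull Prod.snd (U ×ˢ univ) (univ ×ˢ {0}) ω) ∘ₗ
    pull Prod.fst (U ×ˢ univ) (Z ×ˢ univ)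

theorem xl_apply (ω : H (univ : Set A) {0}) (a : H U Z) : xl U Z ω a = cup (U ×ˢ univ) (Z ×ˢ {0})
    (pull Prod.fst (U ×ˢ univ) (Z ×ˢ univ) a) (pull Prod.snd (U ×ˢ univ) (univ ×ˢ {0}) ω) := rfl

theorem xl_bij (c : Cl U Z) {ω : H (univ : Set A) {0}} (h : Gen d ω) : Function.Bijective (xl U Z ω) :=
  (fib_of_ne h.ne).triv X U Z c

theorem gen_xl (c : Cl U Z) {ω : H (univ : Set A) {0}} (h : Gen d ω) {a : H U Z} :
    Gen (p + d) (xl U Z ω a) ↔ Gen p a := by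
  refine gen_iff _ (xl_bij c h) (fun a => ⟨fun k => ?_, fun k => (k.pul _ _ _).cp (h.isZ.pul _ _ _) _ _⟩)
    fun a => ⟨isDeg_of_cup (h.deg.pull _ _ _) (xl_bij c h).1, fun k =>
      (k.pull _ _ _).cup (h.deg.pull _ _ _) _ _⟩
  have f := (TZ.fib_orR (R := ℤ) _).lin (Module.finBasis ℝ A).equivFun
  have g := (gen_orR _).pul (zb_lin (Module.finBasis ℝ A).equivFun)
  obtain ⟨b, hb⟩ := isZ_iff.1 k
  obtain ⟨a', rfl⟩ := (f.triv X U Z c).2 b
  simp only [cc_cup, cc_pull, cc_orR] at hb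
  rcases g.eq_or (h.dim ▸ h) with e | e
  · exact (xl_bij c h).1 (a₁ := cc a') (by rw [← hb, e]; rfl) ▸ isZ_cc a'
  · exact (xl_bij c h).1 (a₁ := -cc a') (by
      rw [← hb, e, xl_apply]
      simp only [map_neg, LinearMap.neg_apply, neg_neg]) ▸ (isZ_cc a').neg

/-- the product of two local generators -/
theorem gen_prod2 {ω : H (univ : Set A) {0}} {ω' : H (univ : Set A') {0}} (h : Gen d ω) (h' : Gen d' ω') :
    Gen (d + d') (cup (univ : Set (A × A')) {0} (pull Prod.fst univ {z | z.1 = 0} ω)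
      (pull Prod.snd univ {z | z.2 = 0} ω')) := by
  have g := (gen_xl (.of_isClosed isClosed_singleton univ) h').2 h
  have z : ZB id (univ : Set (A × A')) {0} (univ ×ˢ univ) ({0} ×ˢ {0}) :=
    .of_inv (s := id) (.id (by simp) fun _ _ k => Prod.ext k.1 k.2) (.id (by simp) fun _ _ k => by
      rw [show _ = (0 : A × A') from k]
      exact ⟨rfl, rfl⟩) (fun _ _ => rfl) fun _ _ => rfl
  have o1 : Ok id (univ : Set (A × A')) {z | z.1 = 0} (univ ×ˢ univ) ({0} ×ˢ univ) :=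
    .id (by simp) fun _ _ k => k.1
  have o2 : Ok id (univ : Set (A × A')) {z | z.2 = 0} (univ ×ˢ univ) (univ ×ˢ {0}) :=
    .id (by simp) fun _ _ k => k.2
  have := g.pul z
  rwa [xl_apply, pull_cup' z.ok o1 o2 (fun _ _ a b => Prod.ext a b) (cupOK fun _ _ a b => ⟨a.1, b.2⟩),
    pull_pull' (F := Prod.fst) o1 (ok_fstP _ _ _) fun _ _ => rfl,
    pull_pull' (F := Prod.snd) o2 (ok_sndP _ _ _) fun _ _ => rfl] at this

/-- integration over `C` of a generator with support over the point `t` gives a generator -/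
def PtG (C : Set Y) (n : ℤ) (ω : H C univ) (t : Y) : Prop :=
  ∀ (X : Type) [TopologicalSpace X] [RegularSpace X] [SecondCountableTopology X] (U Z : Set X),
    Cl U Z → ∀ (p : ℤ) (b : H (U ×ˢ C) (Z ×ˢ {t})), Gen (p + n) b → Gen p (sl n ω U Z b)

theorem cl_prod [T1Space Y] (c : Cl U Z) (C : Set Y) (t : Y) : Cl (U ×ˢ C) (Z ×ˢ {t}) :=
  ((c.preimage continuousOn_fst fun _ h => h.1).inter (.of_isClosed
    (isClosed_singleton.preimage continuous_snd) _)).congr fun _ _ => Iff.rfl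

theorem PtG.prod [T1Space Y] {C : Set Y} {C' : Set Y'} {n n' : ℤ} {ω : H C univ} {ω' : H C' univ} {t : Y}
    {t' : Y'} (h : PtG C n ω t) (h' : PtG C' n' ω' t') (k : Top C n ω) (k' : Top C' n' ω')
    {E : Set (Y × Y')} (e : E = C ×ˢ C') :
    PtG E (n + n') (pull Prod.fst E univ ω * pull Prod.snd E univ ω') (t, t') := by
  intro X _ _ _ U Z c p b hb
  have z : ZB (fun x : X × Y × Y' => ((x.1, x.2.1), x.2.2)) (U ×ˢ E) (Z ×ˢ {(t, t')}) ((U ×ˢ C) ×ˢ C')
      ((Z ×ˢ {t}) ×ˢ {t'}) := by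
    subst e
    exact .of_inv (s := fun x => (x.1.1, x.1.2, x.2))
      (.of_mem (.of_continuous (by fun_prop) _) (fun _ a => ⟨⟨a.1, a.2.1⟩, a.2.2⟩)
        fun _ _ a => ⟨a.1.1, Prod.ext a.1.2 a.2⟩)
      (.of_mem (.of_continuous (by fun_prop) _) (fun _ a => ⟨a.1.1, a.1.2, a.2⟩)
        fun _ _ a => ⟨⟨a.1, congrArg Prod.fst a.2⟩, congrArg Prod.snd a.2⟩) (fun _ _ => rfl) fun _ _ => rfl
  obtain ⟨b', g, rfl⟩ := hb.exists_pul z
  rw [k.sl_fub k' e (W := Z ×ˢ {t}) (fun _ _ a => a.1) (fun _ _ a => a.1) (fun _ _ a => a.1)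
    fun x hx a => z.ok.mem hx a]
  exact h X U Z c p _ (h' _ _ _ (cl_prod c C t) _ _ (by rwa [add_assoc]))

/-- the chart of the circle at `t` -/
def cch (t θ : Circle) : ℝ := ang (θ * t⁻¹ * cs (π / 2)) - π / 2

theorem cch_cs (t : Circle) {r : ℝ} (h : |r| < π / 2) : cch t (t * cs r) = r := by
  rw [cch, mul_inv_cancel_comm, ← cs_add, ang_cs ⟨by linarith [(abs_lt.1 h).1], by linarith [(abs_lt.1 h).2]⟩,
    add_sub_cancel_right]

theorem cs_cch (t θ : Circle) : t * cs (cch t θ) = θ := by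
  have : cs (cch t θ) * cs (π / 2) = θ * t⁻¹ * cs (π / 2) := by rw [← cs_add, cch, sub_add_cancel, cs_ang]
  rw [mul_right_cancel this, mul_comm θ, mul_inv_cancel_left]

/-- the circle without the antipode of `t` -/
def cdom (t : Circle) : Set Circle := {θ | θ * t⁻¹ * cs (π / 2) ≠ 1}

theorem isOpen_cdom (t : Circle) : IsOpen (cdom t) := isOpen_ne_fun (by fun_prop) continuous_const

theorem cch_mem {t θ : Circle} (h : θ ∈ cdom t) : |cch t θ| < π / 2 :=
  abs_lt.2 ⟨by rw [cch]; linarith [ang_pos h], by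
    rw [cch]; linarith [(ang_mem (θ * t⁻¹ * cs (π / 2))).2]⟩

theorem cs_cdom (t : Circle) {r : ℝ} (h : |r| < π / 2) : t * cs r ∈ cdom t := fun e => by
  rw [mul_inv_cancel_comm, ← cs_add, ← cs_zero] at e
  have := cs_inj e (by rw [sub_zero]; exact abs_lt.2 ⟨by linarith [(abs_lt.1 h).1, pi_pos],
    by linarith [(abs_lt.1 h).2]⟩)
  linarith [(abs_lt.1 h).1]

theorem contAt_cch {t θ : Circle} (h : θ ∈ cdom t) : ContinuousAt (cch t) θ :=
  ((continuousAt_ang h).comp (f := fun θ => θ * t⁻¹ * cs (π / 2)) (by fun_prop)).sub continuousAt_const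

theorem cch_zero {t θ : Circle} : cch t θ = 0 ↔ θ = t :=
  ⟨fun e => by rw [← cs_cch t θ, e, cs_zero, mul_one], fun e => by
    have := cch_cs t (r := 0) (by simp [pi_pos])
    rw [cs_zero, mul_one] at this
    rwa [e]⟩

theorem mem_cdom (t : Circle) : t ∈ cdom t := by
  simpa [cs_zero] using cs_cdom t (r := 0) (by simp [pi_pos])

theorem zb_cch (c : Cl U Z) (t : Circle) :
    ZB (Prod.map id (cch t)) (U ×ˢ cdom t) (Z ×ˢ {t}) (U ×ˢ univ) (Z ×ˢ {0}) := by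
  have o : IsOpen {r : ℝ | |r| < π / 2} := isOpen_lt (by fun_prop) continuous_const
  refine ZB.comp (U' := U ×ˢ {r : ℝ | |r| < π / 2}) (Z' := Z ×ˢ {0}) (f' := id)
    (.of_inv (s := Prod.map id fun r => t * cs r)
      (.of_mem ((Ext.of_continuous continuous_id U).prodMap (.of_continuousAt fun _ => contAt_cch))
        (fun _ a => ⟨a.1, cch_mem a.2⟩) fun _ _ a => ⟨a.1, cch_zero.1 a.2⟩)
      (.of_mem (.of_continuous (continuous_id.prodMap (continuous_const.mul continuous_cs)) _)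
        (fun _ a => ⟨a.1, cs_cdom t a.2⟩) fun x h a => ⟨a.1, (cch_cs t h.2).symm.trans (cch_zero.2 a.2)⟩)
      (fun x _ => Prod.ext rfl (cs_cch t _)) fun x h => Prod.ext rfl (cch_cs t h.2))
    (.excision (prod_mono_right (subset_univ _)) (cl_prod c _ _) (fun x h a => ?_) fun _ _ => Iff.rfl)
    fun _ _ => rfl
  refine mem_nhdsWithin.2 ⟨_, o.preimage continuous_snd, ?_, fun _ k => ⟨k.2.1, k.1⟩⟩
  rw [mem_preimage, show x.2 = 0 from a.2]
  simp [pi_pos]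

theorem zb_cdom (c : Cl U Z) (t : Circle) : ZB id (U ×ˢ cdom t) (Z ×ˢ {t}) (U ×ˢ univ) (Z ×ˢ {t}) :=
  .excision (prod_mono_right (subset_univ _)) (cl_prod c _ _) (fun x _ a => mem_nhdsWithin.2
    ⟨_, (isOpen_cdom t).preimage continuous_snd, by
      rw [mem_preimage, show x.2 = t from a.2]
      exact mem_cdom t, fun _ k => ⟨k.2.1, k.1⟩⟩) fun _ _ => Iff.rfl

theorem van_circ (t : Circle) : Van 1 ((univ : Set Circle) \ {t}) univ := by
  have ne : ∀ θ ∈ (univ : Set Circle) \ {t}, θ * t⁻¹ ≠ 1 := fun θ h e => h.2 (mul_inv_eq_one.1 e)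
  have key : ∀ r ∈ Ioo 0 π, t * cs r ∈ (univ : Set Circle) \ {t} := fun r hr => ⟨trivial, fun e => by
    have : cs r = cs 0 := by rw [cs_zero]; exact mul_eq_left.1 e
    exact hr.1.ne' (cs_inj this (by rw [sub_zero, abs_of_pos hr.1]; exact hr.2))⟩
  refine van_contr (F := fun z => t * cs (z.2 * ang (z.1 * t⁻¹) + (1 - z.2) * (π / 2)))
    (x₀ := t * cs (π / 2)) (.of_continuousAt fun z hz => ?_) (fun θ h s hs => key _ ⟨?_, ?_⟩)
    (key _ ⟨by positivity, by linarith [pi_pos]⟩) (fun _ _ => by simp) (fun θ _ => ?_) one_ne_zero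
  · have := (continuousAt_ang (ne _ hz.1)).comp (f := fun z : Circle × ℝ => z.1 * t⁻¹) (by fun_prop)
    exact continuousAt_const.mul (continuous_cs.continuousAt.comp
      ((continuousAt_snd.mul this).add (by fun_prop)))
  · exact (convex_Ioi (0 : ℝ) (ang_pos (ne θ h)) pi_div_two_pos hs.1 (sub_nonneg.2 hs.2) (by ring) :)
  · exact (convex_Iio π (ang_mem (θ * t⁻¹)).2 (half_lt_self pi_pos) hs.1 (sub_nonneg.2 hs.2) (by ring) :)
  · simp [cs_ang]

theorem ptG_dt (t : Circle) : PtG univ 1 dt t := by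
  intro X _ _ _ U Z c p b hb
  obtain ⟨ω, hω⟩ := exists_gen ℝ
  rw [Module.finrank_self, Nat.cast_one] at hω
  have zc : ZB (cch t) (cdom t) {t} univ {0} := by
    have z1 : ZB (fun θ => ((), θ)) (cdom t) {t} (univ ×ˢ cdom t) (univ ×ˢ {t}) :=
      .of_inv (s := Prod.snd) (.of_mem (.of_continuous (by fun_prop) _)
        (fun _ a => ⟨trivial, a⟩) fun _ _ a => a.2) (ok_sndP _ _ _) (fun _ _ => rfl) fun _ _ => rfl
    have z2 : ZB Prod.snd ((univ : Set Unit) ×ˢ (univ : Set ℝ)) (univ ×ˢ {0}) univ {0} :=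
      .of_inv (s := fun r => ((), r)) (ok_sndP _ _ _) (.of_mem (.of_continuous (by fun_prop) _)
        (fun _ a => ⟨trivial, a⟩) fun _ _ a => a.2) (fun _ _ => rfl) fun _ _ => rfl
    exact (z1.comp (F := fun θ => ((), cch t θ)) (zb_cch (Cl.univ _) t) fun _ _ => rfl).comp z2
      fun _ _ => rfl
  obtain ⟨κ, hκ, e⟩ := (hω.pul zc).exists_pul (ZB.excision_univ (O := cdom t) isClosed_singleton
    fun x k => (isOpen_cdom t).mem_nhds (k ▸ mem_cdom t))
  obtain ⟨b', g, e'⟩ := (hb.pul (zb_cdom c t)).exists_pul (zb_cch c t)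
  obtain ⟨a, rfl⟩ := (xl_bij c hω).2 b'
  have o1 := ok_fstP U Z (univ : Set Circle)
  have o2 := ok_sndP U (univ : Set Circle) {t}
  have r1 : Ok id (U ×ˢ cdom t) (Z ×ˢ univ) (U ×ˢ univ) (Z ×ˢ univ) :=
    .id (prod_mono_right (subset_univ _)) fun _ _ k => k
  have r2 : Ok id (U ×ˢ cdom t) (univ ×ˢ {t}) (U ×ˢ univ) (univ ×ˢ {t}) :=
    .id (prod_mono_right (subset_univ _)) fun _ _ k => k
  have s1 : Ok (Prod.map id (cch t)) (U ×ˢ cdom t) (Z ×ˢ univ) (U ×ˢ univ) (Z ×ˢ univ) :=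
    .of_mem (zb_cch c t).ok.ext (zb_cch c t).ok.maps fun _ _ k => ⟨k.1, trivial⟩
  have s2 : Ok (Prod.map id (cch t)) (U ×ˢ cdom t) (univ ×ˢ {t}) (U ×ˢ univ) (univ ×ˢ {0}) :=
    .of_mem (zb_cch c t).ok.ext (zb_cch c t).ok.maps fun _ _ k => ⟨trivial, cch_zero.1 k.2⟩
  have o3 := ok_sndP U (cdom t) {t}
  have eb : b = cup _ _ (pull Prod.fst (U ×ˢ univ) (Z ×ˢ univ) a)
      (pull Prod.snd (U ×ˢ univ) (univ ×ˢ {t}) κ) := (zb_cdom c t).bij.1 (by
    rw [← e', xl_apply, pull_cup' (zb_cch c t).ok s1 s2 (fun _ _ u v => ⟨u.1, v.2⟩)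
      (cupOK fun _ _ u v => ⟨u.1, v.2⟩), pull_cup' (zb_cdom c t).ok r1 r2 (fun _ _ u v => ⟨u.1, v.2⟩)
      (cupOK fun _ _ u v => ⟨u.1, v.2⟩), pull_pull' (F := Prod.fst) r1 o1 fun _ _ => rfl,
      pull_pull' (F := Prod.fst) s1 (ok_fstP _ _ _) fun _ _ => rfl, pull_pull' (F := Prod.snd) r2 o2 fun _ _ => rfl,
      pull_pull' (F := fun z => cch t z.2) s2 (ok_sndP _ _ _) fun _ _ => rfl, ← pull_pull' (F := fun z => cch t z.2) o3 zc.ok
        fun _ _ => rfl, ← e, pull_pull' (F := Prod.snd) o3 (.id (subset_univ _) fun _ _ k => k)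
        fun _ _ => rfl])
  have e3 : sl 1 dt U Z b = sl 1 dt U Z (xp a (pull id univ univ κ)) := by
    have r3 : Ok id (U ×ˢ univ) (Z ×ˢ univ) (U ×ˢ univ) (Z ×ˢ {t}) :=
      .id subset_rfl fun _ _ k => ⟨k.1, trivial⟩
    have c3 : CupOK (U ×ˢ univ) (Z ×ˢ univ) (U ×ˢ univ) (univ ×ˢ {t}) (U ×ˢ univ) (Z ×ˢ {t}) :=
      cupOK fun _ _ u v => ⟨u.1, v.2⟩
    rw [← sl_resZ, eb, res_cup_out r3 c3, xp, pull_pull' (F := Prod.snd) (ok_snd' _ _) (ok_fgt subset_rfl)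
      fun _ _ => rfl, ← cup_res_right (V₂ := U ×ˢ univ) (W₂ := univ) (ok_fgt subset_rfl) (cupU' _ _),
      pull_pull' (F := Prod.snd) (ok_fgt subset_rfl) o2 fun _ _ => rfl]
  have ga := (gen_xl c hω).1 g
  rcases gen_supp_sign rfl (by simp) gen_dt hκ (van_circ t) with k | k
  · rwa [e3, k, top_dt.sl_top]
  · rw [e3, k, ← neg_one_smul ℂ dt, xp_smul', map_smul, top_dt.sl_top, neg_one_smul]
    exact ga.neg

theorem ptG_w2 (t : T2) : PtG univ 2 w2 t :=
  (ptG_dt t.1).prod (ptG_dt t.2) top_dt top_dt univ_prod_univ.symm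

theorem ptG_w3 (t : T3) : PtG univ 3 w3 t :=
  (ptG_dt t.1).prod (ptG_w2 t.2) top_dt top_w2 univ_prod_univ.symm

end Pool.Agent.Work.MP_8c604c_gt.OT
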