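import Pool.Agent.Work.MP_8c604c_gt.OT.Tor
import Pool.Agent.Work.MP_8c604c_gt.OT.Cut
import Pool.Agent.Work.MP_849ab0_ag.G.GrpQuot
import Pool.Agent.Work.MP_8c604c_gt.T.RCx
import Pool.Agent.Work.MP_8c604c_gt.OG.HS

-- merged part: Pool.Agent.Work.MP_8c604c_gt.OT.Bor
section
/-!
Free circle actions with an equivariant nonzero function: Euler class, transfer, Gysin sequence
(owner helper12).
-/

noncomputable section

set_option linter.unusedSectionVars false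

namespace Pool.Agent.Work.MP_8c604c_gt.OT

open Set Topology Matrix Pool.Agent.Work.MP_849ab0_ag.G T

variable {Y Q J : Type} [TopologicalSpace Y] [TopologicalSpace Q] [Fintype J] [Nonempty Y]

/-- a representative -/
def out (q : Y → Q) : Q → Y := Function.invFun q

/-- the line bundle -/
def Lq (q : Y → Q) (ζ : Y → J → ℂ) (b : Q) : Matrix J J ℂ := lin (ζ (out q b))

/-- its Euler class -/
def ee (q : Y → Q) (ζ : Y → J → ℂ) (B : Set Q) : H B univ := eu (Lq q ζ) 1 B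

/-- the point of the line bundle -/
def io (q : Y → Q) (ζ : Y → J → ℂ) (y : Y) : Q × (J → ℂ) := (q y, ζ y)

/-- the coordinate of `v` on the line of `u` -/
def co (u v : J → ℂ) : ℂ := (star u ⬝ᵥ u)⁻¹ * (star u ⬝ᵥ v)

/-- the angular part of a nonzero vector of the line bundle -/
def nu (s : Circle → Y → Y) (q : Y → Q) (ζ : Y → J → ℂ) (z : Q × (J → ℂ)) : Y :=
  s (phs (co (ζ (out q z.1)) z.2)) (out q z.1)

/-- vectors over `W` -/
def TW (J : Type) (W : Set Q) : Set (Q × (J → ℂ)) := {z | z.1 ∈ W}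

/-- zero vectors over `W` -/
def T0 (J : Type) (W : Set Q) : Set (Q × (J → ℂ)) := {z | z.1 ∈ W ∧ z.2 = 0}

/-- the Thom map -/
def tm (q : Y → Q) (ζ : Y → J → ℂ) (B W : Set Q) : H B W →ₗ[ℂ] H (tot (Lq q ζ) B) (T0 J W) :=
  (cup (tot (Lq q ζ) B) (T0 J W)).flip (th (Lq q ζ) 1 B) ∘ₗ pull Prod.fst (tot (Lq q ζ) B) (TW J W)

/-- the transfer: integration over the orbits -/
def tr (q : Y → Q) (ζ : Y → J → ℂ) (B W : Set Q) {E Z : Set Y} : H E Z →ₗ[ℂ] H B W :=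
  Classical.epsilon fun L => ∀ c : H (tot (Lq q ζ) B \ T0 J W) (TW J W),
    tm q ζ B W (L (pull (io q ζ) E Z c)) = dlt (tot (Lq q ζ) B) (T0 J W) c

/-- `E` is an invariant set with quotient `B`, and `ζ` is equivariant without zero on `E`. -/
structure CD (s : Circle → Y → Y) (q : Y → Q) (ζ : Y → J → ℂ) (E : Set Y) (B : Set Q) : Prop where
  orb : IsOrbQ s q
  lc : IsLocallyClosed B
  pre : ∀ y, y ∈ E ↔ q y ∈ B
  cont : ContinuousOn ζ E
  eqv : ∀ θ, ∀ y ∈ E, ζ (s θ y) = (θ : ℂ) • ζ y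
  ne : ∀ y ∈ E, ζ y ≠ 0

/-- `Z` is the preimage of the relatively closed set `W`. -/
structure SD (q : Y → Q) (E Z : Set Y) (B W : Set Q) : Prop where
  cl : Cl B W
  iff : ∀ y ∈ E, y ∈ Z ↔ q y ∈ W

variable {s : Circle → Y → Y} {q : Y → Q} {ζ : Y → J → ℂ} {E E₁ Z Z₁ Z₂ : Set Y} {B B₁ W W₁ W₂ : Set Q}
  {p n : ℤ} {y : Y}

theorem sd_univ (q : Y → Q) (E : Set Y) (B : Set Q) : SD q E univ B univ :=
  ⟨.univ _, fun _ _ => Iff.rfl⟩

theorem tm_apply (a : H B W) : tm q ζ B W a = cup (tot (Lq q ζ) B) (T0 J W)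
    (pull Prod.fst (tot (Lq q ζ) B) (TW J W) a) (th (Lq q ζ) 1 B) := rfl

theorem co_smul {u : J → ℂ} (h : u ≠ 0) (t : ℂ) : co u (t • u) = t := by
  rw [co, dotProduct_smul, smul_eq_mul, mul_left_comm, inv_mul_cancel₀ (CPa_ne h), mul_one]

theorem contOn_co : ContinuousOn (fun z : (J → ℂ) × (J → ℂ) => co z.1 z.2) {z | z.1 ≠ 0} :=
  ((continuous_fst.star.dotProduct continuous_fst).continuousOn.inv₀ fun _ h => CPa_ne h).mul
    (continuous_fst.star.dotProduct continuous_snd).continuousOn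

theorem q_out (h : IsOrbQ s q) (b : Q) : q (out q b) = b :=
  Function.invFun_eq (h.quot.surjective b)

theorem exists_out (h : IsOrbQ s q) (y : Y) : ∃ θ, out q (q y) = s θ y :=
  ((h.eq_iff _ _).1 (q_out h (q y)).symm).imp fun _ e => e.symm

/-- invariant sets are preimages -/
theorem mem_img (h : IsOrbQ s q) (hE : ∀ θ, ∀ y ∈ E, s θ y ∈ E) (y : Y) : y ∈ E ↔ q y ∈ q '' E := by
  refine ⟨mem_image_of_mem q, ?_⟩
  rintro ⟨x, hx, e⟩
  obtain ⟨θ, rfl⟩ := (h.eq_iff _ _).1 e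
  exact hE θ x hx

theorem lc_img (h : IsOrbQ s q) (hE : ∀ θ, ∀ y ∈ E, s θ y ∈ E) (l : IsLocallyClosed E) :
    IsLocallyClosed (q '' E) := by
  have c : IsClosed (closure E \ E) := by
    have := (isLocallyClosed_iff_isOpen_coborder.1 l).isClosed_compl
    rwa [coborder, compl_compl] at this
  have e : q '' E = q '' closure E ∩ (q '' (closure E \ E))ᶜ := by
    refine Subset.antisymm ?_ ?_
    · rintro _ ⟨x, hx, rfl⟩
      exact ⟨⟨x, subset_closure hx, rfl⟩, fun ⟨z, hz, e⟩ => hz.2 ((mem_img h hE z).2 ⟨x, hx, e.symm⟩)⟩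
    · rintro _ ⟨⟨x, hx, rfl⟩, k⟩
      exact ⟨x, by_contra fun a => k ⟨x, ⟨hx, a⟩, rfl⟩, rfl⟩
  rw [e]
  exact (h.isClosedMap _ isClosed_closure).isLocallyClosed.inter
    (h.isClosedMap _ c).isOpen_compl.isLocallyClosed

theorem cd_img (h : IsOrbQ s q) (hE : ∀ θ, ∀ y ∈ E, s θ y ∈ E) (l : IsLocallyClosed E)
    (c : ContinuousOn ζ E) (e : ∀ θ, ∀ y ∈ E, ζ (s θ y) = (θ : ℂ) • ζ y) (ne : ∀ y ∈ E, ζ y ≠ 0) :
    CD s q ζ E (q '' E) := ⟨h, lc_img h hE l, mem_img h hE, c, e, ne⟩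

theorem sd_img (h : IsOrbQ s q) (hE : ∀ θ, ∀ y ∈ E, s θ y ∈ E) (hZ : ∀ θ, ∀ y ∈ Z, s θ y ∈ Z)
    (c : Cl E Z) : SD q E Z (q '' E) (q '' Z) := by
  refine ⟨?_, fun y _ => mem_img h hZ y⟩
  rintro _ ⟨⟨x, hx, rfl⟩, k⟩
  have e : q '' E ∩ q '' Z ⊆ q '' closure (E ∩ Z) := by
    rintro _ ⟨⟨z, hz, rfl⟩, a⟩
    exact ⟨z, subset_closure ⟨hz, (mem_img h hZ z).2 a⟩, rfl⟩
  obtain ⟨z, hz, e'⟩ := closure_minimal e (h.isClosedMap _ isClosed_closure) k
  exact ⟨z, c ⟨(mem_img h hE z).2 ⟨x, hx, e'.symm⟩, hz⟩, e'⟩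

namespace CD

variable (h : CD s q ζ E B)
include h

theorem eq : q ⁻¹' B = E := Set.ext fun y => (h.pre y).symm

theorem maps : MapsTo q E B := fun y => (h.pre y).1

theorem cq : Continuous q := h.orb.quot.continuous

theorem act (θ : Circle) (hy : y ∈ E) : s θ y ∈ E := by rwa [h.pre, h.orb.q_s, ← h.pre]

theorem out_mem {b : Q} (hb : b ∈ B) : out q b ∈ E := by rwa [h.pre, q_out h.orb]

theorem surj {b : Q} (hb : b ∈ B) : ∃ y ∈ E, q y = b := ⟨_, h.out_mem hb, q_out h.orb b⟩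

theorem lcE : IsLocallyClosed E := h.eq ▸ h.lc.preimage h.cq

theorem contOn {T : Type} [TopologicalSpace T] {f : Q → T} {F : Y → T} (hF : ContinuousOn F E)
    (e : ∀ y ∈ E, f (q y) = F y) : ContinuousOn f B :=
  h.orb.continuousOn_iff.2 (h.eq ▸ hF.congr e)

/-- invariant functions descend -/
theorem out_eq {T : Type} {F : Y → T} (e : ∀ θ, ∀ y ∈ E, F (s θ y) = F y) (hy : y ∈ E) :
    F (out q (q y)) = F y := by
  obtain ⟨θ, k⟩ := exists_out h.orb y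
  rw [k, e θ y hy]

theorem mono (l : IsLocallyClosed B₁) (k : ∀ y, y ∈ E₁ ↔ q y ∈ B₁) (hE : E₁ ⊆ E) : CD s q ζ E₁ B₁ :=
  ⟨h.orb, l, k, h.cont.mono hE, fun θ y a => h.eqv θ y (hE a), fun y a => h.ne y (hE a)⟩

/-- total spaces of bundles over the quotient -/
theorem prod {A : Type} [TopologicalSpace A] [Nonempty A] {E' : Set (Y × A)} {B' : Set (Q × A)}
    (l : IsLocallyClosed B') (k : ∀ z, z ∈ E' ↔ (q z.1, z.2) ∈ B') (hE : ∀ z ∈ E', z.1 ∈ E) :
    CD (fun θ z => (s θ z.1, z.2)) (Prod.map q id) (fun z => ζ z.1) E' B' :=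
  ⟨h.orb.prod A, l, k, h.cont.comp continuousOn_fst hE, fun θ z a => h.eqv θ _ (hE z a),
    fun z a => h.ne _ (hE z a)⟩

theorem Lq_q (hy : y ∈ E) : Lq q ζ (q y) = lin (ζ y) :=
  h.out_eq (F := fun y => lin (ζ y)) (fun θ y k => by rw [h.eqv θ y k, lin_smul θ.coe_ne_zero]) hy

theorem cb : CB (Lq q ζ) 1 B :=
  ⟨h.lc, h.contOn (continuousOn_lin.comp h.cont h.ne) fun _ => h.Lq_q,
    fun _ k => (lin_mem (h.ne _ (h.out_mem k))).1, fun _ k => (lin_mem (h.ne _ (h.out_mem k))).2.2⟩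

theorem mem_tot (hy : y ∈ E) (t : ℂ) : (q y, t • ζ y) ∈ tot (Lq q ζ) B :=
  ⟨h.maps hy, by rw [h.Lq_q hy, mulVec_smul, lin_mulVec (h.ne y hy)]⟩

theorem tot_eq (hy : y ∈ E) {v : J → ℂ} (k : (q y, v) ∈ tot (Lq q ζ) B) : v = co (ζ y) v • ζ y := by
  have := k.2
  rw [h.Lq_q hy, lin_mulVec'] at this
  exact this.symm

theorem tot_surj {z : Q × (J → ℂ)} (k : z ∈ tot (Lq q ζ) B) : ∃ y ∈ E, ∃ t : ℂ, z = (q y, t • ζ y) := by
  obtain ⟨y, hy, e⟩ := h.surj k.1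
  obtain ⟨b, v⟩ := z
  subst e
  exact ⟨y, hy, _, Prod.ext rfl (h.tot_eq hy k)⟩

/-- continuity on parts of the total space -/
theorem contOn_tot {T : Type} [TopologicalSpace T] {A : Set (Q × (J → ℂ))} (hA : A ⊆ tot (Lq q ζ) B)
    {f : Q × (J → ℂ) → T} {F : Y × ℂ → T} (hF : ContinuousOn F {z | z.1 ∈ E ∧ (q z.1, z.2 • ζ z.1) ∈ A})
    (e : ∀ y ∈ E, ∀ t : ℂ, (q y, t • ζ y) ∈ A → f (q y, t • ζ y) = F (y, t)) : ContinuousOn f A := by
  have m : ∀ z ∈ Prod.map q id ⁻¹' A, z.1 ∈ E := fun z k => (h.pre _).2 (hA k).1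
  have r : ∀ z ∈ Prod.map q id ⁻¹' A, (q z.1, co (ζ z.1) z.2 • ζ z.1) = Prod.map q id z :=
    fun z k => Prod.ext rfl (h.tot_eq (m z k) (hA k)).symm
  refine (h.orb.prod _).continuousOn_iff.2 (ContinuousOn.congr (hF.comp (continuousOn_fst.prodMk
    (contOn_co.comp ((h.cont.comp continuousOn_fst m).prodMk continuousOn_snd)
      fun z k => h.ne _ (m z k))) fun z k => ⟨m z k, (r z k).symm ▸ k⟩) fun z k => ?_)
  rw [Function.comp_apply, ← r z k]
  exact e _ (m z k) _ ((r z k).symm ▸ k)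

theorem nu_q (hy : y ∈ E) {t : ℂ} (ht : t ≠ 0) : nu s q ζ (q y, t • ζ y) = s (phs t) y := by
  obtain ⟨θ, k⟩ := exists_out h.orb y
  have e : t • ζ y = (t * (θ⁻¹ : Circle)) • ζ (s θ y) := by
    rw [h.eqv θ y hy, smul_smul, mul_assoc, ← Circle.coe_mul, inv_mul_cancel, Circle.coe_one, mul_one]
  have e2 : phs (t * (θ⁻¹ : Circle)) = phs t * θ⁻¹ := by
    conv_lhs => rw [← norm_mul_phs t, mul_assoc, ← Circle.coe_mul, phs_mul (norm_pos_iff.2 ht)]
  rw [nu, k, e, co_smul (h.ne _ (h.act θ hy)), e2, ← h.orb.mul, inv_mul_cancel_right]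

variable [RegularSpace Y] [SecondCountableTopology Y] [RegularSpace Q] [SecondCountableTopology Q]

theorem isDeg_ee : IsDeg 2 (ee q ζ B) := h.cb.isDeg_eu

theorem evn_ee : Evn (ee q ζ B) := h.cb.evn_eu

theorem isZ_ee : IsZ (ee q ζ B) := h.cb.isZ_eu

theorem ok_q (k : SD q E Z B W) : Ok q E Z B W :=
  .of_mem (.of_continuous h.cq _) h.maps fun y a => (k.iff y a).2

theorem ok_q' : Ok q E univ B univ := h.ok_q (sd_univ _ _ _)

theorem sp_surj {z : Q × (J → ℂ)} (k : z ∈ sp (Lq q ζ) B) :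
    ∃ y ∈ E, ∃ t : ℂ, t ≠ 0 ∧ z = (q y, t • ζ y) := by
  obtain ⟨y, hy, t, rfl⟩ := h.tot_surj k.1
  exact ⟨y, hy, t, fun e => k.2 (by rw [e]; exact zero_smul _ _), rfl⟩

theorem zb_io {A : Set (Q × (J → ℂ))} (k : SD q E Z B W) (hA : ∀ z ∈ sp (Lq q ζ) B, z ∈ A ↔ z.1 ∈ W) :
    ZB (io q ζ) E Z (sp (Lq q ζ) B) A := by
  have cn : ContinuousOn (nu s q ζ) (sp (Lq q ζ) B) := h.contOn_tot sdiff_subset
    (F := fun z => s (phs z.2) z.1) (h.orb.cont.comp_continuousOn ((contOn_phs.comp continuousOn_snd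
      fun z a e => a.2.2 (by rw [show z.2 = 0 from e]; exact zero_smul _ _)).prodMk continuousOn_fst))
    fun y a t b => h.nu_q a fun e => b.2 (by rw [e]; exact zero_smul _ _)
  have mn : MapsTo (nu s q ζ) (sp (Lq q ζ) B) E := fun z a => by
    obtain ⟨y, hy, t, ht, rfl⟩ := h.sp_surj a
    exact h.nu_q hy ht ▸ h.act _ hy
  have qn : ∀ z, q (nu s q ζ z) = z.1 := fun z => (h.orb.q_s _ _).trans (q_out h.orb _)
  have mi : MapsTo (io q ζ) E (sp (Lq q ζ) B) := fun y a =>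
    ⟨by simpa [io] using h.mem_tot a 1, h.ne y a⟩
  have o1 : Ok (io q ζ) E Z (sp (Lq q ζ) B) A := ok_of h.lcE (h.cq.continuousOn.prodMk h.cont) mi
    fun y a b => (k.iff y a).2 ((hA _ (mi a)).1 b)
  have o2 : Ok (nu s q ζ) (sp (Lq q ζ) B) A E Z := ok_of h.cb.lc_sp cn mn
    fun z a b => (hA z a).2 (qn z ▸ (k.iff _ (mn a)).1 b)
  have e : ∀ y ∈ E, nu s q ζ (io q ζ y) = y := fun y a => by
    have := h.nu_q a one_ne_zero
    rwa [one_smul, show phs 1 = 1 from phs_coe 1, h.orb.one] at this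
  have m : ∀ z ∈ sp (Lq q ζ) B, ∀ t ∈ Icc (0 : ℝ) 1,
      (z.1, (1 - t) • ζ (nu s q ζ z) + t • z.2) ∈ sp (Lq q ζ) B := fun z a t ht => by
    obtain ⟨y, hy, c, hc, rfl⟩ := h.sp_surj a
    have : (1 - t) • ζ (nu s q ζ (q y, c • ζ y)) + t • c • ζ y =
        (((1 - t + t * ‖c‖ : ℝ) : ℂ) * phs c) • ζ y := by
      rw [h.nu_q hy hc, h.eqv _ y hy, ← smul_assoc, ← smul_assoc, ← add_smul]
      congr 1
      conv_lhs => rw [← norm_mul_phs c, phs_mul (norm_pos_iff.2 hc)]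
      simp only [Complex.real_smul]
      push_cast
      ring
    simp only [this]
    refine ⟨h.mem_tot hy _, smul_ne_zero (mul_ne_zero (Complex.ofReal_ne_zero.2 ?_)
      (Circle.coe_ne_zero _)) (h.ne y hy)⟩
    have := norm_pos_iff.2 hc
    rcases ht.2.lt_or_eq with a | rfl
    · nlinarith [mul_nonneg ht.1 this.le]
    · simpa using hc
  refine ZB.of_comp_right o1 (ZB.of_section o2 o1 e (F := fun z => (z.1.1,
    (1 - z.2) • ζ (nu s q ζ z.1) + z.2 • z.1.2)) (ext_htpy h.cb.lc_sp ?_) m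
    (fun z a t ht b => (hA z a).2 ((hA _ (m z a t ht)).1 b)) (fun z _ => ?_) fun z _ => by simp)
    ZB.refl e
  · exact continuousOn_fst.fst.prodMk (((continuousOn_const.sub continuousOn_snd).smul
      ((h.cont.comp cn mn).comp continuousOn_fst fun _ a => a.1)).add
        (continuousOn_snd.smul continuousOn_fst.snd))
  · simp [io, qn]

theorem zb_io' : ZB (io q ζ) E univ (sp (Lq q ζ) B) univ := h.zb_io (sd_univ _ _ _) fun _ _ => Iff.rfl

theorem cl_TW (k : SD q E Z B W) {A : Set (Q × (J → ℂ))} (hA : A ⊆ tot (Lq q ζ) B) : Cl A (TW J W) :=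
  k.cl.preimage continuousOn_fst fun _ a => (hA a).1

theorem zb_io2 (k : SD q E Z B W) : ZB (io q ζ) E Z (tot (Lq q ζ) B \ T0 J W) (TW J W) := by
  refine (h.zb_io k fun _ _ => Iff.rfl).comp (ZB.excision (fun z a => ⟨a.1, fun b => a.2 b.2⟩)
    (h.cl_TW k sdiff_subset) (fun z a b => ?_) fun _ _ => Iff.rfl) fun _ _ => rfl
  exact mem_nhdsWithin.2 ⟨{z | z.2 ≠ 0}, isOpen_ne.preimage continuous_snd, fun e => a.2 ⟨b, e⟩,
    fun _ c => ⟨c.2.1, c.1⟩⟩

theorem tm_bij (k : SD q E Z B W) : Function.Bijective (tm q ζ B W) :=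
  h.cb.thom_bij k.cl (fun _ _ => Iff.rfl) fun _ _ => Iff.rfl

theorem tm_tr (k : SD q E Z B W) (c : H (tot (Lq q ζ) B \ T0 J W) (TW J W)) :
    tm q ζ B W (tr q ζ B W (pull (io q ζ) E Z c)) = dlt (tot (Lq q ζ) B) (T0 J W) c := by
  refine Classical.epsilon_spec (p := fun L : H E Z →ₗ[ℂ] H B W => ∀ c,
    tm q ζ B W (L (pull (io q ζ) E Z c)) = dlt (tot (Lq q ζ) B) (T0 J W) c)
    ⟨(LinearEquiv.ofBijective _ (h.tm_bij k)).symm.toLinearMap ∘ₗ dlt _ _ ∘ₗ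
      (LinearEquiv.ofBijective _ (h.zb_io2 k).bij).symm.toLinearMap, fun c => ?_⟩ c
  simp

theorem isDeg_tr (k : SD q E Z B W) {c : H E Z} (hc : IsDeg (p + 1) c) : IsDeg p (tr q ζ B W c) := by
  obtain ⟨c, rfl⟩ := (h.zb_io2 k).bij.2 c
  refine isDeg_of_cup h.cb.isThom_th.1 (h.tm_bij k).1 ?_
  rw [← tm_apply, h.tm_tr k]
  convert ((h.zb_io2 k).isDeg hc).dlt _ _ using 1
  ring

theorem h2 (W : Set Q) : (tot (Lq q ζ) B \ T0 J W) \ TW J W = tot (Lq q ζ) B \ TW J W :=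
  diff_diff_supp fun _ _ a => a.1

theorem ok_fstW (W : Set Q) {A : Set (Q × (J → ℂ))} (hA : A ⊆ tot (Lq q ζ) B) :
    Ok Prod.fst A (TW J W) B W :=
  .of_mem (.of_continuous continuous_fst _) (fun _ a => (hA a).1) fun _ _ a => a

theorem io_fst (k : SD q E Z B W) (a : H B W) : pull (io q ζ) E Z
    (pull Prod.fst (tot (Lq q ζ) B \ T0 J W) (TW J W) a) = pull q E Z a :=
  pull_pull' (h.zb_io2 k).ok (h.ok_fstW W sdiff_subset) (fun _ _ => rfl) a

theorem res_fst (a : H B W) : pull id (tot (Lq q ζ) B \ T0 J W) (TW J W)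
    (pull Prod.fst (tot (Lq q ζ) B) (TW J W) a) = pull Prod.fst _ _ a :=
  res_pull (h.ok_fstW W subset_rfl) sdiff_subset (fun _ _ a => a) a

theorem fgt_tm (a : H B W) : pull id (tot (Lq q ζ) B) (TW J W) (tm q ζ B W a) =
    pull Prod.fst (tot (Lq q ζ) B) (TW J W) (cup B W (ee q ζ B) a) := by
  have k1 : CupOK (tot (Lq q ζ) B) (TW J W) (tot (Lq q ζ) B) (zs Q (J → ℂ)) (tot (Lq q ζ) B)
      (T0 J W) :=
    cupOK fun _ _ a b => ⟨a, b⟩
  rw [tm_apply, res_cup_out (W := TW J W) (.id subset_rfl fun _ _ a => a.1) k1,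
    ← cup_res_right (ok_fgt subset_rfl) (cupU' _ _), ← h.cb.fst_eu, pull_cm (h.ok_fstW W subset_rfl)]
  exact (h.evn_ee.pul _ _ _).comm (cupU _ _) _

/-- the three exactness statements -/
theorem q_eq_zero (k : SD q E Z B W) (a : H B W) :
    pull q E Z a = 0 ↔ ∃ b : H B W, a = cup B W (ee q ζ B) b := by
  rw [← h.io_fst k, map_eq_zero_iff _ (h.zb_io2 k).bij.1, ← h.res_fst, exact_supp_res rfl (h.h2 W)]
  refine ⟨fun ⟨c, e⟩ => ?_, fun ⟨b, e⟩ => ⟨_, e ▸ h.fgt_tm b⟩⟩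
  obtain ⟨b, rfl⟩ := (h.tm_bij k).2 c
  exact ⟨b, (h.cb.fst_bij fun _ _ => Iff.rfl).1 (e.symm.trans (h.fgt_tm b))⟩

theorem tr_eq_zero (k : SD q E Z B W) (c : H E Z) :
    tr q ζ B W c = 0 ↔ ∃ a : H B W, c = pull q E Z a := by
  obtain ⟨c, rfl⟩ := (h.zb_io2 k).bij.2 c
  rw [← map_eq_zero_iff _ (h.tm_bij k).1, h.tm_tr k, exact_res_dlt rfl (h.h2 W)]
  refine ⟨fun ⟨x, e⟩ => ?_, fun ⟨a, e⟩ => ⟨_, (h.res_fst a).trans
    ((h.zb_io2 k).bij.1 ((h.io_fst k a).trans e.symm))⟩⟩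
  obtain ⟨a, rfl⟩ := (h.cb.fst_bij (Z := W) (W := TW J W) fun _ _ => Iff.rfl).2 x
  exact ⟨a, by rw [← e, h.res_fst, h.io_fst k]⟩

theorem ee_eq_zero (k : SD q E Z B W) (b : H B W) :
    cup B W (ee q ζ B) b = 0 ↔ ∃ c : H E Z, b = tr q ζ B W c := by
  rw [← map_eq_zero_iff _ (h.cb.fst_bij (W := TW J W) fun _ _ => Iff.rfl).1, ← h.fgt_tm,
    exact_dlt_supp rfl (h.h2 W)]
  refine ⟨fun ⟨c, e⟩ => ⟨_, (h.tm_bij k).1 (e.symm.trans (h.tm_tr k c).symm)⟩, fun ⟨c, e⟩ => ?_⟩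
  obtain ⟨c, rfl⟩ := (h.zb_io2 k).bij.2 c
  exact ⟨c, by rw [e, h.tm_tr k]⟩

theorem tr_q (k : SD q E Z B W) (a : H B W) : tr q ζ B W (pull q E Z a) = 0 :=
  (h.tr_eq_zero k _).2 ⟨a, rfl⟩

theorem q_ee : pull q E univ (ee q ζ B) = 0 :=
  (h.q_eq_zero (sd_univ _ _ _) _).2 ⟨1, (mul_one _).symm⟩

theorem ee_tr (k : SD q E Z B W) (c : H E Z) : cup B W (ee q ζ B) (tr q ζ B W c) = 0 :=
  (h.ee_eq_zero k _).2 ⟨c, rfl⟩

theorem tr_prj (k : SD q E Z B W) (c : H E Z) :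
    tr q ζ B W (prj {p + 1} c) = prj {p} (tr q ζ B W c) := by
  obtain ⟨m, e⟩ := exists_sum_prj c
  have : ∀ i : ℕ, tr q ζ B W (prj {p + 1} (prj {(i : ℤ)} c)) =
      prj {p} (tr q ζ B W (prj {(i : ℤ)} c)) := fun i => by
    have d := h.isDeg_tr (p := i - 1) k (c := prj {(i : ℤ)} c) (by simpa using isDeg_prj _ _)
    by_cases a : (i : ℤ) = p + 1
    · rw [(isDeg_prj (i : ℤ) c).prj_eq (s := {p + 1}) a,
        d.prj_eq (s := {p}) (show (i : ℤ) - 1 = p by omega)]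
    · rw [(isDeg_prj (i : ℤ) c).prj_eq_zero (s := {p + 1}) a,
        d.prj_eq_zero (s := {p}) (show ¬ (i : ℤ) - 1 = p by omega), map_zero]
  rw [e]
  simp only [map_sum, this]

theorem q_eq_zero' (k : SD q E Z B W) {a : H B W} (ha : IsDeg (p + 2) a) (e : pull q E Z a = 0) :
    ∃ b : H B W, IsDeg p b ∧ a = cup B W (ee q ζ B) b := by
  obtain ⟨b, rfl⟩ := (h.q_eq_zero k a).1 e
  exact ⟨_, isDeg_prj p b, by rw [cup_prj_right (t := {p + 2}) (by simp) h.isDeg_ee, isDeg_iff.1 ha]⟩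

theorem tr_eq_zero' (k : SD q E Z B W) {c : H E Z} (hc : IsDeg p c) (e : tr q ζ B W c = 0) :
    ∃ a : H B W, IsDeg p a ∧ c = pull q E Z a := by
  obtain ⟨a, rfl⟩ := (h.tr_eq_zero k c).1 e
  exact ⟨_, isDeg_prj p a, by rw [pull_prj, isDeg_iff.1 hc]⟩

theorem ee_eq_zero' (k : SD q E Z B W) {b : H B W} (hb : IsDeg p b) (e : cup B W (ee q ζ B) b = 0) :
    ∃ c : H E Z, IsDeg (p + 1) c ∧ b = tr q ζ B W c := by
  obtain ⟨c, rfl⟩ := (h.ee_eq_zero k b).1 e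
  exact ⟨_, isDeg_prj _ c, by rw [h.tr_prj k, isDeg_iff.1 hb]⟩

end CD

end Pool.Agent.Work.MP_8c604c_gt.OT
end
end

-- merged part: Pool.Agent.Work.MP_8c604c_gt.OT.Bor2
section
/-!
The transfer: projection formula, equivariant maps, the rotation, gluing (owner helper12).
-/

noncomputable section

set_option linter.unusedSectionVars false

namespace Pool.Agent.Work.MP_8c604c_gt.OT

open Set Topology Matrix Pool.Agent.Work.MP_849ab0_ag.G T

section Dlt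

variable {X : Type} [TopologicalSpace X] {U Z Z₁ U₁ W₁ U₂ W₂ V W : Set X}

theorem res_dlt (h : Ok id V W U Z) (c : U \ Z ⊆ U₁) (a : H U₁ W₁) :
    pull id V W (dlt U Z a) = dlt V W a := by
  rw [pull_dlt (.of_continuous continuous_id univ) (subset_univ _) (subset_univ _) h .refl
    (fun _ k => c (h.supp k)) c, pull_id]

theorem dlt_res (h : Ok id U₂ W₂ U₁ W₁) (c : U \ Z ⊆ U₂) (a : H U₁ W₁) :
    dlt U Z (pull id U₂ W₂ a) = dlt U Z a := by
  rw [← pull_dlt (.of_continuous continuous_id univ) (subset_univ _) (subset_univ _) .refl h c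
    fun _ k => h.maps (c k), pull_id]

end Dlt

variable {Y Q J Y' Q' J' : Type} [TopologicalSpace Y] [TopologicalSpace Q] [Fintype J] [Nonempty Y]
  [TopologicalSpace Y'] [TopologicalSpace Q'] [Fintype J'] [Nonempty Y']
  [RegularSpace Y] [SecondCountableTopology Y] [RegularSpace Q] [SecondCountableTopology Q]
  [RegularSpace Y'] [SecondCountableTopology Y'] [RegularSpace Q'] [SecondCountableTopology Q']
  {s : Circle → Y → Y} {q : Y → Q} {ζ : Y → J → ℂ} {E E₁ Z Z₁ Z₂ : Set Y} {B B₁ W W₁ W₂ : Set Q}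
  {s' : Circle → Y' → Y'} {q' : Y' → Q'} {ζ' : Y' → J' → ℂ} {E' Z' : Set Y'} {B' W' : Set Q'}
  {p : ℤ} {n : ℕ} {g : Y' → Y} {gb : Q' → Q}

theorem cTW (A : Set (Q × (J → ℂ))) (W : Set Q) : CupOK A (TW J W) A (zs Q (J → ℂ)) A (T0 J W) :=
  cupOK fun _ _ a b => ⟨a, b⟩

/-- the projection formula -/
theorem CD.tr_cup (h : CD s q ζ E B) (k : SD q E Z B W) (k1 : SD q E Z₁ B W₁) (o : Ok q E Z₂ B W₂)
    (hW : ∀ b ∈ B, b ∈ W₁ → b ∈ W₂ → b ∈ W) (hZ : ∀ y ∈ E, y ∈ Z₁ → y ∈ Z₂ → y ∈ Z)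
    (c : H E Z₁) (a : H B W₂) :
    tr q ζ B W (cup E Z c (pull q E Z₂ a)) = cup B W (tr q ζ B W₁ c) a := by
  obtain ⟨c, rfl⟩ := (h.zb_io2 k1).bij.2 c
  have o2 : Ok (io q ζ) E Z₂ (tot (Lq q ζ) B) (TW J W₂) :=
    .of_mem (h.zb_io2 k).ok.ext (fun _ a => ((h.zb_io2 k).ok.maps a).1) fun _ a b => o.mem a b
  have c1 : CupOK (tot (Lq q ζ) B \ T0 J W₁) (TW J W₁) (tot (Lq q ζ) B) (TW J W₂)
      (tot (Lq q ζ) B \ T0 J W) (TW J W) :=
    ⟨fun _ a => .inr a.1, fun z a => by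
      by_cases b : z ∈ T0 J W₁
      exacts [.inr ⟨a.1, fun d => a.2 ⟨hW _ a.1.1 b.1 d, b.2⟩⟩, .inl ⟨a.1, b⟩], fun z a => by
      by_cases b : z ∈ TW J W₁
      exacts [.inr ⟨a.1.1, fun d => a.2 (hW _ a.1.1.1 b d)⟩, .inl ⟨⟨a.1.1, fun d => b d.1⟩, b⟩]⟩
  have c2 : CupOK (tot (Lq q ζ) B) (T0 J W₁) (tot (Lq q ζ) B) (TW J W₂) (tot (Lq q ζ) B) (T0 J W) :=
    cupOK fun _ a b d => ⟨hW _ a.1 b.1 d, b.2⟩
  have c3 := cTW (tot (Lq q ζ) B)
  have c4 : CupOK (tot (Lq q ζ) B) (TW J W₁) (tot (Lq q ζ) B) (TW J W₂) (tot (Lq q ζ) B) (TW J W) :=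
    cupOK fun _ a b d => hW _ a.1 b d
  have c5 : CupOK (tot (Lq q ζ) B) (TW J W₁) (tot (Lq q ζ) B) (T0 J W₂) (tot (Lq q ζ) B) (T0 J W) :=
    cupOK fun _ a b d => ⟨hW _ a.1 b d.1, d.2⟩
  refine (h.tm_bij k).1 ?_
  rw [← pull_pull' (F := q) o2 (h.ok_fstW W₂ subset_rfl) (fun _ _ => rfl) a,
    ← pull_cup' (h.zb_io2 k).ok (h.zb_io2 k1).ok o2 hZ c1, h.tm_tr k,
    dlt_cup c1 c2 subset_rfl subset_rfl subset_union_right, ← h.tm_tr k1, tm_apply, tm_apply,
    cup_assoc (c3 W₁) c2 (c3 W₂).symm c5,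
    ← (IsDeg.evn h.cb.isThom_th.1 ⟨1, by norm_num⟩).comm (c3 W₂).symm,
    ← cup_assoc c4 (c3 W) (c3 W₂) c5, pull_cup' (h.ok_fstW W subset_rfl) (h.ok_fstW W₁ subset_rfl)
      (h.ok_fstW W₂ subset_rfl) (fun _ a b d => hW _ a.1 b d) (cupOK hW)]

theorem CD.tr_mul (h : CD s q ζ E B) (c : H E univ) (a : H B univ) :
    tr q ζ B univ (c * pull q E univ a) = tr q ζ B univ c * a :=
  h.tr_cup (sd_univ _ _ _) (sd_univ _ _ _) h.ok_q' (fun _ _ _ _ => trivial) (fun _ _ _ _ => trivial) c a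

/-- `g` is equivariant of weight `n` and induces `gb`. -/
structure EM (s' : Circle → Y' → Y') (q' : Y' → Q') (E' : Set Y') (s : Circle → Y → Y) (q : Y → Q)
    (E : Set Y) (g : Y' → Y) (gb : Q' → Q) (n : ℕ) : Prop where
  ne : n ≠ 0
  cont : ContinuousOn g E'
  maps : MapsTo g E' E
  eqv : ∀ θ, ∀ y ∈ E', g (s' θ y) = s (θ ^ n) (g y)
  com : ∀ y ∈ E', gb (q' y) = q (g y)

/-- the map of line bundles -/
def emF (q' : Y' → Q') (ζ' : Y' → J' → ℂ) (ζ : Y → J → ℂ) (g : Y' → Y) (gb : Q' → Q) (n : ℕ)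
    (z : Q' × (J' → ℂ)) : Q × (J → ℂ) := (gb z.1, co (ζ' (out q' z.1)) z.2 ^ n • ζ (g (out q' z.1)))

namespace EM

variable (e : EM s' q' E' s q E g gb n) (h : CD s q ζ E B) (h' : CD s' q' ζ' E' B')
include e h h'

theorem ok_gb (k : SD q E Z B W) (k' : SD q' E' Z' B' W') (o : ∀ y ∈ E', g y ∈ Z → y ∈ Z') :
    Ok gb B' W' B W := by
  refine ok_of h'.lc (h'.contOn (h.cq.comp_continuousOn e.cont) e.com) (fun b a => ?_) fun b a c => ?_
  · obtain ⟨y, hy, rfl⟩ := h'.surj a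
    exact e.com y hy ▸ h.maps (e.maps hy)
  · obtain ⟨y, hy, rfl⟩ := h'.surj a
    exact (k'.iff y hy).1 (o y hy ((k.iff _ (e.maps hy)).2 (e.com y hy ▸ c)))

theorem ok_gb' : Ok gb B' univ B univ := e.ok_gb h h' (sd_univ _ _ _) (sd_univ _ _ _) fun _ _ _ => trivial

theorem F_q {y : Y'} (hy : y ∈ E') (t : ℂ) :
    emF q' ζ' ζ g gb n (q' y, t • ζ' y) = (q (g y), t ^ n • ζ (g y)) := by
  obtain ⟨θ, k⟩ := exists_out h'.orb y
  have a : t • ζ' y = (t * (θ⁻¹ : Circle)) • ζ' (s' θ y) := by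
    rw [h'.eqv θ y hy, smul_smul, mul_assoc, ← Circle.coe_mul, inv_mul_cancel, Circle.coe_one, mul_one]
  rw [emF, k, a, co_smul (h'.ne _ (h'.act θ hy)), e.com y hy, e.eqv θ y hy, h.eqv _ _ (e.maps hy),
    smul_smul, mul_pow, mul_assoc, ← Circle.coe_pow, ← Circle.coe_mul, ← mul_pow, inv_mul_cancel,
    one_pow, Circle.coe_one, mul_one]

theorem F_ext : Ext (emF q' ζ' ζ g gb n) (tot (Lq q' ζ') B') :=
  .of_continuousOn h'.cb.lc_tot (h'.contOn_tot subset_rfl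
    (F := fun z => (q (g z.1), z.2 ^ n • ζ (g z.1)))
    ((h.cq.comp_continuousOn (e.cont.comp continuousOn_fst fun _ a => a.1)).prodMk
      ((continuousOn_snd.pow n).smul ((h.cont.comp e.cont e.maps).comp continuousOn_fst fun _ a => a.1)))
    fun _ a t _ => e.F_q h h' a t)

theorem F_mem : MapsTo (emF q' ζ' ζ g gb n) (tot (Lq q' ζ') B') (tot (Lq q ζ) B) := fun z a => by
  obtain ⟨y, hy, t, rfl⟩ := h'.tot_surj a
  exact e.F_q h h' hy t ▸ h.mem_tot (e.maps hy) _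

theorem F_zero {z : Q' × (J' → ℂ)} (a : z ∈ tot (Lq q' ζ') B') :
    (emF q' ζ' ζ g gb n z).2 = 0 ↔ z.2 = 0 := by
  obtain ⟨y, hy, t, rfl⟩ := h'.tot_surj a
  rw [e.F_q h h' hy t]
  simp [h.ne _ (e.maps hy), h'.ne y hy, e.ne]

theorem F_ok : Ok (emF q' ζ' ζ g gb n) (tot (Lq q' ζ') B') (zs _ _) (tot (Lq q ζ) B) (zs _ _) :=
  .of_mem (e.F_ext h h') (e.F_mem h h') fun _ a => (e.F_zero h h' a).1

theorem F_th : pull (emF q' ζ' ζ g gb n) (tot (Lq q' ζ') B') (zs _ _) (th (Lq q ζ) 1 B) =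
    (n : ℂ) • th (Lq q' ζ') 1 B' := by
  have l : ∀ {J : Type} (u : J → ℂ), ∃ T : CM 0 →ₗ[ℂ] J → ℂ, ∀ v, T v = v 0 • u := fun u =>
    ⟨(LinearMap.proj 0).smulRight u, fun _ => rfl⟩
  have i : ∀ {J : Type} {u : J → ℂ} {T : CM 0 →ₗ[ℂ] J → ℂ}, u ≠ 0 → (∀ v, T v = v 0 • u) →
      Function.Injective T := fun k a => (injective_iff_map_eq_zero _).2 fun v b => funext fun j => by
    rw [Fin.fin_one_eq_zero j]
    exact (smul_eq_zero.1 ((a v).symm.trans b)).resolve_right k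
  refine sub_eq_zero.1 (eq_zero_of_slice (F := CM 0) (Gys_ok _ _) h'.cb.isThom_th.1 h'.cb.thm_bij
    ((h.cb.isThom_th.1.pull _ _ _).sub (h'.cb.isThom_th.1.smul _)) fun b a => ?_)
  obtain ⟨y, hy, rfl⟩ := h'.surj a
  obtain ⟨T', t'⟩ := l (ζ' y)
  obtain ⟨T, t⟩ := l (ζ (g y))
  have m' : ∀ v, Lq q' ζ' (q' y) *ᵥ T' v = T' v := fun v => t' v ▸ (h'.mem_tot hy _).2
  have m : ∀ v, Lq q ζ (q (g y)) *ᵥ T v = T v := fun v => t v ▸ (h.mem_tot (e.maps hy) _).2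
  have o' := ok_fib (U := B') a (i (h'.ne y hy) t') m'
  have o := ok_fib (U := B) (h.maps (e.maps hy)) (i (h.ne _ (e.maps hy)) t) m
  have e' := h'.cb.isThom_th.2 _ a T' (i (h'.ne y hy) t') m'
  have op : Ok (fun v : CM 0 => v ^ n) univ {0} univ {0} := .of_mem (.of_continuous (by fun_prop) _)
    (mapsTo_univ _ _) fun v _ b => funext fun j => (pow_eq_zero_iff e.ne).1 (congrFun b j)
  refine ⟨_, o', fun _ => rfl, e' ▸ (fib_orient _).ne_zero, ?_⟩
  rw [map_sub, map_smul, e', pull_pull' (F := (fun v => (q (g y), T v)) ∘ fun v => v ^ n) o'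
    (e.F_ok h h') fun v _ => by rw [t', e.F_q h h' hy, Function.comp_apply, t]; rfl,
    ← pull_pull op o, h.cb.isThom_th.2 _ (h.maps (e.maps hy)) T (i (h.ne _ (e.maps hy)) t) m,
    pow_orient e.ne, sub_self]

theorem map_ee : pull gb B' univ (ee q ζ B) = (n : ℂ) • ee q' ζ' B' := by
  have o := (sec_zero (Lq q ζ) B).ok h.lc
  have o' := (sec_zero (Lq q' ζ') B').ok h'.lc
  rw [ee, ee, eu, eu, ec, ec, ← map_smul, ← e.F_th h h', pull_pull (e.ok_gb' h h') o,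
    pull_pull' o' (e.F_ok h h') fun b a => ?_]
  exact Prod.ext rfl ((e.F_zero h h' (o'.maps a)).2 rfl)

theorem map_tr (k : SD q E Z B W) (k' : SD q' E' Z' B' W') (o : ∀ y ∈ E', g y ∈ Z → y ∈ Z')
    (c : H E Z) : tr q' ζ' B' W' (pull g E' Z' c) = (n : ℂ) • pull gb B' W' (tr q ζ B W c) := by
  obtain ⟨c, rfl⟩ := (h.zb_io2 k).bij.2 c
  have ob := e.ok_gb h h' k k' o
  have w : ∀ z ∈ tot (Lq q' ζ') B', emF q' ζ' ζ g gb n z ∈ TW J W → z ∈ TW J' W' :=
    fun z a b => ob.mem a.1 b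
  have o1 : Ok (emF q' ζ' ζ g gb n) (tot (Lq q' ζ') B') (T0 J' W') (tot (Lq q ζ) B) (T0 J W) :=
    .of_mem (e.F_ext h h') (e.F_mem h h') fun z a b => ⟨w z a b.1, (e.F_zero h h' a).1 b.2⟩
  have o2 : Ok (emF q' ζ' ζ g gb n) (tot (Lq q' ζ') B' \ T0 J' W') (TW J' W')
      (tot (Lq q ζ) B \ T0 J W) (TW J W) :=
    .of_mem ((e.F_ext h h').mono sdiff_subset) o1.supp fun z a => w z a.1
  have o3 : Ok (emF q' ζ' ζ g gb n) (tot (Lq q' ζ') B') (TW J' W') (tot (Lq q ζ) B) (TW J W) :=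
    .of_mem (e.F_ext h h') (e.F_mem h h') w
  refine (h'.tm_bij k').1 ?_
  rw [pull_pull (ok_of h'.lcE e.cont e.maps o) (h.zb_io2 k).ok,
    ← pull_pull' (F := io q ζ ∘ g) (h'.zb_io2 k').ok o2 fun y a => by
      simpa [io] using e.F_q h h' a 1, h'.tm_tr k',
    ← pull_dlt (e.F_ext h h') subset_rfl sdiff_subset o1 o2 subset_rfl subset_rfl, ← h.tm_tr k,
    tm_apply, pull_cup' o1 o3 (e.F_ok h h') (fun _ _ a b => ⟨a, b⟩) (cupOK fun _ _ a b => ⟨a, b⟩),
    e.F_th h h', map_smul, map_smul, tm_apply,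
    pull_pull' (F := gb ∘ Prod.fst) o3 (h.ok_fstW W subset_rfl) fun _ _ => rfl,
    ← pull_pull (h'.ok_fstW W' subset_rfl) ob]

end EM

/-- restriction and change of support -/
theorem CD.tr_res (h : CD s q ζ E B) (h1 : CD s q ζ E₁ B₁) (hE : E₁ ⊆ E) (k : SD q E Z B W)
    (k1 : SD q E₁ Z₁ B₁ W₁) (o : ∀ y ∈ E₁, y ∈ Z → y ∈ Z₁) (c : H E Z) :
    tr q ζ B₁ W₁ (pull id E₁ Z₁ c) = pull id B₁ W₁ (tr q ζ B W c) := by
  simpa using (⟨one_ne_zero, continuousOn_id, hE, fun _ _ _ => by simp, fun _ _ => rfl⟩ :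
    EM s q E₁ s q E id id 1).map_tr h h1 k k1 o c

theorem CD.res_ee (h : CD s q ζ E B) (l : IsLocallyClosed B₁) (k : B₁ ⊆ B) :
    pull id B₁ univ (ee q ζ B) = ee q ζ B₁ := eu_res h.cb l k

/-- the rotation of the second factor -/
theorem orb_circ (Y : Type) [TopologicalSpace Y] :
    IsOrbQ (fun (θ : Circle) (z : Y × Circle) => (z.1, θ * z.2)) Prod.fst :=
  ⟨by fun_prop, by simp, by simp [mul_assoc], isOpenQuotientMap_fst.isQuotientMap, fun a b =>
    ⟨fun e => ⟨b.2 / a.2, Prod.ext e (by simp)⟩, fun ⟨_, e⟩ => e ▸ rfl⟩⟩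

theorem cd_circ (l : IsLocallyClosed E) : CD (fun (θ : Circle) (z : Y × Circle) => (z.1, θ * z.2))
    Prod.fst (fun z => c1 z.2) (E ×ˢ univ) E :=
  ⟨orb_circ Y, l, by simp, (continuous_c1.comp continuous_snd).continuousOn,
    fun _ _ _ => funext fun _ => by simp [c1], fun _ _ => c1_ne _⟩

theorem sd_circ (c : Cl E Z) : SD Prod.fst (E ×ˢ (univ : Set Circle)) (Z ×ˢ univ) E Z := ⟨c, by simp⟩

theorem tr_dt (l : IsLocallyClosed E) : tr Prod.fst (fun z : Y × Circle => c1 z.2) E univ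
    (pull Prod.snd (E ×ˢ univ) univ dt) = 1 := by
  have h := cd_circ l
  have k := sd_univ Prod.fst (E ×ˢ (univ : Set Circle)) E
  set L := Lq Prod.fst fun z : Y × Circle => c1 z.2
  have o1 : Ok Prod.snd (tot L E \ T0 _ univ) (TW _ univ) ({0}ᶜ : Set (CM 0)) univ :=
    .of_mem (.of_continuous continuous_snd _) (fun _ a b => a.2 ⟨trivial, b⟩) fun _ _ _ => trivial
  have o2 : Ok Prod.snd (tot L E) (zs _ _) (univ : Set (CM 0)) {0} :=
    .of_mem (.of_continuous continuous_snd _) (mapsTo_univ _ _) fun _ _ a => a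
  have o3 : Ok id (tot L E) (T0 _ univ) (tot L E) (zs _ _) := .id subset_rfl fun _ _ a => ⟨trivial, a⟩
  have t : pull Prod.snd (tot L E) (zs _ _) (orient (Fin 1)) = th L 1 E := by
    refine (h.cb.isThom_of ((fib_orient (Fin 1)).deg.pull _ _ _) (K := Fin 1) rfl fun y a => ?_).eq_th h.cb
    have m : ∀ v : CM 0, L y *ᵥ LinearMap.id (R := ℂ) v = LinearMap.id (R := ℂ) v := fun v => by
      have := (h.mem_tot (y := (y, 1)) ⟨a, trivial⟩ (v 0)).2
      rwa [show v 0 • c1 1 = v from funext fun j => by simp [c1, Fin.fin_one_eq_zero j]] at this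
    exact ⟨.id, Function.injective_id, m, (pull_pull' (F := id)
      (ok_fib a Function.injective_id m) o2 (fun _ _ => rfl) _).trans (pull_id _)⟩
  refine (h.tm_bij k).1 ?_
  rw [dt, pull_pull (ok_snd' _ _) zb_c1.ok, ← pull_pull' (F := c1 ∘ Prod.snd) (h.zb_io2 k).ok o1
    fun _ _ => rfl, h.tm_tr k, ← pull_dlt (.of_continuous continuous_snd univ) (subset_univ _)
      (subset_univ _) (o2.comp o3) o1 subset_rfl (fun _ a => a.2), dlt_sg, tm_apply, oneH,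
    pull_one (h.ok_fstW univ subset_rfl) (subset_univ _),
    one_cup (Z₁ := TW _ univ) (fun _ _ => trivial) (cTW _ _) o3, ← t]
  exact (pull_pull' o3 o2 (fun _ _ => rfl) _).symm

theorem tr_circ (l : IsLocallyClosed E) (c : Cl E Z) {b : H (E ×ˢ univ) (Z ×ˢ univ)}
    (hb : IsDeg (p + 1) b) :
    tr Prod.fst (fun z : Y × Circle => c1 z.2) E Z b = (-1 : ℂ) ^ p • sl 1 dt E Z b := by
  have h := cd_circ l
  conv_lhs => rw [circ_split 1 b]
  rw [map_add, xp, pull_oneH (ok_snd' _ _), cup_oneH, h.tr_q (sd_circ c), zero_add, xp,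
    cup_comm (cupU _ _) (top_dt.deg.pull _ _ _) ((top_dt.sl_deg hb).pull _ _ _), map_smul,
    h.tr_cup (sd_circ c) (sd_univ _ _ _) (ok_fst _ _ _) (fun _ _ _ a => a) (fun _ _ _ a => a),
    tr_dt l, cm_one, one_mul]

/-- the pull-back of the transfer is the integral of the rotated class -/
theorem CD.q_tr (h : CD s q ζ E B) (k : SD q E Z B W) {c : H E Z} (hc : IsDeg (p + 1) c) :
    pull q E Z (tr q ζ B W c) =
      (-1 : ℂ) ^ p • sl 1 dt E Z (pull (fun z => s z.2 z.1) (E ×ˢ univ) (Z ×ˢ univ) c) := by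
  have cl : Cl E Z := (k.cl.preimage h.cq.continuousOn h.maps).congr fun y a => (k.iff y a).symm
  have e : EM (fun (θ : Circle) (z : Y × Circle) => (z.1, θ * z.2)) Prod.fst (E ×ˢ univ) s q E
      (fun z => s z.2 z.1) q 1 :=
    ⟨one_ne_zero, (h.orb.cont.comp continuous_swap).continuousOn, fun _ a => h.act _ a.1,
      fun _ _ _ => by rw [pow_one, h.orb.mul], fun _ _ => (h.orb.q_s _ _).symm⟩
  have := e.map_tr h (cd_circ h.lcE) k (sd_circ cl) (fun z a b => ⟨(k.iff _ a.1).2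
    (h.orb.q_s z.2 z.1 ▸ (k.iff _ (h.act _ a.1)).1 b), trivial⟩) c
  rw [← tr_circ h.lcE cl (hc.pull _ _ _), this, Nat.cast_one, one_smul]

/-- gluing a class upstairs with a class off the support -/
theorem CD.glue (h : CD s q ζ E B) (k : SD q E Z B W) (a : H (B \ W) univ) (c : H E univ)
    (e : pull id (E \ Z) univ c = pull q (E \ Z) univ a) :
    ∃ b : H B W, pull id B univ b = tr q ζ B univ c ∧ cup B W (ee q ζ B) b = dlt B W a := by
  have h0 : CD s q ζ (E \ Z) (B \ W) := h.mono (k.cl.isLocallyClosed_diff h.lc)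
    (fun y => ⟨fun a => ⟨h.maps a.1, fun b => a.2 ((k.iff y a.1).2 b)⟩, fun a =>
      ⟨(h.pre y).2 a.1, fun b => a.2 ((k.iff y ((h.pre y).2 a.1)).1 b)⟩⟩) sdiff_subset
  have k0 := sd_univ q E B
  set L := Lq q ζ
  obtain ⟨c, rfl⟩ := h.zb_io'.bij.2 c
  have o1 : Ok Prod.fst (tot L B \ TW J W) univ (B \ W) univ :=
    .of_mem (.of_continuous continuous_fst _) (fun _ a => ⟨a.1.1, a.2⟩) fun _ _ _ => trivial
  have s1 : sp L (B \ W) ⊆ sp L B := fun _ a => ⟨⟨a.1.1.1, a.1.2⟩, a.2⟩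
  have s2 : sp L (B \ W) ⊆ tot L B \ TW J W := fun _ a => ⟨(s1 a).1, a.1.1.2⟩
  obtain ⟨x, x1, x2⟩ := mv_glue (A := sp L B) (B := tot L B \ TW J W) (C := sp L (B \ W))
    (D := tot L B \ T0 J W) (Z := univ)
    (fun z a => mem_nhdsWithin.2 ⟨{z | z.2 ≠ 0}, isOpen_ne.preimage continuous_snd, a.2,
      fun _ b => ⟨b.2.1, b.1⟩⟩)
    (fun z a => nhdsWithin_mono _ sdiff_subset ((h.cl_TW k subset_rfl).diff_mem_nhdsWithin a))
    (Subset.antisymm (subset_inter s1 s2) fun _ a => ⟨⟨⟨a.1.1.1, a.2.2⟩, a.1.1.2⟩, a.1.2⟩)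
    (Subset.antisymm (fun z a => by
      by_cases b : z ∈ TW J W
      exacts [.inl ⟨a.1, fun d => a.2 ⟨b, d⟩⟩, .inr ⟨a.1, b⟩])
      (union_subset (fun _ a => ⟨a.1, fun b => a.2 b.2⟩) fun _ a => ⟨a.1, fun b => a.2 b.1⟩))
    c (pull Prod.fst _ univ a) (h0.zb_io'.bij.1 (by
      rw [pull_res h0.zb_io'.ok s1 fun _ _ a => a, pull_res h0.zb_io'.ok s2 fun _ _ a => a,
        pull_pull' (F := q) (Ok.of_mem h0.zb_io'.ok.ext (fun _ a => s2 (h0.zb_io'.ok.maps a))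
          fun _ _ _ => mem_univ _) o1 fun _ _ => rfl, ← e,
        res_pull h.zb_io'.ok sdiff_subset fun _ _ a => a]))
  obtain ⟨b, hb⟩ := (h.tm_bij k).2 (dlt (tot L B) (T0 J W) x)
  have o2 : Ok id (tot L B \ T0 J univ) (TW J univ) (sp L B) univ :=
    .id (fun _ a => ⟨a.1, fun b => a.2 ⟨trivial, b⟩⟩) fun _ _ _ => trivial
  have o3 : Ok id (tot L B) (T0 J univ) (tot L B) (T0 J W) := .id subset_rfl fun _ _ a => ⟨trivial, a.2⟩
  have o4 : Ok id (tot L B) (TW J univ) (tot L B) (TW J W) := .id subset_rfl fun _ _ _ => trivial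
  have o5 : Ok id (tot L B \ TW J W) univ (tot L B \ T0 J W) univ :=
    ok_fgt fun _ a => ⟨a.1, fun b => a.2 b.1⟩
  have o6 : Ok id (sp L B) univ (tot L B \ T0 J W) univ := ok_fgt fun _ a => ⟨a.1, fun b => a.2 b.2⟩
  refine ⟨b, (h.tm_bij k0).1 ?_, (h.cb.fst_bij (W := TW J W) fun _ _ => Iff.rfl).1 ?_⟩
  · rw [← pull_res (h.zb_io2 k0).ok o2.maps fun _ _ _ => mem_univ _, h.tm_tr k0, dlt_res o2 subset_rfl,
      ← x1, dlt_res o6 o2.maps, ← res_dlt o3 subset_rfl, ← hb,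
      tm_apply, tm_apply, res_cup_out o3 (cTW _ _),
      pull_res (h.ok_fstW univ subset_rfl) subset_rfl fun _ _ _ => mem_univ _,
      ← res_pull (h.ok_fstW W subset_rfl) subset_rfl (W₁ := TW J univ) fun _ _ _ => mem_univ _,
      cup_res_left o4 (cTW _ _)]
  · rw [← h.fgt_tm, hb, res_dlt (.id subset_rfl fun _ _ a => a.1) subset_rfl,
      pull_dlt (.of_continuous continuous_fst univ) (subset_univ _) (subset_univ _)
        (h.ok_fstW W subset_rfl) o1 subset_rfl subset_rfl, ← x2,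
      dlt_res o5 subset_rfl]

end Pool.Agent.Work.MP_8c604c_gt.OT
end
end

-- merged part: Pool.Agent.Work.MP_8c604c_gt.OT.Bor3
section
/-!
Products with a sphere; inductions along the Gysin sequence (owner helper12).
-/

noncomputable section

set_option linter.unusedSectionVars false

namespace Pool.Agent.Work.MP_8c604c_gt.OT

open Set Topology Matrix Pool.Agent.Work.MP_849ab0_ag.G T

section Sph

variable {X : Type} [TopologicalSpace X] [RegularSpace X] [SecondCountableTopology X] {U Z : Set X}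
  {m : ℕ} {p : ℤ} {ζ : CM m}

theorem ok_slS (h : ζ ∈ Sp m) (U Z : Set X) : Ok (fun x => (x, ζ)) U Z (U ×ˢ Sp m) (Z ×ˢ univ) :=
  .of_mem (.of_continuous (by fun_prop) _) (fun _ k => ⟨k, h⟩) fun _ _ k => k.1

theorem slS_fst (h : ζ ∈ Sp m) (a : H U Z) :
    pull (fun x => (x, ζ)) U Z (pull Prod.fst (U ×ˢ Sp m) (Z ×ˢ univ) a) = a :=
  (pull_pull' (F := id) (ok_slS h U Z) (ok_fst _ _ _) (fun _ _ => rfl) a).trans (pull_id a)

theorem sp_ex {b : H (U ×ˢ Sp m) (Z ×ˢ univ)} (hb : IsDeg p b) (hp : p ≤ 2 * m) :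
    ∃ a : H U Z, b = pull Prod.fst (U ×ˢ Sp m) (Z ×ˢ univ) a := by
  have e : ∀ a : H U Z, xp a (1 : H (Sp m) univ) = pull Prod.fst (U ×ˢ Sp m) (Z ×ˢ univ) a := fun a => by
    rw [xp, pull_oneH (ok_snd' _ _), cup_oneH]
  have key : ∀ b : H (U ×ˢ Sp m) (Z ×ˢ univ), ∃ a a' : H U Z,
      b = xp a 1 + xp a' (pull id (Sp m) univ (sg m)) := fun b =>
    top_Sp.ind (P := fun b => ∃ a a' : H U Z, b = xp a 1 + xp a' (pull id (Sp m) univ (sg m)))
      ⟨0, 0, by simp [xp]⟩ (fun _ _ ⟨a, a', k⟩ ⟨c, c', k'⟩ =>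
        ⟨a + c, a' + c', by rw [k, k', xp_add, xp_add, add_add_add_comm]⟩)
      (fun a => ⟨0, a, by simp [xp]⟩) (fun a _ _ c _ => by
        obtain ⟨s, t, rfl⟩ := (top_of isCompact_Sp zb_Sp).2 c
        exact ⟨s • a, t • a, by simp only [xp, map_add, map_smul, LinearMap.smul_apply]⟩) b
  obtain ⟨a, a', k⟩ := key b
  refine ⟨prj {p} a, ?_⟩
  have : prj {p} (xp a' (pull id (Sp m) univ (sg m))) = 0 := by
    rw [xp, ← cup_prj_left (s := {p - (2 * m + 1)}) (fun q => by simp only [mem_singleton_iff]; omega) _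
      (top_Sp.deg.pull _ _ _), (isDeg_prj _ _).eq_zero_of_neg (by omega), map_zero, LinearMap.zero_apply]
  rw [← isDeg_iff.1 hb, k, map_add, this, add_zero, e, pull_prj]

/-- in low degree the sphere does not contribute -/
theorem sp_low (h : ζ ∈ Sp m) {b : H (U ×ˢ Sp m) (Z ×ˢ univ)} (hb : IsDeg p b) (hp : p ≤ 2 * m) :
    pull Prod.fst (U ×ˢ Sp m) (Z ×ˢ univ) (pull (fun x => (x, ζ)) U Z b) = b := by
  obtain ⟨a, rfl⟩ := sp_ex hb hp
  rw [slS_fst h]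

theorem sp_zero (v : ∀ a : H U Z, IsDeg p a → a = 0) (hp : p ≤ 2 * m) {W : Set (X × CM m)}
    (hW : ∀ x ∈ U ×ˢ Sp m, x ∈ W ↔ x.1 ∈ Z) (b : H (U ×ˢ Sp m) W) (hb : IsDeg p b) : b = 0 := by
  refine (res_bij_of_eq (Z₁ := Z ×ˢ univ) fun x a => by simp [hW x a]).1 ?_
  rw [← sp_low one_mem_Sp (hb.pull _ _ _) hp, v _ ((hb.pull _ _ _).pull _ _ _), map_zero, map_zero]

theorem ok_slS' (h : ζ ∈ Sp m) (U : Set X) : Ok (fun x => (x, ζ)) U univ (U ×ˢ Sp m) univ :=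
  Ok.top (ok_slS h U univ)

theorem sp_low' (h : ζ ∈ Sp m) {b : H (U ×ˢ Sp m) univ} (hb : IsDeg p b) (hp : p ≤ 2 * m) :
    pull Prod.fst (U ×ˢ Sp m) univ (pull (fun x => (x, ζ)) U univ b) = b := by
  have o : Ok id (U ×ˢ Sp m) (univ ×ˢ univ) (U ×ˢ Sp m) univ := okZ fun _ _ _ => trivial
  have := congrArg (pull id (U ×ˢ Sp m) univ) (sp_low (U := U) h (hb.pull id _ (univ ×ˢ univ)) hp)
  rwa [res_pull (ok_fst _ _ _) subset_rfl fun _ _ _ => mem_univ _,
    pull_res (ok_slS h U univ) subset_rfl fun _ _ _ => ⟨mem_univ _, mem_univ _⟩,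
    res_pull o subset_rfl fun _ _ _ => mem_univ _, pull_id] at this

theorem zb_spP (U : Set X) :
    ZB id (U ×ˢ Sp m) univ (sp (fun _ => (1 : Matrix (Fin (m + 1)) (Fin (m + 1)) ℂ)) U) univ := by
  have pos : ∀ x : CM m, x ≠ 0 → ∀ t ∈ Icc (0 : ℝ) 1, 0 < 1 - t + t * ‖x‖⁻¹ := fun x hx t ht => by
    have := inv_pos.2 (norm_pos_iff.2 hx)
    rcases ht.2.lt_or_eq with h | rfl
    · nlinarith [mul_nonneg ht.1 this.le]
    · simpa using this
  refine ZB.retract (F := fun z => (z.1.1, (1 - z.2 + z.2 * ‖z.1.2‖⁻¹) • z.1.2))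
    (fun _ a => ⟨⟨a.1, one_mulVec _⟩, Sp_ne a.2⟩)
    (fun _ _ => Iff.rfl) (.of_continuousAt fun z hz => ?_) (fun x hx t ht => ?_) (fun x hx t _ => ?_)
    (fun _ _ _ _ _ => trivial) (by simp) fun x hx => ?_
  · have : ‖z.1.2‖ ≠ 0 := norm_ne_zero_iff.2 hz.1.2
    fun_prop (disch := assumption)
  · exact ⟨⟨hx.1.1, one_mulVec _⟩, smul_ne_zero (pos _ hx.2 t ht).ne' hx.2⟩
  · exact ⟨hx.1, by simpa [mem_Sp.1 hx.2] using hx.2⟩
  · exact ⟨hx.1.1, by simp [mem_Sp, norm_smul, inv_mul_cancel₀ (norm_ne_zero_iff.2 hx.2)]⟩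

theorem van_Sp (hU : IsLocallyClosed U) (v : Van p U univ) (hp : p ≤ 2 * m) : Van p (U ×ˢ Sp m) univ :=
  ((cb_one hU).thZ.van_sp v (van_neg (by simp; omega))).pul (zb_spP U)

theorem tf_Sp (hU : IsLocallyClosed U) (v : Tf p U univ) (hp : p ≤ 2 * m) : Tf p (U ×ˢ Sp m) univ :=
  ((cb_one hU).thZ.tf_sp v (van_neg (by simp; omega)) (van_neg (by simp; omega))).pul (zb_spP U)

theorem Sp_deg {c : H (Sp m) univ} (hc : IsDeg p c) (h0 : p ≠ 0) (hp : p ≤ 2 * m) : c = 0 := by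
  obtain ⟨s, t, e⟩ := (top_of isCompact_Sp zb_Sp).2 c
  rw [← isDeg_iff.1 hc, e, map_add, map_smul, map_smul, isDeg_oneH.prj_eq_zero (s := {p}) h0.symm,
    top_Sp.deg.prj_eq_zero (s := {p}) (show ¬ _ = _ by omega), smul_zero, smul_zero, add_zero]

end Sph

section Rk

variable {X X' : Type} [TopologicalSpace X] [TopologicalSpace X'] {U Z : Set X} {U' Z' : Set X'}
  {p q : ℤ}

/-- classes of degree `p` -/
def dg (p : ℤ) (U Z : Set X) : Submodule ℂ (H U Z) where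
  carrier := {a | IsDeg p a}
  add_mem' := IsDeg.add
  zero_mem' := IsDeg.zero p
  smul_mem' c _ h := h.smul c

/-- the Betti number -/
def rk (p : ℤ) (U Z : Set X) : Cardinal := Module.rank ℂ (dg p U Z)

theorem rk_zero (h : ∀ a : H U Z, IsDeg p a → a = 0) : rk p U Z = 0 :=
  rank_zero_iff_forall_zero.2 fun a => Subtype.ext (h _ a.2)

theorem rk_le_one {v : H U Z} (h : ∀ a : H U Z, IsDeg p a → ∃ t : ℂ, a = t • v) : rk p U Z ≤ 1 :=
  (rank_submodule_le_one_iff' _).2 ⟨v, fun a k => by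
    obtain ⟨t, rfl⟩ := h a k
    exact Submodule.smul_mem _ _ (Submodule.mem_span_singleton_self v)⟩

theorem rk_le (L : H U Z →ₗ[ℂ] H U' Z') (d : ∀ a, IsDeg p a → IsDeg q (L a))
    (i : ∀ a, IsDeg p a → L a = 0 → a = 0) : rk p U Z ≤ rk q U' Z' :=
  LinearMap.rank_le_of_injective (L.restrict (p := dg p U Z) (q := dg q U' Z') d)
    ((injective_iff_map_eq_zero _).2 fun a e => Subtype.ext (i _ a.2 (congrArg Subtype.val e)))

/-- a third class in a space of rank two -/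
theorem rk_two (h : rk p U Z ≤ 2) {a b c : H U Z} (ha : IsDeg p a) (hb : IsDeg p b) (hc : IsDeg p c)
    (li : ∀ s t : ℂ, s • a + t • b = 0 → s = 0 ∧ t = 0) : ∃ s t : ℂ, c = s • a + t • b := by
  by_contra k
  have l : LinearIndependent ℂ ![(⟨c, hc⟩ : dg p U Z), ⟨a, ha⟩, ⟨b, hb⟩] := by
    refine linearIndependent_finCons.2 ⟨LinearIndependent.pair_iff.2 fun s t e =>
      li s t (congrArg Subtype.val e), fun e => k ?_⟩
    rw [Matrix.range_cons, Matrix.range_cons, Matrix.range_empty, union_empty, singleton_union,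
      Submodule.mem_span_pair] at e
    obtain ⟨s, t, e⟩ := e
    exact ⟨s, t, (congrArg Subtype.val e).symm⟩
  have := l.cardinal_lift_le_rank.trans (Cardinal.lift_le.2 h)
  norm_num at this

end Rk

variable {Y Q J : Type} [TopologicalSpace Y] [TopologicalSpace Q] [Fintype J] [Nonempty Y]
  [RegularSpace Y] [SecondCountableTopology Y] [RegularSpace Q] [SecondCountableTopology Q]
  {s : Circle → Y → Y} {q : Y → Q} {ζ : Y → J → ℂ} {E Z : Set Y} {B W : Set Q} {p : ℤ}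

namespace CD

variable (h : CD s q ζ E B)
include h

theorem rk_step (k : SD q E Z B W) : rk (p + 2) B W ≤ rk p B W + rk (p + 2) E Z := by
  set f := (pull q E Z : H B W →ₗ[ℂ] _).restrict (p := dg (p + 2) B W) (q := dg (p + 2) E Z)
    fun _ a => IsDeg.pull a _ _ _
  set g := (cup B W (ee q ζ B) : H B W →ₗ[ℂ] _).restrict (p := dg p B W) (q := dg (p + 2) B W)
    fun _ a => add_comm (2 : ℤ) p ▸ h.isDeg_ee.cup a B W
  rw [rk, ← f.rank_range_add_rank_ker, add_comm]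
  refine add_le_add ((Submodule.rank_mono (t := LinearMap.range g) fun a e => ?_).trans
    (rank_range_le g)) (Submodule.rank_le _)
  obtain ⟨b, d, e'⟩ := h.q_eq_zero' k a.2 (congrArg Subtype.val e)
  exact ⟨⟨b, d⟩, Subtype.ext e'.symm⟩

theorem van (k : SD q E Z B W) (v : ∀ j : ℕ, ∀ c : H E Z, IsDeg (p - 2 * j) c → c = 0) {a : H B W}
    (ha : IsDeg p a) : a = 0 := by
  have key : ∀ n : ℕ, ∀ p : ℤ, p < n → (∀ j : ℕ, ∀ c : H E Z, IsDeg (p - 2 * j) c → c = 0) →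
      ∀ a : H B W, IsDeg p a → a = 0 := fun n => by
    induction n with
    | zero => exact fun p hp _ a ha => ha.eq_zero_of_neg hp
    | succ n ih =>
      intro p hp v a ha
      obtain ⟨b, d, rfl⟩ := h.q_eq_zero' (p := p - 2) k (by simpa using ha)
        (v 0 _ (by simpa using ha.pull _ _ _))
      rw [ih (p - 2) (by omega) (fun j c hc => v (j + 1) c (by convert hc using 1; push_cast; ring)) b d,
        map_zero]
  exact key (p.toNat + 1) p (by omega) v a ha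

theorem even_eq (hB : IsPreconnected B) (n : ℕ)
    (v : ∀ j : ℕ, 0 < j → j ≤ n → ∀ c : H E univ, IsDeg (2 * j) c → c = 0) {a : H B univ}
    (ha : IsDeg (2 * n) a) : ∃ t : ℂ, a = t • ee q ζ B ^ n := by
  induction n generalizing a with
  | zero => simpa using deg0_const hB ha
  | succ n ih =>
    obtain ⟨b, d, rfl⟩ := h.q_eq_zero' (p := 2 * n) (sd_univ _ _ _) (by convert ha using 1; push_cast; ring)
      (v _ n.succ_pos le_rfl _ (ha.pull _ _ _))
    obtain ⟨t, rfl⟩ := ih (fun j a b => v j a (by omega)) d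
    exact ⟨t, by rw [map_smul, pow_succ', mulH]⟩

theorem pow_ne (hB : B.Nonempty) (n : ℕ)
    (v : ∀ j : ℕ, j < n → ∀ c : H E univ, IsDeg (2 * j + 1) c → c = 0) : ee q ζ B ^ n ≠ 0 := by
  induction n with
  | zero =>
    obtain ⟨b, hb⟩ := hB
    intro e
    have := congrArg (ev b) e
    rw [pow_zero, oneH, ev_one hb (subset_univ _), map_zero] at this
    exact one_ne_zero this
  | succ n ih =>
    intro e
    rw [pow_succ'] at e
    obtain ⟨c, d, e'⟩ := h.ee_eq_zero' (p := 2 * n) (sd_univ _ _ _)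
      (by simpa only [mul_comm] using IsDeg.powH h.isDeg_ee n) e
    exact ih (fun j a => v j (by omega)) (by rw [e', v n n.lt_succ_self c d, map_zero])

end CD

end Pool.Agent.Work.MP_8c604c_gt.OT
end
end

-- merged part: Pool.Agent.Work.MP_8c604c_gt.OT.BQ
section
/-!
The Borel construction for loops (owner helper12, from a draft of helper4).  The circle acts on
(loop, speed, sphere coordinate), with weight `k` on loops.
-/

noncomputable section

set_option linter.unusedSectionVars false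

namespace Pool.Agent.Work.MP_8c604c_gt.OT

open Set Topology Matrix Pool.Agent.Work.MP_849ab0_ag.G T

variable {V : Type} [NormedAddCommGroup V] [InnerProductSpace ℝ V] [FiniteDimensional ℝ V]
  {𝕄 : Mf V} {m k : ℕ}

/-- loops with a speed -/
abbrev LS (V : Type) [TopologicalSpace V] : Type := LM V × ℝ

/-- loop, speed, sphere coordinate -/
abbrev LA (V : Type) [TopologicalSpace V] (m : ℕ) : Type := LS V × CM m

/-- rotation of loops with a speed -/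
def shS (θ : Circle) (x : LS V) : LS V := (sh θ x.1, x.2)

/-- the double cover of loops with a speed -/
def dbS (x : LS V) : LS V := (db x.1, 2 * x.2)

/-- the action of weight `k` -/
def ac (k : ℕ) (θ : Circle) (x : LA V m) : LA V m := (shS (θ ^ k) x.1, (θ : ℂ) • x.2)

/-- the quotient -/
def BQ (V : Type) [NormedAddCommGroup V] [InnerProductSpace ℝ V] [FiniteDimensional ℝ V] (m k : ℕ) :
    Type := Quot fun x x' : LA V m => ∃ θ, ac k θ x = x'

instance : TopologicalSpace (BQ V m k) := inferInstanceAs (TopologicalSpace (Quot _))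

/-- the quotient map -/
def qB (k : ℕ) (x : LA V m) : BQ V m k := Quot.mk _ x

theorem shS_one (x : LS V) : shS 1 x = x := by simp [shS, sh_one]

theorem shS_mul (θ η : Circle) (x : LS V) : shS (θ * η) x = shS θ (shS η x) := by simp [shS, sh_mul]

theorem continuous_shS : Continuous fun z : Circle × LS V => shS z.1 z.2 :=
  (continuous_sh.comp (continuous_fst.prodMk continuous_snd.fst)).prodMk continuous_snd.snd

theorem continuous_db : Continuous (db : LM V → LM V) := ContinuousMap.continuous_precomp _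

theorem continuous_dbS : Continuous (dbS : LS V → LS V) :=
  (continuous_db.comp continuous_fst).prodMk (continuous_const.mul continuous_snd)

theorem db_apply (c : LM V) (t : Circle) : db c t = c (t * t) := rfl

theorem db_sh (θ : Circle) (c : LM V) : db (sh (θ * θ) c) = sh θ (db c) :=
  ContinuousMap.ext fun t => by rw [db_apply, sh_apply, sh_apply, db_apply, mul_mul_mul_comm]

theorem ac_one (x : LA V m) : ac k 1 x = x := by simp [ac, shS_one]

theorem ac_mul (θ η : Circle) (x : LA V m) : ac k (θ * η) x = ac k θ (ac k η x) := by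
  simp [ac, mul_pow, shS_mul, mul_smul]

theorem continuous_ac : Continuous fun z : Circle × LA V m => ac k z.1 z.2 :=
  (continuous_shS.comp ((continuous_fst.pow k).prodMk continuous_snd.fst)).prodMk
      ((continuous_subtype_val.comp continuous_fst).smul continuous_snd.snd)

theorem orbB : IsOrbQ (ac (V := V) (m := m) k) (qB k) where
  cont := continuous_ac
  one := ac_one
  mul := ac_mul
  quot := isQuotientMap_quot_mk
  eq_iff a b := by
    refine ⟨fun h => ?_, fun h => Quot.sound h⟩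
    have := Quot.eqvGen_exact h
    clear h
    induction this with
    | rel _ _ k => exact k
    | refl x => exact ⟨1, ac_one x⟩
    | symm x y _ k =>
      obtain ⟨θ, rfl⟩ := k
      exact ⟨θ⁻¹, by rw [← ac_mul, inv_mul_cancel, ac_one]⟩
    | trans x y z _ _ k k' =>
      obtain ⟨θ, rfl⟩ := k
      obtain ⟨η, rfl⟩ := k'
      exact ⟨η * θ, ac_mul _ _ _⟩

instance : T3Space (BQ V m k) := orbB.t3

instance : SecondCountableTopology (BQ V m k) := orbB.secondCountable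

instance : Nonempty (BQ V m k) := ⟨qB k 0⟩

theorem continuous_qB : Continuous (qB k : LA V m → _) := orbB.quot.continuous

theorem qB_ac (θ : Circle) (x : LA V m) : qB k (ac k θ x) = qB k x := orbB.q_s θ x

/-- a representative -/
abbrev oB (y : BQ V m k) : LA V m := out (qB k) y

theorem exists_oB (x : LA V m) : ∃ θ, oB (qB k x) = ac k θ x := exists_out orbB x

/-- invariant functions descend -/
theorem oB_eq {T : Type} {F : LA V m → T} (e : ∀ θ x, F (ac k θ x) = F x) (x : LA V m) :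
    F (oB (qB k x)) = F x := by
  obtain ⟨θ, h⟩ := exists_oB (k := k) x
  rw [h, e]

theorem continuous_oB {T : Type} [TopologicalSpace T] {F : LA V m → T} (hF : Continuous F)
    (e : ∀ θ x, F (ac k θ x) = F x) : Continuous fun y : BQ V m k => F (oB y) :=
  orbB.quot.continuous_iff.2 (hF.congr fun x => (oB_eq e x).symm)

/-- invariant sets of loops with a speed -/
def Inv (A : Set (LS V)) : Prop := ∀ θ, ∀ x ∈ A, shS θ x ∈ A

/-- the Borel construction -/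
def Bo (m k : ℕ) (A : Set (LS V)) : Set (BQ V m k) := qB k '' (A ×ˢ Sp m)

/-- the line bundle of the action -/
def LB : BQ V m k → Matrix (Fin (m + 1)) (Fin (m + 1)) ℂ := Lq (qB k) Prod.snd

/-- its Euler class -/
def eB (U : Set (BQ V m k)) : H U univ := ee (qB k) Prod.snd U

/-- integration over the orbits -/
def tB (k : ℕ) (B W : Set (BQ V m k)) {E Z : Set (LA V m)} : H E Z →ₗ[ℂ] H B W :=
  tr (qB k) Prod.snd B W

/-- the speed -/
def lam (y : BQ V m k) : ℝ := (oB y).1.2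

/-- speed at least `r` -/
def Zr (r : ℝ) : Set (LS V) := {x | r ≤ x.2}

/-- speed at least `r` in the quotient -/
def Zq (r : ℝ) : Set (BQ V m k) := {y | r ≤ lam y}

/-- the double cover -/
def psB (y : BQ V m 2) : BQ V m 1 := qB 1 (dbS (oB y).1, (oB y).2)

/-- the square of the sphere coordinate -/
def kpB (y : BQ V m 2) : BQ V m 1 := qB 1 ((oB y).1, (oB y).2 * (oB y).2)

variable {A A' : Set (LS V)} {r : ℝ}

theorem eB_eq (U : Set (BQ V m k)) : eB U = eu LB 1 U := rfl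

theorem Sp_sq {ζ : CM m} (h : ζ ∈ Sp m) : ζ * ζ ∈ Sp m := by
  rw [mem_Sp] at h ⊢
  refine le_antisymm ((norm_mul_le _ _).trans (by rw [h, mul_one])) ?_
  obtain ⟨i, -, e⟩ := Finset.exists_mem_eq_sup Finset.univ Finset.univ_nonempty fun i => ‖ζ i‖₊
  have e1 : ‖ζ i‖ = 1 := by rw [← h, Pi.norm_def, e, coe_nnnorm]
  have := norm_le_pi_norm (ζ * ζ) i
  rwa [Pi.mul_apply, norm_mul, e1, mul_one] at this

theorem Inv.ac (h : Inv A) (θ : Circle) (x : LA V m) (hx : x ∈ A ×ˢ Sp m) : ac k θ x ∈ A ×ˢ Sp m :=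
  ⟨h _ _ hx.1, (Sp_smul θ).2 hx.2⟩

theorem Inv.inter (h : Inv A) (h' : Inv A') : Inv (A ∩ A') := fun θ x a => ⟨h θ x a.1, h' θ x a.2⟩

theorem inv_snd (P : ℝ → Prop) : Inv {x : LS V | P x.2} := fun _ _ a => a

theorem lc_Sp (hA : IsLocallyClosed A) : IsLocallyClosed (A ×ˢ Sp m) :=
  (hA.preimage continuous_fst).inter (isCompact_Sp.isClosed.isLocallyClosed.preimage continuous_snd)

/-- the circle datum -/
theorem Inv.cd (h : Inv A) (hA : IsLocallyClosed A) :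
    CD (OT.ac k) (qB k) Prod.snd (A ×ˢ Sp m) (Bo m k A) :=
  cd_img orbB h.ac (lc_Sp hA) continuousOn_snd (fun _ _ _ => rfl) fun _ a => Sp_ne a.2

theorem Inv.mem (h : Inv A) {x : LA V m} : qB k x ∈ Bo m k A ↔ x ∈ A ×ˢ Sp m :=
  (mem_img orbB h.ac x).symm

theorem Bo_mono (h : A ⊆ A') : Bo m k A ⊆ Bo m k A' := image_mono (prod_mono_left h)

theorem isCompact_Bo (hA : IsCompact A) : IsCompact (Bo m k A) :=
  (hA.prod isCompact_Sp).image continuous_qB

theorem lam_q (x : LA V m) : lam (qB k x) = x.1.2 := oB_eq (F := fun x => x.1.2) (fun _ _ => rfl) x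

theorem continuous_lam : Continuous (lam : BQ V m k → ℝ) :=
  continuous_oB (F := fun x => x.1.2) (by fun_prop) fun _ _ => rfl

theorem isClosed_Zr : IsClosed (Zr r : Set (LS V)) := isClosed_le continuous_const continuous_snd

theorem isClosed_Zq : IsClosed (Zq r : Set (BQ V m k)) := isClosed_le continuous_const continuous_lam

theorem q_Zq {x : LA V m} : qB k x ∈ Zq r ↔ x.1 ∈ Zr r := by
  change r ≤ lam _ ↔ _
  rw [lam_q]
  rfl

/-- the support datum -/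
theorem sdB (E : Set (LA V m)) (B : Set (BQ V m k)) (r : ℝ) : SD (qB k) E (Zr r ×ˢ univ) B (Zq r) :=
  ⟨.of_isClosed isClosed_Zq _, fun _ _ => by simp [q_Zq]⟩

theorem Inv.diff (h : Inv A) (r : ℝ) : Bo m k A \ Zq r = Bo m k (A \ Zr r) := by
  ext y
  obtain ⟨x, rfl⟩ := orbB.quot.surjective y
  have h' : Inv (A \ Zr r) := h.inter (inv_snd fun t => ¬r ≤ t)
  rw [mem_sdiff, h.mem, h'.mem, q_Zq]
  exact ⟨fun a => ⟨⟨a.1.1, a.2⟩, a.1.2⟩, fun a => ⟨⟨a.1.1, a.2⟩, a.1.2⟩⟩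

theorem ps_ac (θ : Circle) (x : LA V m) :
    (dbS (ac 2 θ x).1, (ac 2 θ x).2) = ac 1 θ (dbS x.1, x.2) := by
  simp [ac, dbS, shS, sq, db_sh]

theorem kp_ac (θ : Circle) (x : LA V m) :
    ((ac 2 θ x).1, (ac 2 θ x).2 * (ac 2 θ x).2) = ac 1 (θ ^ 2) (x.1, x.2 * x.2) := by
  simp [ac, sq, smul_smul]

theorem psB_q (x : LA V m) : psB (qB 2 x) = qB 1 (dbS x.1, x.2) :=
  oB_eq (F := fun x => qB 1 (dbS x.1, x.2)) (fun θ x => by rw [ps_ac, qB_ac]) x

theorem kpB_q (x : LA V m) : kpB (qB 2 x) = qB 1 (x.1, x.2 * x.2) :=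
  oB_eq (F := fun x => qB 1 (x.1, x.2 * x.2)) (fun θ x => by rw [kp_ac, qB_ac]) x

theorem continuous_psB : Continuous (psB : BQ V m 2 → _) :=
  continuous_oB (F := fun x => qB 1 (dbS x.1, x.2))
    (continuous_qB.comp ((continuous_dbS.comp continuous_fst).prodMk continuous_snd))
    fun θ x => by rw [ps_ac, qB_ac]

theorem continuous_kpB : Continuous (kpB : BQ V m 2 → _) :=
  continuous_oB (F := fun x => qB 1 (x.1, x.2 * x.2)) (continuous_qB.comp (by fun_prop))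
    fun θ x => by rw [kp_ac, qB_ac]

theorem kpB_mem (h : A ⊆ A') : MapsTo kpB (Bo m 2 A) (Bo m 1 A') := by
  rintro _ ⟨x, hx, rfl⟩
  exact ⟨(x.1, x.2 * x.2), ⟨h hx.1, Sp_sq hx.2⟩, (kpB_q x).symm⟩

theorem psB_mem (h : MapsTo dbS A A') : MapsTo psB (Bo m 2 A) (Bo m 1 A') := by
  rintro _ ⟨x, hx, rfl⟩
  exact ⟨(dbS x.1, x.2), ⟨h hx.1, hx.2⟩, (psB_q x).symm⟩

theorem lam_kpB (y : BQ V m 2) : lam (kpB y) = lam y := lam_q _

theorem lam_psB (y : BQ V m 2) : lam (psB y) = 2 * lam y := lam_q _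

theorem ok_kpB (h : A ⊆ A') : Ok kpB (Bo m 2 A) univ (Bo m 1 A') univ :=
  .of_mem (.of_continuous continuous_kpB _) (kpB_mem h) fun _ _ _ => trivial

theorem ok_kpB' (h : A ⊆ A') {s : ℝ} (hs : s ≤ r) : Ok kpB (Bo m 2 A) (Zq s) (Bo m 1 A') (Zq r) :=
  .of_mem (.of_continuous continuous_kpB _) (kpB_mem h) fun y _ a => hs.trans (lam_kpB y ▸ a)

theorem ok_psB (h : MapsTo dbS A A') : Ok psB (Bo m 2 A) univ (Bo m 1 A') univ :=
  .of_mem (.of_continuous continuous_psB _) (psB_mem h) fun _ _ _ => trivial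

theorem ok_psB' (h : MapsTo dbS A A') {s : ℝ} (hs : 2 * s ≤ r) :
    Ok psB (Bo m 2 A) (Zq s) (Bo m 1 A') (Zq r) :=
  .of_mem (.of_continuous continuous_psB _) (psB_mem h) fun y _ a => by
    have : r ≤ 2 * lam y := lam_psB y ▸ a
    change s ≤ lam y
    linarith

end Pool.Agent.Work.MP_8c604c_gt.OT
end
end
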