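import Pool.Agent.Work.MP_8c604c_gt.OT.Loc
import Pool.Agent.Work.MP_8c604c_gt.OG.HS
import Pool.Agent.Work.MP_8c604c_gt.OD.JP
import Pool.Agent.Work.MP_8c604c_gt.OR.Wt

-- merged part: Pool.Agent.Work.MP_8c604c_gt.OT.M8
section
/-!
Unions of at most seven closed sets whose intersections have cohomology in degrees divisible by eight
(owner helper12).
-/

noncomputable section

set_option linter.unusedSectionVars false

namespace Pool.Agent.Work.MP_8c604c_gt.OT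

open Set Topology Filter Pool.Agent.Work.MP_849ab0_ag.G T

variable {X Y : Type} [TopologicalSpace X] [TopologicalSpace Y] [RegularSpace X]
  [SecondCountableTopology X] [RegularSpace Y] [SecondCountableTopology Y] {A B U : Set X} {p q : ℤ}

/-- no complex cohomology in degree `q` -/
def Vc (q : ℤ) (U : Set X) : Prop := ∀ a : H U univ, IsDeg q a → a = 0

/-- cohomology only in degrees divisible by eight -/
def M8 (U : Set X) : Prop := ∀ q : ℤ, q % 8 ≠ 0 → Vc q U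

theorem exists_prim {φ : List X → ℂ} (m : φ ∈ Zc U univ) (d : Hom (p + 1) φ) (k : A ⊆ U)
    (e : pull id A univ (cls U univ φ) = 0) : ∃ ψ ∈ bd X, Hom p ψ ∧ φ - dl ψ ∈ lz A := by
  rw [res_cls (ok_fgt k) m, cls_eq_zero ((ok_fgt k).zc_id m)] at e
  obtain ⟨ψ, h1, -, h3⟩ := e
  refine ⟨msk {p} ψ, msk_bd _ h1, Hom.msk p ψ, ?_⟩
  rw [dl_msk (t := {p + 1}) (by simp), ← d.msk_eq (s := {p + 1}) rfl, ← map_sub]
  exact msk_lz _ h3

/-- Mayer-Vietoris for closed sets -/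
theorem mv_closed (hA : IsClosed A) (hB : IsClosed B) (v : Vc p (A ∩ B)) {a : H (A ∪ B) univ}
    (ha : IsDeg (p + 1) a) (h1 : pull id A univ a = 0) (h2 : pull id B univ a = 0) : a = 0 := by
  obtain ⟨φ, m, rfl, d⟩ := ha
  obtain ⟨ψ, b1, d1, k1⟩ := exists_prim m d subset_union_left h1
  obtain ⟨ψ', b2, d2, k2⟩ := exists_prim m d subset_union_right h2
  have mz : ψ - ψ' ∈ Zc (A ∩ B) univ := mem_Zc.2 ⟨sub_mem b1 b2, by
    convert sub_mem (lz_anti inter_subset_right k2) (lz_anti inter_subset_left k1) using 1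
    rw [map_sub]
    abel, by simp [lz_empty]⟩
  obtain ⟨χ, b3, -, k3⟩ := (cls_eq_zero mz).1 (v _ (isDeg_cls mz fun l h => by simp [d1 l h, d2 l h]))
  obtain ⟨O, O', o, o', s, s', dj⟩ := exists_sep (A := A \ B) (B := B \ A)
    (disjoint_left.2 fun x h k => k.2 (closure_minimal sdiff_subset hA h))
    (disjoint_left.2 fun x h k => h.2 (closure_minimal sdiff_subset hB k))
  have b4 : ψ - ψ' - dl χ ∈ bd X := sub_mem (sub_mem b1 b2) (dl_bd b3)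
  refine (cls_eq_zero m).2 ⟨ψ' + cut O (ψ - ψ' - dl χ), add_mem b2 (cut_bd _ b4), by simp [lz_empty], ?_⟩
  have e1 : φ - dl (ψ' + cut O (ψ - ψ' - dl χ)) ∈ lz (A \ B) := by
    convert add_mem (lz_anti sdiff_subset k1) (dl_lz (sub_cut_lz o s b4.1)) using 1
    simp only [map_sub, map_add, dl_dl]
    abel
  have e2 : φ - dl (ψ' + cut O (ψ - ψ' - dl χ)) ∈ lz B := by
    have : cut O (ψ - ψ' - dl χ) ∈ lz B :=
      lz_cover (cut_lz O k3) (cut_lz_of_disjoint o' s' dj _) fun x h k => ⟨h, fun a => k ⟨a, h⟩⟩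
    convert sub_mem k2 (dl_lz this) using 1
    rw [map_add]
    abel
  exact lz_cover e2 e1 fun x h k => ⟨h.resolve_right k, k⟩

/-- the union of a list of sets -/
def Un (L : List (Set X)) : Set X := {x | ∃ A ∈ L, x ∈ A}

theorem Un_cons (L : List (Set X)) : Un (A :: L) = A ∪ Un L := by
  ext x
  simp [Un]

theorem Un_inter (L : List (Set X)) : A ∩ Un L = Un (L.map (A ∩ ·)) := by
  ext x
  simp only [Un, mem_inter_iff, mem_ofPred_eq, List.mem_map]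
  exact ⟨fun ⟨h, B, k, e⟩ => ⟨_, ⟨B, k, rfl⟩, h, e⟩, fun ⟨_, ⟨B, k, rfl⟩, h⟩ => ⟨h.1, B, k, h.2⟩⟩

theorem isClosed_Un {L : List (Set X)} (h : ∀ A ∈ L, IsClosed A) : IsClosed (Un L) := by
  induction L with
  | nil => simp [Un]
  | cons A L ih =>
    rw [Un_cons]
    exact (h A List.mem_cons_self).union (ih fun B k => h B (List.mem_cons_of_mem _ k))

theorem vc_empty : Vc q (Un ([] : List (Set X))) := fun _ _ =>
  (subsingleton_H (by simp [Un])).elim _ _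

section Fam

variable {F : Set (Set X)} (hc : ∀ A ∈ F, IsClosed A) (h8 : ∀ A ∈ F, M8 A)
  (hi : ∀ A ∈ F, ∀ B ∈ F, A ∩ B ∈ F)
include hc h8 hi

theorem un_van (n : ℕ) : ∀ L : List (Set X), L.length = n → (∀ A ∈ L, A ∈ F) → ∀ q : ℤ, (n : ℤ) ≤ q % 8 →
    Vc q (Un L) := by
  induction n with
  | zero => exact fun L h _ q _ => List.length_eq_zero_iff.1 h ▸ vc_empty
  | succ n ih =>
    intro L h m q hq
    obtain ⟨A, L, rfl⟩ := List.exists_cons_of_length_eq_add_one h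
    have mL : ∀ B ∈ L, B ∈ F := fun B k => m B (List.mem_cons_of_mem _ k)
    have mA := m A List.mem_cons_self
    rw [Un_cons]
    refine fun a ha => mv_closed (p := q - 1) (hc A mA) (isClosed_Un fun B k => hc B (mL B k)) ?_
      (by rwa [sub_add_cancel]) (h8 A mA q (by omega) _ (ha.pull _ _ _))
      (ih L (by simpa using h) mL q (by omega) _ (ha.pull _ _ _))
    rw [Un_inter]
    refine ih _ (by simpa using h) (fun B k => ?_) _ (by omega)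
    obtain ⟨C, k', rfl⟩ := List.mem_map.1 k
    exact hi A mA C (mL C k')

theorem un_inj (hq : q % 8 = 0) (L : List (Set X)) (n : L.length ≤ 8) (m : ∀ A ∈ L, A ∈ F) {a : H U univ}
    (ha : IsDeg q a) (s : Un L ⊆ U) (e : ∀ A ∈ L, pull id A univ a = 0) : pull id (Un L) univ a = 0 := by
  induction L with
  | nil => exact vc_empty _ (ha.pull _ _ _)
  | cons A L ih =>
    have mL : ∀ B ∈ L, B ∈ F := fun B k => m B (List.mem_cons_of_mem _ k)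
    have mA := m A List.mem_cons_self
    rw [Un_cons] at s ⊢
    rw [List.length_cons] at n
    refine mv_closed (p := q - 1) (hc A mA) (isClosed_Un fun B k => hc B (mL B k)) ?_
      (by rw [sub_add_cancel]; exact ha.pull _ _ _) ?_ ?_
    · rw [Un_inter]
      refine un_van hc h8 hi _ _ rfl (fun B k => ?_) _ (by rw [List.length_map]; omega)
      obtain ⟨C, k', rfl⟩ := List.mem_map.1 k
      exact hi A mA C (mL C k')
    · rw [res_pull (ok_fgt s) subset_union_left fun _ _ k => k]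
      exact e A List.mem_cons_self
    · rw [res_pull (ok_fgt s) subset_union_right fun _ _ k => k]
      exact ih (by omega) mL (subset_union_right.trans s) fun B k => e B (List.mem_cons_of_mem _ k)

end Fam

theorem M8.retract {U' : Set Y} (h : M8 U) {i : Y → X} {r : X → Y} (hi : Ok i U' univ U univ)
    (hr : Ok r U univ U' univ) (e : ∀ y ∈ U', r (i y) = y) : M8 U' := fun q hq a ha => by
  rw [← pull_id a, ← pull_pull' (F := id) hi hr e, h q hq _ (ha.pull _ _ _), map_zero]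

variable {V : Type} [NormedAddCommGroup V] [InnerProductSpace ℝ V] [FiniteDimensional ℝ V] {𝕄 : Mf V}

theorem MT.m8 (Q : MT 𝕄) : M8 𝕄.M := fun _ hq _ ha => Q.deg_zero ha (.inl (by omega))

theorem M8.prod (Q : MT 𝕄) (h : M8 U) : M8 (U ×ˢ 𝕄.M) := fun q hq a ha => by
  obtain ⟨b, rfl⟩ := (lh_prod' 𝕄.cpt (fun i : Fin (2 + 1) => IsDeg.powH Q.isDeg_y i) Q.basis U).2 a
  rw [← isDeg_iff.1 ha]
  simp only [map_sum]
  refine Finset.sum_eq_zero fun i _ => ?_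
  rw [mulH, ← cup_prj_left (s := {q - (i : ℕ) * 8}) (by simp [eq_sub_iff_add_eq]) _
    ((IsDeg.powH Q.isDeg_y i).pull _ _ _), ← pull_prj, h _ (by omega) _ (isDeg_prj _ _), map_zero, map_zero,
    LinearMap.zero_apply]

end Pool.Agent.Work.MP_8c604c_gt.OT
end
end

-- merged part: Pool.Agent.Work.MP_8c604c_gt.OT.Yb
section
/-!
Four points of the manifold, the walls where two of them agree, and lifts of classes to classes
that vanish near the walls (owner helper12).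
-/

noncomputable section

set_option linter.unusedSectionVars false

namespace Pool.Agent.Work.MP_8c604c_gt.OT

open Set Topology Filter Pool.Agent.Work.MP_849ab0_ag.G T

variable {V : Type} [NormedAddCommGroup V] [InnerProductSpace ℝ V] [FiniteDimensional ℝ V] {𝕄 : Mf V}
  {C : Set V} {𝒲 𝒲' : Set (Fin 4 × Fin 4)} {q : ℤ}

/-- four points, the last one in `C` -/
def Yb (𝕄 : Mf V) (C : Set V) : Set (Fin 4 → V) := {y | (∀ i, y i ∈ 𝕄.M) ∧ y 3 ∈ C}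

/-- a wall -/
def Dw (p : Fin 4 × Fin 4) : Set (Fin 4 → V) := {y | y p.1 = y p.2}

/-- the complement of a set of walls -/
def Zw (𝒲 : Set (Fin 4 × Fin 4)) : Set (Fin 4 → V) := {y | ∀ p ∈ 𝒲, y p.1 ≠ y p.2}

/-- `C` is an admissible set of base points -/
structure Bs (𝕄 : Mf V) (C : Set V) : Prop where
  sub : C ⊆ 𝕄.M
  cl : IsClosed C
  m8 : M8 C

theorem Zw_anti (h : 𝒲 ⊆ 𝒲') : (Zw 𝒲' : Set (Fin 4 → V)) ⊆ Zw 𝒲 := fun _ k p hp => k p (h hp)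

theorem MT.bs (Q : MT 𝕄) : Bs 𝕄 𝕄.M := ⟨subset_rfl, 𝕄.cpt.isClosed, Q.m8⟩

theorem continuous_re (ρ : Fin 4 → Fin 4) : Continuous fun y : Fin 4 → V => y ∘ ρ :=
  continuous_pi fun _ => continuous_apply _

theorem re_mem {ρ : Fin 4 → Fin 4} (h : ρ 3 = 3) : MapsTo (fun y => y ∘ ρ) (Yb 𝕄 C) (Yb 𝕄 C) :=
  fun y k => ⟨fun _ => k.1 _, by
    change y (ρ 3) ∈ C
    rw [h]
    exact k.2⟩

theorem ok_Y {A : Set (Fin 4 → V)} (h : A ⊆ Yb 𝕄 C) (i : Fin 4) : Ok (fun y => y i) A univ 𝕄.M univ :=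
  .of_mem (.of_continuous (continuous_apply i) _) (fun _ k => (h k).1 i) fun _ _ _ => trivial

/-- the normal form of a pair -/
def nw (p : Fin 4 × Fin 4) : Fin 4 × Fin 4 := if p.1 = p.2 then (0, 0) else (min p.1 p.2, max p.1 p.2)

theorem Dw_nw (p : Fin 4 × Fin 4) : (Dw (nw p) : Set (Fin 4 → V)) = Dw p := by
  ext y
  obtain ⟨i, j⟩ := p
  simp only [nw, Dw, mem_ofPred_eq]
  split_ifs with h
  · simp [h]
  · rcases le_total i j with k | k <;> simp [k, eq_comm]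

theorem nw_mem : ∀ p, nw p ∈ [((0 : Fin 4), (0 : Fin 4)), (0, 1), (0, 2), (0, 3), (1, 2), (1, 3), (2, 3)] := by
  decide

open Classical in
theorem exists_list (C : Set V) (𝒲 : Set (Fin 4 × Fin 4)) : ∃ L : List (Set (Fin 4 → V)), L.length ≤ 7 ∧
    (∀ A ∈ L, ∃ p ∈ 𝒲, A = Yb 𝕄 C ∩ Dw p) ∧ Yb 𝕄 C \ Zw 𝒲 = Un L := by
  refine ⟨([((0 : Fin 4), (0 : Fin 4)), (0, 1), (0, 2), (0, 3), (1, 2), (1, 3), (2, 3)].filter
    fun p => ∃ p' ∈ 𝒲, nw p' = p).map fun p => Yb 𝕄 C ∩ Dw p, ?_, fun A h => ?_, ?_⟩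
  · rw [List.length_map]
    exact List.length_filter_le _ _
  · obtain ⟨p, hp, rfl⟩ := List.mem_map.1 h
    obtain ⟨p', k, rfl⟩ := of_decide_eq_true (List.mem_filter.1 hp).2
    exact ⟨p', k, by rw [Dw_nw]⟩
  · ext y
    refine ⟨fun h => ?_, fun ⟨A, h, k⟩ => ?_⟩
    · obtain ⟨p, hp, e⟩ : ∃ p ∈ 𝒲, y ∈ Dw p := by simpa [Zw, Dw] using h.2
      exact ⟨_, List.mem_map.2 ⟨nw p, List.mem_filter.2 ⟨nw_mem p, decide_eq_true ⟨p, hp, rfl⟩⟩, rfl⟩, h.1,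
        (Dw_nw p).ge e⟩
    · obtain ⟨p, hp, rfl⟩ := List.mem_map.1 h
      obtain ⟨p', k', rfl⟩ := of_decide_eq_true (List.mem_filter.1 hp).2
      exact ⟨k.1, fun a => a p' k' ((Dw_nw p').le k.2)⟩

namespace Bs

variable (h : Bs 𝕄 C) (Q : MT 𝕄)
include h

theorem cl_Yb : IsClosed (Yb 𝕄 C) := by
  refine IsClosed.inter ?_ (h.cl.preimage (continuous_apply 3))
  change IsClosed {y : Fin 4 → V | ∀ i, y i ∈ 𝕄.M}
  rw [ofPred_forall]
  exact isClosed_iInter fun i => 𝕄.cpt.isClosed.preimage (continuous_apply i)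

include Q

theorem m8_Yb : M8 (Yb 𝕄 C) :=
  (((h.m8.prod Q).prod Q).prod Q).retract (i := fun y => (((y 3, y 0), y 1), y 2))
    (r := fun z => ![z.1.1.2, z.1.2, z.2, z.1.1.1])
    (.of_mem (.of_continuous (by fun_prop) _) (fun _ k => ⟨⟨⟨k.2, k.1 _⟩, k.1 _⟩, k.1 _⟩) fun _ _ _ => trivial)
    (.of_mem (.of_continuous (by fun_prop) _) (fun _ k => ⟨fun i => by
      fin_cases i
      exacts [k.1.1.2, k.1.2, k.2, h.sub k.1.1.1], k.1.1.1⟩) fun _ _ _ => trivial)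
    fun y _ => funext fun i => by fin_cases i <;> rfl

theorem m8_rel (R : Set (Fin 4 × Fin 4)) : M8 (Yb 𝕄 C ∩ {y | ∀ p ∈ R, y ∈ Dw p}) := by
  classical
  let r : Fin 4 → Fin 4 → Prop := fun i j => ∀ y : Fin 4 → V, (∀ p ∈ R, y ∈ Dw p) → y i = y j
  let ρ : Fin 4 → Fin 4 := fun i => if r i 3 then 3 else Classical.epsilon (r i)
  have e1 : ∀ i, r i (ρ i) := fun i => by
    simp only [ρ]
    split_ifs with k
    exacts [k, Classical.epsilon_spec ⟨i, fun _ _ => rfl⟩]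
  have e2 : ∀ p ∈ R, ρ p.1 = ρ p.2 := fun p hp => by
    have : r p.1 = r p.2 := funext fun j => propext ⟨fun k y a => (a p hp).symm.trans (k y a),
      fun k y a => (a p hp).trans (k y a)⟩
    simp only [ρ, this]
  exact (h.m8_Yb Q).retract (i := id) (r := fun y => y ∘ ρ) (ok_fgt inter_subset_left)
    (.of_mem (.of_continuous (continuous_re ρ) _) (fun y k => ⟨re_mem (ρ := ρ) (if_pos fun _ _ => rfl) k,
      fun p hp => congrArg y (e2 p hp)⟩) fun _ _ _ => trivial) fun y k => funext fun i => (e1 i y k.2).symm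

theorem fam : ∃ F : Set (Set (Fin 4 → V)), (∀ A ∈ F, IsClosed A) ∧ (∀ A ∈ F, M8 A) ∧
    (∀ A ∈ F, ∀ B ∈ F, A ∩ B ∈ F) ∧ ∀ p, Yb 𝕄 C ∩ Dw p ∈ F := by
  refine ⟨range fun R : Set (Fin 4 × Fin 4) => Yb 𝕄 C ∩ {y | ∀ p ∈ R, y ∈ Dw p}, ?_, ?_, ?_,
    fun p => ⟨{p}, by simp⟩⟩
  · rintro _ ⟨R, rfl⟩
    refine h.cl_Yb.inter ?_
    simp only [ofPred_forall]
    exact isClosed_iInter fun p => isClosed_iInter fun _ => isClosed_eq (continuous_apply _) (continuous_apply _)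
  · rintro _ ⟨R, rfl⟩
    exact h.m8_rel Q R
  · rintro _ ⟨R, rfl⟩ _ ⟨R', rfl⟩
    refine ⟨R ∪ R', Set.ext fun y => ⟨fun k => ⟨⟨k.1, fun p a => k.2 p (.inl a)⟩, k.1,
      fun p a => k.2 p (.inr a)⟩, fun k => ⟨k.1.1, fun p a => a.elim (k.1.2 p) (k.2.2 p)⟩⟩⟩

/-- lifts are unique -/
theorem lift_eq (hq : q % 8 = 0) {g g' : H (Yb 𝕄 C) (Zw 𝒲)} (hg : IsDeg q g) (hg' : IsDeg q g')
    (e : pull id (Yb 𝕄 C) univ g = pull id (Yb 𝕄 C) univ g') : g = g' := by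
  obtain ⟨F, h1, h2, h3, h4⟩ := h.fam Q
  obtain ⟨L, n, m, eL⟩ := exists_list (𝕄 := 𝕄) C 𝒲
  refine sub_eq_zero.1 (supp_inj (Z := univ) (Z₂ := univ) eL (by simp) (un_van h1 h2 h3 _ L rfl (fun A k => ?_) _
    (by omega)) (hg.sub hg') (by rw [map_sub, e, sub_self]))
  obtain ⟨p, -, rfl⟩ := m A k
  exact h4 p

/-- lifts exist -/
theorem exists_lift (hq : q % 8 = 0) {f : H (Yb 𝕄 C) univ} (hf : IsDeg q f)
    (v : ∀ p ∈ 𝒲, pull id (Yb 𝕄 C ∩ Dw p) univ f = 0) :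
    ∃ g : H (Yb 𝕄 C) (Zw 𝒲), IsDeg q g ∧ pull id (Yb 𝕄 C) univ g = f := by
  obtain ⟨F, h1, h2, h3, h4⟩ := h.fam Q
  obtain ⟨L, n, m, eL⟩ := exists_list (𝕄 := 𝕄) C 𝒲
  obtain ⟨g, e⟩ := (exact_supp_res (Z := univ) (Z₂ := univ) eL (by simp) f).1
    (un_inj h1 h2 h3 hq L (by omega) (fun A k => by
      obtain ⟨p, -, rfl⟩ := m A k
      exact h4 p) hf (eL ▸ sdiff_subset) fun A k => by
      obtain ⟨p, hp, rfl⟩ := m A k
      exact v p hp)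
  exact ⟨prj {q} g, isDeg_prj _ _, by rw [pull_prj, e, isDeg_iff.1 hf]⟩

end Bs

/-- the class `y` of the point number `i` -/
def MT.Y (Q : MT 𝕄) (A : Set (Fin 4 → V)) (i : Fin 4) : EvR A :=
  ⟨pull (fun y => y i) A univ Q.y, IsDeg.evn (Q.isDeg_y.pull _ _ _) ⟨4, rfl⟩⟩

namespace MT

variable (Q : MT 𝕄) {A : Set (Fin 4 → V)} {i j : Fin 4}

theorem isDeg_Y : IsDeg 8 (Q.Y A i).1 := Q.isDeg_y.pull _ _ _

theorem Y_cube (h : A ⊆ Yb 𝕄 C) (i : Fin 4) : Q.Y A i ^ 3 = 0 := Subtype.ext (by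
  change pull (fun y => y i) A univ Q.y ^ 3 = 0
  rw [← pull_pow (ok_Y h i), Q.y_pow, map_zero])

theorem Y_eq (h : ∀ y ∈ A, y i = y j) : Q.Y A i = Q.Y A j :=
  Subtype.ext (LinearMap.congr_fun (pull_congr h) _)

theorem Y_base (h : A ⊆ Yb 𝕄 C) (s : C ⊆ 𝕄.M) (v : Vc 8 C) : Q.Y A 3 = 0 := Subtype.ext (by
  change pull (fun y => y 3) A univ Q.y = 0
  rw [← pull_res (U₁ := C) (Z₁ := univ) (.of_mem (.of_continuous (continuous_apply 3) _) (fun _ k => (h k).2)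
    fun _ _ _ => mem_univ _) s fun _ _ _ => mem_univ _, v _ (Q.isDeg_y.pull _ _ _), map_zero])

theorem pullE_Y {X : Type} [TopologicalSpace X] {U : Set X} {f : X → Fin 4 → V} (o : Ok f U univ A univ)
    (h : A ⊆ Yb 𝕄 C) (i : Fin 4) : (pullE o (Q.Y A i)).1 = pull (fun x => f x i) U univ Q.y :=
  pull_pull' o (ok_Y h i) (fun _ _ => rfl) _

theorem res_Y {A' : Set (Fin 4 → V)} (k : A' ⊆ A) (h : A ⊆ Yb 𝕄 C) (i : Fin 4) :
    pullE (ok_fgt k) (Q.Y A i) = Q.Y A' i := Subtype.ext (Q.pullE_Y _ h i)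

theorem re_Y {A' : Set (Fin 4 → V)} {ρ : Fin 4 → Fin 4} (o : Ok (fun y => y ∘ ρ) A' univ A univ)
    (h : A ⊆ Yb 𝕄 C) (i : Fin 4) : pullE o (Q.Y A i) = Q.Y A' (ρ i) := Subtype.ext (Q.pullE_Y _ h i)

/-- the monomial `Y i ^ 2 * Y j * Y k` -/
def mo (A : Set (Fin 4 → V)) (i j k : Fin 4) : EvR A := Q.Y A i ^ 2 * Q.Y A j * Q.Y A k

/-- the class `W` -/
def W (A : Set (Fin 4 → V)) : EvR A := Q.mo A 0 1 2 + Q.mo A 2 0 1 - Q.mo A 0 2 2

theorem isDeg_mo (i j k : Fin 4) : IsDeg 32 (Q.mo A i j k).1 :=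
  IsDeg.mulH (p := 24) (IsDeg.mulH (p := 16) (IsDeg.powH Q.isDeg_Y 2) Q.isDeg_Y) Q.isDeg_Y

theorem isDeg_W : IsDeg 32 (Q.W A).1 := ((Q.isDeg_mo _ _ _).add (Q.isDeg_mo _ _ _)).sub (Q.isDeg_mo _ _ _)

theorem res_mo {A' : Set (Fin 4 → V)} (k : A' ⊆ A) (h : A ⊆ Yb 𝕄 C) (i j l : Fin 4) :
    pull id A' univ (Q.mo A i j l).1 = (Q.mo A' i j l).1 := by
  rw [← pullE_val (ok_fgt k)]
  simp only [mo, map_mul, map_pow, Q.res_Y k h]

theorem res_W {A' : Set (Fin 4 → V)} (k : A' ⊆ A) (h : A ⊆ Yb 𝕄 C) :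
    pull id A' univ (Q.W A).1 = (Q.W A').1 := by
  simp only [W, Subalgebra.coe_add, Subalgebra.coe_sub, map_add, map_sub, Q.res_mo k h]

theorem re_mo {A' : Set (Fin 4 → V)} {ρ : Fin 4 → Fin 4} (o : Ok (fun y => y ∘ ρ) A' univ A univ)
    (h : A ⊆ Yb 𝕄 C) (i j l : Fin 4) :
    pull (fun y => y ∘ ρ) A' univ (Q.mo A i j l).1 = (Q.mo A' (ρ i) (ρ j) (ρ l)).1 := by
  rw [← pullE_val o]
  simp only [mo, map_mul, map_pow, Q.re_Y o h]

theorem mo_comm (i j k : Fin 4) : Q.mo A i j k = Q.mo A i k j := mul_right_comm _ _ _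

theorem mo_comm' (i j : Fin 4) : Q.mo A i j j = Q.mo A j i i := by
  simp only [mo]
  ring

theorem mo_zero (h : A ⊆ Yb 𝕄 C) {k : Fin 4} (e : Q.Y A i = Q.Y A j ∨ Q.Y A i = Q.Y A k ∨ Q.Y A i = 0 ∨
    Q.Y A j = 0 ∨ Q.Y A k = 0) : Q.mo A i j k = 0 := by
  have := Q.Y_cube h i
  rw [mo]
  rcases e with e | e | e | e | e
  · linear_combination Q.Y A k * this - Q.Y A i ^ 2 * Q.Y A k * e
  · linear_combination Q.Y A j * this - Q.Y A i ^ 2 * Q.Y A j * e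
  all_goals simp [e]

theorem W_zero (h : A ⊆ Yb 𝕄 C) (e : Q.Y A 0 = Q.Y A 1 ∨ Q.Y A 1 = Q.Y A 2 ∨ Q.Y A 0 = Q.Y A 2 ∨
    Q.Y A 0 = 0 ∨ Q.Y A 2 = 0) : Q.W A = 0 := by
  have h0 := Q.Y_cube h 0
  have h2 := Q.Y_cube h 2
  simp only [W, mo]
  rcases e with e | e | e | e | e
  · rw [← e]
    linear_combination Q.Y A 2 * h0
  · rw [e]
    linear_combination Q.Y A 0 * h2
  · rw [e]
    linear_combination (2 * Q.Y A 1 - Q.Y A 2) * h2
  all_goals simp [e]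

end MT

end Pool.Agent.Work.MP_8c604c_gt.OT
end
end

-- merged part: Pool.Agent.Work.MP_8c604c_gt.OT.Jz
section
/-!
The class `z0` of degree 30 on the space of loops (owner helper12).
-/

noncomputable section

set_option linter.unusedSectionVars false

namespace Pool.Agent.Work.MP_8c604c_gt.OT

open Set Topology Filter Pool.Agent.Work.MP_849ab0_ag.G T

variable {V : Type} [NormedAddCommGroup V] [InnerProductSpace ℝ V] [FiniteDimensional ℝ V] {𝕄 : Mf V}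

/-- the base point and two more points -/
def ph2 (z : LS V × T2) : Fin 4 → V := ![z.1.1 1, z.1.1 z.2.1, z.1.1 z.2.2, z.1.1 1]

/-- the walls between the first three points -/
def W3 : Set (Fin 4 × Fin 4) := {(0, 1), (1, 2), (0, 2)}

theorem continuous_ph2 : Continuous (ph2 : LS V × T2 → _) := by unfold ph2; fun_prop

theorem mem_ZW3 {y : Fin 4 → V} : y ∈ Zw W3 ↔ y 0 ≠ y 1 ∧ y 1 ≠ y 2 ∧ y 0 ≠ y 2 := by simp [Zw, W3]

theorem MT.exists_Wt (Q : MT 𝕄) : ∃ g : H (Yb 𝕄 𝕄.M) (Zw W3), IsDeg 32 g ∧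
    pull id (Yb 𝕄 𝕄.M) univ g = (Q.W (Yb 𝕄 𝕄.M)).1 :=
  Q.bs.exists_lift Q (by norm_num) Q.isDeg_W fun p hp => by
    rw [Q.res_W inter_subset_left subset_rfl, Q.W_zero inter_subset_left, Subalgebra.coe_zero]
    rcases hp with rfl | rfl | rfl
    exacts [.inl (Q.Y_eq fun _ k => k.2), .inr (.inl (Q.Y_eq fun _ k => k.2)),
      .inr (.inr (.inl (Q.Y_eq fun _ k => k.2)))]

/-- the lift of `W` -/
def MT.Wt (Q : MT 𝕄) : H (Yb 𝕄 𝕄.M) (Zw W3) := Q.exists_Wt.choose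

theorem MT.isDeg_Wt (Q : MT 𝕄) : IsDeg 32 Q.Wt := Q.exists_Wt.choose_spec.1

theorem MT.fgt_Wt (Q : MT 𝕄) : pull id (Yb 𝕄 𝕄.M) univ Q.Wt = (Q.W (Yb 𝕄 𝕄.M)).1 :=
  Q.exists_Wt.choose_spec.2

namespace TD1

variable (D : TD1 𝕄) (Q : MT 𝕄) {U : Set (LS V)}

/-- the class of degree 30 -/
def z0 : H D.Lam univ :=
  JJ 2 w2 D.Lam univ Rg2 (pull ph2 (D.Lam ×ˢ univ) (ph2 ⁻¹' Zw W3) Q.Wt)

theorem isDeg_z0 : IsDeg 30 (D.z0 Q) := top_w2.isDeg_JJ (p := 30) (Q.isDeg_Wt.pull _ _ _)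

theorem ph2_mem {z : LS V × T2} (h : z.1 ∈ D.Lam) : ph2 z ∈ Yb 𝕄 𝕄.M :=
  ⟨fun i => by fin_cases i <;> exact h.1 _, h.1 _⟩

theorem ok_ph2 (h : U ⊆ D.Lam) (Z : Set (Fin 4 → V)) : Ok ph2 (U ×ˢ univ) (ph2 ⁻¹' Z) (Yb 𝕄 𝕄.M) Z :=
  .of_mem (.of_continuous continuous_ph2 _) (fun _ k => D.ph2_mem (h k.1)) fun _ _ k => k

end TD1

theorem ph2_ne {z : LS V × T2} (h : z ∈ ph2 ⁻¹' Zw W3) : z.2.1 ≠ 1 ∧ z.2.2 ≠ 1 ∧ z.2.1 ≠ z.2.2 := by
  obtain ⟨h1, h2, h3⟩ := mem_ZW3.1 h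
  exact ⟨fun e => h1 (congrArg z.1.1 e.symm), fun e => h3 (congrArg z.1.1 e.symm),
    fun e => h2 (congrArg z.1.1 e)⟩

theorem jok0 (U : Set (LS V)) : JOK U univ (ph2 ⁻¹' Zw W3) Rg2 univ where
  nf _ _ k := nf_ang continuous_fst continuous_snd (ph2_ne k).1 (ph2_ne k).2.1 (ph2_ne k).2.2
  sub _ _ _ _ := mem_univ _

end Pool.Agent.Work.MP_8c604c_gt.OT
end
end

-- merged part: Pool.Agent.Work.MP_8c604c_gt.OT.JbB
section
/-!
The integral over two ordered times of a class pulled back along the squaring map (owner helper70).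
-/

noncomputable section

set_option linter.unusedSectionVars false

namespace Pool.Agent.Work.MP_8c604c_gt.OT

open Set Real Topology Filter Pool.Agent.Work.MP_849ab0_ag.G T

/-- the half turn -/
def hft : Circle := cs (π / 2)

theorem hft_sq : hft * hft = 1 := by rw [hft, ← cs_add, add_halves, cs_pi]

theorem ang_hft : ang hft = π / 2 := ang_cs ⟨by positivity, half_lt_self pi_pos⟩

theorem ang_hft_mul (θ : Circle) : ang (hft * θ) < π / 2 ↔ ¬ ang θ < π / 2 := by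
  have h1 := ang_mem θ
  have h2 := ang_mem (hft * θ)
  rcases ang_mul hft θ with e | e <;> rw [ang_hft] at e
  · exact iff_of_false (by linarith [h1.1]) (not_not.2 (by linarith [h2.2]))
  · exact iff_of_true (by linarith [h1.2]) (not_lt.2 (by linarith [h2.1]))

theorem ang_sq (θ : Circle) : ang θ < π / 2 ∧ ang (θ * θ) = 2 * ang θ ∨
    π / 2 ≤ ang θ ∧ ang (θ * θ) = 2 * ang θ - π := by
  have h2 := ang_mem (θ * θ)
  rcases ang_mul θ θ with e | e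
  · exact .inl ⟨by linarith [h2.2], by linarith⟩
  · exact .inr ⟨by linarith [h2.1], by linarith⟩

/-- the squaring map of the torus -/
def sq2 (t : T2) : T2 := (t.1 * t.1, t.2 * t.2)

/-- a translation of the torus -/
def tr2 (a b : Circle) (t : T2) : T2 := (a * t.1, b * t.2)

theorem continuous_sq2 : Continuous sq2 := by unfold sq2; fun_prop

theorem continuous_tr2 (a b : Circle) : Continuous (tr2 a b) := by unfold tr2; fun_prop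

theorem sq2_tr2 {a b : Circle} (ha : a * a = 1) (hb : b * b = 1) (t : T2) : sq2 (tr2 a b t) = sq2 t :=
  Prod.ext ((mul_mul_mul_comm _ _ _ _).trans (by rw [ha, one_mul]; rfl))
    ((mul_mul_mul_comm _ _ _ _).trans (by rw [hb, one_mul]; rfl))

/-- pairs of different times that are not the base time -/
def Tg : Set T2 := {t | t.1 ≠ 1 ∧ t.2 ≠ 1 ∧ t.1 ≠ t.2}

/-- the frontier of `S` does not meet `T` -/
def Gd (T S : Set T2) : Prop := ∀ t ∈ T, t ∉ frontier S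

section Gd

variable {T T' S S' : Set T2}

theorem Gd.inter (h : Gd T S) (h' : Gd T S') : Gd T (S ∩ S') := fun t k => nf_inter (h t k) (h' t k)

theorem Gd.compl (h : Gd T S) : Gd T Sᶜ := fun t k => nf_compl (h t k)

theorem Gd.pre (h : Gd T S) {f : T2 → T2} (hf : Continuous f) (m : MapsTo f T' T) : Gd T' (f ⁻¹' S) :=
  fun t k e => h _ (m k) (hf.frontier_preimage_subset S e)

theorem gd_univ : Gd T univ := by simp [Gd]

theorem gd_Rg2 : Gd Tg Rg2 := fun _ k => nf_ang continuous_fst continuous_snd k.1 k.2.1 k.2.2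

theorem sq2_Tg {t : T2} (h : sq2 t ∈ Tg) : t ∈ Tg :=
  ⟨fun e => h.1 (by simp [sq2, e]), fun e => h.2.1 (by simp [sq2, e]), fun e => h.2.2 (by simp [sq2, e])⟩

theorem gd_half {f : T2 → Circle} (hf : Continuous f) (h : ∀ t ∈ T, f t * f t ≠ 1) :
    Gd T {t | ang (f t) < π / 2} := fun t k =>
  nf_lt ((continuousAt_ang fun e => h t k (by simp [e])).comp hf.continuousAt) continuousAt_const
    fun e => h t k (by rw [ang_inj (e.trans ang_hft.symm), hft_sq])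

end Gd

section JSq

variable {X : Type} [TopologicalSpace X] [RegularSpace X] [SecondCountableTopology X] {U : Set X}
  {B : Set (X × T2)} {T S A : Set T2}

theorem Gd.jok (h : Gd T S) (hB : ∀ x ∈ B, x.2 ∈ T) : JOK U univ B S univ :=
  ⟨fun x _ k => h _ (hB x k), fun _ _ _ _ => mem_univ _⟩

theorem Gd.split (h : Gd T S) (h' : Gd T A) (hB : ∀ x ∈ B, x.2 ∈ T) (b : H (U ×ˢ univ) B) :
    JJ 2 w2 U univ S b = JJ 2 w2 U univ (S ∩ A) b + JJ 2 w2 U univ (S ∩ Aᶜ) b :=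
  (h.jok hB).add ((h.inter h').jok hB) ((h.inter h'.compl).jok hB)
    (fun x _ _ => by rw [← mem_union, inter_union_compl]) (fun _ _ _ k k' => k'.2 k.2) b

theorem ok_idm {g : T2 → T2} (hg : Continuous g) {B' : Set (X × T2)} (h : ∀ x, Prod.map id g x ∈ B → x ∈ B') :
    Ok (Prod.map id g) (U ×ˢ univ) B' (U ×ˢ univ) B :=
  .of_mem (.of_continuous (continuous_id.prodMap hg) _) (fun _ k => ⟨k.1, trivial⟩) fun x _ => h x

/-- the class pulled back along the squaring map -/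
def bsq (b : H (U ×ˢ univ) B) : H (U ×ˢ univ) (Prod.map id sq2 ⁻¹' B) :=
  pull (Prod.map id sq2) (U ×ˢ univ) (Prod.map id sq2 ⁻¹' B) b

variable (hB : ∀ x ∈ B, x.2 ∈ Tg) (b : H (U ×ˢ univ) B)
include hB

theorem sq_B : ∀ x ∈ Prod.map id sq2 ⁻¹' B, x.2 ∈ sq2 ⁻¹' Tg := fun _ k => hB _ k

theorem JJ_pre (h : Gd Tg S) : JJ 2 w2 U univ (sq2 ⁻¹' S) (bsq b) = (4 : ℂ) • JJ 2 w2 U univ S b := by
  rw [bsq, (h.jok hB).map ((h.pre continuous_sq2 fun _ k => k).jok (sq_B hB)) top_w2 top_w2 .refl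
    (okC continuous_sq2 _) deg_sq (fun _ _ k => k) fun _ _ _ => Iff.rfl, pull_id]

theorem JJ_half {a c : Circle} (ha : a * a = 1) (hc : c * c = 1) (h : Gd (sq2 ⁻¹' Tg) S)
    (h' : Gd (sq2 ⁻¹' Tg) A) (e : ∀ t, tr2 a c t ∈ S ↔ t ∈ S) (e' : ∀ t, tr2 a c t ∈ A ↔ t ∉ A) :
    JJ 2 w2 U univ S (bsq b) = (2 : ℂ) • JJ 2 w2 U univ (S ∩ A) (bsq b) := by
  have q : ∀ x : X × T2, Prod.map id sq2 (Prod.map id (tr2 a c) x) = Prod.map id sq2 x := fun x =>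
    Prod.ext rfl (sq2_tr2 ha hc _)
  have m : ∀ x : X × T2, Prod.map id (tr2 a c) x ∈ Prod.map id sq2 ⁻¹' B → x ∈ Prod.map id sq2 ⁻¹' B :=
    fun x k => by rwa [mem_preimage, q] at k
  have := ((h.inter h').jok (sq_B hB)).map ((h.inter h'.compl).jok (sq_B hB)) top_w2 top_w2 .refl
    (okC (continuous_tr2 a c) _) (deg_tr a c) (fun x _ => m x)
    (fun x _ _ => and_congr (e _).symm (e' _).symm) (bsq b)
  rw [one_smul, pull_id, bsq, pull_pull' (F := Prod.map id sq2) (ok_idm (continuous_tr2 a c) m)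
    (ok_idm continuous_sq2 fun _ k => k) fun x _ => q x] at this
  rw [h.split h' (sq_B hB), two_smul]
  exact congrArg _ this

theorem JJ_sq : JJ 2 w2 U univ Rg2 (bsq b) = (2 : ℂ) • JJ 2 w2 U univ Rg2 b + sl 2 w2 U univ b := by
  have gE : Gd (sq2 ⁻¹' Tg) (sq2 ⁻¹' Rg2) := gd_Rg2.pre continuous_sq2 fun _ k => k
  have gR : Gd (sq2 ⁻¹' Tg) Rg2 := fun t k => gd_Rg2 t (sq2_Tg k)
  have gA : Gd (sq2 ⁻¹' Tg) {t | ang t.1 < π / 2} := gd_half continuous_fst fun _ k => k.1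
  have gC : Gd (sq2 ⁻¹' Tg) {t | ang t.2 < π / 2} := gd_half continuous_snd fun _ k => k.2.1
  have o : (1 : Circle) * 1 = 1 := one_mul 1
  have i1 : ∀ t, tr2 hft 1 t ∈ sq2 ⁻¹' Rg2 ↔ t ∈ sq2 ⁻¹' Rg2 := fun t => by
    rw [mem_preimage, sq2_tr2 hft_sq o, mem_preimage]
  have i2 : ∀ t, tr2 1 hft t ∈ sq2 ⁻¹' Rg2 ↔ t ∈ sq2 ⁻¹' Rg2 := fun t => by
    rw [mem_preimage, sq2_tr2 o hft_sq, mem_preimage]
  have a1 : ∀ t : T2, tr2 hft 1 t ∈ {t : T2 | ang t.1 < π / 2} ↔ t ∉ {t : T2 | ang t.1 < π / 2} :=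
    fun t => ang_hft_mul _
  have a2 : ∀ t : T2, tr2 1 hft t ∈ {t : T2 | ang t.1 < π / 2} ↔ t ∈ {t : T2 | ang t.1 < π / 2} :=
    fun t => by simp [tr2]
  have c2 : ∀ t : T2, tr2 1 hft t ∈ {t : T2 | ang t.2 < π / 2}ᶜ ↔ t ∉ {t : T2 | ang t.2 < π / 2}ᶜ :=
    fun t => not_congr (ang_hft_mul _)
  have e1 := JJ_pre hB b gd_Rg2
  have e2 := JJ_pre hB b gd_Rg2.compl
  have e3 := gd_univ.split gd_Rg2 hB b
  rw [univ_inter, univ_inter, (gd_univ.jok hB).all fun _ _ _ => mem_univ _] at e3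
  have h1 := JJ_half hB b hft_sq o gE gA i1 a1
  have h2 := JJ_half hB b hft_sq o gE gA.compl i1 fun t => not_congr (a1 t)
  have h3 := JJ_half hB b hft_sq o gE.compl gA (fun t => not_congr (i1 t)) a1
  have h4 := JJ_half hB b o hft_sq (gE.inter gA.compl) gC.compl
    (fun t => and_congr (i2 t) (not_congr (a2 t))) c2
  have h5 := JJ_half hB b o hft_sq (gE.compl.inter gA) gC.compl
    (fun t => and_congr (not_congr (i2 t)) (a2 t)) c2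
  have s1 := gR.split gA (sq_B hB) (bsq b)
  have s2 := (gR.inter gA).split gE (sq_B hB) (bsq b)
  have q1 : Rg2 ∩ {t | ang t.1 < π / 2}ᶜ =
      sq2 ⁻¹' Rg2 ∩ {t | ang t.1 < π / 2}ᶜ ∩ {t | ang t.2 < π / 2}ᶜ := by
    ext t
    simp only [Rg2, sq2, mem_inter_iff, mem_compl_iff, mem_preimage, mem_ofPred_eq, not_lt]
    rcases ang_sq t.1 with ⟨u, v⟩ | ⟨u, v⟩ <;> rcases ang_sq t.2 with ⟨u', v'⟩ | ⟨u', v'⟩ <;> rw [v, v'] <;>
      exact ⟨fun k => ⟨⟨by linarith [k.1, k.2], k.2⟩, by linarith [k.1, k.2]⟩,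
        fun k => ⟨by linarith [k.1.1, k.1.2, k.2], k.1.2⟩⟩
  have q2 : Rg2 ∩ {t | ang t.1 < π / 2} ∩ sq2 ⁻¹' Rg2 = sq2 ⁻¹' Rg2 ∩ {t | ang t.1 < π / 2} := by
    ext t
    simp only [Rg2, sq2, mem_inter_iff, mem_preimage, mem_ofPred_eq]
    rcases ang_sq t.1 with ⟨u, v⟩ | ⟨u, v⟩ <;> rcases ang_sq t.2 with ⟨u', v'⟩ | ⟨u', v'⟩ <;> rw [v, v'] <;>
      exact ⟨fun k => ⟨k.2, k.1.2⟩, fun k => ⟨⟨by linarith [k.1, k.2], k.2⟩, k.1⟩⟩
  have q3 : Rg2 ∩ {t | ang t.1 < π / 2} ∩ (sq2 ⁻¹' Rg2)ᶜ =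
      (sq2 ⁻¹' Rg2)ᶜ ∩ {t | ang t.1 < π / 2} ∩ {t | ang t.2 < π / 2}ᶜ := by
    ext t
    simp only [Rg2, sq2, mem_inter_iff, mem_compl_iff, mem_preimage, mem_ofPred_eq, not_lt]
    rcases ang_sq t.1 with ⟨u, v⟩ | ⟨u, v⟩ <;> rcases ang_sq t.2 with ⟨u', v'⟩ | ⟨u', v'⟩ <;> rw [v, v'] <;>
      exact ⟨fun k => ⟨⟨k.2, k.1.2⟩, by linarith [k.1.1, k.1.2, k.2]⟩,
        fun k => ⟨⟨by linarith [k.1.1, k.1.2, k.2], k.1.2⟩, k.1.1⟩⟩
  rw [q1] at s1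
  rw [q2, q3] at s2
  rw [preimage_compl] at e2
  linear_combination (norm := module) s1 + s2 - (1 / 2 : ℂ) • h1 - (1 / 4 : ℂ) • h2 - (1 / 4 : ℂ) • h3 -
    (1 / 2 : ℂ) • h4 - (1 / 2 : ℂ) • h5 + (3 / 4 : ℂ) • e1 + (1 / 4 : ℂ) • e2 - e3

end JSq

end Pool.Agent.Work.MP_8c604c_gt.OT
end
end

-- merged part: Pool.Agent.Work.MP_8c604c_gt.OT.Jc
section
/-!
The product of `z0` with the base point class.
-/

noncomputable section

set_option linter.unusedSectionVars false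

namespace Pool.Agent.Work.MP_8c604c_gt.OT

open Set Topology Filter Pool.Agent.Work.MP_849ab0_ag.G T

variable {V : Type} [NormedAddCommGroup V] [InnerProductSpace ℝ V] [FiniteDimensional ℝ V] {𝕄 : Mf V}

/-- the points `0`, `2 1`, `2` -/
def eps2 (y : Fin 4 → V) : V × (V × V) × V := (y 0, (y 2, y 1), y 2)

theorem continuous_eps2 : Continuous (eps2 : (Fin 4 → V) → _) := by unfold eps2; fun_prop

namespace TD1

variable (D : TD1 𝕄) (Q : MT 𝕄) {p q : V}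

theorem Jc_sub (hpq : (p, q) ∈ D.Nb \ Dg V) {y : Fin 4 → V} (h : eps2 y ∈ D.Z2 p q) : y ∈ Zw W3 := by
  have k1 : y 0 = p := h.1
  have k2 : y 2 = q := h.2.2
  have k3 : (y 2, y 1) ∈ D.F := h.2.1
  refine mem_ZW3.2 ⟨fun e => hpq.1.2 ?_, (D.F_ne k3).symm, fun e => hpq.2 ?_⟩
  · rw [← e, k1, k2] at k3
    exact D.swap_F k3
  · rw [← e, k1] at k2
    exact k2

theorem ok_eps2 {Z : Set (Fin 4 → V)} (h : ∀ y, eps2 y ∈ D.Z2 p q → y ∈ Z) :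
    Ok eps2 (Yb 𝕄 𝕄.M) Z (𝕄.M ×ˢ 𝕄.MM ×ˢ 𝕄.M) (D.Z2 p q) :=
  .of_mem (.of_continuous continuous_eps2 _) (fun _ k => ⟨k.1 _, ⟨k.1 _, k.1 _⟩, k.1 _⟩) fun y _ => h y

theorem fgt_om2 (hp : p ∈ 𝕄.M) (hq : q ∈ 𝕄.M) : pull eps2 (Yb 𝕄 𝕄.M) univ (D.om2 Q p q) =
    (Q.Y (Yb 𝕄 𝕄.M) 0 ^ 2 * ((Q.Y (Yb 𝕄 𝕄.M) 1 - Q.Y (Yb 𝕄 𝕄.M) 2) * Q.Y (Yb 𝕄 𝕄.M) 2 ^ 2)).1 := by
  have o : Ok (fun y : Fin 4 → V => (y 2, y 1)) (Yb 𝕄 𝕄.M) univ 𝕄.MM univ :=
    .of_mem (.of_continuous (by fun_prop) _) (fun _ k => ⟨k.1 _, k.1 _⟩) fun _ _ _ => mem_univ _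
  have o2 : Ok (fun y => (eps2 y).2) (Yb 𝕄 𝕄.M) univ (𝕄.MM ×ˢ 𝕄.M) (D.F ×ˢ {q}) :=
    .of_mem (.of_continuous continuous_eps2.snd _) (fun _ k => ⟨⟨k.1 _, k.1 _⟩, k.1 _⟩) fun _ _ _ => mem_univ _
  have pt : ∀ i : Fin 4, ∀ r ∈ 𝕄.M, pull (fun y => y i) (Yb 𝕄 𝕄.M) univ (Q.pt r) =
      (Q.Y (Yb 𝕄 𝕄.M) i).1 ^ 2 := fun i r hr => by
    rw [← pull_res (ok_Y subset_rfl i) subset_rfl fun _ _ _ => mem_univ _, D.fgt_pt Q hr,
      pull_pow (ok_Y subset_rfl i)]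
    rfl
  rw [om2, pull_xq (A := D.Z2 p q) (B₁ := univ) (B₂ := univ) subset_rfl (fun _ _ a b => mk_mem_prod a b)
      (D.ok_eps2 fun _ _ => mem_univ _) (fun _ _ _ => mem_univ _) (fun _ _ _ => mem_univ _) fun _ _ _ _ => mem_univ _,
    pull_xq (B₁ := univ) (B₂ := univ) subset_rfl (fun _ _ a b => mk_mem_prod a b) o2 (fun _ _ _ => mem_univ _)
      (fun _ _ _ => mem_univ _) fun _ _ _ _ => mem_univ _]
  change pull (fun y => y 0) _ univ _ * (pull (fun y : Fin 4 → V => (y 2, y 1)) _ univ _ *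
    pull (fun y => y 2) _ univ _) = _
  rw [pt 0 p hp, pt 2 q hq, ← pull_res o subset_rfl fun _ _ _ => mem_univ _, D.fgt_thF, map_sub,
    Q.pull_vv o, Q.pull_uu o]
  rfl

theorem Jc_lift (hpq : (p, q) ∈ D.Nb \ Dg V) :
    cup (Yb 𝕄 𝕄.M) (Zw W3) (Q.Y (Yb 𝕄 𝕄.M) 0).1 Q.Wt = pull eps2 (Yb 𝕄 𝕄.M) (Zw W3) (D.om2 Q p q) := by
  have hp := hpq.1.1.1
  have hq := hpq.1.1.2
  refine Q.bs.lift_eq Q (q := 40) (by norm_num) (IsDeg.cup (p := 8) (q := 32) Q.isDeg_Y Q.isDeg_Wt _ _)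
    ((D.isDeg_om2 Q hp hq).pull _ _ _) ?_
  rw [fgt_cm, Q.fgt_Wt, res_pull (D.ok_eps2 fun _ => D.Jc_sub hpq) subset_rfl fun _ _ _ => mem_univ _,
    D.fgt_om2 Q hp hq]
  have c0 := Q.Y_cube (A := Yb 𝕄 𝕄.M) subset_rfl 0
  have c2 := Q.Y_cube (A := Yb 𝕄 𝕄.M) subset_rfl 2
  refine congrArg Subtype.val (a₁ := Q.Y _ 0 * Q.W _) ?_
  unfold MT.W MT.mo
  linear_combination (Q.Y (Yb 𝕄 𝕄.M) 1 * Q.Y (Yb 𝕄 𝕄.M) 2 - Q.Y (Yb 𝕄 𝕄.M) 2 ^ 2) * c0 +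
    Q.Y (Yb 𝕄 𝕄.M) 0 ^ 2 * c2

theorem Jc0 (hpq : (p, q) ∈ D.Nb \ Dg V) :
    pull bas D.Lam univ Q.y * D.z0 Q = pull id D.Lam univ (D.dl2 Q p q) := by
  have o := D.ok_ph2 (U := D.Lam) subset_rfl (Zw W3)
  have ob : Ok bas D.Lam univ 𝕄.M univ :=
    .of_mem (.of_continuous continuous_bas _) (fun _ a => a.1 _) fun _ _ _ => mem_univ _
  have s : ∀ x ∈ D.Lam ×ˢ (univ : Set T2), x ∈ e2 ⁻¹' D.Z2 p q → x ∈ ph2 ⁻¹' Zw W3 :=
    fun x _ k => D.Jc_sub hpq (y := ph2 x) k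
  rw [mulH, z0, ← (jok0 D.Lam).mul top_w2 (IsDeg.evn (Q.isDeg_y.pull _ _ _) ⟨4, rfl⟩), dl2,
    (D.jok2 hpq).res_out top_w2 fun _ _ _ => mem_univ _, ← (jok0 D.Lam).res_in s,
    res_pull D.ok_e2 subset_rfl s,
    ← pull_pull' (F := e2) o (D.ok_eps2 fun _ => D.Jc_sub hpq) fun _ _ => rfl, ← D.Jc_lift Q hpq,
    pull_cm o, pull_pull' (F := fun x => x.1.1 1) (ok_fst' _ _) ob fun _ _ => rfl]
  exact congrArg (fun a => JJ 2 w2 D.Lam univ Rg2 (cup _ _ a _)) (Q.pullE_Y (Ok.top o) subset_rfl 0).symm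

end TD1

end Pool.Agent.Work.MP_8c604c_gt.OT
end
end

-- merged part: Pool.Agent.Work.MP_8c604c_gt.OT.Jb
section
/-!
The double cover and the product with the base point class (`Jb`, `Jc`).
-/

noncomputable section

set_option linter.unusedSectionVars false

namespace Pool.Agent.Work.MP_8c604c_gt.OT

open Set Topology Filter Pool.Agent.Work.MP_849ab0_ag.G T

theorem pull_xpA {X Y W : Type} [TopologicalSpace X] [TopologicalSpace Y] [TopologicalSpace W] {U : Set X}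
    {C : Set Y} {O : Set W} {F : W → X × Y} (o : Ok F O univ (U ×ˢ C) univ) (a : H U univ) (c : H C univ) :
    pull F O univ (xp a c) = pull (fun w => (F w).1) O univ a * pull (fun w => (F w).2) O univ c := by
  rw [← pull_res o subset_rfl fun _ _ _ => mem_univ _, fgt_xp, pull_mul o,
    pull_pull' o (ok_fst' _ _) fun _ _ => rfl, pull_pull' o (ok_snd' _ _) fun _ _ => rfl]

theorem sq_seven {X : Type} [TopologicalSpace X] {U : Set X} {v : H U univ} (h : IsDeg 7 v) : v * v = 0 := by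
  have : v * v = -(v * v) := by
    have := cup_comm (cupU U univ) h h
    rwa [Odd.neg_one_zpow (n := 7 * 7) ⟨24, rfl⟩, neg_one_smul] at this
  rw [eq_neg_iff_add_eq_zero, ← two_smul ℂ] at this
  exact (smul_eq_zero.1 this).resolve_left two_ne_zero

variable {V : Type} [NormedAddCommGroup V] [InnerProductSpace ℝ V] [FiniteDimensional ℝ V] {𝕄 : Mf V}

namespace TD1

variable (D : TD1 𝕄) (Q : MT 𝕄) {p q : V} {U : Set (LS V)}

theorem ev_split (h : U ⊆ D.Lam) : ∃ v : H (U ×ˢ (univ : Set T2)) univ, IsDeg 7 v ∧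
    ∀ f : T2 → Circle, Continuous f → pull (fun z => z.1.1 (f z.2)) (U ×ˢ univ) univ Q.y =
      pull (fun z => z.1.1 1) (U ×ˢ univ) univ Q.y + v * dc (fun z => f z.2) (U ×ˢ univ) := by
  have o : Ok (fun z : LS V × Circle => z.1.1 z.2) (U ×ˢ univ) (univ ×ˢ univ) 𝕄.M univ :=
    .of_mem (.of_continuous (by fun_prop) _) (fun _ k => (h k.1).1 _) fun _ _ _ => ⟨trivial, trivial⟩
  have o1 : Ok (fun x : LS V => (x, (1 : Circle))) U univ (U ×ˢ univ) (univ ×ˢ univ) :=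
    .of_mem (.of_continuous (by fun_prop) _) (fun _ k => ⟨k, trivial⟩) fun _ _ _ => trivial
  refine ⟨pull Prod.fst _ univ (sl 1 dt U univ (pull _ (U ×ˢ univ) (univ ×ˢ univ) Q.y)),
    (top_dt.sl_deg (p := 7) (Q.isDeg_y.pull (fun z : LS V × Circle => z.1.1 z.2) _ _)).pull _ _ _,
    fun f hf => ?_⟩
  have o2 : Ok (fun z : LS V × T2 => (z.1, f z.2)) (U ×ˢ univ) univ (U ×ˢ univ) (univ ×ˢ univ) :=
    .of_mem (.of_continuous (by fun_prop) _) (fun _ k => ⟨k.1, trivial⟩) fun _ _ _ => trivial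
  have e := congrArg (pull (fun z : LS V × T2 => (z.1, f z.2)) (U ×ˢ univ) univ)
    (circ_split 1 (pull (fun z : LS V × Circle => z.1.1 z.2) (U ×ˢ univ) (univ ×ˢ univ) Q.y))
  rw [map_add, pull_xpA (Ok.top o2), pull_xpA (Ok.top o2), pull_pull o2 o, pull_oneH (okC (by fun_prop) _),
    mul_one, pull_pull o1 o, pull_pull' (F := fun z => z.1.1 1) (f := fun z : LS V × T2 => z.1) (ok_fst' _ _)
      (o.comp o1) fun _ _ => rfl] at e
  exact e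

theorem ph2_W (h : U ⊆ D.Lam) : pull ph2 (U ×ˢ univ) univ (Q.W (Yb 𝕄 𝕄.M)).1 = 0 := by
  have o := Ok.top (D.ok_ph2 h univ)
  obtain ⟨v, hv, e⟩ := D.ev_split Q h
  have d : ∀ f, Evn (v * dc f (U ×ˢ (univ : Set T2))) := fun f =>
    IsDeg.evn (IsDeg.mulH hv (isDeg_dc f _)) ⟨4, rfl⟩
  have z : ∀ f g, (⟨_, d f⟩ : EvR _) * ⟨_, d g⟩ = 0 := fun f g => Subtype.ext (by
    change v * dc f _ * (v * dc g _) = 0
    rw [← mul_assoc, ← (d f).commH, ← mul_assoc, sq_seven hv, zero_mul, zero_mul])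
  have e1 : pullE o (Q.Y _ 1) = pullE o (Q.Y _ 0) + ⟨_, d fun z => z.2.1⟩ := Subtype.ext (by
    rw [Subalgebra.coe_add, Q.pullE_Y _ subset_rfl, Q.pullE_Y _ subset_rfl]
    exact e _ continuous_fst)
  have e2 : pullE o (Q.Y _ 2) = pullE o (Q.Y _ 0) + ⟨_, d fun z => z.2.2⟩ := Subtype.ext (by
    rw [Subalgebra.coe_add, Q.pullE_Y _ subset_rfl, Q.pullE_Y _ subset_rfl]
    exact e _ continuous_snd)
  have e0 : pullE o (Q.Y _ 0) ^ 3 = 0 := by rw [← map_pow, Q.Y_cube subset_rfl, map_zero]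
  have z1 := z (fun z => z.2.1) fun z => z.2.2
  have z2 := z (fun z => z.2.2) fun z => z.2.2
  refine congrArg Subtype.val (show pullE o (Q.W _) = 0 from ?_)
  simp only [MT.W, MT.mo, map_add, map_sub, map_mul, map_pow, e1, e2]
  generalize pullE o (Q.Y _ 0) = u at *
  generalize (⟨_, d fun z => z.2.1⟩ : EvR _) = a at *
  generalize (⟨_, d fun z => z.2.2⟩ : EvR _) = b at *
  linear_combination (u + 2 * a + b) * e0 + 3 * u ^ 2 * z1 + u * a * z2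

theorem Jb : pull dbS D.Le univ (D.z0 Q) = (2 : ℂ) • pull id D.Le univ (D.z0 Q) := by
  have s : D.Le ⊆ D.Lam := inter_subset_left
  have hB : ∀ x ∈ ph2 ⁻¹' Zw W3, x.2 ∈ Tg := fun (_ : LS V × T2) k => ph2_ne k
  have o := D.ok_ph2 subset_rfl (Zw W3)
  have o' := D.ok_ph2 s (Zw W3)
  have od : Ok dbS D.Le univ D.Lam univ :=
    .of_mem (.of_continuous continuous_dbS _) (fun _ k => D.db_Lam k.1 k.2) fun _ _ _ => trivial
  have q : ∀ x : LS V × T2, ph2 (Prod.map dbS id x) = ph2 (Prod.map id sq2 x) := fun x => by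
    simp [ph2, dbS, db, sq2]
  have m : ∀ x ∈ D.Le ×ˢ (univ : Set T2), Prod.map dbS id x ∈ ph2 ⁻¹' Zw W3 →
      x ∈ Prod.map id sq2 ⁻¹' (ph2 ⁻¹' Zw W3) := fun x _ k => by rwa [mem_preimage, q] at k
  have e1 := (jok0 D.Lam).map (Gd.jok (fun t k => gd_Rg2 t (sq2_Tg k)) (sq_B hB)) top_w2 top_w2 od .refl
    (k := 1) (by rw [pull_id, one_smul]) m (fun _ _ _ => Iff.rfl) (pull ph2 _ _ Q.Wt)
  have e2 := (jok0 D.Lam).map (jok0 D.Le) top_w2 top_w2 (ok_fgt s) .refl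
    (k := 1) (by rw [pull_id, one_smul]) (fun _ _ k => k) (fun _ _ _ => Iff.rfl) (pull ph2 _ _ Q.Wt)
  rw [one_smul, pull_pull' (F := ph2 ∘ Prod.map id sq2)
    (.of_mem (ok_map od .refl).ext (ok_map od .refl).maps m) o fun x _ => q x,
    ← pull_pull (ok_idm (B := ph2 ⁻¹' Zw W3) (B' := Prod.map id sq2 ⁻¹' (ph2 ⁻¹' Zw W3)) continuous_sq2
      fun _ k => k) o'] at e1
  rw [one_smul, Prod.map_id, res_pull o (prod_mono_left s) fun _ _ k => k] at e2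
  rw [z0, ← e1, ← e2]
  refine (JJ_sq hB _).trans ?_
  rw [← sl_fgt, res_pull o' subset_rfl fun _ _ _ => mem_univ _,
    ← pull_res (Ok.top o') subset_rfl fun _ _ _ => mem_univ _, Q.fgt_Wt, D.ph2_W Q s, map_zero, add_zero]

theorem Jc (hpq : (p, q) ∈ D.Nb \ Dg V) :
    pull bas D.Lam univ Q.y * D.z0 Q = pull id D.Lam univ (D.dl2 Q p q) := D.Jc0 Q hpq

end TD1

end Pool.Agent.Work.MP_8c604c_gt.OT
end
end

-- merged part: Pool.Agent.Work.MP_8c604c_gt.OT.Jk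
section
/-!
Integrals over regions of the three-torus of classes on four points (owner helper12).
-/

noncomputable section

set_option linter.unusedSectionVars false

namespace Pool.Agent.Work.MP_8c604c_gt.OT

open Set Topology Filter Pool.Agent.Work.MP_849ab0_ag.G T

variable {V : Type} [NormedAddCommGroup V] [InnerProductSpace ℝ V] [FiniteDimensional ℝ V] {𝕄 : Mf V}
  {C : Set V} {𝒲 𝒲' : Set (Fin 4 × Fin 4)} {R R' S : Set T3} {U : Set (LS V)} {f f' : H (Yb 𝕄 C) univ}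

/-- three times and the base time -/
def t4 (t : T3) : Fin 4 → Circle := ![t.1, t.2.1, t.2.2, 1]

/-- the four points of a loop -/
def ph3 (z : LS V × T3) : Fin 4 → V := fun i => z.1.1 (t4 z.2 i)

/-- times off the walls -/
def Gn (𝒲 : Set (Fin 4 × Fin 4)) (t : T3) : Prop := ∀ p ∈ 𝒲, t4 t p.1 ≠ t4 t p.2

/-- the frontier of `R` lies on the walls -/
def Ad (R : Set T3) (𝒲 : Set (Fin 4 × Fin 4)) : Prop := ∀ t, Gn 𝒲 t → t ∉ frontier R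

/-- the walls on which `f` vanishes -/
def Vw (f : H (Yb 𝕄 C) univ) : Set (Fin 4 × Fin 4) := {p | pull id (Yb 𝕄 C ∩ Dw p) univ f = 0}

/-- the lift of `f` -/
def lfW (f : H (Yb 𝕄 C) univ) : H (Yb 𝕄 C) (Zw (Vw f)) :=
  Classical.epsilon fun g => IsDeg 32 g ∧ pull id (Yb 𝕄 C) univ g = f

/-- the integral of `f` over the region `R` -/
def JR (U : Set (LS V)) (R : Set T3) (f : H (Yb 𝕄 C) univ) : H U univ :=
  JJ 3 w3 U univ R (pull ph3 (U ×ˢ univ) (ph3 ⁻¹' Zw (Vw f)) (lfW f))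

/-- the data of the calculus -/
structure Cal (𝕄 : Mf V) (C : Set V) (U : Set (LS V)) : Prop where
  bs : Bs 𝕄 C
  mem : ∀ x ∈ U, ∀ θ, x.1 θ ∈ 𝕄.M
  bas : ∀ x ∈ U, x.1 1 ∈ C

/-- `f` has degree 32 and vanishes on the walls -/
structure Vn (f : H (Yb 𝕄 C) univ) (𝒲 : Set (Fin 4 × Fin 4)) : Prop where
  deg : IsDeg 32 f
  van : 𝒲 ⊆ Vw f

theorem continuous_t4 : Continuous t4 := by unfold t4; fun_prop

theorem continuous_t4' (i : Fin 4) : Continuous fun t => t4 t i := (continuous_apply i).comp continuous_t4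

theorem continuous_ph3 : Continuous (ph3 : LS V × T3 → _) := continuous_pi fun i =>
  continuous_eval.comp (continuous_fst.fst.prodMk ((continuous_t4' i).comp continuous_snd))

theorem Gn.mono {t : T3} (h : Gn 𝒲' t) (k : 𝒲 ⊆ 𝒲') : Gn 𝒲 t := fun p hp => h p (k hp)

theorem Ad.mono (h : Ad R 𝒲) (k : 𝒲 ⊆ 𝒲') : Ad R 𝒲' := fun t a => h t (a.mono k)

theorem Ad.inter (h : Ad R 𝒲) (k : Ad S 𝒲) : Ad (R ∩ S) 𝒲 := fun t a => nf_inter (h t a) (k t a)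

theorem Ad.compl (h : Ad R 𝒲) : Ad Rᶜ 𝒲 := fun t a => nf_compl (h t a)

theorem gn_ph3 {z : LS V × T3} (h : ph3 z ∈ Zw 𝒲) : Gn 𝒲 z.2 := fun p hp e => h p hp (congrArg z.1.1 e)

theorem Ad.jok (h : Ad R 𝒲) {B : Set (LS V × T3)} (k : ∀ z ∈ U ×ˢ (univ : Set T3), z ∈ B → ph3 z ∈ Zw 𝒲) :
    JOK U univ B R univ := ⟨fun z a b => h _ (gn_ph3 (k z a b)), fun _ _ _ _ => mem_univ _⟩

theorem Ad.jok0 (h : Ad R 𝒲) : JOK U univ (ph3 ⁻¹' Zw 𝒲) R univ := h.jok fun _ _ k => k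

theorem Vn.mono (h : Vn f 𝒲') (k : 𝒲 ⊆ 𝒲') : Vn f 𝒲 := ⟨h.deg, k.trans h.van⟩

theorem Vn.add (h : Vn f 𝒲) (k : Vn f' 𝒲) : Vn (f + f') 𝒲 := ⟨h.deg.add k.deg, fun p hp => by
  change pull id _ univ (f + f') = 0
  rw [map_add, h.van hp, k.van hp, add_zero]⟩

theorem vn_lift {Z : Set (Fin 4 → V)} (k : ∀ y ∈ Yb 𝕄 C, y ∈ Z → y ∈ Zw 𝒲) {g : H (Yb 𝕄 C) Z}
    (hg : IsDeg 32 g) : Vn (pull id (Yb 𝕄 C) univ g) 𝒲 := ⟨hg.pull _ _ _, fun p hp => by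
  have o : Ok id (Yb 𝕄 C ∩ Dw p) ∅ (Yb 𝕄 C) Z := .id inter_subset_left fun y a b => k y a.1 b p hp a.2
  change pull id (Yb 𝕄 C ∩ Dw p) univ (pull id (Yb 𝕄 C) univ g) = 0
  rw [res_pull (ok_fgt subset_rfl) inter_subset_left fun _ _ a => a,
    ← res_pull (U₁ := Yb 𝕄 C ∩ Dw p) (W₁ := univ) o subset_rfl fun _ _ _ => mem_univ _,
    (subsingleton_H (disjoint_empty _)).elim (pull id _ ∅ g) 0, map_zero]⟩

namespace Cal

variable (h : Cal 𝕄 C U) (Q : MT 𝕄)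
include h

theorem ph3_mem {z : LS V × T3} (k : z.1 ∈ U) : ph3 z ∈ Yb 𝕄 C := ⟨fun _ => h.mem _ k _, h.bas _ k⟩

theorem ok (Z : Set (Fin 4 → V)) : Ok ph3 (U ×ˢ univ) (ph3 ⁻¹' Z) (Yb 𝕄 C) Z :=
  .of_mem (.of_continuous continuous_ph3 _) (fun _ a => h.ph3_mem a.1) fun _ _ k => k

include Q

theorem lift (v : Vn f 𝒲) : ∃ g : H (Yb 𝕄 C) (Zw 𝒲), IsDeg 32 g ∧ pull id (Yb 𝕄 C) univ g = f :=
  h.bs.exists_lift Q (by norm_num) v.deg v.van

theorem J_eq0 (a : Ad R 𝒲) {g : H (Yb 𝕄 C) (Zw 𝒲)} (hg : IsDeg 32 g) (e : pull id (Yb 𝕄 C) univ g = f) :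
    JR U R f = JJ 3 w3 U univ R (pull ph3 (U ×ˢ univ) (ph3 ⁻¹' Zw 𝒲) g) := by
  have v : Vn f 𝒲 := e ▸ vn_lift (fun _ _ k => k) hg
  have s : IsDeg 32 (lfW f) ∧ pull id (Yb 𝕄 C) univ (lfW f) = f :=
    Classical.epsilon_spec (h.lift Q (⟨v.deg, subset_rfl⟩ : Vn f (Vw f)))
  have e' : g = pull id (Yb 𝕄 C) (Zw 𝒲) (lfW f) := h.bs.lift_eq Q (by norm_num) hg (s.1.pull _ _ _) (by
    rw [e, res_pull (.id subset_rfl fun _ _ k => Zw_anti v.van k) subset_rfl fun _ _ _ => mem_univ _, s.2])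
  rw [e', pull_res (h.ok _) subset_rfl fun _ _ k => Zw_anti v.van k, JR,
    ← a.jok0.res_in (B₁ := ph3 ⁻¹' Zw (Vw f)) fun _ _ k => Zw_anti v.van k,
    res_pull (W₁ := ph3 ⁻¹' Zw 𝒲) (h.ok (Zw (Vw f))) subset_rfl fun _ _ k => Zw_anti v.van k]

/-- the integral can be computed with any lift -/
theorem J_eq (a : Ad R 𝒲) {Z : Set (Fin 4 → V)} (k : ∀ y ∈ Yb 𝕄 C, y ∈ Z → y ∈ Zw 𝒲) {g : H (Yb 𝕄 C) Z}
    (hg : IsDeg 32 g) (e : pull id (Yb 𝕄 C) univ g = f) :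
    JR U R f = JJ 3 w3 U univ R (pull ph3 (U ×ˢ univ) (ph3 ⁻¹' Z) g) := by
  have k' : ∀ z ∈ U ×ˢ (univ : Set T3), z ∈ ph3 ⁻¹' Z → z ∈ ph3 ⁻¹' Zw 𝒲 := fun _ a b => k _ (h.ph3_mem a.1) b
  rw [h.J_eq0 Q a (hg.pull id _ _) (by rw [res_pull (.id subset_rfl k) subset_rfl fun _ _ _ => mem_univ _, e]),
    pull_res (h.ok _) subset_rfl k, ← a.jok0.res_in k',
    res_pull (h.ok _) subset_rfl k']

theorem split (v : Vn f 𝒲) (a : Ad R 𝒲) (b : Ad S 𝒲) : JR U R f = JR U (R ∩ S) f + JR U (R ∩ Sᶜ) f := by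
  obtain ⟨g, hg, e⟩ := h.lift Q v
  rw [h.J_eq0 Q a hg e, h.J_eq0 Q (a.inter b) hg e, h.J_eq0 Q (a.inter b.compl) hg e]
  exact a.jok0.add (a.inter b).jok0 (a.inter b.compl).jok0
    (fun z _ _ => by simp only [mem_inter_iff, mem_compl_iff]; tauto) (fun _ _ _ k k' => k'.2 k.2) _

theorem congr (v : Vn f 𝒲) (a : Ad R 𝒲) (b : Ad S 𝒲) (k : ∀ t, Gn 𝒲 t → (t ∈ R ↔ t ∈ S)) :
    JR U R f = JR U S f := by
  obtain ⟨g, hg, e⟩ := h.lift Q v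
  rw [h.J_eq0 Q a hg e, h.J_eq0 Q b hg e]
  exact a.jok0.congr b.jok0 (fun z _ m => k _ (gn_ph3 m)) _

theorem J_add (v : Vn f 𝒲) (v' : Vn f' 𝒲) (a : Ad R 𝒲) : JR U R (f + f') = JR U R f + JR U R f' := by
  obtain ⟨g, hg, e⟩ := h.lift Q v
  obtain ⟨g', hg', e'⟩ := h.lift Q v'
  rw [h.J_eq0 Q a hg e, h.J_eq0 Q a hg' e', h.J_eq0 Q a (hg.add hg') (by rw [map_add, e, e']), map_add, map_add]

theorem J_sub (v : Vn f 𝒲) (v' : Vn f' 𝒲) (a : Ad R 𝒲) : JR U R (f - f') = JR U R f - JR U R f' := by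
  obtain ⟨g, hg, e⟩ := h.lift Q v
  obtain ⟨g', hg', e'⟩ := h.lift Q v'
  rw [h.J_eq0 Q a hg e, h.J_eq0 Q a hg' e', h.J_eq0 Q a (hg.sub hg') (by rw [map_sub, e, e']), map_sub, map_sub]

/-- change of the times -/
theorem perm (v : Vn f 𝒲) (a : Ad R 𝒲) {ρ : Fin 4 → Fin 4} (h3 : ρ 3 = 3) {g : T3 → T3} (cg : Continuous g)
    {k : ℂ} (dg : pull g univ univ w3 = k • w3) (e : ∀ t i, t4 (g t) i = t4 t (ρ i)) (eR : g ⁻¹' R = R')
    (ef : pull (fun y => y ∘ ρ) (Yb 𝕄 C) univ f = f') : JR U R' f' = k • JR U R f := by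
  obtain ⟨G, hG, eG⟩ := h.lift Q v
  have o : ∀ Z, Ok (fun y : Fin 4 → V => y ∘ ρ) (Yb 𝕄 C) ((fun y => y ∘ ρ) ⁻¹' Z) (Yb 𝕄 C) Z := fun Z =>
    .of_mem (.of_continuous (continuous_re ρ) _) (re_mem h3) fun _ _ k => k
  have a' : Ad R' (Prod.map ρ ρ '' 𝒲) := fun t m n => a (g t)
    (fun p hp => by rw [e, e]; exact m _ (mem_image_of_mem _ hp)) (cg.frontier_preimage_subset R (eR ▸ n))
  have s : ∀ y : Fin 4 → V, y ∈ (fun y => y ∘ ρ) ⁻¹' Zw 𝒲 → y ∈ Zw (Prod.map ρ ρ '' 𝒲) := by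
    rintro y m _ ⟨p, hp, rfl⟩
    exact m p hp
  have e3 : ∀ z : LS V × T3, ph3 (Prod.map id g z) = ph3 z ∘ ρ := fun z => funext fun i =>
    congrArg z.1.1 (e _ i)
  have o2 : Ok (Prod.map id g) (U ×ˢ univ) (ph3 ⁻¹' ((fun y => y ∘ ρ) ⁻¹' Zw 𝒲)) (U ×ˢ univ) (ph3 ⁻¹' Zw 𝒲) :=
    .of_mem (.of_continuous (continuous_id.prodMap cg) _) (fun _ m => ⟨m.1, trivial⟩) fun z _ m => by
      rwa [mem_preimage, e3] at m
  rw [h.J_eq Q a' (fun y _ => s y) (hG.pull _ _ _) (by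
      rw [res_pull (o _) subset_rfl fun _ _ _ => mem_univ _, ← ef, ← eG,
        pull_res (W := univ) (o univ) subset_rfl fun _ _ _ => mem_univ _]), h.J_eq0 Q a hG eG,
    pull_pull' (F := fun z => ph3 z ∘ ρ) (h.ok _) (o _) fun _ _ => rfl,
    ← pull_pull' o2 (h.ok _) fun z _ => e3 z,
    a.jok0.map (B' := ph3 ⁻¹' ((fun y => y ∘ ρ) ⁻¹' Zw 𝒲)) (a'.jok fun z _ => s (ph3 z)) top_w3 top_w3 (ok_fgt subset_rfl) (okC cg _) dg
      (fun z m => o2.mem m) (fun z _ _ => by rw [← eR]; rfl), pull_id]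

end Cal

end Pool.Agent.Work.MP_8c604c_gt.OT
end
end

-- merged part: Pool.Agent.Work.MP_8c604c_gt.OT.Jr
section
/-!
The region calculus on the three-torus (owner helper12).
-/

noncomputable section

set_option linter.unusedSectionVars false

namespace Pool.Agent.Work.MP_8c604c_gt.OT

open Set Real Topology Filter Pool.Agent.Work.MP_849ab0_ag.G T

variable {V : Type} [NormedAddCommGroup V] [InnerProductSpace ℝ V] [FiniteDimensional ℝ V] {𝕄 : Mf V}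
  {C : Set V} {𝒲 : Set (Fin 4 × Fin 4)} {U : Set (LS V)} {i j k : Fin 4}

theorem nf_ang3 {X : Type} [TopologicalSpace X] {x : X} {f g k : X → Circle} (hf : Continuous f)
    (hg : Continuous g) (hk : Continuous k) (ha : f x ≠ 1) (hc : k x ≠ 1) (h1 : f x ≠ g x) (h2 : g x ≠ k x) :
    x ∉ frontier ({y | ang (f y) < ang (g y)} ∩ {y | ang (g y) < ang (k y)}) := by
  by_cases hb : g x = 1
  · have h1 := ang_pos ha
    have h2 := (ang_mem (k x)).2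
    have cl : IsClosed (cs '' Icc (ang (f x) / 2) ((ang (k x) + π) / 2)) :=
      (isCompact_Icc.image continuous_cs).isClosed
    have n1 : g x ∉ cs '' Icc (ang (f x) / 2) ((ang (k x) + π) / 2) := by
      rintro ⟨t, ht, e⟩
      have := ang_cs (t := t) ⟨by linarith [ht.1], by linarith [ht.2]⟩
      rw [e, hb, ang_one] at this
      linarith [ht.1]
    refine nf_of_ev (P := False) ?_
    filter_upwards [(hg.tendsto x).eventually (cl.isOpen_compl.mem_nhds n1),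
      ((continuousAt_ang ha).comp_of_eq hf.continuousAt rfl).eventually
        (lt_mem_nhds (show ang (f x) / 2 < ang (f x) by linarith)),
      ((continuousAt_ang hc).comp_of_eq hk.continuousAt rfl).eventually
        (gt_mem_nhds (show ang (k x) < (ang (k x) + π) / 2 by linarith))] with t t1 t2 t3
    exact iff_false_intro fun r => t1 ⟨_, ⟨(t2.trans r.1).le, (lt_trans r.2 t3).le⟩, cs_ang _⟩
  · exact nf_inter (nf_ang hf hg ha hb h1) (nf_ang hg hk hb hc h2)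

theorem ang_div (a b : Circle) : ang (a⁻¹ * b) = ang b - ang a ∨ ang (a⁻¹ * b) = ang b - ang a + π := by
  have := ang_mul a (a⁻¹ * b)
  rw [mul_inv_cancel_left] at this
  exact this.imp (fun _ => by linarith) fun _ => by linarith

/-- two ordered times -/
def O2 (i j : Fin 4) : Set T3 := {t | ang (t4 t i) < ang (t4 t j)}

/-- three cyclically ordered times -/
def Pw : Set T3 := {t | ang (t.1⁻¹ * t.2.1) < ang (t.1⁻¹ * t.2.2)}

/-- all walls but one -/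
def wx (j k : Fin 4) : Set (Fin 4 × Fin 4) := {p | p.1 ≠ p.2 ∧ p ≠ (j, k) ∧ p ≠ (k, j)}

/-- the walls of `O2 2 0` -/
def w20 : Set (Fin 4 × Fin 4) := {p | p = (2, 3) ∨ p = (0, 3) ∨ p = (2, 0)}

instance (p : Fin 4 × Fin 4) : Decidable (p ∈ wx j k) := inferInstanceAs (Decidable (_ ∧ _))

instance (p : Fin 4 × Fin 4) : Decidable (p ∈ w20) := inferInstanceAs (Decidable (_ ∨ _))

theorem ad_O2 (h : (i, 3) ∈ 𝒲 ∧ (j, 3) ∈ 𝒲 ∧ (i, j) ∈ 𝒲) : Ad (O2 i j) 𝒲 := fun _ g =>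
  nf_ang (continuous_t4' i) (continuous_t4' j) (g _ h.1) (g _ h.2.1) (g _ h.2.2)

theorem ad_O3 (h : (i, 3) ∈ 𝒲 ∧ (k, 3) ∈ 𝒲 ∧ (i, j) ∈ 𝒲 ∧ (j, k) ∈ 𝒲) : Ad (O2 i j ∩ O2 j k) 𝒲 := fun _ g =>
  nf_ang3 (continuous_t4' i) (continuous_t4' j) (continuous_t4' k) (g _ h.1) (g _ h.2.1) (g _ h.2.2.1)
    (g _ h.2.2.2)

theorem ad_Pw (h : (0, 1) ∈ 𝒲 ∧ (1, 2) ∈ 𝒲 ∧ (0, 2) ∈ 𝒲) : Ad Pw 𝒲 := fun _ g =>
  nf_ang (by fun_prop) (by fun_prop) (fun e => g _ h.1 (inv_mul_eq_one.1 e))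
    (fun e => g _ h.2.2 (inv_mul_eq_one.1 e)) fun e => g _ h.2.1 (mul_left_cancel e)

theorem O2_compl {t : T3} (g : Gn 𝒲 t) (h : (i, j) ∈ 𝒲) : t ∈ (O2 i j)ᶜ ↔ t ∈ O2 j i :=
  (not_lt (a := ang (t4 t i))).trans ⟨fun a => lt_of_le_of_ne a fun e => g _ h (ang_inj e.symm), fun a => le_of_lt a⟩

theorem Pw_012 (t : T3) (g : Gn (wx 1 3) t) : t ∈ Pw ∩ (O2 2 0)ᶜ ↔ t ∈ O2 0 1 ∩ O2 1 2 := by
  have n1 : ang t.1 ≠ ang t.2.1 := fun e => g (0, 1) (by decide) (ang_inj e)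
  have m1 := ang_mem (t.1⁻¹ * t.2.1)
  have m2 := ang_mem (t.1⁻¹ * t.2.2)
  have m3 := ang_mem t.2.1
  have m4 := ang_mem t.2.2
  have m5 := ang_mem t.1
  change ang _ < ang _ ∧ ¬ang t.2.2 < ang t.1 ↔ ang t.1 < ang t.2.1 ∧ ang t.2.1 < ang t.2.2
  rcases ang_div t.1 t.2.1 with e | e <;> rcases ang_div t.1 t.2.2 with e' | e' <;> rw [e] at m1 ⊢ <;>
    rw [e'] at m2 ⊢ <;> simp only [mem_Ico] at * <;> grind

theorem Pw_210 (t : T3) (g : Gn (wx 1 3) t) : t ∈ O2 2 0 ∩ Pwᶜ ↔ t ∈ O2 2 1 ∩ O2 1 0 := by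
  have n1 : ang t.2.1 ≠ ang t.2.2 := fun e => g (1, 2) (by decide) (ang_inj e)
  have m1 := ang_mem (t.1⁻¹ * t.2.1)
  have m2 := ang_mem (t.1⁻¹ * t.2.2)
  have m3 := ang_mem t.2.1
  have m4 := ang_mem t.2.2
  have m5 := ang_mem t.1
  change ang t.2.2 < ang t.1 ∧ ¬ang _ < ang _ ↔ ang t.2.2 < ang t.2.1 ∧ ang t.2.1 < ang t.1
  rcases ang_div t.1 t.2.1 with e | e <;> rcases ang_div t.1 t.2.2 with e' | e' <;> rw [e] at m1 ⊢ <;>
    rw [e'] at m2 ⊢ <;> simp only [mem_Ico] at * <;> grind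

namespace Cal

variable (h : Cal 𝕄 C U) (Q : MT 𝕄) (v : Vc 8 C)
include h

theorem Y_wall {p : Fin 4 × Fin 4} (e : p = (i, j) ∨ p = (j, i)) :
    Q.Y (Yb 𝕄 C ∩ Dw p) i = Q.Y (Yb 𝕄 C ∩ Dw p) j := by
  rcases e with rfl | rfl
  exacts [Q.Y_eq fun _ k => k.2, Q.Y_eq fun _ k => k.2.symm]

include v

theorem Y_wall3 {p : Fin 4 × Fin 4} (e : p = (i, 3) ∨ p = (3, i)) : Q.Y (Yb 𝕄 C ∩ Dw p) i = 0 :=
  (h.Y_wall Q e).trans (Q.Y_base inter_subset_left h.bs.sub v)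

theorem vn_mo (e : ∀ p ∈ 𝒲, (p = (i, j) ∨ p = (j, i)) ∨ (p = (i, k) ∨ p = (k, i)) ∨ (p = (i, 3) ∨ p = (3, i)) ∨
    (p = (j, 3) ∨ p = (3, j)) ∨ (p = (k, 3) ∨ p = (3, k))) : Vn (Q.mo (Yb 𝕄 C) i j k).1 𝒲 :=
  ⟨Q.isDeg_mo _ _ _, fun p hp => by
    change pull id _ univ _ = 0
    rw [Q.res_mo inter_subset_left subset_rfl, Q.mo_zero inter_subset_left ((e p hp).imp (h.Y_wall Q)
      (.imp (h.Y_wall Q) (.imp (h.Y_wall3 Q v) (.imp (h.Y_wall3 Q v) (h.Y_wall3 Q v))))), Subalgebra.coe_zero]⟩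

theorem vn_W : Vn (Q.W (Yb 𝕄 C)).1 (wx 1 3) :=
  ⟨Q.isDeg_W, fun p hp => by
    have e : ∀ p ∈ wx 1 3, (p = (0, 1) ∨ p = (1, 0)) ∨ (p = (1, 2) ∨ p = (2, 1)) ∨ (p = (0, 2) ∨ p = (2, 0)) ∨
      (p = (0, 3) ∨ p = (3, 0)) ∨ (p = (2, 3) ∨ p = (3, 2)) := by decide
    change pull id _ univ _ = 0
    rw [Q.res_W inter_subset_left subset_rfl, Q.W_zero inter_subset_left ((e p hp).imp (h.Y_wall Q)
      (.imp (h.Y_wall Q) (.imp (h.Y_wall Q) (.imp (h.Y_wall3 Q v) (h.Y_wall3 Q v))))), Subalgebra.coe_zero]⟩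

omit v in
theorem re_mo {ρ : Fin 4 → Fin 4} (h3 : ρ 3 = 3) (i j k : Fin 4) :
    pull (fun y => y ∘ ρ) (Yb 𝕄 C) univ (Q.mo (Yb 𝕄 C) i j k).1 = (Q.mo (Yb 𝕄 C) (ρ i) (ρ j) (ρ k)).1 :=
  Q.re_mo (.of_mem (.of_continuous (continuous_re ρ) _) (re_mem h3) fun _ _ _ => mem_univ _) subset_rfl _ _ _

theorem J_210 : JR U (O2 2 1 ∩ O2 1 0) (Q.W (Yb 𝕄 C)).1 =
    (-1 : ℂ) • JR U (O2 0 1 ∩ O2 1 2) (Q.W (Yb 𝕄 C)).1 :=
  h.perm Q (h.vn_W Q v) (ad_O3 (by decide)) (ρ := ![2, 1, 0, 3]) rfl (by fun_prop) deg_02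
    (fun _ i => by fin_cases i <;> rfl) rfl (by
      simp only [MT.W, Subalgebra.coe_add, Subalgebra.coe_sub, map_add, map_sub]
      rw [h.re_mo Q rfl, h.re_mo Q rfl, h.re_mo Q rfl, add_comm, Q.mo_comm 0 1 2, Q.mo_comm 2 0 1,
        Q.mo_comm' 0 2]
      rfl)

theorem J_B : JR U (O2 2 0) (Q.mo (Yb 𝕄 C) 0 2 2).1 = 0 := by
  have w : Vn (Q.mo (Yb 𝕄 C) 0 2 2).1 w20 := h.vn_mo Q v (by decide)
  have a : Ad (O2 2 0) w20 := ad_O2 (by decide)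
  have e := h.perm Q w a (ρ := ![0, 3, 2, 3]) rfl (by fun_prop) deg_deg (fun _ i => by fin_cases i <;> rfl)
    (R' := O2 2 0) rfl (f' := (Q.mo (Yb 𝕄 C) 0 2 2).1) (h.re_mo Q rfl 0 2 2)
  rwa [zero_smul] at e

theorem J_A0 : JR U (O2 2 0) (Q.mo (Yb 𝕄 C) 0 1 2).1 = JR U (O2 0 1 ∩ O2 1 2) (Q.mo (Yb 𝕄 C) 1 0 2).1 := by
  have w : Vn (Q.mo (Yb 𝕄 C) 0 1 2).1 (wx 1 2) := h.vn_mo Q v (by decide)
  have a : Ad (O2 2 0) (wx 1 2) := ad_O2 (by decide)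
  have b : Ad (O2 1 0) (wx 1 2) := ad_O2 (by decide)
  have e1 := h.split Q w a b
  have e2 := h.perm Q w (a.inter b) (ρ := ![0, 2, 1, 3]) rfl (by fun_prop) deg_12
    (fun _ i => by fin_cases i <;> rfl) (R' := O2 2 0 ∩ O2 1 0) (inter_comm _ _)
    ((h.re_mo Q rfl 0 1 2).trans (congrArg Subtype.val (Q.mo_comm 0 2 1)))
  have e3 := h.congr Q w (a.inter b.compl) (a.inter (ad_O2 (i := 0) (j := 1) (by decide))) fun t g =>
    and_congr_right' (O2_compl g (by decide))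
  have e4 := h.perm Q (h.vn_mo Q v (𝒲 := wx 0 2) (i := 1) (j := 0) (k := 2) (by decide))
    (ad_O3 (i := 0) (j := 1) (k := 2) (by decide)) (ρ := ![2, 0, 1, 3]) rfl (by fun_prop) deg_201
    (fun _ i => by fin_cases i <;> rfl) (R' := O2 2 0 ∩ O2 0 1) rfl
    ((h.re_mo Q rfl 1 0 2).trans (congrArg Subtype.val (Q.mo_comm 0 2 1)))
  linear_combination (norm := module) e1 + (1 / 2 : ℂ) • e2 + e3 + e4

theorem J_A2 : JR U (O2 2 0) (Q.mo (Yb 𝕄 C) 2 0 1).1 = JR U (O2 0 1 ∩ O2 1 2) (Q.mo (Yb 𝕄 C) 1 0 2).1 := by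
  have w : Vn (Q.mo (Yb 𝕄 C) 2 0 1).1 (wx 0 1) := h.vn_mo Q v (by decide)
  have a : Ad (O2 2 0) (wx 0 1) := ad_O2 (by decide)
  have b : Ad (O2 2 1) (wx 0 1) := ad_O2 (by decide)
  have e1 := h.split Q w a b
  have e2 := h.perm Q w (a.inter b) (ρ := ![1, 0, 2, 3]) rfl (by fun_prop) deg_01
    (fun _ i => by fin_cases i <;> rfl) (R' := O2 2 0 ∩ O2 2 1) (inter_comm _ _)
    ((h.re_mo Q rfl 2 0 1).trans (congrArg Subtype.val (Q.mo_comm 2 1 0)))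
  have e3 := h.congr Q w (a.inter b.compl) (a.inter (ad_O2 (i := 1) (j := 2) (by decide))) fun t g =>
    and_congr_right' (O2_compl g (by decide))
  have e4 := h.perm Q (h.vn_mo Q v (𝒲 := wx 0 2) (i := 1) (j := 0) (k := 2) (by decide))
    (ad_O3 (i := 0) (j := 1) (k := 2) (by decide)) (ρ := ![1, 2, 0, 3]) rfl (by fun_prop) deg_120
    (fun _ i => by fin_cases i <;> rfl) (R' := O2 2 0 ∩ O2 1 2) (inter_comm _ _)
    ((h.re_mo Q rfl 1 0 2).trans (congrArg Subtype.val (Q.mo_comm 2 1 0)))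
  linear_combination (norm := module) e1 + (1 / 2 : ℂ) • e2 + e3 + e4

/-- the main identity -/
theorem J_Pw : JR U Pw (Q.W (Yb 𝕄 C)).1 = (2 : ℂ) • JR U (O2 0 1 ∩ O2 1 2) (Q.mo (Yb 𝕄 C) 1 0 2).1 +
    (2 : ℂ) • JR U (O2 0 1 ∩ O2 1 2) (Q.W (Yb 𝕄 C)).1 := by
  have w := h.vn_W Q v
  have a : Ad Pw (wx 1 3) := ad_Pw (by decide)
  have b : Ad (O2 2 0) (wx 1 3) := ad_O2 (by decide)
  have c : Ad (O2 2 0) w20 := ad_O2 (by decide)
  have e1 := h.split Q w a b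
  have e2 := h.split Q w b a
  have e3 := h.congr Q w (a.inter b.compl) (ad_O3 (by decide)) Pw_012
  have e4 := h.congr Q w (b.inter a.compl) (ad_O3 (by decide)) Pw_210
  have e5 := h.J_210 Q v
  have v0 : Vn (Q.mo (Yb 𝕄 C) 0 1 2).1 w20 := h.vn_mo Q v (by decide)
  have v2 : Vn (Q.mo (Yb 𝕄 C) 2 0 1).1 w20 := h.vn_mo Q v (by decide)
  have vb : Vn (Q.mo (Yb 𝕄 C) 0 2 2).1 w20 := h.vn_mo Q v (by decide)
  have e6 : JR U (O2 2 0) (Q.W (Yb 𝕄 C)).1 = _ := h.J_sub Q (v0.add v2) vb c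
  rw [Subalgebra.coe_add, h.J_add Q v0 v2 c, h.J_A0 Q v, h.J_A2 Q v, h.J_B Q v] at e6
  rw [inter_comm] at e1
  linear_combination (norm := module) e1 - e2 + e3 - e4 - e5 + e6

end Cal

end Pool.Agent.Work.MP_8c604c_gt.OT
end
end

-- merged part: Pool.Agent.Work.MP_8c604c_gt.OT.Jd
section
/-!
The rotation of the class `z0` (owner helper12).
-/

noncomputable section

set_option linter.unusedSectionVars false

namespace Pool.Agent.Work.MP_8c604c_gt.OT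

open Set Real Topology Filter Pool.Agent.Work.MP_849ab0_ag.G T

variable {V : Type} [NormedAddCommGroup V] [InnerProductSpace ℝ V] [FiniteDimensional ℝ V] {𝕄 : Mf V}
  {C : Set V} {𝒲 : Set (Fin 4 × Fin 4)} {U : Set (LS V)}

theorem JOK.res {X Y : Type} [TopologicalSpace X] [TopologicalSpace Y] [RegularSpace X]
    [SecondCountableTopology X] [RegularSpace Y] [SecondCountableTopology Y] {U U' W : Set X} {C R : Set Y}
    {B : Set (X × Y)} {n : ℤ} {ω : H C univ} (h : JOK U C B R W) (t : Top C n ω) (s : U' ⊆ U)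
    (b : H (U ×ˢ C) B) :
    pull id U' univ (JJ n ω U W R b) = JJ n ω U' univ R (pull id (U' ×ˢ C) B b) := by
  have := h.map (B' := B) (R' := R) (V' := univ) ⟨fun x a => h.nf x ⟨s a.1, a.2⟩, fun _ _ _ _ => mem_univ _⟩ t t
    (ok_fgt s) (ok_fgt subset_rfl) (k := 1) (by rw [pull_id, one_smul]) (fun _ _ k => k)
    (fun _ _ _ => Iff.rfl) b
  rw [one_smul, Prod.map_id] at this
  exact this.symm

/-- three pairs of points -/
def eps (a b c d e f : Fin 4) (y : Fin 4 → V) : (V × V) × (V × V) × (V × V) := ((y a, y b), (y c, y d), (y e, y f))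

theorem ok_Y2 {A : Set (Fin 4 → V)} (h : A ⊆ Yb 𝕄 C) (a b : Fin 4) : Ok (fun y => (y a, y b)) A univ 𝕄.MM univ :=
  .of_mem (.of_continuous (by fun_prop) _) (fun _ k => ⟨(h k).1 _, (h k).1 _⟩) fun _ _ _ => mem_univ _

theorem ok_eps {A B : Set (Fin 4 → V)} (h : A ⊆ Yb 𝕄 C) (a b c d e f : Fin 4) {Z : Set _}
    (k : ∀ y ∈ A, eps a b c d e f y ∈ Z → y ∈ B) : Ok (eps a b c d e f) A B (𝕄.MM ×ˢ 𝕄.MM ×ˢ 𝕄.MM) Z :=
  .of_mem (.of_continuous (by unfold eps; fun_prop) _)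
    (fun _ k => ⟨⟨(h k).1 _, (h k).1 _⟩, ⟨(h k).1 _, (h k).1 _⟩, (h k).1 _, (h k).1 _⟩) k

namespace TD1

variable (D : TD1 𝕄) (Q : MT 𝕄) {A : Set (Fin 4 → V)}

theorem Y_thF (h : A ⊆ Yb 𝕄 C) (a b : Fin 4) :
    pull (fun y => (y a, y b)) A univ (D.thF Q) = (Q.Y A b - Q.Y A a).1 := by
  rw [← pull_res (ok_Y2 h a b) subset_rfl fun _ _ _ => mem_univ _, D.fgt_thF, map_sub, Q.pull_uu (ok_Y2 h a b),
    Q.pull_vv (ok_Y2 h a b)]
  rfl

include D in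
theorem Y_tauD (h : A ⊆ Yb 𝕄 C) (a b : Fin 4) :
    pull (fun y => (y a, y b)) A univ Q.tauD = (Q.Y A a ^ 2 + Q.Y A a * Q.Y A b + Q.Y A b ^ 2).1 := by
  have o := ok_Y2 h a b
  rw [← pull_res o subset_rfl fun _ _ _ => mem_univ _, D.fgt_tauD, Q.hh_eq, map_add, map_add, pull_pow o,
    pull_pow o, pull_mul o, Q.pull_uu o, Q.pull_vv o]
  rfl

theorem Y_om3 (h : A ⊆ Yb 𝕄 C) (a b c d e f : Fin 4) : pull (eps a b c d e f) A univ (D.om3 Q) =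
    ((Q.Y A b - Q.Y A a) * ((Q.Y A c ^ 2 + Q.Y A c * Q.Y A d + Q.Y A d ^ 2) * (Q.Y A f - Q.Y A e))).1 := by
  have u : ∀ {P : (Fin 4 → V) → Prop}, ∀ w ∈ A, P w → w ∈ univ := fun _ _ _ => mem_univ _
  have o : Ok (fun y => (eps a b c d e f y).2) A univ (𝕄.MM ×ˢ 𝕄.MM) (Dg V ×ˢ D.F) :=
    .of_mem (.of_continuous (by unfold eps; fun_prop) _)
      (fun _ k => ⟨⟨(h k).1 _, (h k).1 _⟩, (h k).1 _, (h k).1 _⟩) u
  rw [om3, pull_xq (A := D.Z3) subset_rfl (fun _ _ k k' => ⟨k, k'⟩) (ok_eps h a b c d e f u) u u fun _ _ _ k => k,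
    pull_xq (A := Dg V ×ˢ D.F) subset_rfl (fun _ _ k k' => ⟨k, k'⟩) o u u fun _ _ _ k => k]
  exact congrArg₂ (· * ·) (D.Y_thF Q h a b) (congrArg₂ (· * ·) (D.Y_tauD Q h c d) (D.Y_thF Q h e f))

theorem J_eps (h : Cal 𝕄 C U) (s : U ⊆ D.Lam) (a b c d e f : Fin 4)
    (j : JOK D.Lam univ ((fun z => eps a b c d e f (ph3 z)) ⁻¹' D.Z3) Rg3 (Zr 2))
    (w : ∀ y, eps a b c d e f y ∈ D.Z3 → y 0 ≠ y 3 ∧ y 2 ≠ y 3 ∧ y 0 ≠ y 1 ∧ y 1 ≠ y 2) :
    pull id U univ (JJ 3 w3 D.Lam (Zr 2) Rg3 (pull (fun z => eps a b c d e f (ph3 z)) (D.Lam ×ˢ univ)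
      ((fun z => eps a b c d e f (ph3 z)) ⁻¹' D.Z3) (D.om3 Q))) =
      JR U (O2 0 1 ∩ O2 1 2) (pull (eps a b c d e f) (Yb 𝕄 C) univ (D.om3 Q)) := by
  have o : Ok (eps a b c d e f) (Yb 𝕄 C) (eps a b c d e f ⁻¹' D.Z3) _ D.Z3 :=
    ok_eps subset_rfl a b c d e f fun _ _ k => k
  have o' : Ok (fun z : LS V × T3 => eps a b c d e f (ph3 z)) (D.Lam ×ˢ univ)
      ((fun z => eps a b c d e f (ph3 z)) ⁻¹' D.Z3) (𝕄.MM ×ˢ 𝕄.MM ×ˢ 𝕄.MM) D.Z3 :=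
    .of_mem (.of_continuous (by have := continuous_ph3 (V := V); unfold eps; fun_prop) _)
      (fun _ k => ⟨⟨k.1.1 _, k.1.1 _⟩, ⟨k.1.1 _, k.1.1 _⟩, k.1.1 _, k.1.1 _⟩) fun _ _ k => k
  rw [h.J_eq Q (ad_O3 (𝒲 := {(0, 3), (2, 3), (0, 1), (1, 2)}) (by simp)) (Z := eps a b c d e f ⁻¹' D.Z3)
      (fun y _ k => by simpa [Zw] using w y k) ((D.isDeg_om3 Q).pull _ _ _)
      (res_pull o subset_rfl (fun _ _ _ => mem_univ _) _), j.res top_w3 s,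
    res_pull o' (prod_mono_left s) fun _ _ k => k,
    pull_pull' (F := fun z => eps a b c d e f (ph3 z)) (h.ok _) o fun _ _ => rfl]
  rfl

theorem J_dl3 (h : Cal 𝕄 C U) (s : U ⊆ D.Lam) (v : Vc 8 C) :
    pull id U univ (D.dl3 Q) = JR U (O2 0 1 ∩ O2 1 2) (Q.mo (Yb 𝕄 C) 1 0 2).1 := by
  refine (D.J_eps Q h s 3 0 3 1 1 2 D.jok3 fun y k => ?_).trans (congrArg _ ?_)
  · have k1 : y 3 ≠ y 0 := D.F_ne k.1
    have k2 : y 3 = y 1 := k.2.1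
    have k3 : y 1 ≠ y 2 := D.F_ne k.2.2
    exact ⟨k1.symm, k2 ▸ k3.symm, k2 ▸ k1.symm, k3⟩
  · rw [D.Y_om3 Q subset_rfl, Q.Y_base subset_rfl h.bs.sub v, MT.mo]
    congr 1
    linear_combination (-Q.Y (Yb 𝕄 C) 0) * Q.Y_cube subset_rfl 1

theorem J_dl4 (h : Cal 𝕄 C U) (s : U ⊆ D.Lam) (v : Vc 8 C) :
    pull id U univ (D.dl4 Q) = -JR U (O2 0 1 ∩ O2 1 2) (Q.W (Yb 𝕄 C)).1 := by
  have e : pull (eps 0 1 0 2 2 3) (Yb 𝕄 C) univ (D.om3 Q) = 0 - (Q.W (Yb 𝕄 C)).1 := by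
    rw [D.Y_om3 Q subset_rfl, Q.Y_base subset_rfl h.bs.sub v, MT.W, MT.mo, MT.mo, MT.mo, zero_sub, zero_sub,
      ← Subalgebra.coe_neg]
    congr 1
    linear_combination Q.Y (Yb 𝕄 C) 2 * Q.Y_cube subset_rfl 0 +
      (Q.Y (Yb 𝕄 C) 0 - Q.Y (Yb 𝕄 C) 1) * Q.Y_cube subset_rfl 2
  have z : Vn (0 : H (Yb 𝕄 C) univ) (wx 1 3) := ⟨.zero _, fun _ _ => map_zero _⟩
  have a : Ad (O2 0 1 ∩ O2 1 2) (wx 1 3) := ad_O3 (by decide)
  refine (D.J_eps Q h s 0 1 0 2 2 3 D.jok4 fun y k => ?_).trans ?_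
  · have k1 : y 0 ≠ y 1 := D.F_ne k.1
    have k2 : y 0 = y 2 := k.2.1
    have k3 : y 2 ≠ y 3 := D.F_ne k.2.2
    exact ⟨k2 ▸ k3, k3, k1, k2 ▸ k1.symm⟩
  · have := h.J_sub Q z z a
    rw [sub_self, sub_self] at this
    rw [e, h.J_sub Q z (h.vn_W Q v) a, this, zero_sub]

theorem J_rot (h : Cal 𝕄 C U) (s : U ⊆ D.Lam) :
    pull id U univ (sl 1 dt D.Lam univ
      (pull (fun w : LS V × Circle => shS w.2 w.1) (D.Lam ×ˢ univ) univ (D.z0 Q))) =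
      JR U Pw (Q.W (Yb 𝕄 C)).1 := by
  let r : LS V × Circle → LS V := fun w => shS w.2 w.1
  let g : T3 → T3 := fun t => (t.1, t.1 * t.2.1, t.1 * t.2.2)
  let ρ : Fin 4 → Fin 4 := ![0, 1, 2, 0]
  let B : Set ((LS V × Circle) × T2) := Prod.map r id ⁻¹' (ph2 ⁻¹' Zw W3)
  let B' : Set (LS V × T3) := Prod.map id g ⁻¹' (ph3 ⁻¹' Zw W3)
  have cr : Continuous r := continuous_shS.comp continuous_swap
  have cg : Continuous g := by fun_prop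
  have o : ∀ U ⊆ D.Lam, Ok r (U ×ˢ univ) univ D.Lam univ := fun U s =>
    .of_mem (.of_continuous cr _) (fun _ k => D.inv_Lam _ _ (s k.1)) fun _ _ _ => mem_univ _
  have e : ∀ x : LS V × T3, ph2 (Prod.map r id ((x.1, x.2.1), x.2.2)) = ph3 (Prod.map id g x) ∘ ρ := fun x =>
    funext fun i => by fin_cases i <;> first | exact sh_at_one _ _ | rfl
  have m : ∀ y : Fin 4 → V, y ∘ ρ ∈ Zw W3 ↔ y ∈ Zw W3 := fun y => mem_ZW3.trans (mem_ZW3 (y := y)).symm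
  have oρ : Ok (fun y => y ∘ ρ) (Yb 𝕄 C) (Zw W3) (Yb 𝕄 𝕄.M) (Zw W3) :=
    .of_mem (.of_continuous (continuous_re ρ) _) (fun _ k => ⟨fun _ => k.1 _, k.1 _⟩) fun y _ => (m y).1
  have oρ' : Ok (fun y => y ∘ ρ) (Yb 𝕄 C) univ (Yb 𝕄 𝕄.M) univ := .of_mem oρ.ext oρ.maps fun _ _ k => k
  have a : Ad Pw W3 := ad_Pw (by simp [W3])
  have j : JOK (U ×ˢ univ) univ B Rg2 univ :=
    ⟨fun x k => (jok0 D.Lam).nf (Prod.map r id x) ⟨(o U s).maps k.1, trivial⟩, fun _ _ _ _ => mem_univ _⟩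
  have j' : JOK U univ B' (g ⁻¹' Pw) univ :=
    ⟨fun x _ k n => a _ (gn_ph3 k) (cg.frontier_preimage_subset _ n), fun _ _ _ _ => mem_univ _⟩
  have o1 : Ok (Prod.map r id) ((U ×ˢ univ) ×ˢ univ) B (D.Lam ×ˢ univ) (ph2 ⁻¹' Zw W3) :=
    .of_mem (.of_continuous (cr.prodMap continuous_id) _) (fun _ k => ⟨(o U s).maps k.1, trivial⟩) fun _ _ k => k
  have o2 : Ok (fun x : LS V × T3 => ((x.1, x.2.1), x.2.2)) (U ×ˢ univ) B' ((U ×ˢ univ) ×ˢ univ) B :=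
    .of_mem (.of_continuous (by fun_prop) _) (fun _ k => ⟨⟨k.1, trivial⟩, trivial⟩) fun x _ k =>
      (m _).1 (e x ▸ k)
  have o3 : Ok (Prod.map id g) (U ×ˢ univ) B' (U ×ˢ univ) (ph3 ⁻¹' Zw W3) :=
    .of_mem (.of_continuous (continuous_id.prodMap cg) _) (fun _ k => ⟨k.1, trivial⟩) fun _ _ k => k
  have e1 := top_dt.sl_nat (ok_fgt (Z := univ) s) (W := univ) (W₁ := univ) (fun _ _ _ => mem_univ _)
    (fun _ _ _ => mem_univ _) (fun _ _ _ => mem_univ _) (pull r (D.Lam ×ˢ univ) univ (D.z0 Q))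
  rw [Prod.map_id, res_pull (o _ subset_rfl) (prod_mono_left s) fun _ _ k => k] at e1
  have e2 := (jok0 D.Lam).map j top_w2 top_w2 (o U s) (ok_fgt subset_rfl) (k := 1) (by rw [pull_id, one_smul])
    (fun _ _ k => k) (fun _ _ _ => Iff.rfl) (pull ph2 (D.Lam ×ˢ univ) (ph2 ⁻¹' Zw W3) Q.Wt)
  have e3 := a.jok0.map j' top_w3 top_w3 (ok_fgt subset_rfl) (okC cg _) deg_shear (fun _ _ k => k)
    (fun _ _ _ => Iff.rfl) (pull ph3 (U ×ˢ univ) (ph3 ⁻¹' Zw W3) (pull (fun y => y ∘ ρ) (Yb 𝕄 C) (Zw W3) Q.Wt))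
  rw [one_smul] at e2 e3
  rw [pull_id, ← h.J_eq0 Q a (Q.isDeg_Wt.pull _ _ _) (f := (Q.W (Yb 𝕄 C)).1) (by
    rw [res_pull oρ subset_rfl fun _ _ _ => mem_univ _, ← pull_res oρ' subset_rfl fun _ _ _ => mem_univ _,
      Q.fgt_Wt]
    simp only [MT.W, Subalgebra.coe_add, Subalgebra.coe_sub, map_add, map_sub, Q.re_mo oρ' subset_rfl]
    rfl)] at e3
  rw [← e1, z0, ← e2, ← e3, JJ_apply, JJ_apply, ← top_dt.sl_fub top_w2 (D := univ) univ_prod_univ.symm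
      (W₂ := univ ×ˢ univ) (fun _ _ _ => mem_univ _) (fun _ _ _ => mem_univ _) (fun _ _ _ => mem_univ _)
      fun _ _ _ => ⟨trivial, trivial⟩,
    j.ok.pul j'.ok o2 (.of_mem o2.ext o2.maps fun _ _ _ => ⟨trivial, trivial⟩) fun x _ _ => by simp [g, Pw, Rg2],
    pull_pull o1 (D.ok_ph2 subset_rfl _), pull_pull o2 ((D.ok_ph2 subset_rfl _).comp o1),
    pull_pull (h.ok _) oρ, pull_pull o3 (oρ.comp (h.ok _)),
    show ((ph2 ∘ Prod.map r id) ∘ fun x : LS V × T3 => ((x.1, x.2.1), x.2.2)) =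
      ((fun y => y ∘ ρ) ∘ ph3) ∘ Prod.map id g from funext e]
  rfl

theorem Jd {N : Set V} (hN : IsCompact N) (s : N ⊆ 𝕄.M) (v : ∀ q : ℤ, q ≠ 0 → Van q N univ) :
    pull id (D.LamB N) univ (sl 1 dt D.Lam univ
      (pull (fun w : LS V × Circle => shS w.2 w.1) (D.Lam ×ˢ univ) univ (D.z0 Q))) =
      (2 : ℂ) • pull id (D.LamB N) univ (D.dl3 Q) - (2 : ℂ) • pull id (D.LamB N) univ (D.dl4 Q) := by
  have h : Cal 𝕄 N (D.LamB N) := ⟨⟨s, hN.isClosed, fun q k _ a => (v q (by omega)).eq_zero a⟩,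
    fun _ k => k.1.1, fun _ k => k.2⟩
  have v8 : Vc 8 N := fun _ a => (v 8 (by norm_num)).eq_zero a
  rw [D.J_rot Q h inter_subset_left, D.J_dl3 Q h inter_subset_left v8, D.J_dl4 Q h inter_subset_left v8,
    h.J_Pw Q v8, smul_neg, sub_neg_eq_add]

end TD1

end Pool.Agent.Work.MP_8c604c_gt.OT
end
end
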