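import Pool.Agent.Work.MP_8c604c_gt.OT.Loc

/-!
Local Thom classes: near `y` a class with support in `F` is the pull-back of a local generator along
a linear map, up to enlarging the support to a cone (owner helper12).
-/

noncomputable section

set_option linter.unusedSectionVars false

namespace Pool.Agent.Work.MP_8c604c_gt.OT

open Set Topology Filter Module Pool.Agent.Work.MP_849ab0_ag.G T

variable {X X' B B' E : Type} [NormedAddCommGroup X] [NormedSpace ℝ X] [FiniteDimensional ℝ X]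
  [NormedAddCommGroup X'] [NormedSpace ℝ X'] [FiniteDimensional ℝ X']
  [NormedAddCommGroup B] [NormedSpace ℝ B] [FiniteDimensional ℝ B]
  [NormedAddCommGroup B'] [NormedSpace ℝ B'] [FiniteDimensional ℝ B']
  [NormedAddCommGroup E] [NormedSpace ℝ E] [FiniteDimensional ℝ E]
  {N F F' : Set X} {y : X} {ℓ : X →L[ℝ] B} {ℓ' : X →L[ℝ] B'} {η η' : ℝ} {d d' : ℤ}

/-- a cone around the kernel of `ℓ` -/
def Cn (ℓ : X →L[ℝ] B) (y : X) (η : ℝ) : Set X := {x | ‖ℓ (x - y)‖ ≤ η * ‖x - y‖}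

theorem Cn_mono (h : η ≤ η') : Cn ℓ y η ⊆ Cn ℓ y η' := fun _ k =>
  le_trans k (mul_le_mul_of_nonneg_right h (norm_nonneg _))

theorem Cn_zero (h : 0 ≤ η) {x : X} (e : ℓ (x - y) = 0) : x ∈ Cn ℓ y η := by
  change ‖ℓ (x - y)‖ ≤ _
  rw [e, norm_zero]
  positivity

theorem ok_Cn (h : 0 ≤ η) (U : Set X) : Ok (fun x => ℓ (x - y)) U (Cn ℓ y η) univ {0} :=
  .of_mem (.of_continuous (by fun_prop) _) (fun _ _ => trivial) fun _ _ k => Cn_zero h k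

/-- `b` is a Thom class of `F` near `y`, and `ℓ` is the projection to the normal space -/
def LT (d : ℤ) (b : H N F) (y : X) (ℓ : X →L[ℝ] B) : Prop :=
  ∀ η, 0 < η → ∃ O, IsOpen O ∧ y ∈ O ∧ ∃ ω : H (univ : Set B) {0}, Gen d ω ∧
    (∀ x ∈ N ∩ O, x ∈ F → x ∈ Cn ℓ y η) ∧
    pull id (N ∩ O) (Cn ℓ y η) b = pull (fun x => ℓ (x - y)) (N ∩ O) (Cn ℓ y η) ω

theorem LT.pul {b : H N F} (h : LT d b y ℓ) (g : X' →L[ℝ] X) {N' G : Set X'} {y' : X'} (e : g y' = y)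
    (m : MapsTo g N' N) (hG : ∀ x ∈ N', x ∈ G ↔ g x ∈ F) : LT d (pull g N' G b) y' (ℓ.comp g) := by
  intro η hη
  have hg : 0 < ‖g‖ + 1 := by positivity
  obtain ⟨O, o, hy, ω, hω, c, k⟩ := h (η / (‖g‖ + 1)) (by positivity)
  have cn : ∀ x, g x ∈ Cn ℓ y (η / (‖g‖ + 1)) → x ∈ Cn (ℓ.comp g) y' η := fun x a => by
    have a : ‖ℓ (g x - y)‖ ≤ η / (‖g‖ + 1) * ‖g x - y‖ := a
    rw [← e, ← map_sub] at a
    refine a.trans ((mul_le_mul_of_nonneg_left ((g.le_opNorm _).trans (mul_le_mul_of_nonneg_right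
      (le_add_of_nonneg_right zero_le_one) (norm_nonneg _))) (by positivity)).trans_eq ?_)
    field_simp
  have ok : Ok g (N' ∩ g ⁻¹' O) (Cn (ℓ.comp g) y' η) (N ∩ O) (Cn ℓ y (η / (‖g‖ + 1))) :=
    .of_mem (.of_continuous g.continuous _) (fun _ a => ⟨m a.1, a.2⟩) fun x _ => cn x
  have c' : ∀ x ∈ N' ∩ g ⁻¹' O, x ∈ G → x ∈ Cn (ℓ.comp g) y' η := fun x a b =>
    cn x (c _ ⟨m a.1, a.2⟩ ((hG x a.1).1 b))
  refine ⟨g ⁻¹' O, o.preimage g.continuous, by rwa [mem_preimage, e], ω, hω, c', ?_⟩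
  rw [res_pull (.of_mem (.of_continuous g.continuous _) m fun x a => (hG x a).2) inter_subset_left c',
    ← pull_res ok inter_subset_left c, k, pull_pull' ok (ok_Cn (by positivity) _) fun x _ => ?_]
  simp [← e]

theorem LT.cp {b : H N F} {b' : H N F'} (h : LT d b y ℓ) (h' : LT d' b' y ℓ') {G : Set X}
    (hG : ∀ x ∈ N, x ∈ G ↔ x ∈ F ∧ x ∈ F') : LT (d + d') (cup N G b b') y (ℓ.prod ℓ') := by
  intro η hη
  obtain ⟨O, o, hy, ω, hω, c, k⟩ := h η hη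
  obtain ⟨O', o', hy', ω', hω', c', k'⟩ := h' η hη
  have cn : ∀ x ∈ N ∩ (O ∩ O'), x ∈ Cn ℓ y η → x ∈ Cn ℓ' y η → x ∈ Cn (ℓ.prod ℓ') y η :=
    fun x _ a b => norm_prod_le_iff.2 ⟨a, b⟩
  have c2 : ∀ x ∈ N ∩ (O ∩ O'), x ∈ G → x ∈ Cn (ℓ.prod ℓ') y η := fun x a b =>
    cn x a (c x ⟨a.1, a.2.1⟩ ((hG x a.1).1 b).1) (c' x ⟨a.1, a.2.2⟩ ((hG x a.1).1 b).2)
  have s : N ∩ (O ∩ O') ⊆ N ∩ O := fun _ a => ⟨a.1, a.2.1⟩
  have s' : N ∩ (O ∩ O') ⊆ N ∩ O' := fun _ a => ⟨a.1, a.2.2⟩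
  have r : Ok id (N ∩ (O ∩ O')) (Cn ℓ y η) (N ∩ O) (Cn ℓ y η) := .id s fun _ _ a => a
  have r' : Ok id (N ∩ (O ∩ O')) (Cn ℓ' y η) (N ∩ O') (Cn ℓ' y η) := .id s' fun _ _ a => a
  have p : Ok (fun x => ℓ.prod ℓ' (x - y)) (N ∩ (O ∩ O')) (Cn ℓ y η) univ {z | z.1 = 0} :=
    .of_mem (.of_continuous (by fun_prop) _) (fun _ _ => trivial) fun _ _ a => Cn_zero hη.le a
  have p' : Ok (fun x => ℓ.prod ℓ' (x - y)) (N ∩ (O ∩ O')) (Cn ℓ' y η) univ {z | z.2 = 0} :=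
    .of_mem (.of_continuous (by fun_prop) _) (fun _ _ => trivial) fun _ _ a => Cn_zero hη.le a
  have q : Ok (Prod.fst : B × B' → B) univ {z | z.1 = 0} univ {0} :=
    .of_mem (.of_continuous continuous_fst _) (fun _ _ => trivial) fun _ _ a => a
  have q' : Ok (Prod.snd : B × B' → B') univ {z | z.2 = 0} univ {0} :=
    .of_mem (.of_continuous continuous_snd _) (fun _ _ => trivial) fun _ _ a => a
  refine ⟨O ∩ O', o.inter o', ⟨hy, hy'⟩, _, gen_prod2 hω hω', c2, ?_⟩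
  rw [pull_cup' (.id inter_subset_left c2) (.id inter_subset_left fun x a => c x (s a))
    (.id inter_subset_left fun x a => c' x (s' a)) cn (cupOK fun x a u v => (hG x a).2 ⟨u, v⟩),
    pull_cup' (ok_Cn hη.le _) p p' cn (cupOK fun _ _ u v => Prod.ext u v),
    ← pull_res r inter_subset_left c, ← pull_res r' inter_subset_left c', k, k',
    pull_pull' (F := fun x => ℓ (x - y)) r (ok_Cn hη.le _) fun _ _ => rfl,
    pull_pull' (F := fun x => ℓ' (x - y)) r' (ok_Cn hη.le _) fun _ _ => rfl,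
    pull_pull' (F := fun x => ℓ (x - y)) p q fun _ _ => rfl,
    pull_pull' (F := fun x => ℓ' (x - y)) p' q' fun _ _ => rfl]

theorem exists_lower {L : E →L[ℝ] B} (h : Function.Injective L) : ∃ c, 0 < c ∧ ∀ v, c * ‖v‖ ≤ ‖L v‖ := by
  obtain ⟨K, k0, hK⟩ := (L : E →ₗ[ℝ] B).exists_antilipschitzWith (LinearMap.ker_eq_bot.2 h)
  refine ⟨K⁻¹, by positivity, fun v => ?_⟩
  have := hK.le_mul_dist v 0
  simp only [dist_zero_right, map_zero] at this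
  rw [inv_mul_le_iff₀ (by exact_mod_cast k0)]
  exact this

theorem deriv_ev {f : E → X} {L : E →L[ℝ] X} (h : HasFDerivAt f L 0) {ε : ℝ} (hε : 0 < ε) :
    ∀ᶠ v in 𝓝 (0 : E), ‖f v - f 0 - L v‖ ≤ ε * ‖v‖ := by
  simpa using h.isLittleO.def hε

/-- a transversal map meets a thin cone only at the origin -/
theorem cn_miss {f : E → X} {L : E →L[ℝ] X} (h : HasFDerivAt f L 0) (i : Function.Injective (ℓ.comp L)) :
    ∃ η, 0 < η ∧ ∀ᶠ v in 𝓝 (0 : E), f v ∈ Cn ℓ (f 0) η → v = 0 := by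
  obtain ⟨c, c0, hc⟩ := exists_lower i
  refine ⟨c / 4 / (‖L‖ + 1), by positivity, ?_⟩
  filter_upwards [deriv_ev h one_pos, deriv_ev h (show 0 < c / 4 / (‖ℓ‖ + 1) by positivity)] with v h1 h2 k
  have k : ‖ℓ (f v - f 0)‖ ≤ c / 4 / (‖L‖ + 1) * ‖f v - f 0‖ := k
  have a1 : ‖f v - f 0‖ ≤ (‖L‖ + 1) * ‖v‖ := by
    have := norm_add_le (f v - f 0 - L v) (L v)
    rw [sub_add_cancel] at this
    linarith [L.le_opNorm v]
  have a2 : ‖ℓ (f v - f 0)‖ ≤ c / 4 * ‖v‖ :=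
    k.trans ((mul_le_mul_of_nonneg_left a1 (by positivity)).trans_eq (by field_simp))
  have a3 : ‖ℓ (f v - f 0 - L v)‖ ≤ c / 4 * ‖v‖ := (ℓ.le_opNorm _).trans ((mul_le_mul
    (le_add_of_nonneg_right zero_le_one) h2 (norm_nonneg _) (by positivity)).trans_eq (by field_simp))
  have a4 := norm_sub_le (ℓ (f v - f 0)) (ℓ (f v - f 0 - L v))
  rw [← map_sub, sub_sub_cancel] at a4
  have a5 : c * ‖v‖ ≤ ‖ℓ (L v)‖ := hc v
  exact norm_le_zero_iff.1 (by nlinarith [norm_nonneg v])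

/-- transversal maps have local degree one -/
theorem LT.gen {b : H N F} (h : LT d b y ℓ) {f : E → X} {L : E →L[ℝ] X} {O : Set E} (o : IsOpen O)
    (h0 : 0 ∈ O) (cf : ContinuousOn f O) (m : MapsTo f O N) (e : f 0 = y) (hd : HasFDerivAt f L 0)
    (i : Function.Injective (ℓ.comp L)) (r : finrank ℝ E = finrank ℝ B)
    (z : ∀ v ∈ O, f v ∈ F → v = 0) : Gen d (pull f O {0} b) := by
  subst e
  obtain ⟨η, hη, k⟩ := cn_miss hd i
  obtain ⟨O₁, s₁, o₁, m₁⟩ := mem_nhds_iff.1 k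
  obtain ⟨O₂, o₂, m₂, ω, hω, c, e⟩ := h η hη
  have o' : IsOpen (O ∩ f ⁻¹' O₂ ∩ O₁) := (cf.isOpen_inter_preimage o o₂).inter o₁
  have m' : (0 : E) ∈ O ∩ f ⁻¹' O₂ ∩ O₁ := ⟨⟨h0, m₂⟩, m₁⟩
  have s' : O ∩ f ⁻¹' O₂ ∩ O₁ ⊆ O := fun _ a => a.1.1
  have ok : Ok f (O ∩ f ⁻¹' O₂ ∩ O₁) {0} (N ∩ O₂) (Cn ℓ (f 0) η) :=
    ok_of o'.isLocallyClosed (cf.mono s') (fun _ a => ⟨m a.1.1, a.1.2⟩) fun v a => s₁ a.2
  refine Gen.of_pul ?_ (ZB.excision (U₁ := O ∩ f ⁻¹' O₂ ∩ O₁) (Z₁ := {0}) s'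
    (.of_isClosed isClosed_singleton _) (fun x _ a => a ▸ mem_nhdsWithin_of_mem_nhds (o'.mem_nhds m'))
    fun _ _ => Iff.rfl)
  rw [res_pull (W := {0}) (ok_of o.isLocallyClosed cf m z) s' fun _ _ a => a, ← pull_res ok inter_subset_left c, e,
    pull_pull' (F := fun v => (ℓ ∘ f) v - (ℓ ∘ f) 0) ok (ok_Cn hη.le _) fun _ _ => map_sub _ _ _,
    pull_deriv o' (ℓ.continuous.comp_continuousOn (cf.mono s')) (ℓ.hasFDerivAt.comp 0 hd) i
      fun v a k => s₁ a.2 (Cn_zero hη.le (by rw [map_sub]; exact sub_eq_zero.2 k))]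
  exact hω.pul ((zb_loc (o'.mem_nhds m')).comp (zb_lin (LinearEquiv.ofInjectiveOfFinrankEq
    (ℓ.comp L : E →ₗ[ℝ] B) i r)) fun _ _ => rfl)

section Chart

variable {Φ : E → X} {A : E →L[ℝ] X} {s : B →L[ℝ] E}

/-- the cone in the chart -/
def Cd (M : E →L[ℝ] B) (s : B →L[ℝ] E) (δ : ℝ) : Set E := {a | ‖M a‖ ≤ δ * ‖a - s (M a)‖}

theorem Cd_of {M : E →L[ℝ] B} {δ : ℝ} (hδ : 0 < δ) : ∃ κ, 0 < κ ∧ ∀ a, ‖M a‖ ≤ κ * ‖a‖ → a ∈ Cd M s δ := by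
  refine ⟨min (δ / 2) (1 / 2 / (‖s‖ + 1)), by positivity, fun a h => ?_⟩
  have a1 := norm_add_le (a - s (M a)) (s (M a))
  rw [sub_add_cancel] at a1
  have a2 : ‖s (M a)‖ ≤ 1 / 2 * ‖a‖ := (s.le_opNorm _).trans ((mul_le_mul
    (le_add_of_nonneg_right zero_le_one) (h.trans (mul_le_mul_of_nonneg_right (min_le_right _ _)
      (norm_nonneg _))) (norm_nonneg _) (by positivity)).trans_eq (by field_simp))
  have a3 := h.trans (mul_le_mul_of_nonneg_right (min_le_left _ _) (norm_nonneg _))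
  change ‖M a‖ ≤ _
  nlinarith

theorem Cd_Cn (h : HasFDerivAt Φ A 0) (i : Function.Injective A) (hη : 0 < η) :
    ∃ δ, 0 < δ ∧ ∀ᶠ a in 𝓝 (0 : E), a ∈ Cd (ℓ.comp A) s δ → Φ a ∈ Cn ℓ (Φ 0) η := by
  obtain ⟨c, c0, hc⟩ := exists_lower i
  let P : E →L[ℝ] E := 1 - s.comp (ℓ.comp A)
  refine ⟨η * c / 4 / (‖P‖ + 1), by positivity, ?_⟩
  filter_upwards [deriv_ev h (half_pos c0), deriv_ev h (show 0 < η * c / 4 / (‖ℓ‖ + 1) by positivity)]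
    with a h1 h2 k
  have k : ‖ℓ (A a)‖ ≤ η * c / 4 / (‖P‖ + 1) * ‖P a‖ := k
  have a1 : ‖ℓ (A a)‖ ≤ η * c / 4 * ‖a‖ := k.trans ((mul_le_mul_of_nonneg_left ((P.le_opNorm a).trans
    (mul_le_mul_of_nonneg_right (le_add_of_nonneg_right zero_le_one) (norm_nonneg _)))
      (by positivity)).trans_eq (by field_simp))
  have a3 : ‖ℓ (Φ a - Φ 0 - A a)‖ ≤ η * c / 4 * ‖a‖ := (ℓ.le_opNorm _).trans ((mul_le_mul
    (le_add_of_nonneg_right zero_le_one) h2 (norm_nonneg _) (by positivity)).trans_eq (by field_simp))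
  have a4 := norm_add_le (ℓ (Φ a - Φ 0 - A a)) (ℓ (A a))
  rw [← map_add, sub_add_cancel] at a4
  have a5 := norm_sub_le (Φ a - Φ 0) (Φ a - Φ 0 - A a)
  rw [sub_sub_cancel] at a5
  change ‖ℓ (Φ a - Φ 0)‖ ≤ η * ‖Φ a - Φ 0‖
  nlinarith [hc a]

theorem Cn_Cd (h : HasFDerivAt Φ A 0) {δ : ℝ} (hδ : 0 < δ) : ∃ η, 0 < η ∧ ∀ᶠ a in 𝓝 (0 : E),
    ∀ t ∈ Icc (0 : ℝ) 1, ‖ℓ (A a + t • (Φ a - Φ 0 - A a))‖ ≤ η * ‖Φ a - Φ 0‖ → a ∈ Cd (ℓ.comp A) s δ := by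
  obtain ⟨κ, k0, hκ⟩ := Cd_of (M := ℓ.comp A) (s := s) hδ
  refine ⟨κ / 2 / (‖A‖ + 1), by positivity, ?_⟩
  filter_upwards [deriv_ev h one_pos, deriv_ev h (show 0 < κ / 2 / (‖ℓ‖ + 1) by positivity)]
    with a h1 h2 t ht k
  have a1 : ‖Φ a - Φ 0‖ ≤ (‖A‖ + 1) * ‖a‖ := by
    have := norm_add_le (Φ a - Φ 0 - A a) (A a)
    rw [sub_add_cancel] at this
    linarith [A.le_opNorm a]
  have a2 := k.trans ((mul_le_mul_of_nonneg_left a1 (by positivity)).trans_eq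
    (show _ = κ / 2 * ‖a‖ by field_simp))
  have a3 : ‖ℓ (Φ a - Φ 0 - A a)‖ ≤ κ / 2 * ‖a‖ := (ℓ.le_opNorm _).trans ((mul_le_mul
    (le_add_of_nonneg_right zero_le_one) h2 (norm_nonneg _) (by positivity)).trans_eq (by field_simp))
  have a4 := norm_sub_le (ℓ (A a + t • (Φ a - Φ 0 - A a))) (ℓ (t • (Φ a - Φ 0 - A a)))
  rw [← map_sub, add_sub_cancel_right, ℓ.map_smul t, norm_smul, Real.norm_of_nonneg ht.1] at a4
  refine hκ a ?_
  change ‖ℓ (A a)‖ ≤ _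
  nlinarith [ht.2, norm_nonneg (ℓ (Φ a - Φ 0 - A a))]

theorem zb_Cd {M : E →L[ℝ] B} (hs : ∀ v, M (s v) = v) {δ r : ℝ} (hδ : 0 ≤ δ) (hr : 0 < r) :
    ZB M {a | ‖M a‖ < r ∧ ‖a - s (M a)‖ < r} (Cd M s δ) univ {0} := by
  have e1 : ∀ a (t : ℝ), M (t • (a - s (M a)) + s (M a)) = M a := fun a t => by simp [hs]
  have e2 : ∀ a, ∀ t ∈ Icc (0 : ℝ) 1, ‖t • (a - s (M a)) + s (M a) - s (M a)‖ ≤ ‖a - s (M a)‖ :=
    fun a t ht => by
      rw [add_sub_cancel_right, norm_smul, Real.norm_of_nonneg ht.1]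
      exact mul_le_of_le_one_left (norm_nonneg _) ht.2
  refine ZB.comp (U' := Metric.ball 0 r) (Z' := {0}) (f' := id) (.of_section (s := s)
    (.of_mem (.of_continuous M.continuous _) (fun _ a => mem_ball_zero_iff.2 a.1) fun a _ k => ?_)
    (.of_mem (.of_continuous s.continuous _) (fun v a => ⟨by rw [hs]; exact mem_ball_zero_iff.1 a,
      by simpa [hs] using hr⟩) fun v _ k => ?_) (fun v _ => hs v)
    (F := fun z => z.2 • (z.1 - s (M z.1)) + s (M z.1)) (.of_continuous (by fun_prop) _)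
    (fun a h t ht => ⟨by rw [e1]; exact h.1, by rw [e1]; exact (e2 a t ht).trans_lt h.2⟩)
    (fun a _ t ht k => ?_) (fun _ _ => by simp) fun _ _ => by simp)
    (.excision_univ isClosed_singleton fun x k => k ▸ Metric.ball_mem_nhds _ hr) fun _ _ => rfl
  · change ‖M a‖ ≤ _
    rw [show M a = 0 from k, norm_zero]
    positivity
  · have k : ‖M (s v)‖ ≤ δ * ‖s v - s (M (s v))‖ := k
    simpa [hs] using k
  · have k : ‖M (t • (a - s (M a)) + s (M a))‖ ≤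
      δ * ‖t • (a - s (M a)) + s (M a) - s (M (t • (a - s (M a)) + s (M a)))‖ := k
    rw [e1] at k
    exact k.trans (mul_le_mul_of_nonneg_left (e2 a t ht) hδ)

/-- A class with support in a set tangent to the kernel of `ℓ` that is a generator on a transversal
set `T` is a local Thom class. -/
theorem LT.of_chart {b : H N F} (hz : IsZ b) (hb : IsDeg (finrank ℝ B) b) (lc : IsLocallyClosed N)
    {χ : X → E} {O : Set X} (o : IsOpen O) (cΦ : Continuous Φ) (cχ : ContinuousOn χ (N ∩ O))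
    (mΦ : ∀ a, Φ a ∈ N ∩ O) (li : ∀ a, χ (Φ a) = a) (ri : ∀ x ∈ N ∩ O, Φ (χ x) = x)
    (hd : HasFDerivAt Φ A 0) (i : Function.Injective A) (su : Function.Surjective (ℓ.comp A))
    (cone : ∀ η, 0 < η → ∀ᶠ x in 𝓝 (Φ 0), x ∈ N → x ∈ F → x ∈ Cn ℓ (Φ 0) η)
    {T : Set X} (hT : T ⊆ N) (tF : ∀ x ∈ T, x ∈ F → x = Φ 0)
    (g : Gen (finrank ℝ B) (pull id T {Φ 0} b))
    (tr : ∃ η, 0 < η ∧ ∀ᶠ x in 𝓝 (Φ 0), x ∈ T → x ∈ Cn ℓ (Φ 0) η → x = Φ 0) :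
    LT (finrank ℝ B) b (Φ 0) ℓ := by
  intro η hη
  obtain ⟨η₀, h₀, t₀⟩ := tr
  obtain ⟨s', hs'⟩ := (ℓ.comp A : E →ₗ[ℝ] B).exists_rightInverse_of_surjective (LinearMap.range_eq_top.2 su)
  let s := LinearMap.toContinuousLinearMap s'
  have hs : ∀ v, ℓ.comp A (s v) = v := fun v => LinearMap.congr_fun hs' v
  obtain ⟨δ, hδ, k1⟩ := Cd_Cn (ℓ := ℓ) (s := s) hd i (lt_min hη h₀)
  obtain ⟨η', h', k2⟩ := Cn_Cd (ℓ := ℓ) (s := s) hd hδ
  obtain ⟨ρ, hρ, k⟩ := Metric.eventually_nhds_iff_ball.1 (k1.and (k2.and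
    (cΦ.continuousAt.eventually ((cone η' h').and t₀))))
  obtain ⟨r, hr, hrρ⟩ : ∃ r, 0 < r ∧ (‖s‖ + 1) * r ≤ ρ := ⟨ρ / (‖s‖ + 1), by positivity, by
    rw [mul_div_cancel₀ _ (by positivity)]⟩
  have oB : IsOpen {a | ‖ℓ.comp A a‖ < r ∧ ‖a - s (ℓ.comp A a)‖ < r} :=
    (isOpen_lt (by fun_prop) continuous_const).and (isOpen_lt (by fun_prop) continuous_const)
  set Bx := {a | ‖ℓ.comp A a‖ < r ∧ ‖a - s (ℓ.comp A a)‖ < r} with hBx
  have kB : ∀ a ∈ Bx, _ := fun a h => k a (mem_ball_zero_iff.2 (by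
    have a1 := norm_add_le (a - s (ℓ.comp A a)) (s (ℓ.comp A a))
    rw [sub_add_cancel] at a1
    nlinarith [s.le_opNorm (ℓ.comp A a), h.1, h.2, norm_nonneg s]))
  obtain ⟨ω, hω⟩ := exists_gen B
  have zb := zb_Cd hs hδ.le hr
  have okΦ : Ok Φ Bx (Cd (ℓ.comp A) s δ) N F := .of_mem (.of_continuous cΦ _) (fun a _ => (mΦ a).1)
    fun a h k => (kB a h).2.1 1 (by simp) (by
      rw [one_smul, add_sub_cancel]
      exact (kB a h).2.2.1 (mΦ a).1 k)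
  obtain ⟨n, hn⟩ := (hω.pul zb).int _ (hz.pul Φ Bx _) (hb.pull _ _ _)
  obtain ⟨O', o', eO⟩ := (continuousOn_iff'.1 cχ) Bx oB
  have mO : ∀ x, x ∈ N ∩ (O ∩ O') → χ x ∈ Bx := fun x h =>
    (eO.symm.subset ⟨h.2.2, h.1, h.2.1⟩).1
  have m0 : Φ 0 ∈ O ∩ O' := ⟨(mΦ 0).2, (eO.subset ⟨by
    rw [mem_preimage, li]
    exact ⟨by simpa using hr, by simpa using hr⟩, mΦ 0⟩).1⟩
  have xχ : Ext χ (N ∩ (O ∩ O')) :=
    (Ext.of_continuousOn (lc.inter o.isLocallyClosed) cχ).mono fun _ h => ⟨h.1, h.2.1⟩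
  have ri' : ∀ x ∈ N ∩ (O ∩ O'), Φ (χ x) = x := fun x h => ri x ⟨h.1, h.2.1⟩
  have cn : ∀ x ∈ N ∩ (O ∩ O'), χ x ∈ Cd (ℓ.comp A) s δ → x ∈ Cn ℓ (Φ 0) (min η η₀) := fun x h k =>
    ri' x h ▸ (kB _ (mO x h)).1 k
  have sT : T ∩ (O ∩ O') ⊆ N ∩ (O ∩ O') := inter_subset_inter_left _ hT
  have okT : Ok χ (T ∩ (O ∩ O')) {Φ 0} Bx (Cd (ℓ.comp A) s δ) :=
    .of_mem (xχ.mono sT) (fun x h => mO x (sT h)) fun x h k => by
      have := (kB _ (mO x (sT h))).2.2.2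
      rw [ri' x (sT h)] at this
      exact this h.1 (Cn_mono (min_le_right _ _) (cn x (sT h) k))
  have g' := g.pul (ZB.excision_open (o.inter o') (.of_isClosed isClosed_singleton T) fun x _ k => k ▸ m0)
  rw [res_pull (W := {Φ 0}) (.id hT tF) inter_subset_left fun _ _ a => a,
    ← pull_pull' (F := id) okT okΦ fun x h => ri' x (sT h), hn, map_smul] at g'
  obtain ⟨n', hn'⟩ := g'.int _ ((hω.pul zb).isZ.pul χ _ _) ((hω.pul zb).deg.pull _ _ _)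
  have e1 : (n : ℂ) * n' = 1 := g'.smul_inj (by rw [mul_smul, one_smul, ← hn'])
  have okχ : Ok χ (N ∩ (O ∩ O')) (Cn ℓ (Φ 0) η) Bx (Cd (ℓ.comp A) s δ) :=
    .of_mem xχ mO fun x h k => Cn_mono (min_le_left _ _) (cn x h k)
  have okl : Ok (fun a => ℓ (Φ a - Φ 0)) Bx (Cd (ℓ.comp A) s δ) univ {0} :=
    .of_mem (.of_continuous (by fun_prop) _) (fun _ _ => trivial) fun a h k =>
      (kB a h).2.1 1 (by simp) (by
        rw [one_smul, add_sub_cancel, show ℓ (Φ a - Φ 0) = 0 from k, norm_zero]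
        positivity)
  refine ⟨O ∩ O', o.inter o', m0, (n : ℂ) • ω, Gen.sign hω ?_, fun x h k => okχ.mem h
    (okΦ.mem (mO x h) ((ri' x h).symm ▸ k)), ?_⟩
  · rcases Int.eq_one_or_neg_one_of_mul_eq_one (show n * n' = 1 by exact_mod_cast e1) with rfl | rfl <;> simp
  · rw [← pull_pull' (F := id) okχ okΦ ri', hn, ← pull_pull' (F := fun x => ℓ (x - Φ 0)) okχ okl
      fun x h => by rw [ri' x h], map_smul (pull _ Bx _),
      pull_htpy' (f := ℓ.comp A) (g := fun a => ℓ (Φ a - Φ 0))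
        (F := fun z => ℓ (A z.1 + z.2 • (Φ z.1 - Φ 0 - A z.1))) (.of_continuous (by fun_prop) _)
        (fun _ _ _ _ => mem_univ _) (fun a h t ht k => (kB a h).2.1 t ht (by
          rw [show ℓ (A a + t • (Φ a - Φ 0 - A a)) = 0 from k, norm_zero]
          positivity)) (fun _ _ => by simp) fun _ _ => by simp]

end Chart

end Pool.Agent.Work.MP_8c604c_gt.OT
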