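import Pool.Agent.Work.MP_8c604c_gt.OG.ZG
import Pool.Agent.Work.MP_8c604c_gt.T.Sph
import Pool.Agent.Work.MP_8c604c_gt.T.ZTh
import Pool.Agent.Work.MP_8c604c_gt.OT.Cut
import Pool.Agent.Work.MP_8c604c_gt.OG.GeoA
import Pool.Agent.Work.MP_8c604c_gt.T.Gys
import Pool.Agent.Work.MP_8c604c_gt.T.ThF

-- merged part: Pool.Agent.Work.MP_8c604c_gt.T.SphZ
section
/-!
The class `zz` of a sphere bundle of rank three and the Leray-Hirsch theorem (owner helper87).

PLAN.
* `anti_zz`: `eu_pull` for `anti`, `ell0_neg`, `eu_conj`.  `pull_zz`: `eu_pull`, `eu_congr`.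
* `fib_zz`: let `Π p = ell0 (V x) (o x) (frv a b c p)` on `S2` (`CB.comp`, `eu_pull`) and
  `s p = Π p *ᵥ rcv a`, a section with zeros in `{nP, -nP}` (`Fr.ell0_rel`, `Fr.ell0_ne`; for the
  lower half use the frame `Fr.flip`, `frv (-a) b (-c) (star p.1, -p.2) = frv a b c p`).
  `fgt_ec`; split `ec Π 1 s S2 {nP, -nP}` with `additivity₂` into `g₁ + g₂`.  On `0 < p.2`,
  `s p = p.1 • σ p`, `σ p = -(1 + p.2)⁻¹ • Π p *ᵥ (rcv b - I • rcv c) ≠ 0`, so `ec_res`, `ec_frame`
  (`K = Fin 1`, `T p = of fun i _ => σ p i`) give `IsLoc g₁` (the part `g₂` restricts to `0` there,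
  `pull_miss`), hence `g₁ = gN`.  On `p.2 < 0`, `s p = star p.1 • σ' p` with
  `σ' p = (1 - p.2)⁻¹ • Π p *ᵥ (rcv b + I • rcv c)`, and `xS_south` applies to `g₂`.
* `lh_sph`: `lh_stalk` for `Prod.fst` with `ι = Fin 2`, `c = ![1, zz]`, `k = ![0, 2]`, `Z₂ = univ`.
  Closedness: the set of `y ∈ sph V U \ O` is closed in `U ×ˢ sphere`, tube lemma (for instance
  `IsCompact.eventually_forall_of_forall_eventually` for the unit sphere, within `U`; if
  `W ∈ 𝓝[U] y` enlarge it by `Uᶜ`).  Fibres: `p ↦ (x, frv a b c p)` with inverse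
  `y ↦ frc a b c y.2`, `pull_bij_of_inv`, `S2_basis`, `fib_zz` (the factor `2` is a unit).
  Commute `cup` with the even class `zz` by `Evn.comm`; `cup_one'`.
-/

noncomputable section

set_option linter.unusedSectionVars false

namespace Pool.Agent.Work.MP_8c604c_gt.T

open Set Topology Matrix Pool.Agent.Work.MP_849ab0_ag.G

variable {X Y : Type} [TopologicalSpace X] [TopologicalSpace Y] {N : ℕ}
variable {V : X → RN N →L[ℝ] RN N} {o : X → RN N [⋀^Fin 3]→L[ℝ] ℝ} {U : Set X}

/-- the Euler class of the vertical tangent bundle -/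
def zz (V : X → RN N →L[ℝ] RN N) (o : X → RN N [⋀^Fin 3]→L[ℝ] ℝ) (U : Set X) :
    H (sph V U) univ := eu (ell V o) 1 (sph V U)

theorem ok_anti : Ok anti (sph V U) univ (sph V U) univ :=
  .of_mem (.of_continuous continuous_anti _) (fun _ h => anti_mem h) fun _ _ _ => trivial

theorem ok_sph (Z : Set X) : Ok Prod.fst (sph V U) (Prod.fst ⁻¹' Z) U Z :=
  .of_mem (.of_continuous continuous_fst _) (fun _ h => h.1) fun _ _ k => k

theorem ok_sph' : Ok Prod.fst (sph V U) univ U univ :=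
  .of_mem (.of_continuous continuous_fst _) (fun _ h => h.1) fun _ _ k => k

variable [T3Space X] [SecondCountableTopology X] [T3Space Y] [SecondCountableTopology Y]

theorem SB.isDeg_zz (h : SB V o U) : IsDeg 2 (zz V o U) := h.cb_ell.isDeg_eu

theorem SB.anti_zz (h : SB V o U) : pull anti (sph V U) univ (zz V o U) = -zz V o U := by
  have e : (fun y => ell V o (anti y)) = fun y => (ell V o y).map star :=
    funext fun y => ell0_neg _ _ _
  rw [zz, eu_pull h.cb_ell h.lc continuous_anti.continuousOn fun _ k => anti_mem k, e,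
    eu_conj h.cb_ell, pow_one, neg_one_smul]

theorem SB.ok_map {f : Y → X} {U' : Set Y} (lc : IsLocallyClosed U')
    (hf : ContinuousOn f U') (hm : MapsTo f U' U) {V' : Y → RN N →L[ℝ] RN N}
    (e : ∀ y ∈ U', V' y = V (f y)) (h : SB V o U) :
    Ok (Prod.map f id) (sph V' U') univ (sph V U) univ := by
  exact ok_top (h.comp lc hf hm e).lc
    ((hf.comp continuousOn_fst fun _ k => k.1).prodMk continuousOn_snd)
    fun y k => ⟨hm k.1, (congrArg (fun A => A y.2) (e y.1 k.1)).symm.trans k.2.1, k.2.2⟩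

theorem SB.pull_zz (h : SB V o U) {f : Y → X} {U' : Set Y} (lc : IsLocallyClosed U')
    (hf : ContinuousOn f U') (hm : MapsTo f U' U) {V' : Y → RN N →L[ℝ] RN N}
    (e : ∀ y ∈ U', V' y = V (f y)) :
    pull (Prod.map f id) (sph V' U') univ (zz V o U) = zz V' (o ∘ f) U' := by
  have k := h.ok_map lc hf hm e
  rw [zz, eu_pull h.cb_ell (h.comp lc hf hm e).lc k.ext.continuousOn k.maps]
  exact eu_congr (h.comp lc hf hm e).cb_ell fun y hy =>
    congrArg (fun A => ell0 A (o (f y.1)) y.2) (e y.1 hy.1).symm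

theorem ok_frv {x : X} (hx : x ∈ U) {a b c : RN N} (hf : Fr (V x) (o x) a b c) :
    Ok (fun p => (x, frv a b c p)) S2 univ (sph V U) univ := by
  refine .of_mem (.of_continuous ?_ _) (fun p hp => ⟨hx, hf.frv_fix p, ?_⟩) fun _ _ _ => trivial
  · unfold frv
    fun_prop
  · exact (pow_eq_one_iff_of_nonneg (norm_nonneg _) two_ne_zero).1 ((hf.norm_frv p).trans hp)

/-- the relative Euler class of a line bundle with a frame -/
theorem sphz_loc {P : X → Matrix (Fin N) (Fin N) ℂ} {Z : Set X} (h : CB P 1 U) {v w : Fin N → ℂ}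
    {z r : X → ℂ} (hz : Continuous z) (hr : Continuous r) (r0 : ∀ p ∈ U, r p ≠ 0)
    (e : ∀ p ∈ U, r p • (P p *ᵥ v) = z p • (P p *ᵥ w)) (ne : ∀ p ∈ U, P p *ᵥ w ≠ 0)
    (z0 : ∀ p ∈ U, z p = 0 → p ∈ Z) :
    ec P 1 (fun p => P p *ᵥ v) U Z = pull (fun p (_ : Fin 1) => z p) U Z (orient (Fin 1)) := by
  have k : ∀ (c : Fin N → ℂ) (u : Fin 1 → ℂ), (of fun i (_ : Fin 1) => c i) *ᵥ u = u 0 • c :=
    fun c u => funext fun i => by simp [mulVec, dotProduct, mul_comm]
  have c : ContinuousOn (fun p => (r p)⁻¹ • (P p *ᵥ w)) U :=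
    (hr.continuousOn.inv₀ r0).smul
      ((continuous_id.matrix_mulVec continuous_const).comp_continuousOn h.cont)
  rw [← ec_frame h (Fintype.card_fin 1) (T := fun p => of fun i _ => ((r p)⁻¹ • (P p *ᵥ w)) i)
    (continuousOn_pi.2 fun i => continuousOn_pi.2 fun _ => continuousOn_pi.1 c i)
    (fun p hp => ?_) (fun p hp u hu => ?_) (continuousOn_pi.2 fun _ => hz.continuousOn)
    fun p hp k => z0 p hp (congrFun k 0), ec, ec, pull_congr fun p hp => ?_]
  · rw [k, smul_comm, ← e p hp, inv_smul_smul₀ (r0 p hp)]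
  · have : P p *ᵥ ((r p)⁻¹ • (P p *ᵥ w)) = (r p)⁻¹ • (P p *ᵥ w) := by
      rw [mulVec_smul, mulVec_mulVec, h.idem p hp]
    exact Matrix.ext fun i _ => congrFun this i
  · rw [k, smul_eq_zero, or_iff_left (smul_ne_zero (inv_ne_zero (r0 p hp)) (ne p hp))] at hu
    exact funext fun j => by rw [Subsingleton.elim j 0, hu, Pi.zero_apply]

theorem sphz_pole {p : ℂ × ℝ} (hp : p ∈ S2) (h : p.1 = 0) : p = nP ∨ p = -nP := by
  have k := s2_mem.1 hp
  rw [h, norm_zero, zero_pow two_ne_zero, zero_add, sq_eq_one_iff] at k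
  exact k.imp (Prod.ext h) (Prod.ext (h.trans neg_zero.symm))

/-- a line bundle on the sphere with a section that has two simple zeros -/
theorem sphz_two {P : ℂ × ℝ → Matrix (Fin N) (Fin N) ℂ} (cb : CB P 1 S2) {v w w' : Fin N → ℂ}
    (r1 : ∀ p ∈ S2, ((1 + p.2 : ℝ) : ℂ) • (P p *ᵥ v) = p.1 • (P p *ᵥ w))
    (n1 : ∀ p ∈ S2, p.2 ≠ -1 → P p *ᵥ w ≠ 0)
    (r2 : ∀ p ∈ S2, ((1 + -p.2 : ℝ) : ℂ) • (P p *ᵥ v) = star p.1 • (P p *ᵥ w'))
    (n2 : ∀ p ∈ S2, p.2 ≠ 1 → P p *ᵥ w' ≠ 0) : eu P 1 S2 = (2 : ℂ) • xS := by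
  have hs : Sec P (fun p => P p *ᵥ v) S2 {nP, -nP} := by
    refine ⟨(continuous_id.matrix_mulVec continuous_const).comp_continuousOn cb.cont,
      fun p hp => by rw [mulVec_mulVec, cb.idem p hp], fun p hp e => sphz_pole hp ?_⟩
    by_cases k : p.2 = -1
    · have := s2_mem.1 hp
      rw [k] at this
      exact norm_eq_zero.1 (by nlinarith)
    · have := r1 p hp
      rw [e, smul_zero] at this
      exact (smul_eq_zero.1 this.symm).resolve_right (n1 p hp k)
  obtain ⟨⟨g₁, g₂⟩, e⟩ := (additivity₂ (U := S2) (Z₁ := {nP}) (Z₂ := {-nP}) (Z := {nP, -nP})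
    (.of_isClosed isClosed_singleton _) (.of_isClosed isClosed_singleton _)
    (fun p _ k k' => by
      have := congrArg Prod.snd (k.symm.trans k')
      norm_num [nP] at this) fun _ _ => Iff.rfl).2 (ec P 1 (fun p => P p *ᵥ v) S2 {nP, -nP})
  have o1 : Ok id S2 {nP, -nP} S2 {nP} := .id subset_rfl fun _ _ => Or.inl
  have o2 : Ok id S2 {nP, -nP} S2 {-nP} := .id subset_rfl fun _ _ => Or.inr
  have l1 := cb.lc.inter (isOpen_lt continuous_const continuous_snd :
    IsOpen {p : ℂ × ℝ | 0 < p.2}).isLocallyClosed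
  have l2 := cb.lc.inter (isOpen_lt continuous_snd continuous_const :
    IsOpen {p : ℂ × ℝ | p.2 < 0}).isLocallyClosed
  have m1 : ∀ p ∈ S2 ∩ {p : ℂ × ℝ | 0 < p.2}, p ∉ ({-nP} : Set (ℂ × ℝ)) := fun p hp k => by
    have := hp.2
    rw [mem_singleton_iff.1 k] at this
    norm_num [nP] at this
  have m2 : ∀ p ∈ S2 ∩ {p : ℂ × ℝ | p.2 < 0}, p ∉ ({nP} : Set (ℂ × ℝ)) := fun p hp k => by
    have := hp.2
    rw [mem_singleton_iff.1 k] at this
    norm_num [nP] at this
  have z1 : ∀ p ∈ S2 ∩ {p : ℂ × ℝ | 0 < p.2}, p ∈ ({nP, -nP} : Set (ℂ × ℝ)) →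
      p ∈ ({nP} : Set (ℂ × ℝ)) := fun p hp k => k.resolve_right (m1 p hp)
  have z2 : ∀ p ∈ S2 ∩ {p : ℂ × ℝ | p.2 < 0}, p ∈ ({nP, -nP} : Set (ℂ × ℝ)) →
      p ∈ ({-nP} : Set (ℂ × ℝ)) := fun p hp k => k.resolve_left (m2 p hp)
  have e1 := congrArg (pull id (S2 ∩ {p | 0 < p.2}) {nP}) e
  have e2 := congrArg (pull id (S2 ∩ {p | p.2 < 0}) {-nP}) e
  rw [map_add, res_pull o1 inter_subset_left z1, res_pull o2 inter_subset_left z1,
    pull_miss (.of_continuous continuous_id _) (fun _ k => k.1) m1, add_zero,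
    ec_res cb l1 inter_subset_left hs z1, sphz_loc (cb.mono l1 inter_subset_left) continuous_fst
      (by fun_prop) (fun p hp => ?_) (fun p hp => r1 p hp.1) (fun p hp => n1 p hp.1 ?_)
      fun p hp k => z1 p hp (sphz_pole hp.1 k)] at e1
  rw [map_add, res_pull o1 inter_subset_left z2, res_pull o2 inter_subset_left z2,
    pull_miss (.of_continuous continuous_id _) (fun _ k => k.1) m2, zero_add,
    ec_res cb l2 inter_subset_left hs z2, sphz_loc (cb.mono l2 inter_subset_left)
      continuous_fst.star (by fun_prop) (fun p hp => ?_) (fun p hp => r2 p hp.1)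
      (fun p hp => n2 p hp.1 ?_) fun p hp k => z2 p hp (sphz_pole hp.1 (star_eq_zero.1 k))] at e2
  · rw [← fgt_ec cb hs, ← e, map_add, res_pull o1 subset_rfl fun _ _ _ => mem_univ _,
      res_pull o2 subset_rfl fun _ _ _ => mem_univ _, xS_south e2, IsLoc.eq e1, two_smul]
    rfl
  all_goals have k := hp.2
  all_goals simp only [mem_ofPred_eq] at k
  · exact Complex.ofReal_ne_zero.2 (by linarith)
  · linarith
  · exact Complex.ofReal_ne_zero.2 (by linarith)
  · linarith

theorem SB.fib_zz (h : SB V o U) {x : X} (hx : x ∈ U) {a b c : RN N} (hf : Fr (V x) (o x) a b c) :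
    pull (fun p => (x, frv a b c p)) S2 univ (zz V o U) = (2 : ℂ) • xS := by
  have ok := ok_frv hx hf
  have lc : IsLocallyClosed S2 := s2_closed.isLocallyClosed
  have cb := h.cb_ell.comp lc ok.ext.continuousOn ok.maps
  rw [zz, eu_pull h.cb_ell lc ok.ext.continuousOn ok.maps]
  have fl : ∀ p : ℂ × ℝ, frv (-a) b (-c) (star p.1, -p.2) = frv a b c p := fun p => by simp [frv]
  have fm : ∀ p ∈ S2, ((star p.1, -p.2) : ℂ × ℝ) ∈ S2 := fun p hp => by
    simpa [s2_mem] using hp
  have ea : rcv (-a) = -rcv a := funext fun i => by simp [rcv]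
  refine sphz_two cb (v := rcv a) (w := -(rcv b - Complex.I • rcv c))
    (w' := rcv b - Complex.I • rcv (-c)) (fun p hp => ?_) (fun p hp k => ?_) (fun p hp => ?_)
    fun p hp k => ?_
  · rw [mulVec_neg, smul_neg, ← neg_smul]
    exact hf.ell0_rel hp
  · rw [mulVec_neg]
    exact neg_ne_zero.2 (hf.ell0_ne hp k)
  · have r := hf.flip.ell0_rel (fm p hp)
    rw [fl, ea, mulVec_neg, smul_neg, neg_smul] at r
    exact neg_injective r
  · exact fl p ▸ hf.flip.ell0_ne (fm p hp) fun e => k (neg_injective e)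

/-- Leray-Hirsch -/
theorem SB.lh_sph (h : SB V o U) (Z : Set X) : Function.Bijective fun a : H U Z × H U Z =>
    pull Prod.fst (sph V U) (Prod.fst ⁻¹' Z) a.1 + cup (sph V U) (Prod.fst ⁻¹' Z) (zz V o U)
      (pull Prod.fst (sph V U) (Prod.fst ⁻¹' Z) a.2) := by
  have b := lh_stalk (f := Prod.fst) (U := sph V U) (U' := U) (Z' := Z) (Z₁ := Prod.fst ⁻¹' Z)
    (Z := Prod.fst ⁻¹' Z) (.of_continuous continuous_fst _) (fun _ k => k.1) (fun _ _ => Iff.rfl)
    (fun _ _ => Iff.rfl) (fun y hy O hO k => ?_) (c := ![1, zz V o U]) (k := ![0, 2])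
    (Fin.forall_fin_two.2 ⟨isDeg_oneH, h.isDeg_zz⟩) fun y hy => ?_
  · convert b.comp (finTwoArrowEquiv _).symm.bijective using 1
    funext a
    simp only [Function.comp_apply, Fin.sum_univ_two, finTwoArrowEquiv_symm_apply, cons_val_zero,
      cons_val_one]
    rw [oneH, cup_one' (subset_univ _), (IsDeg.evn h.isDeg_zz ⟨1, rfl⟩).comm (cupU _ _)]
  · obtain ⟨u, hu, e⟩ := sph_closed h
    obtain ⟨u', v, h1, -, h2, h3, h4⟩ := generalized_tube_lemma (isCompact_singleton (x := y))
      (isCompact_sphere (0 : RN N) 1) (hO.union hu.isOpen_compl) fun z hz =>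
        or_iff_not_imp_right.2 fun r => k ⟨e ▸ ⟨not_not.1 r,
          (mem_singleton_iff.1 hz.1).symm ▸ hy, hz.2⟩, hz.1⟩
    refine ⟨u', h1.mem_nhds (h2 rfl), fun z hz => ?_⟩
    have hz1 := hz.1
    rw [e] at hz1
    exact (h4 ⟨hz.2, h3 hz1.2.2⟩).resolve_right (not_not.2 hz1.1)
  · obtain ⟨a, b, c, hf⟩ := h.exists_fr' hy
    have ok := ok_frv hy hf
    have fx : ∀ z ∈ sph V U ∩ Prod.fst ⁻¹' {y}, frv a b c (frc a b c z.2) = z.2 := fun z hz =>
      hf.frv_frc ((mem_singleton_iff.1 hz.2) ▸ hz.1.2.1)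
    have o1 : Ok (fun z : X × RN N => frc a b c z.2) (sph V U ∩ Prod.fst ⁻¹' {y}) univ S2 univ := by
      refine .of_mem (.of_continuous ?_ _) (fun z hz => ?_) fun _ _ _ => trivial
      · simp only [frc, Complex.mk_eq_add_mul_I]
        fun_prop
      · rw [s2_mem, ← hf.norm_frv, fx z hz, hz.1.2.2, one_pow]
    have o2 : Ok (fun p => (y, frv a b c p)) S2 univ (sph V U ∩ Prod.fst ⁻¹' {y}) univ :=
      .of_mem ok.ext (fun p hp => ⟨ok.maps hp, rfl⟩) fun _ _ _ => trivial
    have b2 := pull_bij_of_inv o2 o1 (fun p _ => hf.frc_frv p)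
      fun z hz => Prod.ext (mem_singleton_iff.1 hz.2).symm (fx z hz)
    have b3 : Function.Bijective fun t : Fin 2 → ℂ => ![t 0, t 1 * 2] :=
      Function.bijective_iff_has_inverse.2 ⟨fun t => ![t 0, t 1 / 2],
        fun t => funext (Fin.forall_fin_two.2 (by simp)),
        fun t => funext (Fin.forall_fin_two.2 (by simp))⟩
    rw [← Function.Bijective.of_comp_iff' b2]
    convert S2_basis.comp b3 using 1
    funext t
    simp only [Function.comp_apply, Fin.sum_univ_two, cons_val_zero, cons_val_one, map_add, map_smul,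
      pull_res o2 inter_subset_left fun _ _ k => k]
    rw [pull_oneH ok, h.fib_zz hy hf, smul_smul]

theorem SB.lh_sph' (h : SB V o U) : Function.Bijective fun a : H U univ × H U univ =>
    pull Prod.fst (sph V U) univ a.1 + zz V o U * pull Prod.fst (sph V U) univ a.2 :=
  h.lh_sph univ

/-- homogeneous classes -/
theorem SB.lh_deg (h : SB V o U) {p : ℤ} {x : H (sph V U) univ} (hx : IsDeg p x) :
    ∃ a b : H U univ, IsDeg p a ∧ IsDeg (p - 2) b ∧
      x = pull Prod.fst (sph V U) univ a + zz V o U * pull Prod.fst (sph V U) univ b := by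
  obtain ⟨⟨a, b⟩, rfl⟩ := h.lh_sph'.2 x
  refine ⟨_, _, isDeg_prj p a, isDeg_prj (p - 2) b, (isDeg_iff.1 hx).symm.trans ?_⟩
  rw [map_add, pull_prj, pull_prj, mulH, mulH,
    cup_prj_right (t := {p}) (fun q => by simp [eq_sub_iff_add_eq]) h.isDeg_zz]

end Pool.Agent.Work.MP_8c604c_gt.T
end
end

-- merged part: Pool.Agent.Work.MP_8c604c_gt.T.ZM
section
/-!
Integral cohomology in low degrees of `MH n`, of the space of geodesics and of sphere bundles.
-/

noncomputable section

set_option linter.unusedSectionVars false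

namespace Pool.Agent.Work.MP_8c604c_gt.T

open Set Topology Matrix Pool.Agent.Work.MP_849ab0_ag.G

variable {n k : ℕ} {q : ℤ}

section Lin

variable {A : Type} [NormedAddCommGroup A] [NormedSpace ℝ A] [FiniteDimensional ℝ A]

theorem van_univ (hq : q ≠ 0) : Van q (univ : Set A) univ :=
  have := FiniteDimensional.proper_real A
  van_contr (F := fun z => z.2 • z.1) (x₀ := 0) (.of_continuous (by fun_prop) _)
    (fun _ _ _ _ => trivial) trivial (by simp) (by simp) hq

theorem van_punct (hq : q ≠ 0) (h : q + 1 ≠ Module.finrank ℝ A) : Van q ({0}ᶜ : Set A) univ :=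
  (van_univ hq).res (compl_eq_univ_sdiff _).symm (by simp) (van_loc h)

end Lin

theorem zb_MH : ZB Prod.snd (sp cm (MH n)) univ ({0}ᶜ : Set (Fin (n + 1) × Fin 2 → ℂ)) univ :=
  .of_inv (s := fun v => (pr (vc v), v))
    (.of_mem (.of_continuous continuous_snd _) (fun _ hz => (mem_sp.1 hz).2.2) fun _ _ _ => trivial)
    (ok_top isOpen_compl_singleton.isLocallyClosed
      ((continuousOn_pr.comp continuous_vc.continuousOn fun _ hv => hpn_vc_ne hv).prodMk
        continuousOn_id) fun v hv => mem_sp.2 ⟨pr_mem (hpn_vc_ne hv), by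
          have := hpn_fix (hpn_vc_ne hv) 1
          rwa [one_smul, cv_vc] at this, hv⟩)
    (fun z hz => by
      obtain ⟨h1, h2, h3⟩ := mem_sp.1 hz
      rw [hpn_pr_vc h1 h3 h2]) fun _ _ => rfl

theorem van_spM (h : 0 < q) (h' : q < 4 * n + 3) : Van q (sp cm (MH n)) univ :=
  (van_punct h.ne' (by
    rw [Module.finrank_pi_fintype]
    simp only [Complex.finrank_real_complex, Finset.sum_const, Finset.card_univ, Fintype.card_prod,
      Fintype.card_fin, smul_eq_mul]
    omega)).pul zb_MH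

theorem van_MH (hn : 1 ≤ n) (h : 0 < q) (h' : q < 4) : Van q (MH n) univ :=
  ql_MH.toCB.thZ.van_base (van_spM h (by omega)) (van_neg (by omega))

theorem tf_MH (hn : 1 ≤ n) : Tf 4 (MH n) univ :=
  ql_MH.toCB.thZ.tf_base tf_zero (van_spM (by omega) (by omega)) (van_spM (by omega) (by omega))

theorem TD0.van_S (D : TD0 n k) (hn : 2 ≤ n) (h : 0 < q) (h' : q < 4) : Van q D.S univ := by
  obtain ⟨o, ho⟩ := exists_ori_tanP (n := n)
  exact ((rb_tanP.thZ ho (by omega)).van_sp (van_MH (by omega) h h') (van_neg (by omega))).pul D.zb_S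

theorem TD0.tf_S (D : TD0 n k) (hn : 2 ≤ n) : Tf 4 D.S univ := by
  obtain ⟨o, ho⟩ := exists_ori_tanP (n := n)
  exact ((rb_tanP.thZ ho (by omega)).tf_sp (tf_MH (by omega)) (van_neg (by omega))
    (van_neg (by omega))).pul D.zb_S

variable {X : Type} [TopologicalSpace X] [T3Space X] [SecondCountableTopology X] {N : ℕ}
  {V : X → RN N →L[ℝ] RN N} {o : X → RN N [⋀^Fin 3]→L[ℝ] ℝ} {U : Set X}

theorem SB.thZ (h : SB V o U) : ThZ Prod.fst (totR V U) (zs X (RN N)) U 3 (thR V 3 U o) :=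
  h.rb.thZ h.ori (by norm_num)

theorem SB.van (h : SB V o U) (v : Van q U univ) (v' : Van (q - 2) U univ) :
    Van q (sph V U) univ := (h.thZ.van_sp v (by convert v' using 1; ring)).pul (zb_sph h.rb)

theorem SB.tf_two (h : SB V o U) (v : Van 2 U univ) : Tf 2 (sph V U) univ :=
  (h.thZ.tf_sp' tf_zero v).pul (zb_sph h.rb)

theorem SB.tf_four (h : SB V o U) (v : Tf 4 U univ) (v1 : Van 1 U univ) (v2 : Van 2 U univ) :
    Tf 4 (sph V U) univ := (h.thZ.tf_sp v v2 v1).pul (zb_sph h.rb)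

theorem SB.deg_zero (h : SB V o U) (hU : IsConnected U) {b : H (sph V U) univ} (hb : IsZ b)
    (hd : IsDeg 0 b) : ∃ m : ℤ, b = (m : ℂ) • 1 := by
  have z := zb_sph h.rb
  obtain ⟨c, hc, rfl⟩ := z.lift hb
  obtain ⟨a, a1, a2, rfl⟩ := h.thZ.desc (van_neg (by norm_num)) hc (z.isDeg hd)
  obtain ⟨m, rfl⟩ := (gen_one hU).int a a1 a2
  exact ⟨m, by rw [map_smul, map_smul, pull_oneH (.of_mem (.of_continuous continuous_fst _)
    (fun _ k => k.1.1) fun _ _ _ => trivial), pull_oneH z.ok]⟩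

/-- the vertical class is twice a generator -/
theorem SB.exists_half (h : SB V o U) (hU : IsConnected U) (v2 : Van 2 U univ)
    (v3 : Van 3 U univ) : ∃ ζ : H (sph V U) univ, Gen 2 ζ ∧ zz V o U = (2 : ℂ) • ζ := by
  have t := h.thZ
  have z := zb_sph h.rb
  obtain ⟨ζ, z1, z2, z3⟩ := Van.exists_dlt (d := 2) rfl GysD.aux (v3.pul t.base) t.isZ t.deg
  have g := (Gen.of_dlt rfl GysD.aux (z3 ▸ t.gen hU) z1 z2 (v2.pul t.base)).pul z
  obtain ⟨m, hm⟩ := g.int _ h.cb_ell.isZ_eu h.isDeg_zz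
  obtain ⟨x, hx⟩ := hU.1
  obtain ⟨a, b, c, hf⟩ := h.exists_fr' hx
  let T := Fintype.linearCombination ℝ ![a, b, c]
  have eT : ∀ v, T v = frv a b c (⟨v 1, v 2⟩, v 0) := fun v => by
    simp [T, Fintype.linearCombination_apply, Fin.sum_univ_three, frv]
  have hT : Function.Injective T :=
    linearIndependent_iff_injective_fintypeLinearCombination.1 hf.on.linearIndependent
  have mT : ∀ v, V x (T v) = T v := fun v => by rw [eT]; exact hf.frv_fix _
  have o1 := ok_fibR hx hT mT
  have o2 : Ok (fun v => (x, T v)) {0}ᶜ univ (totR V U \ zs X (RN N)) univ :=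
    .of_mem (o1.ext.mono (subset_univ _)) (fun v k => o1.supp ⟨trivial, k⟩) fun _ _ _ => trivial
  have e1 := (thR_spec h.rb h.ori).2 x hx T hT mT
  have e2 : (fun i => T (Pi.single i 1)) = ![a, b, c] :=
    funext fun i => Fintype.linearCombination_apply_single ℝ _ i 1 |>.trans (one_smul _ _)
  rw [e2, sign_pos hf.pos, SignType.coe_one, one_smul, ← z3, pull_dlt o1.ext subset_rfl
    (subset_univ _) o1 o2 (compl_eq_univ_sdiff _).ge subset_rfl] at e1
  have g1 := (Gen.of_dlt (d := 2) (compl_eq_univ_sdiff _).symm (by simp) (e1 ▸ gen_orR 3)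
    (z1.pul _ _ _) (z2.pull _ _ _) (van_univ two_ne_zero)).pul zb_S2
  rw [pull_pull' (F := fun p => (x, frv a b c p)) zb_S2.ok o2 fun p _ => by rw [eT]; rfl] at g1
  have e3 := h.fib_zz hx hf
  rw [zz, hm, map_smul, pull_pull' (F := fun p => (x, frv a b c p)) (ok_frv hx hf) z.ok
    fun _ _ => rfl] at e3
  rcases gen_xS.eq_or g1 with k | k
  · rw [k] at e3
    exact ⟨_, g, by rw [zz, hm, gen_xS.smul_inj e3]⟩
  · rw [k, smul_neg, ← neg_smul] at e3
    exact ⟨_, g.neg, by rw [zz, hm, ← gen_xS.smul_inj e3, neg_smul_neg]⟩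

end Pool.Agent.Work.MP_8c604c_gt.T
end
end

-- merged part: Pool.Agent.Work.MP_8c604c_gt.OT.Tor
section
/-!
Spheres, the circle and tori (owner helper12).
-/

noncomputable section

set_option linter.unusedSectionVars false

namespace Pool.Agent.Work.MP_8c604c_gt.OT

open Set Real Topology Filter Pool.Agent.Work.MP_849ab0_ag.G T

variable {X : Type} [TopologicalSpace X] {U Z : Set X} {m : ℕ} {p : ℤ}

/-- the time of a point of the circle -/
def ang (θ : Circle) : ℝ := (exists_cs θ).choose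

theorem ang_mem (θ : Circle) : ang θ ∈ Ico 0 π := (exists_cs θ).choose_spec.1

theorem cs_ang (θ : Circle) : cs (ang θ) = θ := (exists_cs θ).choose_spec.2.symm

theorem cs_eq {s t : ℝ} (h : cs s = cs t) : ∃ k : ℤ, s = t + k * π := by
  obtain ⟨k, e⟩ := Circle.exp_eq_exp.1 h
  exact ⟨k, by linarith⟩

theorem cs_inj {s t : ℝ} (h : cs s = cs t) (k : |s - t| < π) : s = t := by
  obtain ⟨j, rfl⟩ := cs_eq h
  rw [add_sub_cancel_left, abs_mul, abs_of_pos pi_pos, mul_lt_iff_lt_one_left pi_pos,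
    ← Int.cast_abs, ← Int.cast_one, Int.cast_lt, Int.abs_lt_one_iff] at k
  simp [k]

theorem ang_cs {t : ℝ} (h : t ∈ Ico 0 π) : ang (cs t) = t :=
  cs_inj (cs_ang _) (abs_lt.2 ⟨by linarith [(ang_mem (cs t)).1, h.2], by
    linarith [(ang_mem (cs t)).2, h.1]⟩)

theorem ang_one : ang 1 = 0 := by rw [← cs_zero, ang_cs ⟨le_rfl, pi_pos⟩]

theorem ang_inj {a b : Circle} (h : ang a = ang b) : a = b := by rw [← cs_ang a, h, cs_ang]

theorem ang_pos {a : Circle} (h : a ≠ 1) : 0 < ang a :=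
  (ang_mem a).1.lt_of_ne fun e => h (ang_inj (by rw [← e, ang_one]))

theorem cs_sub_pi (t : ℝ) : cs (t - π) = cs t := by
  conv_rhs => rw [← sub_add_cancel t π, cs_add, cs_pi, mul_one]

theorem ang_mul (a b : Circle) : ang (a * b) = ang a + ang b ∨ ang (a * b) = ang a + ang b - π := by
  have e : a * b = cs (ang a + ang b) := by rw [cs_add, cs_ang, cs_ang]
  have h1 := ang_mem a
  have h2 := ang_mem b
  by_cases h : ang a + ang b < π
  · exact .inl (by rw [e, ang_cs ⟨by linarith [h1.1, h2.1], h⟩])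
  · exact .inr (by rw [e, ← cs_sub_pi, ang_cs ⟨by linarith, by linarith [h1.2, h2.2]⟩])

theorem continuousAt_ang {a : Circle} (h : a ≠ 1) : ContinuousAt ang a := by
  have k : ∀ s t : ℝ, 0 ≤ s → t ≤ π → s < ang a → ang a < t → ∀ᶠ b in 𝓝 a, s < ang b ∧ ang b < t := by
    intro s t hs ht h1 h2
    have o : IsOpenMap cs := Circle.isCoveringMap_exp.isOpenMap.comp
      (Homeomorph.mulLeft₀ (2 : ℝ) two_ne_zero).isOpenMap
    filter_upwards [(o _ isOpen_Ioo).mem_nhds ⟨ang a, (⟨h1, h2⟩ : _ ∈ Ioo s t), cs_ang a⟩]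
    rintro _ ⟨r, hr, rfl⟩
    rwa [ang_cs ⟨hs.trans hr.1.le, hr.2.trans_le ht⟩]
  refine tendsto_order.2 ⟨fun s hs => ?_, fun t ht => ?_⟩
  · exact (k (max s 0) π (le_max_right _ _) le_rfl (max_lt hs (ang_pos h)) (ang_mem a).2).mono
      fun _ e => (le_max_left _ _).trans_lt e.1
  · exact (k 0 (min t π) le_rfl (min_le_right _ _) (ang_pos h) (lt_min ht (ang_mem a).2)).mono
      fun _ e => e.2.trans_le (min_le_left _ _)

section Frontier

variable {x : X} {A B : Set X}

theorem nf_lt {u v : X → ℝ} (hu : ContinuousAt u x) (hv : ContinuousAt v x) (h : u x ≠ v x) :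
    x ∉ frontier {y | u y < v y} := by
  rcases h.lt_or_gt with k | k
  · exact nf_of_ev (P := True) ((hu.eventually_lt hv k).mono fun _ e => iff_of_true e trivial)
  · exact nf_of_ev (P := False) ((hv.eventually_lt hu k).mono fun _ e => iff_of_false e.not_gt id)

theorem nf_ang {f g : X → Circle} (hf : Continuous f) (hg : Continuous g) (h1 : f x ≠ 1)
    (h2 : g x ≠ 1) (h : f x ≠ g x) : x ∉ frontier {y | ang (f y) < ang (g y)} :=
  nf_lt ((continuousAt_ang h1).comp hf.continuousAt) ((continuousAt_ang h2).comp hg.continuousAt)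
    fun e => h (ang_inj e)

theorem nf_inter (h : x ∉ frontier A) (k : x ∉ frontier B) : x ∉ frontier (A ∩ B) := fun e =>
  (frontier_inter_subset A B e).elim (fun a => h a.1) fun a => k a.2

theorem nf_compl (h : x ∉ frontier A) : x ∉ frontier Aᶜ := by rwa [frontier_compl]

end Frontier

theorem coe_phs {t : ℂ} (h : t ≠ 0) : (phs t : ℂ) = (‖t‖ : ℂ)⁻¹ * t := by
  rw [eq_inv_mul_iff_mul_eq₀ (by simpa using h), norm_mul_phs]

theorem contOn_phs : ContinuousOn phs {0}ᶜ :=
  IsInducing.subtypeVal.continuousOn_iff.2 (ContinuousOn.congr (f := fun t : ℂ => (‖t‖ : ℂ)⁻¹ * t)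
    (((Complex.continuous_ofReal.comp continuous_norm).continuousOn.inv₀
      fun t h => by simpa using h).mul continuousOn_id) fun _ h => coe_phs h)

theorem phs_coe (θ : Circle) : phs θ = θ := by simpa using phs_mul one_pos θ

theorem mem_Sp {ζ : CM m} : ζ ∈ Sp m ↔ ‖ζ‖ = 1 := mem_sphere_zero_iff_norm

theorem isCompact_Sp : IsCompact (Sp m) := isCompact_sphere _ _

theorem Sp_ne {ζ : CM m} (h : ζ ∈ Sp m) : ζ ≠ 0 := fun e => by simp [mem_Sp, e] at h

theorem Sp_smul (θ : Circle) {ζ : CM m} : (θ : ℂ) • ζ ∈ Sp m ↔ ζ ∈ Sp m := by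
  simp [mem_Sp, norm_smul]

theorem one_mem_Sp : (1 : CM m) ∈ Sp m := mem_Sp.2 norm_one

theorem zb_Sp : ZB id (Sp m) univ ({0}ᶜ : Set (CM m)) univ := by
  have pos : ∀ x : CM m, x ≠ 0 → ∀ t ∈ Icc (0 : ℝ) 1, 0 < 1 - t + t * ‖x‖⁻¹ := fun x hx t ht => by
    have := inv_pos.2 (norm_pos_iff.2 hx)
    rcases ht.2.lt_or_eq with h | rfl
    · nlinarith [mul_nonneg ht.1 this.le]
    · simpa using this
  refine ZB.retract (F := fun z => (1 - z.2 + z.2 * ‖z.1‖⁻¹) • z.1) (fun _ => Sp_ne)
    (fun _ _ => Iff.rfl) (.of_continuousAt fun z hz => ?_) (fun x hx t ht => ?_) (fun x hx t _ => ?_)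
    (fun _ _ _ _ _ => trivial) (by simp) fun x hx => ?_
  · have : ‖z.1‖ ≠ 0 := norm_ne_zero_iff.2 hz.1
    fun_prop (disch := assumption)
  · exact smul_ne_zero (pos x hx t ht).ne' hx
  · simpa [mem_Sp.1 hx] using hx
  · simp [mem_Sp, norm_smul, inv_mul_cancel₀ (norm_ne_zero_iff.2 hx)]

/-- the fundamental class of the punctured space -/
def sg (m : ℕ) : H ({0}ᶜ : Set (CM m)) univ := (exists_sig (Fin (m + 1))).choose

theorem isDeg_sg : IsDeg (2 * m + 1) (sg m) := by
  have : IsDeg _ (sg m) := (exists_sig (Fin (m + 1))).choose_spec.1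
  rwa [show (2 * Fintype.card (Fin (m + 1)) - 1 : ℤ) = 2 * m + 1 by simp; ring] at this

theorem dlt_sg : dlt univ {0} (sg m) = orient (Fin (m + 1)) :=
  (exists_sig (Fin (m + 1))).choose_spec.2.1

theorem gen_sg : Gen (2 * m + 1) (sg m) := by
  have h1 : (univ : Set (CM m)) \ {0} = {0}ᶜ := (compl_eq_univ_sdiff _).symm
  have g : Gen (2 * m + 1 + 1) (orient (Fin (m + 1))) := by
    convert gen_orient (Fin (m + 1)) using 1
    simp; ring
  obtain ⟨ζ, k1, k2, k3⟩ := Van.exists_dlt (Z := univ) (Z₂ := univ) h1 (Gys_h2 _ _)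
    (van_univ (by omega)) g.isZ g.deg
  have e : sg m = ζ := sub_eq_zero.1 (dlt_inj' (Z := univ) h1 (Gys_h2 _ _) (van_univ (by omega))
    (isDeg_sg.sub k2) (by rw [map_sub, k3, dlt_sg, sub_self]))
  exact Gen.of_dlt (Z := univ) h1 (Gys_h2 _ _) (dlt_sg ▸ g) (e ▸ k1) isDeg_sg (van_univ (by omega))

theorem top_of {C : Set X} (hC : IsCompact C) {f : X → CM m} (h : ZB f C univ {0}ᶜ univ) :
    Top C (2 * m + 1) (pull f C univ (sg m)) ∧
      ∀ c : H C univ, ∃ s t : ℂ, c = s • 1 + t • pull f C univ (sg m) := by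
  have b := h.bij.comp (exists_sig (Fin (m + 1))).choose_spec.2.2
  have e : ∀ c : ℂ × ℂ, pull f C univ (c.1 • 1 + c.2 • sg m) = c.1 • 1 + c.2 • pull f C univ (sg m) :=
    fun c => by rw [map_add, map_smul, map_smul, pull_oneH h.ok]
  refine ⟨⟨hC, Fin 2, inferInstance, ![1, pull f C univ (sg m)], ![0, 2 * m + 1], 1, ?_, ?_, rfl, rfl,
    ?_⟩, fun c => ?_⟩
  · exact Fin.forall_fin_two.2 ⟨isDeg_oneH, isDeg_sg.pull _ _ _⟩
  · convert b.comp (finTwoArrowEquiv ℂ).bijective using 1
    funext a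
    rw [Fin.sum_univ_two]
    exact (e (a 0, a 1)).symm
  · exact Fin.forall_fin_two.2 ⟨fun _ => by simp, fun h => (h rfl).elim⟩
  · obtain ⟨a, rfl⟩ := b.2 c
    exact ⟨_, _, e a⟩

theorem top_Sp : Top (Sp m) (2 * m + 1) (pull id (Sp m) univ (sg m)) := (top_of isCompact_Sp zb_Sp).1

/-- the circle in the complex line -/
def c1 (θ : Circle) : CM 0 := fun _ => θ

theorem continuous_c1 : Continuous c1 := continuous_pi fun _ => continuous_subtype_val

theorem c1_ne (θ : Circle) : c1 θ ≠ 0 := fun e => θ.coe_ne_zero (congrFun e 0)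

theorem zb_c1 : ZB c1 univ univ ({0}ᶜ : Set (CM 0)) univ := by
  have n : ∀ v : CM 0, ‖v‖ = ‖v 0‖ := fun v => by
    rw [show v = fun _ => v 0 from funext fun i => by rw [Fin.fin_one_eq_zero i], pi_norm_const]
  refine ZB.comp (ZB.of_inv (s := fun v => phs (v 0)) (U' := Sp 0) (Z' := univ)
    (.of_mem (.of_continuous continuous_c1 _) (fun θ _ => ?_) fun _ _ _ => trivial)
    (ok_top isCompact_Sp.isClosed.isLocallyClosed (contOn_phs.comp (by fun_prop) fun v h e => ?_)
      fun _ _ => trivial) (fun θ _ => phs_coe θ) fun v h => ?_) zb_Sp fun _ _ => rfl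
  · simp [mem_Sp, n, c1]
  · have := mem_Sp.1 h
    rw [n, show v 0 = 0 from e] at this
    simp at this
  · have := mem_Sp.1 h
    rw [n] at this
    funext i
    rw [Fin.fin_one_eq_zero i]
    simpa [this, c1] using norm_mul_phs (v 0)

/-- the fundamental class of the circle -/
def dt : H (univ : Set Circle) univ := pull c1 univ univ (sg 0)

theorem top_dt : Top univ 1 dt := (top_of isCompact_univ zb_c1).1

theorem gen_dt : Gen 1 dt := gen_sg.pul zb_c1

theorem dt_span (c : H (univ : Set Circle) univ) : ∃ s t : ℂ, c = s • 1 + t • dt :=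
  (top_of isCompact_univ zb_c1).2 c

theorem okC {Y : Type} [TopologicalSpace Y] {f : X → Y} (hf : Continuous f) (U : Set X) :
    Ok f U univ univ univ := .of_mem (.of_continuous hf _) (fun _ _ => trivial) fun _ _ _ => trivial

theorem cup_oneH (a : H U Z) : cup U Z a (1 : H U univ) = a := cup_one' (subset_univ _) a

/-- the class of a map to the circle -/
def dc (f : X → Circle) (U : Set X) : H U univ := pull f U univ dt

theorem isDeg_dc (f : X → Circle) (U : Set X) : IsDeg 1 (dc f U) := top_dt.deg.pull _ _ _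

theorem pull_dc {Y : Type} [TopologicalSpace Y] {g : Y → X} {U' : Set Y} (o : Ok g U' univ U univ)
    {f : X → Circle} (hf : Continuous f) : pull g U' univ (dc f U) = dc (fun y => f (g y)) U' :=
  pull_pull o (okC hf U) _

theorem dc_const (a : Circle) (U : Set X) : dc (fun _ => a) U = 0 :=
  pull_const (mem_univ a) one_ne_zero top_dt.deg

theorem dc_comm (f g : X → Circle) : dc g U * dc f U = -(dc f U * dc g U) := by
  simpa [mulH] using cup_comm (cupU U univ) (isDeg_dc f U) (isDeg_dc g U)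

theorem dc_sq (f : X → Circle) : dc f U * dc f U = 0 := by
  have := dc_comm (U := U) f f
  rw [eq_neg_iff_add_eq_zero, ← two_smul ℂ] at this
  exact (smul_eq_zero.1 this).resolve_left two_ne_zero

variable [RegularSpace X] [SecondCountableTopology X]

/-- the decomposition of a class on a product with the circle -/
theorem circ_split (t : Circle) (b : H (U ×ˢ (univ : Set Circle)) (Z ×ˢ univ)) :
    b = xp (pull (fun x => (x, t)) U Z b) 1 + xp (sl 1 dt U Z b) dt := by
  have o : Ok (fun x => (x, t)) U Z (U ×ˢ (univ : Set Circle)) (Z ×ˢ univ) :=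
    .of_mem (.of_continuous (by fun_prop) _) (fun _ k => ⟨k, trivial⟩) fun _ _ k => k.1
  have e : ∀ (a : H U Z) (c : H (univ : Set Circle) univ), pull (fun x => (x, t)) U Z (xp a c) =
      cup U Z a (pull (fun _ => t) U univ c) := fun a c => by
    rw [xp, pull_cup' o o (Ok.top o) (fun _ _ k _ => k) (cupU' _ _),
      pull_pull' (F := id) o (ok_fst _ _ _) fun _ _ => rfl, pull_id,
      pull_pull' (F := fun _ => t) (Ok.top o) (ok_snd' _ _) fun _ _ => rfl]
  refine top_dt.ind (P := fun b => b = xp (pull (fun x => (x, t)) U Z b) 1 + xp (sl 1 dt U Z b) dt)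
    (by simp [xp]) (fun b b' k k' => ?_) (fun a => ?_) (fun a p hp c hc => ?_) b
  · rw [map_add, map_add, xp_add, xp_add, add_add_add_comm, ← k, ← k']
  · rw [e, top_dt.sl_top, show pull (fun _ => t) U univ dt = 0 from dc_const t U]
    simp [xp]
  · rw [top_dt.sl_low a hp hc, e]
    rcases (show p < 0 ∨ p = 0 by omega) with h | rfl
    · simp [hc.eq_zero_of_neg h, xp]
    · obtain ⟨s, rfl⟩ := deg0_const isPreconnected_univ hc
      rw [map_smul, pull_oneH (okC continuous_const U), map_smul, cup_oneH, xp_smul, xp_smul']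
      simp [xp]

theorem dc_mul {f g : X → Circle} (hf : Continuous f) (hg : Continuous g) :
    dc (fun x => f x * g x) U = dc f U + dc g U := by
  have key : dc (fun z : Circle × Circle => z.1 * z.2) (univ ×ˢ univ) =
      dc Prod.fst (univ ×ˢ univ) + dc Prod.snd (univ ×ˢ univ) := by
    have m : Continuous fun z : Circle × Circle => z.1 * z.2 := by fun_prop
    have o := okZ (U := (univ : Set Circle)) (C := (univ : Set Circle)) (W := univ) (Z := univ)
      fun _ _ _ => trivial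
    have o1 : Ok (fun x => (x, 1)) univ univ ((univ : Set Circle) ×ˢ (univ : Set Circle)) (univ ×ˢ univ) :=
      .of_mem (.of_continuous (by fun_prop) _) (fun _ _ => ⟨trivial, trivial⟩) fun _ _ _ => trivial
    have o2 : Ok (fun x => (1, x)) univ univ ((univ : Set Circle) ×ˢ (univ : Set Circle)) univ :=
      .of_mem (.of_continuous (by fun_prop) _) (fun _ _ => ⟨trivial, trivial⟩) fun _ _ _ => trivial
    have e := congrArg (pull id (univ ×ˢ univ) univ)
      (circ_split 1 (pull id (univ ×ˢ univ) (univ ×ˢ univ) (dc (fun z : Circle × Circle => z.1 * z.2) (univ ×ˢ univ))))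
    obtain ⟨s, hs⟩ := deg0_const isPreconnected_univ (top_dt.sl_deg (p := 0) (U := univ) (Z := univ)
      (isDeg_dc (fun z : Circle × Circle => z.1 * z.2) (univ ×ˢ univ)))
    rw [sl_resZ, hs, map_add, fgt_xp, fgt_xp, pull_pull' (F := id) (ok_fgt subset_rfl) o fun _ _ => rfl,
      pull_id, pull_pull' (F := fun x => (x, 1)) o1 o fun _ _ => rfl, pull_dc (Ok.top o1) m,
      pull_oneH (ok_snd' _ _), mul_one, map_smul, pull_oneH (ok_fst' _ _), smul_mul_assoc, one_mul] at e
    simp only [mul_one] at e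
    change _ = pull Prod.fst _ univ (pull id _ _ dt) + s • dc Prod.snd _ at e
    rw [pull_id] at e
    change _ = dc Prod.fst _ + _ at e
    have e2 := congrArg (pull (fun x => (1, x)) univ univ) e
    rw [map_add, map_smul, pull_dc o2 m, pull_dc o2 continuous_fst, pull_dc o2 continuous_snd,
      dc_const, zero_add] at e2
    simp only [one_mul] at e2
    change pull id _ _ dt = s • pull id _ _ dt at e2
    rw [pull_id] at e2
    rw [e, ← gen_dt.smul_inj ((one_smul _ _).trans e2), one_smul]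
  have o : Ok (fun x => (f x, g x)) U univ (univ ×ˢ univ) univ :=
    .of_mem (.of_continuous (hf.prodMk hg) _) (fun _ _ => ⟨trivial, trivial⟩) fun _ _ _ => trivial
  have := congrArg (pull (fun x => (f x, g x)) U univ) key
  rwa [map_add, pull_dc o (by fun_prop), pull_dc o continuous_fst, pull_dc o continuous_snd] at this

theorem dc_pow {f : X → Circle} (hf : Continuous f) (k : ℕ) :
    dc (fun x => f x ^ k) U = (k : ℂ) • dc f U := by
  induction k with
  | zero => simp [dc_const]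
  | succ k ih => simp only [pow_succ]; rw [dc_mul (f := fun x => f x ^ k) (hf.pow k) hf, ih, Nat.cast_succ, add_smul, one_smul]

theorem dc_inv {f : X → Circle} (hf : Continuous f) : dc (fun x => (f x)⁻¹) U = -dc f U := by
  rw [eq_neg_iff_add_eq_zero, ← dc_mul (f := fun x => (f x)⁻¹) hf.inv hf]
  simp [dc_const]

/-- the degree of a power -/
theorem pow_orient {k : ℕ} (hk : k ≠ 0) :
    pull (fun v : CM 0 => v ^ k) univ {0} (orient (Fin 1)) = (k : ℂ) • orient (Fin 1) := by
  have c : Continuous fun v : CM 0 => v ^ k := by fun_prop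
  have z : ∀ v : CM 0, v ^ k = 0 → v = 0 := fun v h => funext fun i =>
    (pow_eq_zero_iff hk).1 (congrFun h i)
  have o : Ok (fun v : CM 0 => v ^ k) {0}ᶜ univ {0}ᶜ univ :=
    .of_mem (.of_continuous c _) (fun v h e => h (z v e)) fun _ _ _ => trivial
  have e : pull (fun v : CM 0 => v ^ k) {0}ᶜ univ (sg 0) = (k : ℂ) • sg 0 := zb_c1.bij.1 (by
    rw [pull_pull' (F := c1 ∘ fun θ => θ ^ k) zb_c1.ok o fun θ _ => funext fun _ => by simp [c1],
      ← pull_pull (okC (continuous_pow k) univ) zb_c1.ok, map_smul]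
    exact (dc_pow continuous_id k).trans (congrArg _ (pull_id _)))
  rw [← dlt_sg (m := 0), pull_dlt (.of_continuous c univ) subset_rfl (subset_univ _)
    (.of_mem (.of_continuous c _) (mapsTo_univ _ _) fun v _ => z v) o (fun _ h => h.2)
    (fun _ h => h.2), e, map_smul]

/-- the two-torus -/
abbrev T2 : Type := Circle × Circle

/-- the three-torus -/
abbrev T3 : Type := Circle × Circle × Circle

/-- the fundamental class of the two-torus -/
def w2 : H (univ : Set T2) univ := pull Prod.fst univ univ dt * pull Prod.snd univ univ dt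

/-- the fundamental class of the three-torus -/
def w3 : H (univ : Set T3) univ := pull Prod.fst univ univ dt * pull Prod.snd univ univ w2

theorem top_w2 : Top univ 2 w2 := top_dt.prod top_dt univ_prod_univ.symm

theorem top_w3 : Top univ 3 w3 := top_dt.prod top_w2 univ_prod_univ.symm

theorem pull_w2 {g : X → T2} (hg : Continuous g) :
    pull g U univ w2 = dc (fun x => (g x).1) U * dc (fun x => (g x).2) U := by
  rw [w2, pull_mul (okC hg U)]
  exact congrArg₂ _ (pull_dc (okC hg U) continuous_fst) (pull_dc (okC hg U) continuous_snd)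

theorem pull_w3 {g : X → T3} (hg : Continuous g) : pull g U univ w3 =
    dc (fun x => (g x).1) U * (dc (fun x => (g x).2.1) U * dc (fun x => (g x).2.2) U) := by
  rw [w3, pull_mul (okC hg U), pull_pull (okC hg U) (okC continuous_snd _),
    pull_w2 (continuous_snd.comp hg)]
  exact congrArg₂ _ (pull_dc (okC hg U) continuous_fst) rfl

theorem w2_eq : w2 = dc Prod.fst univ * dc Prod.snd univ := rfl

theorem w3_eq : w3 = dc Prod.fst univ * (dc (·.2.1) univ * dc (·.2.2) univ) := by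
  rw [← pull_id w3, pull_w3 continuous_id]
  rfl

theorem dc_comm' (f g : X → Circle) (a : H U univ) :
    dc g U * (dc f U * a) = -(dc f U * (dc g U * a)) := by
  rw [← mul_assoc, dc_comm, neg_mul, mul_assoc]

theorem dc_sq' (f : X → Circle) (a : H U univ) : dc f U * (dc f U * a) = 0 := by
  rw [← mul_assoc, dc_sq, zero_mul]

theorem deg_sq : pull (fun t : T2 => (t.1 * t.1, t.2 * t.2)) univ univ w2 = (4 : ℂ) • w2 := by
  rw [pull_w2 (by fun_prop), dc_mul continuous_fst continuous_fst, dc_mul continuous_snd continuous_snd,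
    ← two_smul ℂ, ← two_smul ℂ, smul_mul_smul_comm, w2_eq]
  norm_num

theorem deg_tr (a b : Circle) :
    pull (fun t : T2 => (a * t.1, b * t.2)) univ univ w2 = (1 : ℂ) • w2 := by
  rw [pull_w2 (by fun_prop), dc_mul continuous_const continuous_fst,
    dc_mul continuous_const continuous_snd, dc_const, dc_const, zero_add, zero_add, one_smul, w2_eq]

theorem deg_tr3 (a : Circle) :
    pull (fun t : T3 => (a * t.1, a * t.2.1, a * t.2.2)) univ univ w3 = (1 : ℂ) • w3 := by
  rw [pull_w3 (by fun_prop), dc_mul continuous_const continuous_fst,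
    dc_mul continuous_const continuous_snd.fst, dc_mul continuous_const continuous_snd.snd, dc_const,
    zero_add, zero_add, zero_add, one_smul, w3_eq]

theorem deg_shear :
    pull (fun t : T3 => (t.1, t.1 * t.2.1, t.1 * t.2.2)) univ univ w3 = (1 : ℂ) • w3 := by
  rw [pull_w3 (by fun_prop), dc_mul continuous_fst continuous_snd.fst,
    dc_mul continuous_fst continuous_snd.snd, one_smul, w3_eq, add_mul, mul_add (dc _ _), dc_sq', zero_add,
    mul_add, mul_add, dc_comm (fun t : T3 => t.1), mul_neg, dc_sq', neg_zero, zero_add]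

theorem deg_01 : pull (fun t : T3 => (t.2.1, t.1, t.2.2)) univ univ w3 = (-1 : ℂ) • w3 := by
  rw [pull_w3 (by fun_prop), dc_comm', neg_one_smul, w3_eq]

theorem deg_12 : pull (fun t : T3 => (t.1, t.2.2, t.2.1)) univ univ w3 = (-1 : ℂ) • w3 := by
  rw [pull_w3 (by fun_prop), dc_comm, mul_neg, neg_one_smul, w3_eq]

theorem deg_02 : pull (fun t : T3 => (t.2.2, t.2.1, t.1)) univ univ w3 = (-1 : ℂ) • w3 := by
  rw [pull_w3 (by fun_prop), dc_comm (fun t : T3 => t.1), mul_neg, dc_comm' (fun t : T3 => t.1),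
    dc_comm (fun t : T3 => t.2.1), mul_neg, neg_neg, neg_one_smul, w3_eq]

theorem deg_120 : pull (fun t : T3 => (t.2.1, t.2.2, t.1)) univ univ w3 = (1 : ℂ) • w3 := by
  rw [pull_w3 (by fun_prop), dc_comm (fun t : T3 => t.1), mul_neg, dc_comm' (fun t : T3 => t.1),
    neg_neg, one_smul, w3_eq]

theorem deg_201 : pull (fun t : T3 => (t.2.2, t.1, t.2.1)) univ univ w3 = (1 : ℂ) • w3 := by
  rw [pull_w3 (by fun_prop), dc_comm' (fun t : T3 => t.1), dc_comm (fun t : T3 => t.2.1), mul_neg,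
    neg_neg, one_smul, w3_eq]

theorem deg_deg : pull (fun t : T3 => (t.1, 1, t.2.2)) univ univ w3 = (0 : ℂ) • w3 := by
  rw [pull_w3 (by fun_prop), dc_const, zero_mul, mul_zero, zero_smul]

end Pool.Agent.Work.MP_8c604c_gt.OT
end
end
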